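import Pool.Agent.Lib.MP_39c6f6_co.Tutte

/-! # The barrier structure (jobs BARRIER-A, BARRIER-B) -/

set_option autoImplicit false

namespace OneFour

open Finset

variable {V : Type} [Fintype V] [DecidableEq V]

/-- A maximal barrier: a set `A` and the family `D` of the (odd, critical) pieces of the rest. -/
structure Barrier (N : Net V) where
  A : Finset V
  D : Finset (Finset V)
  odd : ∀ K ∈ D, Odd K.card
  disjA : ∀ K ∈ D, Disjoint K A
  disj : ∀ K ∈ D, ∀ L ∈ D, K ≠ L → Disjoint K L
  cover : ∀ v, v ∉ A → ∃ K ∈ D, v ∈ K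
  closed : ∀ K ∈ D, ∀ h : HE V, h.1 ∈ K → (N.σ h).1 ∈ K ∨ (N.σ h).1 ∈ A
  /-- `K` minus any vertex has a perfect matching (given as a set of half-edges). -/
  crit : ∀ K ∈ D, ∀ v ∈ K, ∃ M : Finset (HE V), (∀ h ∈ M, h.1 ∈ K ∧ N.σ h ∈ M) ∧
    ∀ u ∈ K, (M.filter fun h => h.1 = u).card = if u = v then 0 else 1
  card_lt : A.card < D.card
  hall : ∀ X ⊆ A, X.card ≤ (D.filter fun K => ∃ h : HE V, h.1 ∈ X ∧ (N.σ h).1 ∈ K).card


/-! ### The extremal choice -/

/-- The conditions on a pair `(A, D)` without the extremal properties. -/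
structure Pre (N : Net V) (A : Finset V) (D : Finset (Finset V)) : Prop where
  odd : ∀ K ∈ D, Odd K.card
  disjA : ∀ K ∈ D, Disjoint K A
  disj : ∀ K ∈ D, ∀ L ∈ D, K ≠ L → Disjoint K L
  closed : ∀ K ∈ D, ∀ h : HE V, h.1 ∈ K → (N.σ h).1 ∈ K ∨ (N.σ h).1 ∈ A

omit [DecidableEq V] in
/-- There is an extremal pair: the deficiency is largest, and then `A` is largest. -/
theorem Pre.exists_max {N : Net V} {A₀ : Finset V} {D₀ : Finset (Finset V)} (h₀ : Pre N A₀ D₀) :
    ∃ A D, Pre N A D ∧ (∀ A' D', Pre N A' D' → D'.card + A.card ≤ D.card + A'.card) ∧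
      ∀ A' D', Pre N A' D' → D.card + A'.card ≤ D'.card + A.card → A'.card ≤ A.card := by
  classical
  set n := Fintype.card V with hn
  set f : Finset V × Finset (Finset V) → ℤ :=
    fun p => ((p.2.card : ℤ) - p.1.card) * (n + 1) + p.1.card with hf
  obtain ⟨⟨A, D⟩, hm, hmax⟩ := Finset.exists_max_image
    ((univ : Finset (Finset V × Finset (Finset V))).filter fun p => Pre N p.1 p.2) f
    ⟨(A₀, D₀), by simpa using h₀⟩
  have hP : Pre N A D := (mem_filter.1 hm).2
  have hA : (A.card : ℤ) ≤ n := by exact_mod_cast card_le_univ A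
  have key : ∀ A' D', Pre N A' D' → ((D'.card : ℤ) - A'.card) * (n + 1) + A'.card ≤
      ((D.card : ℤ) - A.card) * (n + 1) + A.card := by
    intro A' D' h'
    exact hmax (A', D') (mem_filter.2 ⟨mem_univ _, h'⟩)
  have h1 : ∀ A' D', Pre N A' D' → D'.card + A.card ≤ D.card + A'.card := by
    intro A' D' h'
    have h2 := key A' D' h'
    by_contra hc
    have h3 : (D.card : ℤ) - A.card + 1 ≤ (D'.card : ℤ) - A'.card := by omega
    have h4 : ((D.card : ℤ) - A.card + 1) * (n + 1) ≤ ((D'.card : ℤ) - A'.card) * (n + 1) :=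
      mul_le_mul_of_nonneg_right h3 (by positivity)
    have h5 : (0 : ℤ) ≤ A'.card := by positivity
    nlinarith
  refine ⟨A, D, hP, h1, ?_⟩
  intro A' D' h' h6
  have h2 := key A' D' h'
  have h7 : (D'.card : ℤ) - A'.card = (D.card : ℤ) - A.card := by
    have := h1 A' D' h'
    omega
  rw [h7] at h2
  have : (A'.card : ℤ) ≤ A.card := by linarith
  exact_mod_cast this

/-- A perfect matching gives a solution. -/
theorem Net.solvable_of_matching (N : Net V)
    (h : ∃ M : Finset (HE V), (∀ h ∈ M, h.1 ∈ (univ : Finset V) ∧ N.σ h ∈ M) ∧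
      ∀ u ∈ (univ : Finset V), (M.filter fun h => h.1 = u).card = 1) : N.Solvable := by
  classical
  obtain ⟨M, h1, h2⟩ := h
  refine ⟨fun h => decide (h ∈ M), fun h => ?_, fun v => Or.inl ?_⟩
  · have : N.σ h ∈ M ↔ h ∈ M := by
      constructor
      · intro h3
        have := (h1 _ h3).2
        rwa [N.invol] at this
      · exact fun h3 => (h1 _ h3).2
    simp only [this]
  · rw [← h2 v (mem_univ v)]
    unfold deg
    refine card_bij (fun i _ => (v, i)) ?_ ?_ ?_
    · intro i hi
      rw [mem_filter] at hi ⊢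
      exact ⟨by simpa using hi.2, rfl⟩
    · intro i _ j _ hij
      exact (Prod.ext_iff.1 hij).2
    · rintro ⟨w, i⟩ hb
      rw [mem_filter] at hb
      obtain ⟨hb1, rfl⟩ := hb
      exact ⟨i, by simpa using hb1, rfl⟩

omit [Fintype V] in
/-- The union of the pieces. -/
theorem mem_sup_id {D : Finset (Finset V)} {v : V} : v ∈ D.sup id ↔ ∃ K ∈ D, v ∈ K := by
  rw [Finset.mem_sup]
  rfl

omit [Fintype V] in
theorem card_sup_odd {D : Finset (Finset V)} (hodd : ∀ K ∈ D, Odd K.card)
    (hdisj : ∀ K ∈ D, ∀ L ∈ D, K ≠ L → Disjoint K L) : (D.sup id).card % 2 = D.card % 2 := by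
  classical
  induction D using Finset.induction_on with
  | empty => simp
  | @insert K D hK ih =>
    rw [Finset.sup_insert, card_insert_of_notMem hK]
    have h1 : Disjoint (id K) (D.sup id) := by
      rw [Finset.disjoint_left]
      intro v hv hv'
      obtain ⟨L, hL, hvL⟩ := mem_sup_id.1 hv'
      have := hdisj K (mem_insert_self _ _) L (mem_insert_of_mem hL) (fun e => hK (e ▸ hL))
      exact Finset.disjoint_left.1 this hv hvL
    have h2 : (id K ⊔ D.sup id).card = (id K).card + (D.sup id).card := card_union_of_disjoint h1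
    rw [h2]
    have h3 := ih (fun L hL => hodd L (mem_insert_of_mem hL))
      (fun L hL L' hL' => hdisj L (mem_insert_of_mem hL) L' (mem_insert_of_mem hL'))
    obtain ⟨m, hm⟩ := hodd K (mem_insert_self _ _)
    have h4 : (id K).card = K.card := rfl
    omega

section extremal

variable {N : Net V} {A : Finset V} {D : Finset (Finset V)}

omit [Fintype V] in
theorem Pre.rest_closed (hP : Pre N A D) {h : HE V} (h1 : h.1 ∉ A) (h2 : h.1 ∉ D.sup id) :
    (N.σ h).1 ∉ D.sup id := by
  intro h3
  obtain ⟨K, hK, h4⟩ := mem_sup_id.1 h3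
  have h5 := hP.closed K hK (N.σ h) h4
  rw [N.invol] at h5
  rcases h5 with h5 | h5
  · exact h2 (mem_sup_id.2 ⟨K, hK, h5⟩)
  · exact h1 h5

theorem Pre.cover (hP : Pre N A D)
    (h1 : ∀ A' D', Pre N A' D' → D'.card + A.card ≤ D.card + A'.card)
    (h2 : ∀ A' D', Pre N A' D' → D.card + A'.card ≤ D'.card + A.card → A'.card ≤ A.card)
    (v : V) (hv : v ∉ A) : ∃ K ∈ D, v ∈ K := by
  classical
  rw [← mem_sup_id]
  by_contra hvD
  set C : Finset V := univ \ (A ∪ D.sup id) with hC
  have memC : ∀ u, u ∈ C ↔ u ∉ A ∧ u ∉ D.sup id := by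
    intro u
    rw [hC, mem_sdiff, mem_union, not_or]
    exact ⟨fun h => h.2, fun h => ⟨mem_univ _, h⟩⟩
  have hvC : v ∈ C := (memC v).2 ⟨hv, hvD⟩
  have hCD : ∀ K ∈ D, Disjoint K C := by
    intro K hK
    rw [Finset.disjoint_left]
    intro u hu hu'
    exact ((memC u).1 hu').2 (mem_sup_id.2 ⟨K, hK, hu⟩)
  have hclosed : ∀ h : HE V, h.1 ∈ C → (N.σ h).1 ∈ C ∨ (N.σ h).1 ∈ A := by
    intro h hh
    by_cases hA : (N.σ h).1 ∈ A
    · exact Or.inr hA
    · exact Or.inl ((memC _).2 ⟨hA, hP.rest_closed ((memC _).1 hh).1 ((memC _).1 hh).2⟩)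
  by_cases hodd : Odd C.card
  · -- add `C` to the family
    have hnot : C ∉ D := fun h => by
      have := hCD C h
      rw [disjoint_self_iff_empty] at this
      rw [this] at hvC
      exact absurd hvC (notMem_empty v)
    have hP' : Pre N A (insert C D) := by
      refine ⟨?_, ?_, ?_, ?_⟩
      · intro K hK
        rcases mem_insert.1 hK with rfl | hK
        · exact hodd
        · exact hP.odd K hK
      · intro K hK
        rcases mem_insert.1 hK with rfl | hK
        · rw [Finset.disjoint_left]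
          exact fun u hu => ((memC u).1 hu).1
        · exact hP.disjA K hK
      · intro K hK L hL hne
        rcases mem_insert.1 hK with hK1 | hK1 <;> rcases mem_insert.1 hL with hL1 | hL1
        · exact absurd (hK1.trans hL1.symm) hne
        · rw [hK1]
          exact (hCD L hL1).symm
        · rw [hL1]
          exact hCD K hK1
        · exact hP.disj K hK1 L hL1 hne
      · intro K hK
        rcases mem_insert.1 hK with rfl | hK
        · exact hclosed
        · exact hP.closed K hK
    have := h1 _ _ hP'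
    rw [card_insert_of_notMem hnot] at this
    omega
  · -- move `v` to `A`
    have heven : C.card % 2 = 0 := by
      rwa [Nat.not_odd_iff] at hodd
    have hpos : 0 < C.card := card_pos.2 ⟨v, hvC⟩
    have hce : (C.erase v).card = C.card - 1 := card_erase_of_mem hvC
    have hnot : C.erase v ∉ D := fun h => by
      have h3 := hCD _ h
      have h4 : Disjoint (C.erase v) (C.erase v) := h3.mono_right (erase_subset _ _)
      rw [disjoint_self_iff_empty] at h4
      rw [h4, card_empty] at hce
      omega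
    have hP' : Pre N (insert v A) (insert (C.erase v) D) := by
      refine ⟨?_, ?_, ?_, ?_⟩
      · intro K hK
        rcases mem_insert.1 hK with rfl | hK
        · rw [Nat.odd_iff]
          omega
        · exact hP.odd K hK
      · intro K hK
        rcases mem_insert.1 hK with rfl | hK
        · rw [Finset.disjoint_left]
          intro u hu hu'
          rcases mem_insert.1 hu' with rfl | hu'
          · exact notMem_erase _ _ hu
          · exact ((memC u).1 (mem_of_mem_erase hu)).1 hu'
        · rw [Finset.disjoint_left]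
          intro u hu hu'
          rcases mem_insert.1 hu' with he | hu'
          · rw [he] at hu
            exact Finset.disjoint_left.1 (hCD K hK) hu hvC
          · exact Finset.disjoint_left.1 (hP.disjA K hK) hu hu'
      · intro K hK L hL hne
        rcases mem_insert.1 hK with hK1 | hK1 <;> rcases mem_insert.1 hL with hL1 | hL1
        · exact absurd (hK1.trans hL1.symm) hne
        · rw [hK1]
          exact ((hCD L hL1).mono_right (erase_subset _ _)).symm
        · rw [hL1]
          exact (hCD K hK1).mono_right (erase_subset _ _)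
        · exact hP.disj K hK1 L hL1 hne
      · intro K hK h hh
        rcases mem_insert.1 hK with rfl | hK
        · by_cases hv' : (N.σ h).1 = v
          · exact Or.inr (by rw [hv']; exact mem_insert_self _ _)
          · rcases hclosed h (mem_of_mem_erase hh) with h3 | h3
            · exact Or.inl (mem_erase.2 ⟨hv', h3⟩)
            · exact Or.inr (mem_insert_of_mem h3)
        · rcases hP.closed K hK h hh with h3 | h3
          · exact Or.inl h3
          · exact Or.inr (mem_insert_of_mem h3)
    have h3 := h2 _ _ hP' (by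
      rw [card_insert_of_notMem hnot, card_insert_of_notMem hv]
      omega)
    rw [card_insert_of_notMem hv] at h3
    omega

/-- Among the odd closed sets of `K - v` there are at least `|T| + 2`. -/
theorem two_more (N : Net V) {S T : Finset V} (hS : S.card % 2 = 0) (hT : T ⊆ S)
    {C : Finset (Finset V)} (hc : T.card < C.card) (hsub : ∀ K ∈ C, K ⊆ S \ T)
    (hodd : ∀ K ∈ C, Odd K.card) (hdisj : ∀ K ∈ C, ∀ L ∈ C, K ≠ L → Disjoint K L)
    (hcl : ∀ K ∈ C, ∀ h : HE V, h.1 ∈ K → (N.σ h).1 ∈ S \ T → (N.σ h).1 ∈ K) :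
    ∃ C : Finset (Finset V), T.card + 2 ≤ C.card ∧ (∀ K ∈ C, K ⊆ S \ T) ∧
      (∀ K ∈ C, Odd K.card) ∧ (∀ K ∈ C, ∀ L ∈ C, K ≠ L → Disjoint K L) ∧
      ∀ K ∈ C, ∀ h : HE V, h.1 ∈ K → (N.σ h).1 ∈ S \ T → (N.σ h).1 ∈ K := by
  classical
  by_cases h2 : T.card + 2 ≤ C.card
  · exact ⟨C, h2, hsub, hodd, hdisj, hcl⟩
  have h3 : C.card = T.card + 1 := by omega
  set R : Finset V := (S \ T) \ C.sup id with hR
  have hCsub : C.sup id ⊆ S \ T := by
    intro u hu
    obtain ⟨K, hK, huK⟩ := mem_sup_id.1 hu
    exact hsub K hK huK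
  have e1 : R.card + (C.sup id).card = (S \ T).card := card_sdiff_add_card_eq_card hCsub
  have e2 : (S \ T).card + T.card = S.card := card_sdiff_add_card_eq_card hT
  have e3 := card_sup_odd hodd hdisj
  have hRodd : Odd R.card := by
    rw [Nat.odd_iff]
    omega
  have hRC : ∀ K ∈ C, Disjoint K R := by
    intro K hK
    rw [Finset.disjoint_left]
    intro u hu hu'
    rw [hR, mem_sdiff] at hu'
    exact hu'.2 (mem_sup_id.2 ⟨K, hK, hu⟩)
  have hRpos : R.Nonempty := by
    rw [← card_pos]
    exact hRodd.pos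
  have hnot : R ∉ C := fun h => by
    have := hRC R h
    rw [disjoint_self_iff_empty] at this
    rw [this] at hRpos
    exact absurd hRpos not_nonempty_empty
  refine ⟨insert R C, by rw [card_insert_of_notMem hnot]; omega, ?_, ?_, ?_, ?_⟩
  · intro K hK
    rcases mem_insert.1 hK with rfl | hK
    · exact sdiff_subset
    · exact hsub K hK
  · intro K hK
    rcases mem_insert.1 hK with rfl | hK
    · exact hRodd
    · exact hodd K hK
  · intro K hK L hL hne
    rcases mem_insert.1 hK with hK1 | hK1 <;> rcases mem_insert.1 hL with hL1 | hL1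
    · exact absurd (hK1.trans hL1.symm) hne
    · rw [hK1]
      exact (hRC L hL1).symm
    · rw [hL1]
      exact hRC K hK1
    · exact hdisj K hK1 L hL1 hne
  · intro K hK h hh hs
    rcases mem_insert.1 hK with rfl | hK
    · rw [hR, mem_sdiff] at hh ⊢
      refine ⟨hs, fun h4 => hh.2 ?_⟩
      obtain ⟨L, hL, h5⟩ := mem_sup_id.1 h4
      refine mem_sup_id.2 ⟨L, hL, ?_⟩
      have := hcl L hL (N.σ h) h5
      rw [N.invol] at this
      exact this hh.1
    · exact hcl K hK h hh hs

theorem Pre.crit (hP : Pre N A D)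
    (h2 : ∀ A' D', Pre N A' D' → D.card + A'.card ≤ D'.card + A.card → A'.card ≤ A.card)
    (K : Finset V) (hK : K ∈ D) (v : V) (hv : v ∈ K) :
    ∃ M : Finset (HE V), (∀ h ∈ M, h.1 ∈ K ∧ N.σ h ∈ M) ∧
    ∀ u ∈ K, (M.filter fun h => h.1 = u).card = if u = v then 0 else 1 := by
  classical
  by_cases hm : ∃ M : Finset (HE V), (∀ h ∈ M, h.1 ∈ K.erase v ∧ N.σ h ∈ M) ∧
      ∀ u ∈ K.erase v, (M.filter fun h => h.1 = u).card = 1
  · obtain ⟨M, hM1, hM2⟩ := hm
    refine ⟨M, fun h hh => ⟨mem_of_mem_erase (hM1 h hh).1, (hM1 h hh).2⟩, fun u hu => ?_⟩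
    split_ifs with he
    · subst he
      rw [card_eq_zero, filter_eq_empty_iff]
      intro h hh h3
      have := (hM1 h hh).1
      rw [h3] at this
      exact notMem_erase _ _ this
    · exact hM2 u (mem_erase.2 ⟨he, hu⟩)
  exfalso
  obtain ⟨T, hT, C₀, hc₀, hsub₀, hodd₀, hdisj₀, hcl₀⟩ := N.tutte (K.erase v) hm
  have hKe : (K.erase v).card % 2 = 0 := by
    rw [card_erase_of_mem hv]
    obtain ⟨m, hm⟩ := hP.odd K hK
    omega
  obtain ⟨C, hc, hsub, hodd, hdisj, hcl⟩ := two_more N hKe hT hc₀ hsub₀ hodd₀ hdisj₀ hcl₀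
  have hKA := hP.disjA K hK
  have hTK : T ⊆ K := hT.trans (erase_subset _ _)
  have hvT : v ∉ T := fun h => notMem_erase _ _ (hT h)
  have hLK : ∀ L ∈ C, L ⊆ K := fun L hL =>
    (hsub L hL).trans (sdiff_subset.trans (erase_subset _ _))
  have hA' : (A ∪ insert v T).card = A.card + (T.card + 1) := by
    rw [card_union_of_disjoint, card_insert_of_notMem hvT]
    rw [Finset.disjoint_left]
    intro u hu hu'
    have : u ∈ K := by
      rcases mem_insert.1 hu' with rfl | hu'
      · exact hv
      · exact hTK hu'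
    exact Finset.disjoint_left.1 hKA this hu
  have hdisj2 : Disjoint (D.erase K) C := by
    rw [Finset.disjoint_left]
    intro L hL hL'
    have h3 := hP.disj K hK L (mem_of_mem_erase hL) (fun e => (mem_erase.1 hL).1 e.symm)
    have h4 : Disjoint L L := h3.mono_left (hLK L hL')
    rw [disjoint_self_iff_empty] at h4
    have h5 := (hodd L hL').pos
    rw [h4, card_empty] at h5
    omega
  have hD' : (D.erase K ∪ C).card = D.card - 1 + C.card := by
    rw [card_union_of_disjoint hdisj2, card_erase_of_mem hK]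
  have hDpos : 0 < D.card := card_pos.2 ⟨K, hK⟩
  have hP' : Pre N (A ∪ insert v T) (D.erase K ∪ C) := by
    refine ⟨?_, ?_, ?_, ?_⟩
    · intro L hL
      rcases mem_union.1 hL with hL | hL
      · exact hP.odd L (mem_of_mem_erase hL)
      · exact hodd L hL
    · intro L hL
      rw [Finset.disjoint_left]
      intro u hu hu'
      rcases mem_union.1 hL with hL | hL
      · rcases mem_union.1 hu' with hu' | hu'
        · exact Finset.disjoint_left.1 (hP.disjA L (mem_of_mem_erase hL)) hu hu'
        · have : u ∈ K := by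
            rcases mem_insert.1 hu' with rfl | hu'
            · exact hv
            · exact hTK hu'
          have h3 := hP.disj K hK L (mem_of_mem_erase hL) (fun e => (mem_erase.1 hL).1 e.symm)
          exact Finset.disjoint_left.1 h3 this hu
      · rcases mem_union.1 hu' with hu' | hu'
        · exact Finset.disjoint_left.1 hKA (hLK L hL hu) hu'
        · have h3 := mem_sdiff.1 (hsub L hL hu)
          rcases mem_insert.1 hu' with rfl | hu'
          · exact notMem_erase _ _ h3.1
          · exact h3.2 hu'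
    · intro L hL M hM hne
      rcases mem_union.1 hL with hL | hL <;> rcases mem_union.1 hM with hM | hM
      · exact hP.disj L (mem_of_mem_erase hL) M (mem_of_mem_erase hM) hne
      · have h3 := hP.disj K hK L (mem_of_mem_erase hL) (fun e => (mem_erase.1 hL).1 e.symm)
        exact (h3.mono_left (hLK M hM)).symm
      · have h3 := hP.disj K hK M (mem_of_mem_erase hM) (fun e => (mem_erase.1 hM).1 e.symm)
        exact h3.mono_left (hLK L hL)
      · exact hdisj L hL M hM hne
    · intro L hL h hh
      rcases mem_union.1 hL with hL | hL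
      · rcases hP.closed L (mem_of_mem_erase hL) h hh with h3 | h3
        · exact Or.inl h3
        · exact Or.inr (mem_union_left _ h3)
      · rcases hP.closed K hK h (hLK L hL hh) with h3 | h3
        · by_cases h4 : (N.σ h).1 ∈ insert v T
          · exact Or.inr (mem_union_right _ h4)
          · rw [mem_insert, not_or] at h4
            exact Or.inl (hcl L hL h hh (mem_sdiff.2 ⟨mem_erase.2 ⟨h4.1, h3⟩, h4.2⟩))
        · exact Or.inr (mem_union_left _ h3)
  have h3 := h2 _ _ hP' (by rw [hA', hD']; omega)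
  rw [hA'] at h3
  omega

theorem Pre.hall (hP : Pre N A D)
    (h1 : ∀ A' D', Pre N A' D' → D'.card + A.card ≤ D.card + A'.card) (X : Finset V)
    (hX : X ⊆ A) :
    X.card ≤ (D.filter fun K => ∃ h : HE V, h.1 ∈ X ∧ (N.σ h).1 ∈ K).card := by
  classical
  have hP' : Pre N (A \ X) (D.filter fun K => ¬ ∃ h : HE V, h.1 ∈ X ∧ (N.σ h).1 ∈ K) := by
    refine ⟨?_, ?_, ?_, ?_⟩
    · intro K hK
      exact hP.odd K (mem_filter.1 hK).1
    · intro K hK
      exact (hP.disjA K (mem_filter.1 hK).1).mono_right sdiff_subset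
    · intro K hK L hL hne
      exact hP.disj K (mem_filter.1 hK).1 L (mem_filter.1 hL).1 hne
    · intro K hK h hh
      obtain ⟨hK1, hK2⟩ := mem_filter.1 hK
      rcases hP.closed K hK1 h hh with h3 | h3
      · exact Or.inl h3
      · refine Or.inr (mem_sdiff.2 ⟨h3, fun h4 => hK2 ⟨N.σ h, h4, ?_⟩⟩)
        rwa [N.invol]
  have h3 := h1 _ _ hP'
  have h4 := card_filter_add_card_filter_not (s := D)
    (fun K => ∃ h : HE V, h.1 ∈ X ∧ (N.σ h).1 ∈ K)
  have h5 : (A \ X).card + X.card = A.card := card_sdiff_add_card_eq_card hX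
  omega

end extremal

/-- Existence of the barrier of an unsolvable net. (job BARRIER-B) -/
theorem exists_barrier (N : Net V) (hN : ¬ N.Solvable) : Nonempty (Barrier N) := by
  classical
  obtain ⟨T, -, C, hc, hsub, hodd, hdisj, hcl⟩ :=
    N.tutte univ (fun h => hN (N.solvable_of_matching h))
  have hP₀ : Pre N T C := by
    refine ⟨hodd, ?_, hdisj, ?_⟩
    · intro K hK
      rw [Finset.disjoint_left]
      exact fun u hu => (mem_sdiff.1 (hsub K hK hu)).2
    · intro K hK h hh
      by_cases hT : (N.σ h).1 ∈ T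
      · exact Or.inr hT
      · exact Or.inl (hcl K hK h hh (mem_sdiff.2 ⟨mem_univ _, hT⟩))
  obtain ⟨A, D, hP, h1, h2⟩ := hP₀.exists_max
  refine ⟨⟨A, D, hP.odd, hP.disjA, hP.disj, hP.cover h1 h2, hP.closed, hP.crit h2, ?_,
    hP.hall h1⟩⟩
  have := h1 _ _ hP₀
  omega

end OneFour
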