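import Pool.Agent.Lib.MP_39c6f6_co.Defs

/-! # Basic facts on nets: complement, parity, replacement lemma -/

set_option autoImplicit false

namespace OneFour

open Finset

theorem deg_not {V : Type} (x : HE V → Bool) (v : V) : deg x v + deg (fun h => !x h) v = 5 := by
  have h := card_filter_add_card_filter_not (s := (univ : Finset (Fin 5)))
    (fun i : Fin 5 => x (v, i) = true)
  rw [card_univ, Fintype.card_fin] at h
  rw [deg, deg]
  refine Eq.trans ?_ h
  congr 2
  ext i
  simp

/-- Complementing a labelling preserves goodness at a vertex. -/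
theorem vok_not {V : Type} {x : HE V → Bool} {v : V} (h : vok x v) : vok (fun h => !x h) v := by
  have h1 := deg_not x v
  rcases h with h | h
  · right; omega
  · left; omega

theorem deg_congr {V : Type} {x y : HE V → Bool} {v : V} (h : ∀ i, x (v, i) = y (v, i)) :
    deg x v = deg y v := by
  rw [deg, deg]
  congr 1
  ext i
  simp [h i]

/-- `vok` depends only on the values at `v`. -/
theorem vok_congr {V : Type} {x y : HE V → Bool} {v : V} (h : ∀ i, x (v, i) = y (v, i)) :
    vok x v ↔ vok y v := by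
  rw [vok, vok, deg_congr h]

variable {V : Type} [Fintype V] [DecidableEq V]

theorem Net.mem_bd {N : Net V} {S : Finset V} {h : HE V} :
    h ∈ N.bd S ↔ h.1 ∉ S ∧ (N.σ h).1 ∈ S := by
  simp [Net.bd]

theorem Net.bd_compl_card (N : Net V) (S : Finset V) : (N.bd Sᶜ).card = (N.bd S).card := by
  refine card_nbij' N.σ N.σ ?_ ?_ ?_ ?_
  · intro h hh
    rw [mem_coe, Net.mem_bd, mem_compl, not_not, mem_compl] at hh
    rw [mem_coe, Net.mem_bd, N.invol]
    exact ⟨hh.2, hh.1⟩
  · intro h hh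
    rw [mem_coe, Net.mem_bd] at hh
    rw [mem_coe, Net.mem_bd, mem_compl, not_not, mem_compl, N.invol]
    exact ⟨hh.2, hh.1⟩
  · intro h _
    exact N.invol h
  · intro h _
    exact N.invol h

/-- `Real` depends only on the values of the pattern on the boundary. -/
theorem Net.Real.congr {N : Net V} {S : Finset V} {p q : HE V → Bool} (h : N.Real S p)
    (hpq : ∀ b ∈ N.bd S, p b = q b) : N.Real S q := by
  obtain ⟨y, h1, h2, h3⟩ := h
  exact ⟨y, h1, h2, fun b hb => (h3 b hb).trans (hpq b hb)⟩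

theorem Net.Real.compl {N : Net V} {S : Finset V} {p : HE V → Bool} (h : N.Real S p) :
    N.Real S (fun b => !p b) := by
  obtain ⟨y, h1, h2, h3⟩ := h
  exact ⟨fun h => !y h, fun v hv => vok_not (h1 v hv), fun h ha hb => congrArg _ (h2 h ha hb),
    fun b hb => congrArg _ (h3 b hb)⟩

/-- Gluing a labelling outside `S` with a realisation inside `S`. -/
theorem Net.solvable_of_real {N : Net V} {S : Finset V} {x : HE V → Bool}
    (h1 : ∀ v ∉ S, vok x v) (h2 : ∀ h : HE V, h.1 ∉ S → (N.σ h).1 ∉ S → x (N.σ h) = x h)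
    (h3 : N.Real S x) : N.Solvable := by
  obtain ⟨y, y1, y2, y3⟩ := h3
  refine ⟨fun h => if h.1 ∈ S then y h else x h, fun h => ?_, fun v => ?_⟩
  · by_cases ha : h.1 ∈ S <;> by_cases hb : (N.σ h).1 ∈ S
    · simp only [ha, hb, if_true]
      exact y2 h ha hb
    · simp only [ha, hb, if_true, if_false]
      have := y3 (N.σ h) (Net.mem_bd.2 ⟨hb, by rwa [N.invol]⟩)
      rw [N.invol] at this
      exact this.symm
    · simp only [ha, hb, if_true, if_false]
      exact y3 h (Net.mem_bd.2 ⟨ha, hb⟩)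
    · simp only [ha, hb, if_false]
      exact h2 h ha hb
  · by_cases hv : v ∈ S
    · refine (vok_congr fun i => ?_).2 (y1 v hv)
      simp [hv]
    · refine (vok_congr fun i => ?_).2 (h1 v hv)
      simp [hv]

/-- Two-sided version. -/
theorem Net.solvable_of_real_real {N : Net V} {S : Finset V} {p : HE V → Bool}
    (h1 : N.Real S p) (h2 : N.Real Sᶜ (fun h => p (N.σ h))) : N.Solvable := by
  obtain ⟨y, y1, y2, y3⟩ := h2
  refine Net.solvable_of_real (S := S) (x := y) (fun v hv => y1 v (mem_compl.2 hv))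
    (fun h ha hb => y2 h (mem_compl.2 ha) (mem_compl.2 hb)) (h1.congr fun b hb => ?_)
  rw [Net.mem_bd] at hb
  have := y3 (N.σ b) (Net.mem_bd.2 ⟨by rw [mem_compl, not_not]; exact hb.2,
    by rw [N.invol]; exact mem_compl.2 hb.1⟩)
  simp only [N.invol] at this
  exact this.symm

/-- Parity: the size of a cut has the parity of the vertex set. -/
theorem Net.bd_card_mod_two (N : Net V) (S : Finset V) : (N.bd S).card % 2 = S.card % 2 := by
  -- the half-edges at `S`
  have h1 : (S ×ˢ (univ : Finset (Fin 5))).card = S.card * 5 := by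
    rw [card_product, card_univ, Fintype.card_fin]
  have h2 : ((S ×ˢ (univ : Finset (Fin 5))).filter fun h => (N.σ h).1 ∈ S).card +
      ((S ×ˢ (univ : Finset (Fin 5))).filter fun h => ¬ (N.σ h).1 ∈ S).card = S.card * 5 := by
    rw [card_filter_add_card_filter_not, h1]
  have h3 : ((S ×ˢ (univ : Finset (Fin 5))).filter fun h => ¬ (N.σ h).1 ∈ S) = N.bd Sᶜ := by
    ext h
    rw [mem_filter, mem_product, Net.mem_bd, mem_compl, mem_compl, not_not]
    simp
  rw [h3, Net.bd_compl_card] at h2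
  have h4 : (((S ×ˢ (univ : Finset (Fin 5))).filter fun h => (N.σ h).1 ∈ S).card : ZMod 2) = 0 := by
    rw [card_eq_sum_ones, Nat.cast_sum]
    refine sum_involution (fun h _ => N.σ h) ?_ ?_ ?_ ?_
    · intro h _
      decide
    · intro h _ _
      exact N.ne h
    · intro h hh
      rw [mem_filter, mem_product] at hh ⊢
      refine ⟨⟨hh.2, mem_univ _⟩, ?_⟩
      rw [N.invol]
      exact hh.1.1
    · intro h _
      exact N.invol h
  rw [ZMod.natCast_eq_zero_iff] at h4
  omega

/-- The half-edges of the net obtained by replacing `S` by `S'`. -/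
def replEquiv (N : Net V) (S : Finset V) (S' : Type) :
    HE ({v // v ∉ S} ⊕ S') ≃
      ({b // b ∈ N.bd S} ⊕ HE S') ⊕ {h : HE V // h.1 ∉ S ∧ (N.σ h).1 ∉ S} where
  toFun h := match h with
    | (Sum.inl v, i) =>
      if hb : (N.σ (v.1, i)).1 ∈ S then
        Sum.inl (Sum.inl ⟨(v.1, i), Net.mem_bd.2 ⟨v.2, hb⟩⟩)
      else Sum.inr ⟨(v.1, i), v.2, hb⟩
    | (Sum.inr w, j) => Sum.inl (Sum.inr (w, j))
  invFun z := match z with
    | Sum.inl (Sum.inl b) => (Sum.inl ⟨b.1.1, (Net.mem_bd.1 b.2).1⟩, b.1.2)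
    | Sum.inl (Sum.inr w) => (Sum.inr w.1, w.2)
    | Sum.inr h => (Sum.inl ⟨h.1.1, h.2.1⟩, h.1.2)
  left_inv := by
    rintro ⟨v | w, i⟩
    · by_cases hb : (N.σ (v.1, i)).1 ∈ S
      · simp [hb]
      · simp [hb]
    · rfl
  right_inv := by
    rintro ((b | w) | h)
    · have hb := (Net.mem_bd.1 b.2).2
      obtain ⟨⟨v, i⟩, hb'⟩ := b
      simp only at hb ⊢
      rw [dif_pos hb]
    · rfl
    · obtain ⟨⟨v, i⟩, h1, h2⟩ := h
      simp only at h2 ⊢
      rw [dif_neg h2]

/-- The involution of the new net, on the three kinds of half-edges. -/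
def replMap (N : Net V) (S : Finset V) {S' : Type}
    (τ : {b // b ∈ N.bd S} ⊕ HE S' → {b // b ∈ N.bd S} ⊕ HE S') :
    ({b // b ∈ N.bd S} ⊕ HE S') ⊕ {h : HE V // h.1 ∉ S ∧ (N.σ h).1 ∉ S} →
      ({b // b ∈ N.bd S} ⊕ HE S') ⊕ {h : HE V // h.1 ∉ S ∧ (N.σ h).1 ∉ S}
  | Sum.inl z => Sum.inl (τ z)
  | Sum.inr h => Sum.inr ⟨N.σ h.1, h.2.2, by rw [N.invol]; exact h.2.1⟩

/-- The new net. -/
def replNet (N : Net V) (S : Finset V) {S' : Type}
    (τ : {b // b ∈ N.bd S} ⊕ HE S' → {b // b ∈ N.bd S} ⊕ HE S')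
    (hτ : ∀ z, τ (τ z) = z) (hτ' : ∀ z, τ z ≠ z) : Net ({v // v ∉ S} ⊕ S') where
  σ h := (replEquiv N S S').symm (replMap N S τ (replEquiv N S S' h))
  invol h := by
    rw [Equiv.apply_symm_apply, Equiv.symm_apply_eq]
    rcases replEquiv N S S' h with z | g
    · simp [replMap, hτ]
    · simp [replMap, N.invol]
  ne h := by
    rw [Ne, Equiv.symm_apply_eq]
    rcases replEquiv N S S' h with z | g
    · simp [replMap, hτ']
    · rw [replMap, Sum.inr.injEq, Subtype.ext_iff]
      exact N.ne _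

/-- **Replacement lemma.** Replace the part `S` of a minimal counterexample by a smaller piece:
`S'` is the new vertex set and `τ` the new pairing of the boundary half-edges and the half-edges
of `S'`. -/
theorem MinCx.replace {N : Net V} (hN : MinCx N) (S : Finset V) {S' : Type} [Fintype S']
    (hc : Fintype.card S' < S.card)
    (τ : {b // b ∈ N.bd S} ⊕ HE S' → {b // b ∈ N.bd S} ⊕ HE S')
    (hτ : ∀ z, τ (τ z) = z) (hτ' : ∀ z, τ z ≠ z) :
    ∃ (x : HE V → Bool) (y : HE S' → Bool), (∀ v ∉ S, vok x v) ∧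
      (∀ h : HE V, h.1 ∉ S → (N.σ h).1 ∉ S → x (N.σ h) = x h) ∧ (∀ w, vok y w) ∧
      ∀ z, Sum.elim (fun b : {b // b ∈ N.bd S} => x b.1) y (τ z) =
        Sum.elim (fun b : {b // b ∈ N.bd S} => x b.1) y z := by
  have hcard : Fintype.card ({v // v ∉ S} ⊕ S') < Fintype.card V := by
    rw [Fintype.card_sum, Fintype.card_subtype]
    have h1 : (univ.filter fun v => v ∉ S) = Sᶜ := by ext v; simp
    rw [h1, card_compl]
    have := card_le_univ S
    omega
  obtain ⟨x', hx1, hx2⟩ := hN.smaller _ (replNet N S τ hτ hτ') hcard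
  -- values of `x'` after the equivalence
  have hx3 : ∀ z, x' ((replEquiv N S S').symm (replMap N S τ z)) =
      x' ((replEquiv N S S').symm z) := by
    intro z
    have := hx1 ((replEquiv N S S').symm z)
    simp only [replNet, Equiv.apply_symm_apply] at this
    exact this
  set x : HE V → Bool := fun h => if hh : h.1 ∉ S then x' (Sum.inl ⟨h.1, hh⟩, h.2) else false
    with hx
  have hxv : ∀ (h : HE V) (hh : h.1 ∉ S), x h = x' (Sum.inl ⟨h.1, hh⟩, h.2) := by
    intro h hh
    rw [hx]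
    exact dif_pos hh
  have key : ∀ z : {b // b ∈ N.bd S} ⊕ HE S',
      Sum.elim (fun b : {b // b ∈ N.bd S} => x b.1) (fun h => x' (Sum.inr h.1, h.2)) z =
        x' ((replEquiv N S S').symm (Sum.inl z)) := by
    rintro (b | w)
    · exact hxv b.1 (Net.mem_bd.1 b.2).1
    · rfl
  refine ⟨x, fun h => x' (Sum.inr h.1, h.2), fun v hv => ?_, fun h ha hb => ?_, fun w => ?_,
    fun z => ?_⟩
  · have h2 := hx2 (Sum.inl ⟨v, hv⟩)
    have h3 : deg x v = deg x' (Sum.inl ⟨v, hv⟩) := by
      rw [deg, deg]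
      congr 1
      ext i
      simp only [mem_filter, mem_univ, true_and]
      rw [hxv (v, i) hv]
    rw [vok, h3]
    exact h2
  · rw [hxv h ha, hxv _ hb]
    exact hx3 (Sum.inr ⟨h, ha, hb⟩)
  · exact hx2 (Sum.inr w)
  · rw [key, key]
    exact hx3 (Sum.inl z)

/-- Complementing the outside labelling of `MinCx.replace`-type data. -/
theorem outside_compl {N : Net V} {S : Finset V} {x : HE V → Bool}
    (h1 : ∀ v ∉ S, vok x v) (h2 : ∀ h : HE V, h.1 ∉ S → (N.σ h).1 ∉ S → x (N.σ h) = x h) :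
    (∀ v ∉ S, vok (fun h => !x h) v) ∧
      ∀ h : HE V, h.1 ∉ S → (N.σ h).1 ∉ S → (!x (N.σ h)) = (!x h) :=
  ⟨fun v hv => vok_not (h1 v hv), fun h ha hb => congrArg _ (h2 h ha hb)⟩

end OneFour
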