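import Pool.Agent.Lib.MP_39c6f6_co.Basic

/-! # The two contraction lemmas (job CONTRACT) -/

set_option autoImplicit false

namespace OneFour

open Finset

variable {V : Type} [Fintype V] [DecidableEq V] {N : Net V}

/-- A good labelling at a single vertex has exactly one exceptional half-edge. -/
theorem vok_exceptional {y : HE Unit → Bool} (h : vok y ()) :
    ∃ i₀ : Fin 5, (∀ i, y ((), i) = decide (i = i₀)) ∨ (∀ i, (!y ((), i)) = decide (i = i₀)) := by
  rcases h with h | h
  · unfold deg at h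
    rw [Finset.card_eq_one] at h
    obtain ⟨i₀, hi⟩ := h
    refine ⟨i₀, Or.inl fun i => ?_⟩
    have := Finset.ext_iff.1 hi i
    simp only [mem_filter, mem_univ, true_and, mem_singleton] at this
    by_cases hii : i = i₀
    · rw [decide_eq_true hii]; exact this.2 hii
    · rw [decide_eq_false hii]
      cases hy : y ((), i) with
      | false => rfl
      | true => exact absurd (this.1 hy) hii
  · unfold deg at h
    have h2 : (univ.filter fun i : Fin 5 => ¬ y ((), i) = true).card = 1 := by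
      have := Finset.card_filter_add_card_filter_not (s := (univ : Finset (Fin 5)))
        (fun i => y ((), i) = true)
      rw [h, Finset.card_univ, Fintype.card_fin] at this
      omega
    rw [Finset.card_eq_one] at h2
    obtain ⟨i₀, hi⟩ := h2
    refine ⟨i₀, Or.inr fun i => ?_⟩
    have := Finset.ext_iff.1 hi i
    simp only [mem_filter, mem_univ, true_and, mem_singleton] at this
    by_cases hii : i = i₀
    · rw [decide_eq_true hii]
      have := this.2 hii
      simpa using this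
    · rw [decide_eq_false hii]
      cases hy : y ((), i) with
      | false => exact absurd (this.1 (by simp [hy])) hii
      | true => rfl

/-- (V) A 5-cut all of whose single-edge patterns are realised inside. -/
theorem MinCx.V_contract (hN : MinCx N) {S : Finset V} (hS : 2 ≤ S.card)
    (hb : (N.bd S).card = 5) (hr : ∀ b ∈ N.bd S, N.Real S (fun h => decide (h = b))) : False := by
  have hcard : Fintype.card {b // b ∈ N.bd S} = 5 := by rw [Fintype.card_coe]; exact hb
  let e : {b // b ∈ N.bd S} ≃ Fin 5 := Fintype.equivFinOfCardEq hcard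
  let τ : {b // b ∈ N.bd S} ⊕ HE Unit → {b // b ∈ N.bd S} ⊕ HE Unit :=
    Sum.elim (fun b => Sum.inr ((), e b)) (fun h => Sum.inl (e.symm h.2))
  have hτ : ∀ z, τ (τ z) = z := by
    rintro (b | ⟨⟨⟩, i⟩) <;> simp [τ]
  have hτ' : ∀ z, τ z ≠ z := by
    rintro (b | ⟨⟨⟩, i⟩) <;> simp [τ]
  obtain ⟨x, y, hx1, hx2, hy, hxy⟩ := hN.replace S (S' := Unit)
    (by rw [Fintype.card_unit]; omega) τ hτ hτ'
  have hxy' : ∀ b : {b // b ∈ N.bd S}, x b.1 = y ((), e b) := fun b => (hxy (Sum.inl b)).symm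
  obtain ⟨i₀, hi | hi⟩ := vok_exceptional (hy ())
  · apply hN.not_solvable
    refine Net.solvable_of_real hx1 hx2 ((hr (e.symm i₀).1 (e.symm i₀).2).congr ?_)
    intro b hb
    rw [hxy' ⟨b, hb⟩, hi]
    apply Bool.decide_congr
    constructor
    · intro h
      have : (⟨b, hb⟩ : {b // b ∈ N.bd S}) = e.symm i₀ := Subtype.ext h
      rw [this]; simp
    · intro h
      rw [← h]; simp
  · apply hN.not_solvable
    obtain ⟨hc1, hc2⟩ := outside_compl hx1 hx2
    refine Net.solvable_of_real hc1 hc2 ((hr (e.symm i₀).1 (e.symm i₀).2).congr ?_)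
    intro b hb
    rw [hxy' ⟨b, hb⟩, hi]
    apply Bool.decide_congr
    constructor
    · intro h
      have : (⟨b, hb⟩ : {b // b ∈ N.bd S}) = e.symm i₀ := Subtype.ext h
      rw [this]; simp
    · intro h
      rw [← h]; simp

/-- (VE) A 7-cut realising `{b}` and `{b,p,q}` for a fixed pair `p, q` and all other `b`. -/
theorem MinCx.VE_contract (hN : MinCx N) {S : Finset V} (hS : 2 ≤ S.card)
    (hb : (N.bd S).card = 7) {p q : HE V} (hp : p ∈ N.bd S) (hq : q ∈ N.bd S) (hpq : p ≠ q)
    (h1 : ∀ b ∈ N.bd S, b ≠ p → b ≠ q → N.Real S (fun h => decide (h = b)))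
    (h3 : ∀ b ∈ N.bd S, b ≠ p → b ≠ q →
      N.Real S (fun h => decide (h = b ∨ h = p ∨ h = q))) : False := by
  have hcard : Fintype.card {b // b ∈ ((N.bd S).erase p).erase q} = 5 := by
    rw [Fintype.card_coe, Finset.card_erase_of_mem (Finset.mem_erase.2 ⟨hpq.symm, hq⟩),
      Finset.card_erase_of_mem hp, hb]
  let e : {b // b ∈ ((N.bd S).erase p).erase q} ≃ Fin 5 := Fintype.equivFinOfCardEq hcard
  have hmem : ∀ b : {b // b ∈ ((N.bd S).erase p).erase q}, b.1 ∈ N.bd S := fun b =>
    Finset.mem_of_mem_erase (Finset.mem_of_mem_erase b.2)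
  have hmp : ∀ b : {b // b ∈ ((N.bd S).erase p).erase q}, b.1 ≠ p := fun b =>
    Finset.ne_of_mem_erase (Finset.mem_of_mem_erase b.2)
  have hmq : ∀ b : {b // b ∈ ((N.bd S).erase p).erase q}, b.1 ≠ q := fun b =>
    Finset.ne_of_mem_erase b.2
  have hmk : ∀ b : {b // b ∈ N.bd S}, b.1 ≠ p → b.1 ≠ q → b.1 ∈ ((N.bd S).erase p).erase q :=
    fun b hbp hbq => Finset.mem_erase.2 ⟨hbq, Finset.mem_erase.2 ⟨hbp, b.2⟩⟩
  let τ : {b // b ∈ N.bd S} ⊕ HE Unit → {b // b ∈ N.bd S} ⊕ HE Unit :=
    Sum.elim (fun b => if hbp : b.1 = p then Sum.inl ⟨q, hq⟩ else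
      if hbq : b.1 = q then Sum.inl ⟨p, hp⟩ else Sum.inr ((), e ⟨b.1, hmk b hbp hbq⟩))
      (fun h => Sum.inl ⟨(e.symm h.2).1, hmem _⟩)
  have τp : τ (Sum.inl ⟨p, hp⟩) = Sum.inl ⟨q, hq⟩ := by simp [τ]
  have τq : τ (Sum.inl ⟨q, hq⟩) = Sum.inl ⟨p, hp⟩ := by simp [τ, hpq.symm]
  have τb : ∀ b : {b // b ∈ ((N.bd S).erase p).erase q},
      τ (Sum.inl ⟨b.1, hmem b⟩) = Sum.inr ((), e b) := by
    intro b
    simp [τ, hmp b, hmq b]
  have τi : ∀ i : Fin 5, τ (Sum.inr ((), i)) = Sum.inl ⟨(e.symm i).1, hmem _⟩ := fun i => rfl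
  have hcases : ∀ b : {b // b ∈ N.bd S}, b = ⟨p, hp⟩ ∨ b = ⟨q, hq⟩ ∨
      ∃ c : {b // b ∈ ((N.bd S).erase p).erase q}, b = ⟨c.1, hmem c⟩ := by
    intro b
    by_cases hbp : b.1 = p
    · exact Or.inl (Subtype.ext hbp)
    · by_cases hbq : b.1 = q
      · exact Or.inr (Or.inl (Subtype.ext hbq))
      · exact Or.inr (Or.inr ⟨⟨b.1, hmk b hbp hbq⟩, rfl⟩)
  have hτ : ∀ z, τ (τ z) = z := by
    rintro (b | ⟨⟨⟩, i⟩)
    · rcases hcases b with rfl | rfl | ⟨c, rfl⟩
      · rw [τp, τq]
      · rw [τq, τp]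
      · rw [τb, τi, Equiv.symm_apply_apply]
    · rw [τi, τb, Equiv.apply_symm_apply]
  have hτ' : ∀ z, τ z ≠ z := by
    rintro (b | ⟨⟨⟩, i⟩)
    · rcases hcases b with rfl | rfl | ⟨c, rfl⟩
      · rw [τp]; simpa using hpq.symm
      · rw [τq]; simpa using hpq
      · rw [τb]; simp
    · rw [τi]; simp
  obtain ⟨x, y, hx1, hx2, hy, hxy⟩ := hN.replace S (S' := Unit)
    (by rw [Fintype.card_unit]; omega) τ hτ hτ'
  have hxpq : x q = x p := by
    have := hxy (Sum.inl ⟨p, hp⟩)
    rw [τp] at this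
    exact this
  have hxy' : ∀ b : {b // b ∈ ((N.bd S).erase p).erase q}, x b.1 = y ((), e b) := by
    intro b
    have := hxy (Sum.inl ⟨b.1, hmem b⟩)
    rw [τb] at this
    exact this.symm
  have key : ∀ z : HE V → Bool, (∀ v ∉ S, vok z v) →
      (∀ h : HE V, h.1 ∉ S → (N.σ h).1 ∉ S → z (N.σ h) = z h) → z q = z p →
      (∃ i₀ : Fin 5, ∀ b : {b // b ∈ ((N.bd S).erase p).erase q}, z b.1 = decide (e b = i₀)) →
      False := by
    rintro z hz1 hz2 hz3 ⟨i₀, hi⟩
    apply hN.not_solvable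
    have hb0 := hmem (e.symm i₀)
    have hbp := hmp (e.symm i₀)
    have hbq := hmq (e.symm i₀)
    have hdec : ∀ c : {b // b ∈ ((N.bd S).erase p).erase q}, (c.1 = (e.symm i₀).1) ↔ e c = i₀ := by
      intro c
      constructor
      · intro h
        have : c = e.symm i₀ := Subtype.ext h
        rw [this]; simp
      · intro h
        rw [← h]; simp
    cases hzp : z p with
    | false =>
      refine Net.solvable_of_real hz1 hz2 ((h1 _ hb0 hbp hbq).congr ?_)
      intro b hb
      rcases hcases ⟨b, hb⟩ with h | h | ⟨c, h⟩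
      · have h' : b = p := congrArg Subtype.val h
        subst h'
        rw [hzp]; simpa using hbp.symm
      · have h' : b = q := congrArg Subtype.val h
        subst h'
        rw [hz3, hzp]; simpa using hbq.symm
      · have h' : b = c.1 := congrArg Subtype.val h
        subst h'
        rw [hi]; exact Bool.decide_congr (hdec c)
    | true =>
      refine Net.solvable_of_real hz1 hz2 ((h3 _ hb0 hbp hbq).congr ?_)
      intro b hb
      rcases hcases ⟨b, hb⟩ with h | h | ⟨c, h⟩
      · have h' : b = p := congrArg Subtype.val h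
        subst h'
        rw [hzp]; simp
      · have h' : b = q := congrArg Subtype.val h
        subst h'
        rw [hz3, hzp]; simp
      · have h' : b = c.1 := congrArg Subtype.val h
        subst h'
        rw [hi]
        refine Bool.decide_congr ?_
        rw [hdec c]
        simp [hmp c, hmq c]
  obtain ⟨i₀, hi | hi⟩ := vok_exceptional (hy ())
  · exact key x hx1 hx2 hxpq ⟨i₀, fun b => by rw [hxy', hi]⟩
  · obtain ⟨hc1, hc2⟩ := outside_compl hx1 hx2
    exact key (fun h => !x h) hc1 hc2 (by simp only [hxpq]) ⟨i₀, fun b => by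
      simp only [hxy', hi]⟩

end OneFour
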