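import Pool.Agent.Lib.MP_39c6f6_co.Basic

/-! # Small cuts of a minimal counterexample, and the contraction lemmas (jobs CUTS and CONTRACT) -/

set_option autoImplicit false

namespace OneFour

open Finset

variable {V : Type} [Fintype V] [DecidableEq V] {N : Net V}

/-- The outside of `S` realises the pattern `p` on the boundary, labelled by `e`. -/
def OutR (N : Net V) (S : Finset V) {m : ℕ} (e : {b // b ∈ N.bd S} ≃ Fin m)
    (p : Fin m → Bool) : Prop :=
  ∃ x : HE V → Bool, (∀ v ∉ S, vok x v) ∧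
    (∀ h : HE V, h.1 ∉ S → (N.σ h).1 ∉ S → x (N.σ h) = x h) ∧ ∀ i, x (e.symm i).1 = p i

theorem OutR.compl {S : Finset V} {m : ℕ} {e : {b // b ∈ N.bd S} ≃ Fin m}
    {p : Fin m → Bool} (h : OutR N S e p) : OutR N S e (fun i => !p i) := by
  obtain ⟨x, h1, h2, h3⟩ := h
  obtain ⟨h1', h2'⟩ := outside_compl h1 h2
  exact ⟨fun h => !x h, h1', h2', fun i => by simp only [h3 i]⟩

theorem OutR.trans {S : Finset V} {m : ℕ} {e : {b // b ∈ N.bd S} ≃ Fin m}
    {p : Fin m → Bool} (π : Equiv.Perm (Fin m)) (h : OutR N S (e.trans π) p) :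
    OutR N S e (fun i => p (π i)) := by
  obtain ⟨x, h1, h2, h3⟩ := h
  refine ⟨x, h1, h2, fun i => ?_⟩
  have := h3 (π i)
  simpa using this

/-- `MinCx.replace` with labelled boundary. -/
theorem MinCx.outR (hN : MinCx N) (S : Finset V) {m : ℕ} (e : {b // b ∈ N.bd S} ≃ Fin m)
    {S' : Type} [Fintype S'] (hc : Fintype.card S' < S.card)
    (τ : Fin m ⊕ HE S' → Fin m ⊕ HE S') (hτ : ∀ z, τ (τ z) = z) (hτ' : ∀ z, τ z ≠ z) :
    ∃ (p : Fin m → Bool) (y : HE S' → Bool), OutR N S e p ∧ (∀ w, vok y w) ∧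
      ∀ z, Sum.elim p y (τ z) = Sum.elim p y z := by
  set E : {b // b ∈ N.bd S} ⊕ HE S' ≃ Fin m ⊕ HE S' := Equiv.sumCongr e (Equiv.refl _) with hE
  obtain ⟨x, y, h1, h2, h3, h4⟩ := hN.replace S hc (fun z => E.symm (τ (E z)))
    (fun z => by simp [hτ]) (fun z hz => hτ' (E z) (by
      have := congrArg E hz
      simpa using this))
  refine ⟨fun i => x (e.symm i).1, y, ⟨x, h1, h2, fun i => rfl⟩, h3, fun z => ?_⟩
  have key : ∀ w : Fin m ⊕ HE S', Sum.elim (fun b : {b // b ∈ N.bd S} => x b.1) y (E.symm w) =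
      Sum.elim (fun i => x (e.symm i).1) y w := by
    rintro (i | h)
    · simp [hE]
    · simp [hE]
  have := h4 (E.symm z)
  simp only [Equiv.apply_symm_apply] at this
  rw [key, key] at this
  exact this

/-- The boundary of the complement. -/
def bdFlip (N : Net V) (S : Finset V) : {b // b ∈ N.bd Sᶜ} ≃ {b // b ∈ N.bd S} where
  toFun b := ⟨N.σ b.1, by
    have := b.2
    rw [Net.mem_bd] at this ⊢
    simp only [mem_compl, not_not] at this
    rw [N.invol]
    exact ⟨this.2, this.1⟩⟩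
  invFun b := ⟨N.σ b.1, by
    have := b.2
    rw [Net.mem_bd] at this ⊢
    simp only [mem_compl, not_not]
    rw [N.invol]
    exact ⟨this.2, this.1⟩⟩
  left_inv b := by simp [N.invol]
  right_inv b := by simp [N.invol]

theorem solvable_of_outR {S : Finset V} {m : ℕ} {e : {b // b ∈ N.bd S} ≃ Fin m}
    {p : Fin m → Bool} (h1 : OutR N S e p) (h2 : OutR N Sᶜ ((bdFlip N S).trans e) p) :
    N.Solvable := by
  obtain ⟨x, hx1, hx2, hx3⟩ := h1
  obtain ⟨y, hy1, hy2, hy3⟩ := h2
  refine Net.solvable_of_real hx1 hx2 ⟨y, ?_, ?_, ?_⟩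
  · intro v hv
    exact hy1 v (by simpa using hv)
  · intro h h1 h2
    exact hy2 h (by simpa using h1) (by simpa using h2)
  · intro h hh
    have h3 := hx3 (e ⟨h, hh⟩)
    have h4 := hy3 (e ⟨h, hh⟩)
    simp only [Equiv.symm_apply_apply] at h3
    simp only [Equiv.symm_trans_apply, Equiv.symm_apply_apply, bdFlip, Equiv.coe_fn_symm_mk] at h4
    rw [h3, h4]

theorem exists_label {S : Finset V} {m : ℕ} (h : (N.bd S).card = m) :
    Nonempty ({b // b ∈ N.bd S} ≃ Fin m) := by
  have : Fintype.card {b // b ∈ N.bd S} = m := by simpa using h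
  exact ⟨Fintype.equivFinOfCardEq this⟩

theorem deg_unit (y : HE Unit → Bool) : deg y () =
    (if y ((), 0) = true then 1 else 0) + (if y ((), 1) = true then 1 else 0) +
    (if y ((), 2) = true then 1 else 0) + (if y ((), 3) = true then 1 else 0) +
    (if y ((), 4) = true then 1 else 0) := by
  rw [deg, Finset.card_filter, Fin.sum_univ_five]

theorem MinCx.bd_card_ne_zero (hN : MinCx N) {S : Finset V} (hS : S.Nonempty)
    (hS' : Sᶜ.Nonempty) : (N.bd S).card ≠ 0 := by
  intro h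
  obtain ⟨e⟩ := exists_label h
  have key : ∀ (T : Finset V) (f : {b // b ∈ N.bd T} ≃ Fin 0), T.Nonempty →
      OutR N T f (fun _ => true) := by
    intro T f hT
    obtain ⟨p, _, h1, _, _⟩ := hN.outR T f (S' := Empty) (by simpa using hT.card_pos)
      (fun z => z) (fun z => rfl) (fun z => by
        rcases z with z | z
        · exact z.elim0
        · exact z.1.elim)
    have : p = fun _ => true := funext fun i => i.elim0
    rwa [this] at h1
  exact hN.not_solvable (solvable_of_outR (key S e hS) (key Sᶜ _ hS'))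

theorem MinCx.bd_card_ne_two (hN : MinCx N) {S : Finset V} (hS : S.Nonempty)
    (hS' : Sᶜ.Nonempty) : (N.bd S).card ≠ 2 := by
  intro h
  obtain ⟨e⟩ := exists_label h
  have key : ∀ (T : Finset V) (f : {b // b ∈ N.bd T} ≃ Fin 2), T.Nonempty →
      OutR N T f (fun _ => true) := by
    intro T f hT
    obtain ⟨p, _, h1, _, h3⟩ := hN.outR T f (S' := Empty) (by simpa using hT.card_pos)
      (Sum.map (fun i => 1 - i) (fun z => z)) (fun z => by
        rcases z with z | z
        · fin_cases z <;> rfl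
        · exact z.1.elim) (fun z => by
        rcases z with z | z
        · fin_cases z <;> decide
        · exact z.1.elim)
    have h4 : p 1 = p 0 := by
      have := h3 (Sum.inl 0)
      simpa using this
    rcases hp : p 0 with _ | _
    · have h5 := h1.compl
      have : (fun i => !p i) = fun _ => true := by
        funext i
        fin_cases i
        · simp [hp]
        · simp [h4, hp]
      rwa [this] at h5
    · have : p = fun _ => true := by
        funext i
        fin_cases i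
        · simp [hp]
        · simp [h4, hp]
      rwa [this] at h1
  exact hN.not_solvable (solvable_of_outR (key S e hS) (key Sᶜ _ hS'))

/-- one vertex with two loops attached to one boundary half-edge -/
def tau1 : Fin 1 ⊕ HE Unit → Fin 1 ⊕ HE Unit
  | Sum.inl _ => Sum.inr ((), 0)
  | Sum.inr (_, 0) => Sum.inl 0
  | Sum.inr (_, 1) => Sum.inr ((), 2)
  | Sum.inr (_, 2) => Sum.inr ((), 1)
  | Sum.inr (_, 3) => Sum.inr ((), 4)
  | Sum.inr (_, 4) => Sum.inr ((), 3)

theorem MinCx.bd_card_ne_one (hN : MinCx N) {S : Finset V} (hS : 2 ≤ S.card)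
    (hS' : 2 ≤ Sᶜ.card) : (N.bd S).card ≠ 1 := by
  intro h
  obtain ⟨e⟩ := exists_label h
  have key : ∀ (T : Finset V) (f : {b // b ∈ N.bd T} ≃ Fin 1), 2 ≤ T.card →
      OutR N T f (fun _ => true) := by
    intro T f hT
    obtain ⟨p, _, h1, _, h3⟩ := hN.outR T f (S' := Unit) (by rw [Fintype.card_unit]; omega)
      tau1 (by decide) (by decide)
    rcases hp : p 0 with _ | _
    · have h5 := h1.compl
      have : (fun i => !p i) = fun _ => true := by
        funext i
        fin_cases i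
        simp [hp]
      rwa [this] at h5
    · have : p = fun _ => true := by
        funext i
        fin_cases i
        simp [hp]
      rwa [this] at h1
  exact hN.not_solvable (solvable_of_outR (key S e hS) (key Sᶜ _ hS'))

/-- one vertex with one loop attached to three boundary half-edges -/
def tau3 : Fin 3 ⊕ HE Unit → Fin 3 ⊕ HE Unit
  | Sum.inl 0 => Sum.inr ((), 0)
  | Sum.inl 1 => Sum.inr ((), 1)
  | Sum.inl 2 => Sum.inr ((), 2)
  | Sum.inr (_, 0) => Sum.inl 0
  | Sum.inr (_, 1) => Sum.inl 1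
  | Sum.inr (_, 2) => Sum.inl 2
  | Sum.inr (_, 3) => Sum.inr ((), 4)
  | Sum.inr (_, 4) => Sum.inr ((), 3)

/-- an edge and a vertex with two loops -/
def tau3' : Fin 3 ⊕ HE Unit → Fin 3 ⊕ HE Unit
  | Sum.inl 0 => Sum.inl 1
  | Sum.inl 1 => Sum.inl 0
  | Sum.inl 2 => Sum.inr ((), 0)
  | Sum.inr (_, 0) => Sum.inl 2
  | Sum.inr (_, 1) => Sum.inr ((), 2)
  | Sum.inr (_, 2) => Sum.inr ((), 1)
  | Sum.inr (_, 3) => Sum.inr ((), 4)
  | Sum.inr (_, 4) => Sum.inr ((), 3)

/-- The three properties of a family of patterns on three boundary half-edges. -/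
structure Pat3 (R : (Fin 3 → Bool) → Prop) : Prop where
  compl : ∀ p, R p → R (fun i => !p i)
  nae : ∃ p, R p ∧ ¬ (p 0 = p 1 ∧ p 1 = p 2)
  e01 : ∃ p, R p ∧ p 0 = p 1
  e12 : ∃ p, R p ∧ p 1 = p 2
  e02 : ∃ p, R p ∧ p 0 = p 2

theorem fin3_eq (p : Fin 3 → Bool) : p = ![p 0, p 1, p 2] := by
  funext i
  fin_cases i <;> rfl

theorem Pat3.all {R : (Fin 3 → Bool) → Prop} (h : Pat3 R) (h0 : ¬ R ![true, true, true]) :
    ∀ p, ¬ (p 0 = p 1 ∧ p 1 = p 2) → R p := by
  have hc : ∀ a b c, R ![a, b, c] → R ![!a, !b, !c] := by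
    intro a b c hR
    have := h.compl _ hR
    rw [fin3_eq (fun i => !(![a, b, c] i))] at this
    exact this
  have h0' : ¬ R ![false, false, false] := fun hR => h0 (hc _ _ _ hR)
  obtain ⟨q1, hq1, hq1'⟩ := h.e01
  obtain ⟨q2, hq2, hq2'⟩ := h.e12
  obtain ⟨q3, hq3, hq3'⟩ := h.e02
  rw [fin3_eq q1] at hq1
  rw [fin3_eq q2] at hq2
  rw [fin3_eq q3] at hq3
  intro p hp
  rw [fin3_eq p]
  generalize q1 0 = a0, q1 1 = a1, q1 2 = a2 at hq1 hq1'
  generalize q2 0 = b0, q2 1 = b1, q2 2 = b2 at hq2 hq2'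
  generalize q3 0 = c0, q3 1 = c1, q3 2 = c2 at hq3 hq3'
  generalize p 0 = p0, p 1 = p1, p 2 = p2 at hp
  subst hq1' hq2' hq3'
  have k1 := hc _ _ _ hq1
  have k2 := hc _ _ _ hq2
  have k3 := hc _ _ _ hq3
  cases a0 <;> cases a2 <;> simp_all <;> cases b0 <;> cases b1 <;> simp_all <;>
    cases c0 <;> cases c1 <;> simp_all <;> cases p0 <;> cases p1 <;> cases p2 <;> simp_all

theorem Pat3.inter {R1 R2 : (Fin 3 → Bool) → Prop} (h1 : Pat3 R1) (h2 : Pat3 R2) :
    ∃ p, R1 p ∧ R2 p := by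
  by_cases c1 : R1 ![true, true, true]
  · by_cases c2 : R2 ![true, true, true]
    · exact ⟨_, c1, c2⟩
    · obtain ⟨p, hp, hp'⟩ := h1.nae
      exact ⟨p, hp, h2.all c2 p hp'⟩
  · obtain ⟨p, hp, hp'⟩ := h2.nae
    exact ⟨p, h1.all c1 p hp', hp⟩

theorem MinCx.bd_card_ne_three (hN : MinCx N) {S : Finset V} (hS : 2 ≤ S.card)
    (hS' : 2 ≤ Sᶜ.card) : (N.bd S).card ≠ 3 := by
  intro h
  obtain ⟨e⟩ := exists_label h
  have key : ∀ (T : Finset V) (f : {b // b ∈ N.bd T} ≃ Fin 3), 2 ≤ T.card →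
      Pat3 (OutR N T f) := by
    intro T f hT
    have hA : ∀ f : {b // b ∈ N.bd T} ≃ Fin 3, ∃ p, OutR N T f p ∧ p 0 = p 1 := by
      intro f
      obtain ⟨p, _, h1, _, h3⟩ := hN.outR T f (S' := Unit) (by rw [Fintype.card_unit]; omega)
        tau3' (by decide) (by decide)
      refine ⟨p, h1, ?_⟩
      have := h3 (Sum.inl 1)
      simpa [tau3'] using this
    refine ⟨fun p hp => hp.compl, ?_, hA f, ?_, ?_⟩
    · obtain ⟨p, y, h1, h2, h3⟩ := hN.outR T f (S' := Unit) (by rw [Fintype.card_unit]; omega)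
        tau3 (by decide) (by decide)
      refine ⟨p, h1, ?_⟩
      have e0 := h3 (Sum.inl 0)
      have e1 := h3 (Sum.inl 1)
      have e2 := h3 (Sum.inl 2)
      have e3 := h3 (Sum.inr ((), 3))
      simp only [tau3, Sum.elim_inl, Sum.elim_inr] at e0 e1 e2 e3
      have hv := h2 ()
      rw [vok, deg_unit, e0, e1, e2, e3] at hv
      rintro ⟨g1, g2⟩
      rw [g1, g2] at hv
      generalize p 2 = a at hv
      generalize y ((), 3) = b at hv
      cases a <;> cases b <;> simp at hv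
    · obtain ⟨p, h1, h2⟩ := hA (f.trans (finRotate 3).symm)
      refine ⟨_, h1.trans, ?_⟩
      have r1 : (finRotate 3).symm 1 = 0 := by decide
      have r2 : (finRotate 3).symm 2 = 1 := by decide
      rw [r1, r2]
      exact h2
    · obtain ⟨p, h1, h2⟩ := hA (f.trans (Equiv.swap 1 2))
      refine ⟨_, h1.trans, ?_⟩
      have r1 : (Equiv.swap (1 : Fin 3) 2) 0 = 0 := by decide
      have r2 : (Equiv.swap (1 : Fin 3) 2) 2 = 1 := by decide
      rw [r1, r2]
      exact h2
  obtain ⟨p, h1, h2⟩ := (key S e hS).inter (key Sᶜ ((bdFlip N S).trans e) hS')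
  exact hN.not_solvable (solvable_of_outR h1 h2)

end OneFour
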