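import Pool.Agent.Lib.MP_39c6f6_co.Cuts

/-! # No parallel edges at a loopless vertex (job PARALLEL) -/

set_option autoImplicit false

namespace OneFour

open Finset

/-- The pairing of the legs of `{u, v}`, and the patterns it allows up to complement. -/
theorem par_pairing (a b : ℕ) (h : (a = 3 ∧ b = 3) ∨ (a = 2 ∧ b = 2) ∨ (a = 1 ∧ b = 3)) :
    ∃ τ : Fin a ⊕ Fin b → Fin a ⊕ Fin b, (∀ z, τ (τ z) = z) ∧ (∀ z, τ z ≠ z) ∧
      ∀ p : Fin a ⊕ Fin b → Bool, (∀ z, p (τ z) = p z) →
        ∃ c : Bool, (univ.filter fun i => xor c (p (Sum.inl i)) = true).card ≤ 1 ∧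
          (univ.filter fun i => xor c (p (Sum.inl i)) = true).card =
          (univ.filter fun j => xor c (p (Sum.inr j)) = true).card := by
  have key3 : ∀ q : Fin 3 → Bool, ∃ c : Bool,
      (univ.filter fun i => xor c (q i) = true).card ≤ 1 := by decide
  have key2 : ∀ q : Fin 2 → Bool, ∃ c : Bool,
      (univ.filter fun i => xor c (q i) = true).card ≤ 1 := by decide
  have key1 : ∀ r : Fin 1 → Bool, ∀ q : Fin 3 → Bool, q 0 = r 0 → q 2 = q 1 → ∃ c : Bool,
      (univ.filter fun i => xor c (r i) = true).card ≤ 1 ∧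
      (univ.filter fun i => xor c (r i) = true).card =
        (univ.filter fun i => xor c (q i) = true).card := by decide
  rcases h with ⟨rfl, rfl⟩ | ⟨rfl, rfl⟩ | ⟨rfl, rfl⟩
  · refine ⟨Sum.elim Sum.inr Sum.inl, by decide, by decide, ?_⟩
    intro p hp
    have h0 : ∀ i, p (Sum.inr i) = p (Sum.inl i) := fun i => hp (Sum.inl i)
    obtain ⟨c, hc⟩ := key3 (fun i => p (Sum.inl i))
    exact ⟨c, hc, by simp only [h0]⟩
  · refine ⟨Sum.elim Sum.inr Sum.inl, by decide, by decide, ?_⟩
    intro p hp
    have h0 : ∀ i, p (Sum.inr i) = p (Sum.inl i) := fun i => hp (Sum.inl i)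
    obtain ⟨c, hc⟩ := key2 (fun i => p (Sum.inl i))
    exact ⟨c, hc, by simp only [h0]⟩
  · refine ⟨Sum.elim (fun _ => Sum.inr 0)
      (fun j => if j = 0 then Sum.inl 0 else if j = 1 then Sum.inr 2 else Sum.inr 1),
      by decide, by decide, ?_⟩
    intro p hp
    obtain ⟨c, hc⟩ := key1 (fun i => p (Sum.inl i)) (fun i => p (Sum.inr i)) (hp (Sum.inl 0))
      (hp (Sum.inr 1))
    exact ⟨c, hc⟩

variable {V : Type} [Fintype V] [DecidableEq V] {N : Net V}

/-- Extension of an outside labelling with balanced legs into `{u, v}`. -/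
theorem par_real {u v : V} (huv : u ≠ v) (x : HE V → Bool)
    (i₀ : Fin 5) (hi₀ : (N.σ (u, i₀)).1 = v)
    (h1 : (univ.filter fun i : Fin 5 => (N.σ (u, i)).1 ∉ ({u, v} : Finset V) ∧
      x (N.σ (u, i)) = true).card ≤ 1)
    (h2 : (univ.filter fun i : Fin 5 => (N.σ (u, i)).1 ∉ ({u, v} : Finset V) ∧
      x (N.σ (u, i)) = true).card = (univ.filter fun i : Fin 5 =>
        (N.σ (v, i)).1 ∉ ({u, v} : Finset V) ∧ x (N.σ (v, i)) = true).card) :
    N.Real {u, v} x := by
  have hcase := Nat.le_one_iff_eq_zero_or_eq_one.mp h1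
  rcases hcase with hc | hc
  · -- all legs are false
    have hc' := hc
    rw [h2] at hc'
    rw [Finset.card_eq_zero, Finset.filter_eq_empty_iff] at hc hc'
    refine ⟨fun h => decide (h = (u, i₀) ∨ h = N.σ (u, i₀)) ||
      (decide ((N.σ h).1 ∉ ({u, v} : Finset V)) && x (N.σ h)), ?_, ?_, ?_⟩
    · intro w hw
      left
      have hout : ∀ (w : V) (i : Fin 5), w ∈ ({u, v} : Finset V) →
          ((decide ((N.σ (w, i)).1 ∉ ({u, v} : Finset V)) && x (N.σ (w, i))) = false) := by
        intro w i hw
        rw [Finset.mem_insert, Finset.mem_singleton] at hw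
        rcases hw with rfl | rfl
        · have := hc (x := i) (Finset.mem_univ i)
          by_contra hcon
          rw [Bool.not_eq_false, Bool.and_eq_true, decide_eq_true_iff] at hcon
          exact this hcon
        · have := hc' (x := i) (Finset.mem_univ i)
          by_contra hcon
          rw [Bool.not_eq_false, Bool.and_eq_true, decide_eq_true_iff] at hcon
          exact this hcon
      unfold deg
      rw [Finset.card_eq_one]
      have hw' := hw
      rw [Finset.mem_insert, Finset.mem_singleton] at hw'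
      rcases hw' with rfl | rfl
      · refine ⟨i₀, ?_⟩
        ext i
        simp only [hout w i hw, Bool.or_false, Finset.mem_filter, Finset.mem_univ, true_and,
          decide_eq_true_iff, Finset.mem_singleton]
        constructor
        · rintro (h | h)
          · exact (Prod.ext_iff.mp h).2
          · exfalso
            apply huv
            rw [← hi₀, ← h]
        · rintro rfl
          exact Or.inl rfl
      · refine ⟨(N.σ (u, i₀)).2, ?_⟩
        ext i
        simp only [hout w i hw, Bool.or_false, Finset.mem_filter, Finset.mem_univ, true_and,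
          decide_eq_true_iff, Finset.mem_singleton]
        constructor
        · rintro (h | h)
          · exfalso
            exact huv (Prod.ext_iff.mp h).1.symm
          · exact (Prod.ext_iff.mp h).2
        · rintro rfl
          exact Or.inr (Prod.ext hi₀.symm rfl)
    · intro h hh1 hh2
      have e1 : (h = (u, i₀) ∨ h = N.σ (u, i₀)) ↔ (N.σ h = (u, i₀) ∨ N.σ h = N.σ (u, i₀)) := by
        constructor
        · rintro (rfl | rfl)
          · exact Or.inr rfl
          · exact Or.inl (N.invol _)
        · rintro (h' | h')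
          · right
            rw [← h', N.invol]
          · left
            have := congrArg N.σ h'
            rwa [N.invol, N.invol] at this
      simp only [N.invol, hh1, hh2, not_true_eq_false, decide_false, Bool.false_and, Bool.or_false]
      rw [decide_eq_decide]
      exact e1.symm
    · intro b hb
      rw [N.mem_bd] at hb
      have hne : ¬ (N.σ b = (u, i₀) ∨ N.σ b = N.σ (u, i₀)) := by
        rintro (h' | h')
        · have := congrArg N.σ h'
          rw [N.invol] at this
          apply hb.1
          rw [this, hi₀]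
          simp
        · have := congrArg N.σ h'
          rw [N.invol, N.invol] at this
          apply hb.1
          rw [this]
          simp
      simp only [N.invol, hb.1, not_false_eq_true, decide_true, Bool.true_and]
      rw [decide_eq_false hne, Bool.false_or]
  · -- one leg at each of `u`, `v` is true
    have hc' := hc
    rw [h2] at hc'
    refine ⟨fun h => (decide ((N.σ h).1 ∉ ({u, v} : Finset V)) && x (N.σ h)), ?_, ?_, ?_⟩
    · intro w hw
      left
      unfold deg
      rw [Finset.mem_insert, Finset.mem_singleton] at hw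
      simp only [Bool.and_eq_true, decide_eq_true_iff]
      rcases hw with rfl | rfl
      · exact hc
      · exact hc'
    · intro h hh1 hh2
      simp only [N.invol, hh1, hh2, not_true_eq_false, decide_false, Bool.false_and]
    · intro b hb
      rw [N.mem_bd] at hb
      simp only [N.invol, hb.1, not_false_eq_true, decide_true, Bool.true_and]

/-- Counting along the enumeration of a finite set. -/
theorem par_card (U : Finset (Fin 5)) (f : Fin 5 → Bool) :
    (univ.filter fun i : Fin U.card => f (U.equivFin.symm i).1 = true).card =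
      (U.filter fun i => f i = true).card := by
  refine Finset.card_bij (fun i _ => (U.equivFin.symm i).1) ?_ ?_ ?_
  · intro i hi
    rw [Finset.mem_filter] at hi ⊢
    exact ⟨(U.equivFin.symm i).2, hi.2⟩
  · intro i _ j _ h
    exact U.equivFin.symm.injective (Subtype.ext h)
  · intro j hj
    rw [Finset.mem_filter] at hj
    refine ⟨U.equivFin ⟨j, hj.1⟩, ?_, ?_⟩
    · rw [Finset.mem_filter]
      refine ⟨Finset.mem_univ _, ?_⟩
      rw [Equiv.symm_apply_apply]
      exact hj.2
    · rw [Equiv.symm_apply_apply]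

/-- (PE) In a minimal counterexample a loopless vertex has no parallel edges. -/
theorem MinCx.no_parallel (hN : MinCx N) {u v : V} (huv : u ≠ v)
    (hv : ∀ i, (N.σ (v, i)).1 ≠ v) : N.e u {v} ≤ 1 := by
  classical
  by_contra hcon
  rw [not_le] at hcon
  obtain ⟨S, hS⟩ : ∃ S : Finset V, S = {u, v} := ⟨_, rfl⟩
  have huS : u ∈ S := by rw [hS]; simp
  have hvS : v ∈ S := by rw [hS]; simp
  have hmS : ∀ w, w ∈ S ↔ w = u ∨ w = v := by intro w; rw [hS]; simp
  have hcardS : S.card = 2 := by rw [hS]; exact Finset.card_pair huv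
  obtain ⟨M, hMd⟩ : ∃ M : Finset (Fin 5), M = univ.filter fun i : Fin 5 => (N.σ (u, i)).1 = v :=
    ⟨_, rfl⟩
  obtain ⟨M', hMd'⟩ : ∃ M' : Finset (Fin 5), M' = univ.filter fun i : Fin 5 =>
    (N.σ (v, i)).1 = u := ⟨_, rfl⟩
  obtain ⟨U, hUd⟩ : ∃ U : Finset (Fin 5), U = univ.filter fun i : Fin 5 => (N.σ (u, i)).1 ∉ S :=
    ⟨_, rfl⟩
  obtain ⟨W, hWd⟩ : ∃ W : Finset (Fin 5), W = univ.filter fun i : Fin 5 => (N.σ (v, i)).1 ∉ S :=
    ⟨_, rfl⟩
  have hM2 : 2 ≤ M.card := by
    rw [hMd]
    unfold Net.e at hcon
    simp only [Finset.mem_singleton] at hcon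
    exact hcon
  have hMM : M.card = M'.card := by
    refine Finset.card_bij (fun i _ => (N.σ (u, i)).2) ?_ ?_ ?_
    · intro i hi
      rw [hMd, Finset.mem_filter] at hi
      rw [hMd', Finset.mem_filter]
      refine ⟨Finset.mem_univ _, ?_⟩
      have : (v, (N.σ (u, i)).2) = N.σ (u, i) := Prod.ext hi.2.symm rfl
      rw [this, N.invol]
    · intro i hi j hj h
      rw [hMd, Finset.mem_filter] at hi hj
      have : N.σ (u, i) = N.σ (u, j) := Prod.ext (hi.2.trans hj.2.symm) h
      have := congrArg N.σ this
      rw [N.invol, N.invol] at this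
      exact (Prod.ext_iff.mp this).2
    · intro j hj
      rw [hMd', Finset.mem_filter] at hj
      have h1 : (u, (N.σ (v, j)).2) = N.σ (v, j) := Prod.ext hj.2.symm rfl
      refine ⟨(N.σ (v, j)).2, ?_, ?_⟩
      · rw [hMd, Finset.mem_filter, h1, N.invol]
        exact ⟨Finset.mem_univ _, rfl⟩
      · rw [h1, N.invol]
  have hW : W.card + M'.card = 5 := by
    have h1 : W = M'ᶜ := by
      ext i
      rw [hWd, hMd', Finset.mem_compl, Finset.mem_filter, Finset.mem_filter, hmS]
      have := hv i
      simp [this]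
    rw [h1, Finset.card_compl, Fintype.card_fin]
    have := Finset.card_le_univ M'
    rw [Fintype.card_fin] at this
    omega
  have hU : U.card + M.card ≤ 5 := by
    have h1 : Disjoint U M := by
      rw [Finset.disjoint_left]
      intro i hi hi'
      rw [hUd, Finset.mem_filter] at hi
      rw [hMd, Finset.mem_filter] at hi'
      apply hi.2
      rw [hi'.2]
      exact hvS
    rw [← Finset.card_union_of_disjoint h1]
    have := Finset.card_le_univ (U ∪ M)
    rwa [Fintype.card_fin] at this
  have hmU : ∀ i, i ∈ U ↔ (N.σ (u, i)).1 ∉ S := by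
    intro i
    rw [hUd, Finset.mem_filter]
    simp
  have hmW : ∀ i, i ∈ W ↔ (N.σ (v, i)).1 ∉ S := by
    intro i
    rw [hWd, Finset.mem_filter]
    simp
  obtain ⟨i₀, hi₀⟩ : ∃ i₀, (N.σ (u, i₀)).1 = v := by
    have h0 : M.Nonempty := by
      rw [← Finset.card_pos]
      omega
    obtain ⟨i, hi⟩ := h0
    rw [hMd, Finset.mem_filter] at hi
    exact ⟨i, hi.2⟩
  have hsinj : ∀ h h' : HE V, N.σ h = N.σ h' → h = h' := by
    intro h h' hh
    have := congrArg N.σ hh
    rwa [N.invol, N.invol] at this
  -- the boundary half-edges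
  have huB : ∀ i : {i // i ∈ U}, N.σ (u, i.1) ∈ N.bd S := by
    intro i
    rw [N.mem_bd, N.invol]
    exact ⟨(hmU _).mp i.2, huS⟩
  have hvB : ∀ i : {i // i ∈ W}, N.σ (v, i.1) ∈ N.bd S := by
    intro i
    rw [N.mem_bd, N.invol]
    exact ⟨(hmW _).mp i.2, hvS⟩
  let ψ₀ : {i // i ∈ U} ⊕ {i // i ∈ W} → {b // b ∈ N.bd S} :=
    Sum.elim (fun i => ⟨N.σ (u, i.1), huB i⟩) (fun i => ⟨N.σ (v, i.1), hvB i⟩)
  have hψ : Function.Bijective ψ₀ := by
    constructor
    · rintro (i | i) (j | j) h
      · have h' := hsinj _ _ (Subtype.ext_iff.mp h)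
        exact congrArg Sum.inl (Subtype.ext (Prod.ext_iff.mp h').2)
      · have h' := hsinj _ _ (Subtype.ext_iff.mp h)
        exact absurd (Prod.ext_iff.mp h').1 huv
      · have h' := hsinj _ _ (Subtype.ext_iff.mp h)
        exact absurd (Prod.ext_iff.mp h').1.symm huv
      · have h' := hsinj _ _ (Subtype.ext_iff.mp h)
        exact congrArg Sum.inr (Subtype.ext (Prod.ext_iff.mp h').2)
    · rintro ⟨b, hb⟩
      have hb' := N.mem_bd.mp hb
      rcases (hmS _).mp hb'.2 with h | h
      · have e1 : (u, (N.σ b).2) = N.σ b := Prod.ext h.symm rfl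
        refine ⟨Sum.inl ⟨(N.σ b).2, ?_⟩, ?_⟩
        · rw [hmU, e1, N.invol]
          exact hb'.1
        · apply Subtype.ext
          change N.σ (u, (N.σ b).2) = b
          rw [e1, N.invol]
      · have e1 : (v, (N.σ b).2) = N.σ b := Prod.ext h.symm rfl
        refine ⟨Sum.inr ⟨(N.σ b).2, ?_⟩, ?_⟩
        · rw [hmW, e1, N.invol]
          exact hb'.1
        · apply Subtype.ext
          change N.σ (v, (N.σ b).2) = b
          rw [e1, N.invol]
  let Φ : Fin U.card ⊕ Fin W.card ≃ {b // b ∈ N.bd S} :=
    (Equiv.sumCongr U.equivFin.symm W.equivFin.symm).trans (Equiv.ofBijective ψ₀ hψ)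
  have hΦl : ∀ i, (Φ (Sum.inl i)).1 = N.σ (u, (U.equivFin.symm i).1) := fun i => rfl
  have hΦr : ∀ i, (Φ (Sum.inr i)).1 = N.σ (v, (W.equivFin.symm i).1) := fun i => rfl
  have hbd : (N.bd S).card = U.card + W.card := by
    have := Fintype.card_congr Φ
    rw [Fintype.card_sum, Fintype.card_fin, Fintype.card_fin, Fintype.card_coe] at this
    exact this.symm
  -- the final step
  have fin : ∀ x : HE V → Bool, (∀ w ∉ S, vok x w) →
      (∀ h : HE V, h.1 ∉ S → (N.σ h).1 ∉ S → x (N.σ h) = x h) →
      (U.filter fun i => x (N.σ (u, i)) = true).card ≤ 1 →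
      (U.filter fun i => x (N.σ (u, i)) = true).card =
        (W.filter fun i => x (N.σ (v, i)) = true).card → False := by
    intro x h1 h2 h3 h4
    apply hN.not_solvable
    refine N.solvable_of_real h1 h2 ?_
    rw [hUd, Finset.filter_filter] at h3 h4
    rw [hWd, Finset.filter_filter] at h4
    rw [hS] at h3 h4 ⊢
    exact par_real huv x i₀ hi₀ h3 h4
  by_cases hSc : Sᶜ.Nonempty
  · have hne0 := hN.bd_card_ne_zero ⟨u, huS⟩ hSc
    have hne2 := hN.bd_card_ne_two ⟨u, huS⟩ hSc
    have hpar := N.bd_card_mod_two S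
    rw [hcardS] at hpar
    rw [hbd] at hne0 hne2 hpar
    obtain ⟨τ, hτ1, hτ2, hτ3⟩ := par_pairing U.card W.card (by omega)
    have hE : Fintype.card Empty < S.card := by
      rw [hcardS]
      simp
    obtain ⟨x, y, hx1, hx2, hy, hxy⟩ := hN.replace S (S' := Empty) hE
      (Sum.elim (fun b => Sum.inl (Φ (τ (Φ.symm b)))) (fun w => w.1.elim))
      (by
        rintro (b | w)
        · simp only [Sum.elim_inl, Equiv.symm_apply_apply, hτ1, Equiv.apply_symm_apply]
        · exact w.1.elim)
      (by
        rintro (b | w)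
        · simp only [Sum.elim_inl]
          intro h
          have h1 := Sum.inl_injective h
          apply hτ2 (Φ.symm b)
          apply Φ.injective
          rw [h1, Equiv.apply_symm_apply]
        · exact w.1.elim)
    obtain ⟨c, hc1, hc2⟩ := hτ3 (fun z => x (Φ z).1) (by
      intro z
      have := hxy (Sum.inl (Φ z))
      simpa only [Sum.elim_inl, Equiv.symm_apply_apply] using this)
    simp only [hΦl, hΦr] at hc1 hc2
    rw [par_card U (fun i => xor c (x (N.σ (u, i))))] at hc1 hc2
    rw [par_card W (fun i => xor c (x (N.σ (v, i))))] at hc2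
    cases c
    · simp only [Bool.false_xor] at hc1 hc2
      exact fin x hx1 hx2 hc1 hc2
    · simp only [Bool.true_xor] at hc1 hc2
      obtain ⟨hx1', hx2'⟩ := outside_compl hx1 hx2
      exact fin (fun h => !x h) hx1' hx2' hc1 hc2
  · rw [Finset.not_nonempty_iff_eq_empty, Finset.compl_eq_empty_iff] at hSc
    apply fin (fun _ => false)
    · intro w hw
      exact absurd (by rw [hSc]; exact Finset.mem_univ _) hw
    · intro _ _ _
      rfl
    · simp
    · simp

end OneFour
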