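import Pool.Agent.Lib.MP_39c6f6_co.Glue
import Pool.Agent.Lib.MP_39c6f6_co.Cuts
import Pool.Agent.Lib.MP_39c6f6_co.Contract
import Pool.Agent.Lib.MP_39c6f6_co.Parallel

/-! # Counting around the barrier of a minimal counterexample (job COUNT) -/

set_option autoImplicit false

namespace OneFour

open Finset

variable {V : Type} [Fintype V] [DecidableEq V] {N : Net V}

/-- counting half-edges by their vertex -/
theorem card_filter_fst (X : Finset V) (q : HE V → Prop) [DecidablePred q] :
    (univ.filter fun h : HE V => h.1 ∈ X ∧ q h).card =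
      ∑ a ∈ X, (univ.filter fun i : Fin 5 => q (a, i)).card := by
  rw [Finset.card_filter, Fintype.sum_prod_type]
  have : ∀ a : V, (∑ i : Fin 5, if (a ∈ X ∧ q (a, i)) then 1 else 0) =
      if a ∈ X then (univ.filter fun i : Fin 5 => q (a, i)).card else 0 := by
    intro a
    by_cases ha : a ∈ X
    · rw [Finset.card_filter]
      simp only [ha, true_and, if_true]
    · simp [ha]
  simp only [this]
  rw [Finset.sum_ite_mem, Finset.univ_inter]

namespace Barrier

variable (B : Barrier N)

/-- `e` is additive over disjoint pieces -/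
theorem e_biUnion {P : Finset (Finset V)} (hP : P ⊆ B.D) (a : V) :
    N.e a (P.biUnion id) = ∑ K ∈ P, N.e a K := by
  unfold Net.e
  rw [← Finset.card_biUnion]
  · congr 1
    ext i
    simp
  · intro K hK L hL hKL
    refine Finset.disjoint_left.2 fun i hi hi' => ?_
    have h1 := (Finset.mem_filter.1 hi).2
    have h2 := (Finset.mem_filter.1 hi').2
    exact Finset.disjoint_left.1 (B.disj K (hP hK) L (hP hL) hKL) h1 h2

/-- `out` is additive -/
theorem out_eq_sum (X : Finset V) (P : Finset (Finset V)) :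
    B.out X P = ∑ a ∈ X, B.out {a} P := by
  unfold Barrier.out
  rw [card_filter_fst]
  refine Finset.sum_congr rfl fun a _ => ?_
  rw [card_filter_fst]
  simp

theorem out_singleton_add_e (a : V) (P : Finset (Finset V)) :
    B.out {a} P + N.e a (P.biUnion id) = 5 := by
  unfold Barrier.out Net.e
  rw [card_filter_fst, Finset.sum_singleton, add_comm]
  rw [Finset.card_filter_add_card_filter_not (s := (univ : Finset (Fin 5)))
    (fun i => (N.σ (a, i)).1 ∈ P.biUnion id)]
  simp

/-- (6.0) counting the half-edges at `X` -/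
theorem out_add_sum_e {X : Finset V} (_hX : X ⊆ B.A) {P : Finset (Finset V)} (hP : P ⊆ B.D) :
    B.out X P + ∑ K ∈ P, ∑ a ∈ X, N.e a K = 5 * X.card := by
  rw [Finset.sum_comm, B.out_eq_sum, ← Finset.sum_add_distrib]
  have : ∀ a ∈ X, B.out {a} P + ∑ K ∈ P, N.e a K = 5 := by
    intro a _
    rw [← B.e_biUnion hP, B.out_singleton_add_e]
  rw [Finset.sum_congr rfl this]
  simp [mul_comm]

/-- (6.0) counting when all legs of the pieces in `P` end in `X`. -/
theorem out_add_sum_k {X : Finset V} (hX : X ⊆ B.A) {P : Finset (Finset V)} (hP : P ⊆ B.D)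
    (hN : B.nbr P ⊆ X) : B.out X P + ∑ K ∈ P, B.k K = 5 * X.card := by
  rw [← B.out_add_sum_e hX hP]
  congr 1
  refine Finset.sum_congr rfl fun K hK => ?_
  rw [← B.sum_e_eq (hP hK)]
  refine (Finset.sum_subset hX fun a haA ha => ?_).symm
  by_contra hne
  exact ha (hN (Finset.mem_filter.2 ⟨haA, K, hK, Nat.one_le_iff_ne_zero.2 hne⟩))

theorem mem_biUnion_notMem_A {P : Finset (Finset V)} (hP : P ⊆ B.D) {v : V}
    (hv : v ∈ P.biUnion id) : v ∉ B.A := by
  obtain ⟨K, hK, hvK⟩ := Finset.mem_biUnion.1 hv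
  exact Finset.disjoint_left.1 (B.disjA K (hP hK)) hvK

/-- the cut of `X ∪ ⋃ P`: legs from `P` to outside `X`, plus outer half-edges of `X` minus the
half-edges inside `X`. -/
theorem card_bd_add {X : Finset V} (hX : X ⊆ B.A) {P : Finset (Finset V)} (hP : P ⊆ B.D) :
    (N.bd (X ∪ P.biUnion id)).card +
      (univ.filter fun h : HE V => h.1 ∈ X ∧ (N.σ h).1 ∈ X).card =
    B.out X P + ∑ K ∈ P, ∑ a ∈ B.A \ X, N.e a K := by
  have hXP : ∀ v, v ∈ X → v ∉ P.biUnion id := fun v hv h => B.mem_biUnion_notMem_A hP h (hX hv)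
  -- split the boundary
  have h1 : (N.bd (X ∪ P.biUnion id)).card =
      (univ.filter fun h : HE V => h.1 ∉ X ∪ P.biUnion id ∧ (N.σ h).1 ∈ X).card +
      (univ.filter fun h : HE V => h.1 ∉ X ∪ P.biUnion id ∧ (N.σ h).1 ∈ P.biUnion id).card := by
    rw [← Finset.card_union_of_disjoint]
    · congr 1
      ext h
      simp only [Net.bd, Finset.mem_filter, Finset.mem_univ, true_and, Finset.mem_union]
      tauto
    · refine Finset.disjoint_left.2 fun h hh hh' => ?_
      exact hXP _ (Finset.mem_filter.1 hh).2.2 (Finset.mem_filter.1 hh').2.2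
  have h2 : B.out X P =
      (univ.filter fun h : HE V => h.1 ∈ X ∧ (N.σ h).1 ∉ X ∪ P.biUnion id).card +
      (univ.filter fun h : HE V => h.1 ∈ X ∧ (N.σ h).1 ∈ X).card := by
    unfold Barrier.out
    rw [← Finset.card_union_of_disjoint]
    · congr 1
      ext h
      simp only [Finset.mem_filter, Finset.mem_univ, true_and, Finset.mem_union]
      constructor
      · rintro ⟨ha, hb⟩
        by_cases hc : (N.σ h).1 ∈ X
        · exact Or.inr ⟨ha, hc⟩
        · exact Or.inl ⟨ha, by tauto⟩
      · rintro (⟨ha, hb⟩ | ⟨ha, hb⟩)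
        · exact ⟨ha, by tauto⟩
        · exact ⟨ha, hXP _ hb⟩
    · refine Finset.disjoint_left.2 fun h hh hh' => ?_
      exact (Finset.mem_filter.1 hh).2.2 (Finset.mem_union_left _ (Finset.mem_filter.1 hh').2.2)
  have h3 : (univ.filter fun h : HE V => h.1 ∉ X ∪ P.biUnion id ∧ (N.σ h).1 ∈ X).card =
      (univ.filter fun h : HE V => h.1 ∈ X ∧ (N.σ h).1 ∉ X ∪ P.biUnion id).card := by
    refine Finset.card_bij (fun h _ => N.σ h) ?_ ?_ ?_
    · intro h hh
      simp only [Finset.mem_filter, Finset.mem_univ, true_and] at hh ⊢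
      rw [N.invol]
      exact ⟨hh.2, hh.1⟩
    · intro h _ h' _ heq
      rw [← N.invol h, heq, N.invol]
    · intro h hh
      simp only [Finset.mem_filter, Finset.mem_univ, true_and] at hh
      refine ⟨N.σ h, ?_, N.invol h⟩
      simp only [Finset.mem_filter, Finset.mem_univ, true_and]
      rw [N.invol]
      exact ⟨hh.2, hh.1⟩
  have h4 : ∑ K ∈ P, ∑ a ∈ B.A \ X, N.e a K =
      (univ.filter fun h : HE V => h.1 ∉ X ∪ P.biUnion id ∧ (N.σ h).1 ∈ P.biUnion id).card := by
    rw [Finset.sum_comm]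
    have : ∀ a ∈ B.A \ X, ∑ K ∈ P, N.e a K = N.e a (P.biUnion id) :=
      fun a _ => (B.e_biUnion hP a).symm
    rw [Finset.sum_congr rfl this]
    unfold Net.e
    rw [← card_filter_fst (B.A \ X) (fun h => (N.σ h).1 ∈ P.biUnion id)]
    congr 1
    ext h
    simp only [Finset.mem_filter, Finset.mem_univ, true_and, Finset.mem_sdiff,
      Finset.mem_union]
    constructor
    · rintro ⟨⟨ha, hb⟩, hc⟩
      refine ⟨?_, hc⟩
      rintro (h' | h')
      · exact hb h'
      · exact B.mem_biUnion_notMem_A hP h' ha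
    · rintro ⟨ha, hb⟩
      refine ⟨⟨?_, fun h' => ha (Or.inl h')⟩, hb⟩
      obtain ⟨K, hK, hKm⟩ := Finset.mem_biUnion.1 hb
      rcases B.closed K (hP hK) (N.σ h) hKm with h' | h'
      · rw [N.invol] at h'
        exact absurd (Or.inr (Finset.mem_biUnion.2 ⟨K, hK, h'⟩)) ha
      · rwa [N.invol] at h'
  omega

/-- parity of the cut -/
theorem card_bd_mod_two {X : Finset V} (hX : X ⊆ B.A) {P : Finset (Finset V)} (hP : P ⊆ B.D) :
    (N.bd (X ∪ P.biUnion id)).card % 2 = (X.card + P.card) % 2 := by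
  rw [N.bd_card_mod_two, Finset.card_union_of_disjoint, Finset.card_biUnion]
  · have : (∑ K ∈ P, (id K : Finset V).card) % 2 = P.card % 2 := by
      rw [Finset.card_eq_sum_ones, Finset.sum_nat_mod, Finset.sum_nat_mod P 2 (fun _ => 1)]
      congr 1
      refine Finset.sum_congr rfl fun K hK => ?_
      obtain ⟨m, hm⟩ := B.odd K (hP hK)
      simp only [id]
      omega
    omega
  · intro K hK L hL hKL
    exact B.disj K (hP hK) L (hP hL) hKL
  · exact Finset.disjoint_left.2 fun v hv hv' => B.mem_biUnion_notMem_A hP hv' (hX hv)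

/-- (4e) a piece with exactly five legs is a single vertex -/
theorem card_eq_one_of_k_eq_five (hN : MinCx N) {K : Finset V} (hK : K ∈ B.D)
    (hk : B.k K = 5) : K.card = 1 := by
  by_contra hne
  obtain ⟨m, hm⟩ := B.odd K hK
  refine hN.V_contract (S := K) (by omega) hk fun b hb => ?_
  refine B.real_node hK (Or.inl ?_)
  rw [Finset.card_eq_one]
  refine ⟨b, ?_⟩
  ext h
  simp only [Finset.mem_filter, decide_eq_true_eq, Finset.mem_singleton]
  constructor
  · exact fun h' => h'.2
  · rintro rfl; exact ⟨hb, rfl⟩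

/-- (4e) no parallel edges to a piece with exactly five legs -/
theorem e_le_one (hN : MinCx N) {K : Finset V} (hK : K ∈ B.D) (hk : B.k K = 5) {a : V}
    (ha : a ∈ B.A) : N.e a K ≤ 1 := by
  obtain ⟨v, rfl⟩ := Finset.card_eq_one.1 (B.card_eq_one_of_k_eq_five hN hK hk)
  have hav : a ≠ v := by
    rintro rfl
    exact Finset.disjoint_left.1 (B.disjA _ hK) (Finset.mem_singleton_self a) ha
  refine hN.no_parallel hav fun i hi => ?_
  -- all five half-edges at `v` are partners of boundary half-edges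
  have himg : (N.bd {v}).image N.σ = (univ : Finset (Fin 5)).image fun i => (v, i) := by
    refine Finset.eq_of_subset_of_card_le ?_ ?_
    · intro h hh
      obtain ⟨b, hb, rfl⟩ := Finset.mem_image.1 hh
      have := (Finset.mem_filter.1 hb).2.2
      rw [Finset.mem_singleton] at this
      refine Finset.mem_image.2 ⟨(N.σ b).2, Finset.mem_univ _, ?_⟩
      rw [← this]
    · have hσ : Function.Injective N.σ := fun h h' heq => by rw [← N.invol h, heq, N.invol]
      have hv : Function.Injective (fun i : Fin 5 => (v, i)) := fun i j hij => by simpa using hij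
      rw [Finset.card_image_of_injective _ hσ, Finset.card_image_of_injective _ hv]
      have : (N.bd {v}).card = 5 := hk
      rw [this]
      simp
  have hmem : (v, i) ∈ (N.bd {v}).image N.σ := by
    rw [himg]
    exact Finset.mem_image.2 ⟨i, Finset.mem_univ _, rfl⟩
  obtain ⟨b, hb, hbσ⟩ := Finset.mem_image.1 hmem
  have hb1 := (Finset.mem_filter.1 hb).2.1
  rw [← hbσ, N.invol] at hi
  exact hb1 (by rw [hi]; exact Finset.mem_singleton_self v)

/-- cuts of size at most 3 do not occur for `X ∪ ⋃ P` if `P ≠ ∅` and `|P| ≤ |X| ≤ |P|+1` -/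
theorem four_le_bd (hN : MinCx N) {X : Finset V} (hX : X ⊆ B.A) {P : Finset (Finset V)}
    (hP : P ⊆ B.D) (hne : P.Nonempty) (h1 : P.card ≤ X.card) (h2 : X.card ≤ P.card + 1) :
    4 ≤ (N.bd (X ∪ P.biUnion id)).card := by
  set S := X ∪ P.biUnion id with hS
  have hPc : 1 ≤ P.card := hne.card_pos
  have hPu : (P.biUnion id).Nonempty := by
    obtain ⟨K, hK⟩ := hne
    obtain ⟨m, hm⟩ := B.odd K (hP hK)
    have : 0 < K.card := by omega
    obtain ⟨v, hv⟩ := Finset.card_pos.1 this
    exact ⟨v, Finset.mem_biUnion.2 ⟨K, hK, hv⟩⟩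
  have hdisj : Disjoint X (P.biUnion id) :=
    Finset.disjoint_left.2 fun v hv hv' => B.mem_biUnion_notMem_A hP hv' (hX hv)
  have hS2 : 2 ≤ S.card := by
    rw [hS, Finset.card_union_of_disjoint hdisj]
    have := hPu.card_pos
    omega
  have hSne : S.Nonempty := Finset.card_pos.1 (by omega)
  -- members of `D` outside `P` are in the complement
  have hout : ∀ K ∈ B.D, K ∉ P → K ⊆ Sᶜ := by
    intro K hK hKP v hv
    rw [Finset.mem_compl, hS, Finset.mem_union]
    rintro (h | h)
    · exact Finset.disjoint_left.1 (B.disjA K hK) hv (hX h)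
    · obtain ⟨L, hL, hvL⟩ := Finset.mem_biUnion.1 h
      have hKL : K ≠ L := by rintro rfl; exact hKP hL
      exact Finset.disjoint_left.1 (B.disj K hK L (hP hL) hKL) hv hvL
  have hAout : B.A \ X ⊆ Sᶜ := by
    intro v hv
    rw [Finset.mem_sdiff] at hv
    rw [Finset.mem_compl, hS, Finset.mem_union]
    rintro (h | h)
    · exact hv.2 h
    · exact B.mem_biUnion_notMem_A hP h hv.1
  have hAc : (B.A \ X).card + X.card = B.A.card := Finset.card_sdiff_add_card_eq_card hX
  have hDc : (B.D \ P).card + P.card = B.D.card := Finset.card_sdiff_add_card_eq_card hP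
  have hlt := B.card_lt
  have hDP : (B.D \ P).Nonempty := by rw [← Finset.card_pos]; omega
  obtain ⟨K₀, hK₀⟩ := hDP
  rw [Finset.mem_sdiff] at hK₀
  have hK₀s := hout K₀ hK₀.1 hK₀.2
  have hK₀c : 1 ≤ K₀.card := by
    obtain ⟨m, hm⟩ := B.odd K₀ hK₀.1
    omega
  have hScne : Sᶜ.Nonempty := by
    rw [← Finset.card_pos]
    exact lt_of_lt_of_le hK₀c (Finset.card_le_card hK₀s)
  have hb0 := hN.bd_card_ne_zero hSne hScne
  have hb2 := hN.bd_card_ne_two hSne hScne
  have hpar := B.card_bd_mod_two hX hP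
  rw [← hS] at hpar
  by_cases hXP : X.card = P.card
  · omega
  -- the complement has at least two vertices
  have hSc2 : 2 ≤ Sᶜ.card := by
    by_contra hlt2
    have hSc1 : Sᶜ.card = 1 := by
      have := hScne.card_pos
      omega
    have hKeq : ∀ K ∈ B.D \ P, K = Sᶜ := by
      intro K hK
      rw [Finset.mem_sdiff] at hK
      refine Finset.eq_of_subset_of_card_le (hout K hK.1 hK.2) ?_
      obtain ⟨m, hm⟩ := B.odd K hK.1
      omega
    have hD1 : (B.D \ P).card ≤ 1 := by
      rw [Finset.card_le_one]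
      intro K hK L hL
      rw [hKeq K hK, hKeq L hL]
    omega
  have hb1 := hN.bd_card_ne_one hS2 hSc2
  have hb3 := hN.bd_card_ne_three hS2 hSc2
  omega

end Barrier

end OneFour
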