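import Mathlib

/-! # {1,4}-factors of 5-regular graphs: basic definitions (MP_39c6f6_co)

A *net* is a 5-regular multigraph (loops and parallel edges allowed), given by a fixed-point-free
involution on the half-edges `V × Fin 5`. -/

set_option autoImplicit false

namespace OneFour

open Finset

/-- Half-edges. -/
abbrev HE (V : Type) := V × Fin 5

/-- Number of true half-edges at `v`. -/
def deg {V : Type} (x : HE V → Bool) (v : V) : ℕ :=
  (univ.filter fun i : Fin 5 => x (v, i) = true).card

/-- The labelling is good at `v`: exactly one or exactly four true half-edges. -/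
def vok {V : Type} (x : HE V → Bool) (v : V) : Prop := deg x v = 1 ∨ deg x v = 4

/-- A net: a fixed-point-free involution on the half-edges. -/
structure Net (V : Type) where
  σ : HE V → HE V
  invol : ∀ h, σ (σ h) = h
  ne : ∀ h, σ h ≠ h

/-- The net has a labelling that is constant on edges and good at every vertex. -/
def Net.Solvable {V : Type} (N : Net V) : Prop :=
  ∃ x : HE V → Bool, (∀ h, x (N.σ h) = x h) ∧ ∀ v, vok x v

/-- A counterexample with the smallest number of vertices. -/
structure MinCx {V : Type} [Fintype V] (N : Net V) : Prop where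
  not_solvable : ¬ N.Solvable
  smaller : ∀ (V' : Type) [Fintype V'] (N' : Net V'),
    Fintype.card V' < Fintype.card V → N'.Solvable

variable {V : Type} [Fintype V] [DecidableEq V]

/-- Outer boundary half-edges of `S`: the vertex is outside `S`, the partner is in `S`. -/
def Net.bd (N : Net V) (S : Finset V) : Finset (HE V) :=
  univ.filter fun h => h.1 ∉ S ∧ (N.σ h).1 ∈ S

/-- The boundary pattern `p` (evaluated on the outer boundary half-edges) is realised in `S`. -/
def Net.Real (N : Net V) (S : Finset V) (p : HE V → Bool) : Prop :=
  ∃ y : HE V → Bool, (∀ v ∈ S, vok y v) ∧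
    (∀ h : HE V, h.1 ∈ S → (N.σ h).1 ∈ S → y (N.σ h) = y h) ∧
    ∀ h ∈ N.bd S, y (N.σ h) = p h

/-- Number of edges from the vertex `a` into the vertex set `K`. -/
def Net.e (N : Net V) (a : V) (K : Finset V) : ℕ :=
  (univ.filter fun i : Fin 5 => (N.σ (a, i)).1 ∈ K).card

end OneFour
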