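import Mathlib

/-! # Subgraphs of a bipartite multigraph with prescribed degrees -/

set_option autoImplicit false

namespace OneFour

open Finset

variable {α δ E : Type} [Fintype α] [Fintype δ] [Fintype E] [DecidableEq α] [DecidableEq δ]
  [DecidableEq E]

/-- degree of `a` in the edge set `F` with respect to the end map `s` -/
def dg {α E : Type} [DecidableEq α] (s : E → α) (F : Finset E) (a : α) : ℕ :=
  (F.filter fun e => s e = a).card

/-- The bipartite incidence relation between the demands and the edges. -/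
def drel (src : E → α) (tgt : E → δ) {f : α → ℕ} {k : δ → ℕ} :
    (Σ a, Fin (f a)) ⊕ (Σ d, Fin (k d)) → E → Prop
  | .inl p, e => src e = p.1
  | .inr q, e => tgt e = q.1

instance (src : E → α) (tgt : E → δ) {f : α → ℕ} {k : δ → ℕ} (l e) :
    Decidable (drel (f := f) (k := k) src tgt l e) := by
  cases l <;> (unfold drel; infer_instance)

/-- Hall's theorem for the demands `f` and the surplus edges at the `δ`-side. -/
theorem hall_left (src : E → α) (tgt : E → δ) (f : α → ℕ) (c : δ → ℕ)
    (h : ∀ X : Finset α, ∑ a ∈ X, f a ≤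
      ∑ d, min (c d) (univ.filter fun e => src e ∈ X ∧ tgt e = d).card) :
    ∃ φ : (Σ a, Fin (f a)) ⊕ (Σ d, Fin ((univ.filter fun e => tgt e = d).card - c d)) → E,
      Function.Injective φ ∧ ∀ l, drel src tgt l (φ l) := by
  have key : ∀ s : Finset ((Σ a, Fin (f a)) ⊕
      (Σ d, Fin ((univ.filter fun e => tgt e = d).card - c d))),
      s.card ≤ (s.biUnion fun l => univ.filter fun e => drel src tgt l e).card := by
    intro s
    let X : Finset α := univ.filter fun a => ∃ i, Sum.inl ⟨a, i⟩ ∈ s
    let Y : Finset δ := univ.filter fun d => ∃ j, Sum.inr ⟨d, j⟩ ∈ s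
    have h1 : s.card ≤ ∑ a ∈ X, f a + ∑ d ∈ Y, ((univ.filter fun e => tgt e = d).card - c d) := by
      have h2 : s ⊆ (X.sigma fun _ => univ).disjSum (Y.sigma fun _ => univ) := by
        intro l hl
        rw [mem_disjSum]
        rcases l with ⟨a, i⟩ | ⟨d, j⟩
        · left
          exact ⟨⟨a, i⟩, mem_sigma.2 ⟨mem_filter.2 ⟨mem_univ _, i, hl⟩, mem_univ _⟩, rfl⟩
        · right
          exact ⟨⟨d, j⟩, mem_sigma.2 ⟨mem_filter.2 ⟨mem_univ _, j, hl⟩, mem_univ _⟩, rfl⟩
      refine (card_le_card h2).trans (le_of_eq ?_)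
      rw [card_disjSum, card_sigma, card_sigma]
      simp
    have h3 : (univ.filter fun e => src e ∈ X ∨ tgt e ∈ Y) ⊆
        s.biUnion fun l => univ.filter fun e => drel src tgt l e := by
      intro e he
      rw [mem_biUnion]
      rcases (mem_filter.1 he).2 with h4 | h4
      · obtain ⟨i, hi⟩ := (mem_filter.1 h4).2
        exact ⟨_, hi, mem_filter.2 ⟨mem_univ _, rfl⟩⟩
      · obtain ⟨j, hj⟩ := (mem_filter.1 h4).2
        exact ⟨_, hj, mem_filter.2 ⟨mem_univ _, rfl⟩⟩
    refine h1.trans (le_trans ?_ (card_le_card h3))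
    rw [card_eq_sum_card_fiberwise (f := tgt) (t := univ) (fun _ _ => mem_coe.2 (mem_univ _))]
    have h5 := h X
    have h6 : ∑ d ∈ Y, ((univ.filter fun e => tgt e = d).card - c d) =
        ∑ d, if d ∈ Y then (univ.filter fun e => tgt e = d).card - c d else 0 := by
      rw [sum_ite_mem, univ_inter]
    rw [h6]
    refine (add_le_add_left h5 _).trans ?_
    rw [← sum_add_distrib]
    refine sum_le_sum fun d _ => ?_
    rw [filter_filter]
    by_cases hd : d ∈ Y
    · have h7 : (univ.filter fun e => (src e ∈ X ∨ tgt e ∈ Y) ∧ tgt e = d) =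
          univ.filter fun e => tgt e = d := by
        ext e
        simp only [mem_filter, mem_univ, true_and, and_iff_right_iff_imp]
        rintro rfl
        exact Or.inr hd
      have h8 : (univ.filter fun e => src e ∈ X ∧ tgt e = d).card ≤
          (univ.filter fun e => tgt e = d).card :=
        card_le_card fun e he => mem_filter.2 ⟨mem_univ _, (mem_filter.1 he).2.2⟩
      rw [h7, if_pos hd]
      omega
    · rw [if_neg hd, add_zero]
      refine (min_le_right _ _).trans (card_le_card fun e he => ?_)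
      obtain ⟨-, h9, h10⟩ := mem_filter.1 he
      exact mem_filter.2 ⟨mem_univ _, Or.inl h9, h10⟩
  obtain ⟨φ, h1, h2⟩ := (all_card_le_biUnion_card_iff_exists_injective _).1 key
  exact ⟨φ, h1, fun l => (mem_filter.1 (h2 l)).2⟩

/-- (GF) demands `f` on the `α`-side, capacities `c` on the `δ`-side. -/
theorem exists_degree (src : E → α) (tgt : E → δ) (f : α → ℕ) (c : δ → ℕ)
    (h : ∀ X : Finset α, ∑ a ∈ X, f a ≤
      ∑ d, min (c d) (univ.filter fun e => src e ∈ X ∧ tgt e = d).card) :
    ∃ F : Finset E, (∀ a, dg src F a = f a) ∧ ∀ d, dg tgt F d ≤ c d := by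
  obtain ⟨φ, h1, h2⟩ := hall_left src tgt f c h
  refine ⟨univ.image fun p => φ (.inl p), fun a => ?_, fun d => ?_⟩
  · have h3 : ((univ.image fun p => φ (.inl p)).filter fun e => src e = a) =
        (univ : Finset (Fin (f a))).image fun i => φ (.inl ⟨a, i⟩) := by
      ext e
      simp only [mem_filter, mem_image, mem_univ, true_and]
      constructor
      · rintro ⟨⟨⟨a', i⟩, rfl⟩, h4⟩
        have h5 : src (φ (.inl ⟨a', i⟩)) = a' := h2 (.inl ⟨a', i⟩)
        rw [h5] at h4
        subst h4
        exact ⟨i, rfl⟩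
      · rintro ⟨i, rfl⟩
        exact ⟨⟨_, rfl⟩, h2 (.inl ⟨a, i⟩)⟩
    rw [dg, h3, card_image_of_injective, card_univ, Fintype.card_fin]
    intro i j hij
    have := h1 hij
    simpa using this
  · have h3 : ((univ.image fun p => φ (.inl p)).filter fun e => tgt e = d).card +
        ((univ : Finset (Fin ((univ.filter fun e => tgt e = d).card - c d))).image
          fun j => φ (.inr ⟨d, j⟩)).card ≤ (univ.filter fun e => tgt e = d).card := by
      rw [← card_union_of_disjoint]
      · refine card_le_card (union_subset ?_ ?_)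
        · intro e he
          exact mem_filter.2 ⟨mem_univ _, (mem_filter.1 he).2⟩
        · intro e he
          obtain ⟨j, -, rfl⟩ := mem_image.1 he
          exact mem_filter.2 ⟨mem_univ _, h2 (.inr ⟨d, j⟩)⟩
      · rw [disjoint_left]
        intro e he he'
        obtain ⟨j, -, rfl⟩ := mem_image.1 he'
        obtain ⟨p, -, h5⟩ := mem_image.1 (mem_filter.1 he).1
        have := h1 h5
        simp at this
    rw [card_image_of_injective (f := fun j => φ (.inr ⟨d, j⟩)), card_univ,
      Fintype.card_fin] at h3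
    · rw [dg]
      omega
    · intro i j hij
      have := h1 hij
      simpa using this

omit [Fintype E] [DecidableEq E] in
theorem card_eq_sum_dg (src : E → α) (F : Finset E) : ∑ a, dg src F a = F.card :=
  (card_eq_sum_card_fiberwise (f := src) (t := univ) (fun _ _ => mem_coe.2 (mem_univ _))).symm

/-- (GF=) exact degrees on both sides. -/
theorem exists_degree_eq (src : E → α) (tgt : E → δ) (f : α → ℕ) (g : δ → ℕ)
    (hfg : ∑ a, f a = ∑ d, g d)
    (h : ∀ X : Finset α, ∑ a ∈ X, f a ≤
      ∑ d, min (g d) (univ.filter fun e => src e ∈ X ∧ tgt e = d).card) :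
    ∃ F : Finset E, (∀ a, dg src F a = f a) ∧ ∀ d, dg tgt F d = g d := by
  obtain ⟨F, h1, h2⟩ := exists_degree src tgt f g h
  refine ⟨F, h1, ?_⟩
  have h3 : ∑ d, dg tgt F d = ∑ d, g d := by
    rw [card_eq_sum_dg, ← hfg, ← card_eq_sum_dg src F]
    exact sum_congr rfl fun a _ => h1 a
  exact fun d => (sum_eq_sum_iff_of_le fun d _ => h2 d).1 h3 d (mem_univ d)

/-- Vertices on the alternating paths starting at an uncovered mandatory vertex. -/
inductive MDT {L E : Type} (L0 : L → Prop) (φ : L → E) (ψ : E → L) : L → Prop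
  | base {l : L} (h : L0 l) (h' : ∀ e, ψ e ≠ l) : MDT L0 φ ψ l
  | step {l : L} (h : MDT L0 φ ψ l) (h' : L0 l) : MDT L0 φ ψ (ψ (φ l))

/-- Mendelsohn-Dulmage. -/
theorem mendelsohn_dulmage {L E : Type} (L0 : L → Prop) (rel : L → E → Prop) (φ : L → E)
    (hφ : ∀ l l', L0 l → L0 l' → φ l = φ l' → l = l') (hφr : ∀ l, L0 l → rel l (φ l))
    (ψ : E → L) (hψ : Function.Injective ψ) (hψr : ∀ e, rel (ψ e) e) :
    ∃ θ : E → L, Function.Injective θ ∧ (∀ e, rel (θ e) e) ∧ ∀ l, L0 l → ∃ e, θ e = l := by
  classical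
  let θ : E → L := fun e =>
    if h : ∃ l, MDT L0 φ ψ l ∧ L0 l ∧ φ l = e then Classical.choose h else ψ e
  have hθ1 : ∀ l, MDT L0 φ ψ l → L0 l → θ (φ l) = l := by
    intro l h1 h2
    have h3 : ∃ l', MDT L0 φ ψ l' ∧ L0 l' ∧ φ l' = φ l := ⟨l, h1, h2, rfl⟩
    have h4 : θ (φ l) = Classical.choose h3 := dif_pos h3
    rw [h4]
    obtain ⟨-, h5, h6⟩ := Classical.choose_spec h3
    exact hφ _ _ h5 h2 h6
  have hθ2 : ∀ e, (¬ ∃ l, MDT L0 φ ψ l ∧ L0 l ∧ φ l = e) → θ e = ψ e := fun e h => dif_neg h
  have hmix : ∀ l e, MDT L0 φ ψ l → L0 l → (¬ ∃ l, MDT L0 φ ψ l ∧ L0 l ∧ φ l = e) →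
      ψ e ≠ l := by
    intro l e h1 h2 h3 h4
    cases h1 with
    | base h5 h6 => exact h6 e h4
    | @step l' h5 h6 => exact h3 ⟨l', h5, h6, (hψ h4).symm⟩
  refine ⟨θ, ?_, ?_, ?_⟩
  · intro e e' h
    by_cases he : ∃ l, MDT L0 φ ψ l ∧ L0 l ∧ φ l = e <;>
      by_cases he' : ∃ l, MDT L0 φ ψ l ∧ L0 l ∧ φ l = e'
    · obtain ⟨l, h1, h2, rfl⟩ := he
      obtain ⟨l', h3, h4, rfl⟩ := he'
      rw [hθ1 l h1 h2, hθ1 l' h3 h4] at h
      rw [h]
    · obtain ⟨l, h1, h2, rfl⟩ := he
      rw [hθ1 l h1 h2, hθ2 e' he'] at h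
      exact absurd h.symm (hmix l e' h1 h2 he')
    · obtain ⟨l, h1, h2, rfl⟩ := he'
      rw [hθ1 l h1 h2, hθ2 e he] at h
      exact absurd h (hmix l e h1 h2 he)
    · rw [hθ2 e he, hθ2 e' he'] at h
      exact hψ h
  · intro e
    by_cases he : ∃ l, MDT L0 φ ψ l ∧ L0 l ∧ φ l = e
    · obtain ⟨l, h1, h2, rfl⟩ := he
      rw [hθ1 l h1 h2]
      exact hφr l h2
    · rw [hθ2 e he]
      exact hψr e
  · intro l hl
    by_cases h1 : MDT L0 φ ψ l
    · exact ⟨φ l, hθ1 l h1 hl⟩
    · by_cases h2 : ∃ e, ψ e = l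
      · obtain ⟨e, rfl⟩ := h2
        refine ⟨e, hθ2 e ?_⟩
        rintro ⟨l', h3, h4, rfl⟩
        exact h1 (MDT.step h3 h4)
      · exact absurd (MDT.base hl fun e he => h2 ⟨e, he⟩) h1

/-- Hall's theorem for the edges: every edge is matched to a demand or to a free place at its
end in `δ`. -/
theorem hall_right (src : E → α) (tgt : E → δ) (f : α → ℕ) (R : Finset δ)
    (hL : ∀ P ⊆ R, P.card ≤
      ∑ a ∈ univ.filter (fun a => ∃ e, src e = a ∧ tgt e ∈ P), f a) :
    ∃ ψ : E → (Σ a, Fin (f a)) ⊕
        (Σ d, Fin ((univ.filter fun e => tgt e = d).card - if d ∈ R then 1 else 0)),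
      Function.Injective ψ ∧ ∀ e, drel src tgt (ψ e) e := by
  have key : ∀ S : Finset E, S.card ≤ (S.biUnion fun e => univ.filter fun l :
      (Σ a, Fin (f a)) ⊕
        (Σ d, Fin ((univ.filter fun e => tgt e = d).card - if d ∈ R then 1 else 0)) =>
      drel src tgt l e).card := by
    intro S
    let P : Finset δ := R.filter fun d => d ∈ S.image tgt ∧ ∀ e, tgt e = d → e ∈ S
    have h1 : ((S.image src).sigma fun a => (univ : Finset (Fin (f a)))).disjSum
        ((S.image tgt).sigma fun d => (univ : Finset (Fin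
          ((univ.filter fun e => tgt e = d).card - if d ∈ R then 1 else 0)))) ⊆
        S.biUnion fun e => univ.filter fun l => drel src tgt l e := by
      intro l hl
      rw [mem_biUnion]
      rcases mem_disjSum.1 hl with ⟨⟨a, i⟩, h2, rfl⟩ | ⟨⟨d, j⟩, h2, rfl⟩
      · obtain ⟨e, he, h3⟩ := mem_image.1 (mem_sigma.1 h2).1
        exact ⟨e, he, mem_filter.2 ⟨mem_univ _, h3⟩⟩
      · obtain ⟨e, he, h3⟩ := mem_image.1 (mem_sigma.1 h2).1
        exact ⟨e, he, mem_filter.2 ⟨mem_univ _, h3⟩⟩
    refine le_trans ?_ (card_le_card h1)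
    rw [card_disjSum, card_sigma, card_sigma]
    simp only [card_univ, Fintype.card_fin]
    have h2 : P.card ≤ ∑ a ∈ S.image src, f a := by
      refine (hL P (filter_subset _ _)).trans (sum_le_sum_of_subset ?_)
      intro a ha
      obtain ⟨-, e, rfl, he⟩ := mem_filter.1 ha
      exact mem_image_of_mem _ ((mem_filter.1 he).2.2 e rfl)
    have h3 : S.card ≤ P.card +
        ∑ d ∈ S.image tgt, ((univ.filter fun e => tgt e = d).card - if d ∈ R then 1 else 0) := by
      have h4 : P.card = ∑ d ∈ S.image tgt, if d ∈ P then 1 else 0 := by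
        rw [sum_ite_mem, sum_const, smul_eq_mul, mul_one]
        congr 1
        ext d
        simp only [mem_inter]
        exact ⟨fun h => ⟨(mem_filter.1 h).2.1, h⟩, fun h => h.2⟩
      rw [h4, ← sum_add_distrib, card_eq_sum_card_image tgt S]
      refine sum_le_sum fun d hd => ?_
      have h5 : (S.filter fun e => tgt e = d).card ≤ (univ.filter fun e => tgt e = d).card :=
        card_le_card (filter_subset_filter _ (subset_univ _))
      obtain ⟨e0, he0, hd0⟩ := mem_image.1 hd
      have h6 : 1 ≤ (S.filter fun e => tgt e = d).card :=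
        card_pos.2 ⟨e0, mem_filter.2 ⟨he0, hd0⟩⟩
      by_cases hR : d ∈ R
      · by_cases hP : d ∈ P
        · rw [if_pos hR, if_pos hP]
          omega
        · rw [if_pos hR, if_neg hP]
          have h7 : ∃ e, tgt e = d ∧ e ∉ S := by
            by_contra hc
            refine hP (mem_filter.2 ⟨hR, hd, fun e he => ?_⟩)
            by_contra he'
            exact hc ⟨e, he, he'⟩
          obtain ⟨e, he, he'⟩ := h7
          have h8 : (S.filter fun e => tgt e = d).card < (univ.filter fun e => tgt e = d).card := by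
            refine card_lt_card (Finset.ssubset_iff_subset_ne.2
              ⟨filter_subset_filter _ (subset_univ _), fun hc => ?_⟩)
            have : e ∈ univ.filter fun e => tgt e = d := mem_filter.2 ⟨mem_univ _, he⟩
            rw [← hc] at this
            exact he' (mem_filter.1 this).1
          omega
      · rw [if_neg hR]
        omega
    omega
  obtain ⟨ψ, h1, h2⟩ := (all_card_le_biUnion_card_iff_exists_injective _).1 key
  exact ⟨ψ, h1, fun e => (mem_filter.1 (h2 e)).2⟩

/-- (MD) demands `f` on the `α`-side, capacities `c ≥ 1` on the `δ`-side and every `d ∈ R` has to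
be covered. -/
theorem exists_degree_both (src : E → α) (tgt : E → δ) (f : α → ℕ) (c : δ → ℕ)
    (hc : ∀ d, 1 ≤ c d) (R : Finset δ)
    (hU : ∀ X : Finset α, ∑ a ∈ X, f a ≤
      ∑ d, min (c d) (univ.filter fun e => src e ∈ X ∧ tgt e = d).card)
    (hL : ∀ P ⊆ R, P.card ≤
      ∑ a ∈ univ.filter (fun a => ∃ e, src e = a ∧ tgt e ∈ P), f a) :
    ∃ F : Finset E, (∀ a, dg src F a = f a) ∧ (∀ d, dg tgt F d ≤ c d) ∧
      ∀ d ∈ R, 1 ≤ dg tgt F d := by
  classical
  obtain ⟨φ0, hφ1, hφ2⟩ := hall_left src tgt f c hU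
  obtain ⟨ψ, hψ1, hψ2⟩ := hall_right src tgt f R hL
  let L0 : (Σ a, Fin (f a)) ⊕
      (Σ d, Fin ((univ.filter fun e => tgt e = d).card - if d ∈ R then 1 else 0)) → Prop :=
    fun l => match l with
      | .inl _ => True
      | .inr q => (q.2 : ℕ) < (univ.filter fun e => tgt e = q.1).card - c q.1
  by_cases hE : Nonempty E
  swap
  · -- no edges: everything is trivial
    refine ⟨∅, fun a => ?_, fun d => by simp [dg], fun d hd => ?_⟩
    · have h1 := hU {a}
      have h2 : ∀ d, (univ.filter fun e => src e ∈ ({a} : Finset α) ∧ tgt e = d).card = 0 :=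
        fun d => card_eq_zero.2 (eq_empty_of_forall_notMem fun e _ => hE ⟨e⟩)
      simp only [h2, sum_singleton, Nat.min_zero, sum_const_zero] at h1
      simp [dg]
      omega
    · have h1 := hL {d} (singleton_subset_iff.2 hd)
      have h2 : (univ.filter fun a => ∃ e, src e = a ∧ tgt e ∈ ({d} : Finset δ)) = ∅ :=
        eq_empty_of_forall_notMem fun a ha => by
          obtain ⟨-, e, -⟩ := mem_filter.1 ha
          exact hE ⟨e⟩
      rw [h2] at h1
      simp at h1
  obtain ⟨e0⟩ := hE
  let φ : (Σ a, Fin (f a)) ⊕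
      (Σ d, Fin ((univ.filter fun e => tgt e = d).card - if d ∈ R then 1 else 0)) → E :=
    fun l => match l with
      | .inl p => φ0 (.inl p)
      | .inr q => if h : (q.2 : ℕ) < (univ.filter fun e => tgt e = q.1).card - c q.1 then
          φ0 (.inr ⟨q.1, ⟨q.2, h⟩⟩) else e0
  obtain ⟨θ, hθ1, hθ2, hθ3⟩ := mendelsohn_dulmage L0 (drel src tgt) φ
    (by
      rintro (p | ⟨d, j⟩) (p' | ⟨d', j'⟩) h1 h2 h3
      · have := hφ1 h3
        simpa using this
      · exfalso
        have h2' : (j' : ℕ) < (univ.filter fun e => tgt e = d').card - c d' := h2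
        simp only [φ, dif_pos h2'] at h3
        have := hφ1 h3
        simp at this
      · exfalso
        have h1' : (j : ℕ) < (univ.filter fun e => tgt e = d).card - c d := h1
        simp only [φ, dif_pos h1'] at h3
        have := hφ1 h3
        simp at this
      · have h2' : (j' : ℕ) < (univ.filter fun e => tgt e = d').card - c d' := h2
        have h1' : (j : ℕ) < (univ.filter fun e => tgt e = d).card - c d := h1
        simp only [φ, dif_pos h1', dif_pos h2'] at h3
        have h4 := hφ1 h3
        simp only [Sum.inr.injEq, Sigma.mk.injEq] at h4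
        obtain ⟨rfl, h5⟩ := h4
        have h6 := eq_of_heq h5
        simp only [Fin.mk.injEq] at h6
        rw [Fin.ext h6])
    (by
      rintro (p | ⟨d, j⟩) h1
      · exact hφ2 (.inl p)
      · have h1' : (j : ℕ) < (univ.filter fun e => tgt e = d).card - c d := h1
        simp only [φ, dif_pos h1']
        exact hφ2 (.inr ⟨d, ⟨j, h1'⟩⟩))
    ψ hψ1 hψ2
  have hleft : ∀ p, ∃ e, θ e = .inl p := fun p => hθ3 _ trivial
  choose θl hθl using hleft
  have hd : ∀ d, dg tgt (univ.filter fun e => (θ e).isLeft) d +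
      (univ.filter fun e => (θ e).isRight ∧ tgt e = d).card =
        (univ.filter fun e => tgt e = d).card := by
    intro d
    rw [dg, filter_filter, ← card_union_of_disjoint]
    · congr 1
      ext e
      simp only [mem_union, mem_filter, mem_univ, true_and]
      rcases θ e with p | q <;> simp
    · rw [disjoint_left]
      intro e he he'
      simp only [mem_filter, mem_univ, true_and] at he he'
      rcases hh : θ e with p | q <;> simp [hh] at he he'
  have hup : ∀ d, (univ.filter fun e => (θ e).isRight ∧ tgt e = d).card ≤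
      (univ.filter fun e => tgt e = d).card - if d ∈ R then 1 else 0 := by
    intro d
    have h1 : ((univ.filter fun e => (θ e).isRight ∧ tgt e = d).image θ) ⊆
        (univ : Finset (Fin ((univ.filter fun e => tgt e = d).card -
          if d ∈ R then 1 else 0))).image fun j => Sum.inr ⟨d, j⟩ := by
      intro l hl
      obtain ⟨e, he, rfl⟩ := mem_image.1 hl
      obtain ⟨-, h2, h3⟩ := mem_filter.1 he
      rcases hh : θ e with p | ⟨d', j⟩
      · simp [hh] at h2
      · have h4 := hθ2 e
        rw [hh] at h4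
        have h5 : tgt e = d' := h4
        rw [h3] at h5
        subst h5
        exact mem_image_of_mem _ (mem_univ _)
    have h2 := card_le_card h1
    rw [card_image_of_injective _ hθ1] at h2
    refine h2.trans (card_image_le.trans ?_)
    simp
  have hlow : ∀ d, (univ.filter fun e => tgt e = d).card - c d ≤
      (univ.filter fun e => (θ e).isRight ∧ tgt e = d).card := by
    intro d
    have hle : (univ.filter fun e => tgt e = d).card - c d ≤
        (univ.filter fun e => tgt e = d).card - if d ∈ R then 1 else 0 := by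
      have := hc d
      split_ifs <;> omega
    have h1 : (univ : Finset (Fin ((univ.filter fun e => tgt e = d).card - c d))).image
        (fun j => (Sum.inr ⟨d, Fin.castLE hle j⟩ : (Σ a, Fin (f a)) ⊕
      (Σ d, Fin ((univ.filter fun e => tgt e = d).card - if d ∈ R then 1 else 0)))) ⊆
        ((univ.filter fun e => (θ e).isRight ∧ tgt e = d).image θ) := by
      intro l hl
      obtain ⟨j, -, rfl⟩ := mem_image.1 hl
      obtain ⟨e, he⟩ := hθ3 (.inr ⟨d, Fin.castLE hle j⟩) (by simp [L0])
      refine mem_image.2 ⟨e, mem_filter.2 ⟨mem_univ _, ?_, ?_⟩, he⟩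
      · rw [he]; rfl
      · have := hθ2 e
        rw [he] at this
        exact this
    have h2 := card_le_card h1
    rw [card_image_of_injective _ hθ1, card_image_of_injective, card_univ,
      Fintype.card_fin] at h2
    · exact h2
    · intro i j hij
      simp only [Sum.inr.injEq, Sigma.mk.injEq, heq_eq_eq, true_and] at hij
      exact Fin.castLE_injective _ hij
  refine ⟨univ.filter fun e => (θ e).isLeft, fun a => ?_, fun d => ?_, fun d hdR => ?_⟩
  · have h1 : ((univ.filter fun e => (θ e).isLeft).filter fun e => src e = a) =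
        (univ : Finset (Fin (f a))).image fun i => θl ⟨a, i⟩ := by
      ext e
      simp only [mem_filter, mem_image, mem_univ, true_and]
      constructor
      · rintro ⟨h2, h3⟩
        rcases hh : θ e with ⟨a', i⟩ | q
        · have h4 := hθ2 e
          rw [hh] at h4
          have h5 : src e = a' := h4
          rw [h3] at h5
          subst h5
          exact ⟨i, hθ1 ((hθl _).trans hh.symm)⟩
        · simp [hh] at h2
      · rintro ⟨i, rfl⟩
        have h2 := hθl ⟨a, i⟩
        have h3 := hθ2 (θl ⟨a, i⟩)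
        rw [h2] at h3
        exact ⟨by rw [h2]; rfl, h3⟩
    rw [dg, h1, card_image_of_injective, card_univ, Fintype.card_fin]
    intro i j hij
    have h2 := hθl ⟨a, i⟩
    have h3 := hθl ⟨a, j⟩
    simp only at hij
    rw [hij, h3] at h2
    simpa using h2.symm
  · have h1 := hd d
    have h2 := hlow d
    omega
  · have h1 := hd d
    have h2 := hup d
    rw [if_pos hdR] at h2
    have h3 : 1 ≤ (univ.filter fun e => tgt e = d).card := by
      have h4 := hL {d} (singleton_subset_iff.2 hdR)
      rw [card_singleton] at h4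
      by_contra hcon
      have h5 : (univ.filter fun a => ∃ e, src e = a ∧ tgt e ∈ ({d} : Finset δ)) = ∅ := by
        refine eq_empty_of_forall_notMem fun a ha => ?_
        obtain ⟨-, e, -, he⟩ := mem_filter.1 ha
        exact hcon (card_pos.2 ⟨e, mem_filter.2 ⟨mem_univ _, mem_singleton.1 he⟩⟩)
      rw [h5] at h4
      simp at h4
    omega

end OneFour
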