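import Pool.Agent.Lib.MP_39c6f6_co.NoCx

/-! # From nets to simple graphs (job SIMPLE) -/

set_option autoImplicit false

namespace OneFour

open Finset

/-- Every net is solvable. -/
theorem net_solvable {V : Type} [Fintype V] (N : Net V) : N.Solvable := by
  have key : ∀ (n : ℕ) (V : Type) [Fintype V], Fintype.card V = n → ∀ N : Net V, N.Solvable := by
    intro n
    induction n using Nat.strong_induction_on with
    | _ n ih =>
      intro V _ hV N
      by_contra hN
      exact no_minCx N ⟨hN, fun V' _ N' hlt => ih _ (hV ▸ hlt) V' rfl N'⟩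
  exact key _ V rfl N

section Simple

variable {V : Type} [Fintype V] [DecidableEq V] (G : SimpleGraph V) [DecidableRel G.Adj]

omit [DecidableEq V] in
private theorem netOf_aux (e : ∀ v : V, Fin 5 ≃ {u // u ∈ G.neighborFinset v}) {u v : V} {j : Fin 5}
    (h : (e u j : V) = v) {i : Fin 5} (hw : (e v i : V) = u)
    (hm : u ∈ G.neighborFinset (e u j : V)) : (e (e u j : V)).symm ⟨u, hm⟩ = i := by
  subst h
  rw [Equiv.symm_apply_eq]
  exact Subtype.ext hw.symm

/-- The net of a 5-regular simple graph, from an ordering of the neighbours of each vertex. -/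
private def netOf (e : ∀ v : V, Fin 5 ≃ {u // u ∈ G.neighborFinset v}) : Net V where
  σ h := ((e h.1 h.2 : V), (e (e h.1 h.2 : V)).symm
    ⟨h.1, by
      have := (e h.1 h.2).2
      rw [SimpleGraph.mem_neighborFinset] at this ⊢
      exact this.symm⟩)
  invol h := by
    obtain ⟨v, i⟩ := h
    refine Prod.ext ?_ ?_
    · simp
    · exact netOf_aux G e (by simp) rfl _
  ne h := by
    obtain ⟨v, i⟩ := h
    intro hh
    have h1 := congrArg Prod.fst hh
    simp only at h1
    have h2 := (e v i).2
    rw [SimpleGraph.mem_neighborFinset, h1] at h2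
    exact G.irrefl h2

end Simple

/-- Theorem for simple graphs. (job SIMPLE) -/
theorem simple_graph (V : Type) [Fintype V] [DecidableEq V] (G : SimpleGraph V)
    [DecidableRel G.Adj] (hG : G.IsRegularOfDegree 5) :
    ∃ H : SimpleGraph V, H ≤ G ∧
      ∀ v : V, (H.neighborSet v).ncard = 1 ∨ (H.neighborSet v).ncard = 4 := by
  have e : ∀ v : V, Fin 5 ≃ {u // u ∈ G.neighborFinset v} := fun v =>
    (Finset.equivFinOfCardEq (by rw [SimpleGraph.card_neighborFinset_eq_degree]; exact hG v)).symm
  obtain ⟨x, hx, hv⟩ := net_solvable (netOf G e)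
  have hadj : ∀ v i, G.Adj v (e v i) := fun v i => by
    have := (e v i).2
    rwa [SimpleGraph.mem_neighborFinset] at this
  have hsymm : ∀ v u, (∃ i, (e v i : V) = u ∧ x (v, i) = true) →
      ∃ i, (e u i : V) = v ∧ x (u, i) = true := by
    rintro v u ⟨i, rfl, hi⟩
    refine ⟨((netOf G e).σ (v, i)).2, ?_, ?_⟩
    · simp [netOf]
    · have := hx (v, i)
      rw [hi] at this
      exact this
  have hirr : ∀ v, ¬ ∃ i, (e v i : V) = v ∧ x (v, i) = true := by
    rintro v ⟨i, h, -⟩
    have := hadj v i
    rw [h] at this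
    exact G.irrefl this
  refine ⟨{ Adj := fun v u => ∃ i, (e v i : V) = u ∧ x (v, i) = true, symm := ⟨hsymm⟩,
            loopless := ⟨hirr⟩ }, ?_, ?_⟩
  · rintro v u ⟨i, rfl, -⟩
    exact hadj v i
  · intro v
    have h2 : {u | ∃ i, (e v i : V) = u ∧ x (v, i) = true} =
        (fun i => (e v i : V)) '' {i | x (v, i) = true} := by
      ext u
      simp only [Set.mem_image, Set.mem_ofPred_eq]
      constructor
      · rintro ⟨i, h, h'⟩; exact ⟨i, h', h⟩
      · rintro ⟨i, h, h'⟩; exact ⟨i, h', h⟩
    have h1 : {u | ∃ i, (e v i : V) = u ∧ x (v, i) = true}.ncard = deg x v := by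
      rw [h2, Set.ncard_image_of_injective _ (fun i j hij => (e v).injective (Subtype.ext hij)),
        deg, ← Set.ncard_coe_finset]
      congr 1
      ext i
      simp
    have h3 := hv v
    rw [vok, ← h1] at h3
    exact h3

end OneFour
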