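import Pool.Agent.Lib.MP_39c6f6_co.Barrier

/-! # Realising patterns with the barrier structure (job GLUE) -/

set_option autoImplicit false

namespace OneFour

open Finset

variable {V : Type} [Fintype V] [DecidableEq V] {N : Net V}

namespace Barrier

variable (B : Barrier N)

/-- the number of legs of a piece -/
def k (_B : Barrier N) (K : Finset V) : ℕ := (N.bd K).card

/-- the vertex set of a family of pieces -/
def un (_B : Barrier N) (P : Finset (Finset V)) : Finset V := P.biUnion id

/-- neighbours in `A` of a family of pieces -/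
def nbr (P : Finset (Finset V)) : Finset V := B.A.filter fun a => ∃ K ∈ P, 1 ≤ N.e a K

/-- number of half-edges at `X` that do not go into the pieces of `P` -/
def out (_B : Barrier N) (X : Finset V) (P : Finset (Finset V)) : ℕ :=
  (univ.filter fun h : HE V => h.1 ∈ X ∧ (N.σ h).1 ∉ P.biUnion id).card

/-- The legs of a piece are attached to `A`. -/
theorem bd_mem_A {K : Finset V} (hK : K ∈ B.D) {h : HE V} (hh : h ∈ N.bd K) : h.1 ∈ B.A := by
  obtain ⟨h1, h2⟩ := Net.mem_bd.1 hh
  rcases B.closed K hK (N.σ h) h2 with h3 | h3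
  · rw [N.invol] at h3
    exact absurd h3 h1
  · rwa [N.invol] at h3

/-- The number of legs is odd. -/
theorem odd_k {K : Finset V} (hK : K ∈ B.D) : Odd (B.k K) := by
  have h1 := N.bd_card_mod_two K
  have h2 := Nat.odd_iff.1 (B.odd K hK)
  rw [Nat.odd_iff, k]
  omega

/-- Counting legs of `K` by their end in `A`. -/
theorem sum_e_eq {K : Finset V} (hK : K ∈ B.D) : ∑ a ∈ B.A, N.e a K = B.k K := by
  unfold k
  have hmaps : ∀ h ∈ N.bd K, h.1 ∈ B.A := fun h hh => B.bd_mem_A hK hh
  rw [Finset.card_eq_sum_card_fiberwise hmaps]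
  refine Finset.sum_congr rfl fun a ha => ?_
  unfold Net.e
  have haK : a ∉ K := fun h => (Finset.disjoint_left.1 (B.disjA K hK)) h ha
  have himg : ((N.bd K).filter fun h => h.1 = a) =
      (univ.filter fun i : Fin 5 => (N.σ (a, i)).1 ∈ K).image (fun i => (a, i)) := by
    ext h
    simp only [mem_filter, mem_image, mem_univ, true_and, Net.mem_bd]
    constructor
    · rintro ⟨⟨_, h2⟩, rfl⟩
      exact ⟨h.2, h2, rfl⟩
    · rintro ⟨i, h2, rfl⟩
      exact ⟨⟨haK, h2⟩, rfl⟩
  rw [himg, card_image_of_injective]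
  intro i j hij
  exact (Prod.mk.inj hij).2

/-- the pattern true at exactly one leg -/
theorem real_node_one {K : Finset V} (hK : K ∈ B.D) {p : HE V → Bool}
    (hp : ((N.bd K).filter fun h => p h = true).card = 1) : N.Real K p := by
  classical
  obtain ⟨h0, hh0⟩ := card_eq_one.1 hp
  have h0mem : h0 ∈ (N.bd K).filter fun h => p h = true := by rw [hh0]; exact mem_singleton_self _
  obtain ⟨h0bd, h0p⟩ := mem_filter.1 h0mem
  obtain ⟨h0K, h0σ⟩ := Net.mem_bd.1 h0bd
  have huniq : ∀ h ∈ N.bd K, p h = true → h = h0 := by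
    intro h h1 h2
    have : h ∈ (N.bd K).filter fun h => p h = true := mem_filter.2 ⟨h1, h2⟩
    rw [hh0] at this
    exact mem_singleton.1 this
  obtain ⟨M, hM1, hM2⟩ := B.crit K hK (N.σ h0).1 h0σ
  have hMσ : ∀ h, N.σ h ∈ M ↔ h ∈ M := by
    intro h
    constructor
    · intro h1
      have := (hM1 _ h1).2
      rwa [N.invol] at this
    · intro h1; exact (hM1 _ h1).2
  refine ⟨fun h => decide (h ∈ M ∨ h = N.σ h0), ?_, ?_, ?_⟩
  · intro v hv
    left
    unfold deg
    by_cases hvv : v = (N.σ h0).1
    · have h1 := hM2 v hv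
      rw [if_pos hvv, card_eq_zero] at h1
      have h2 : (univ.filter fun i : Fin 5 =>
          decide ((v, i) ∈ M ∨ (v, i) = N.σ h0) = true) = {(N.σ h0).2} := by
        ext i
        simp only [mem_filter, mem_univ, true_and, decide_eq_true_eq, mem_singleton]
        constructor
        · rintro (h3 | h3)
          · have : (v, i) ∈ M.filter fun h => h.1 = v := mem_filter.2 ⟨h3, rfl⟩
            rw [h1] at this
            exact absurd this (notMem_empty _)
          · rw [← h3]
        · intro h3
          right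
          rw [hvv, h3]
      rw [h2, card_singleton]
    · have h1 := hM2 v hv
      rw [if_neg hvv] at h1
      rw [← h1]
      have h2 : (M.filter fun h => h.1 = v) =
          (univ.filter fun i : Fin 5 => decide ((v, i) ∈ M ∨ (v, i) = N.σ h0) = true).image
            (fun i => (v, i)) := by
        ext h
        simp only [mem_filter, mem_image, mem_univ, true_and, decide_eq_true_eq]
        constructor
        · rintro ⟨h3, rfl⟩
          exact ⟨h.2, Or.inl h3, rfl⟩
        · rintro ⟨i, h3 | h3, rfl⟩
          · exact ⟨h3, rfl⟩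
          · exact absurd (congrArg Prod.fst h3) hvv
      rw [h2, card_image_of_injective]
      intro i j hij
      exact (Prod.mk.inj hij).2
  · intro h h1 h2
    have e1 : ¬ N.σ h = N.σ h0 := by
      intro e
      have : h = h0 := by rw [← N.invol h, e, N.invol]
      rw [this] at h1
      exact h0K h1
    have e2 : ¬ h = N.σ h0 := by
      intro e
      rw [e, N.invol] at h2
      exact h0K h2
    simp only [hMσ, e1, e2, or_false]
  · intro h hh
    obtain ⟨hK1, hK2⟩ := Net.mem_bd.1 hh
    have e1 : h ∉ M := fun e => hK1 (hM1 _ e).1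
    have e2 : N.σ h = N.σ h0 ↔ h = h0 := by
      constructor
      · intro e
        rw [← N.invol h, e, N.invol]
      · intro e; rw [e]
    simp only [hMσ, e1, false_or, e2]
    by_cases e : h = h0
    · subst e
      simp [h0p]
    · have : p h = false := by
        by_contra hc
        exact e (huniq h hh (by simpa using hc))
      simp [e, this]

/-- (NR) a pattern with exactly one true leg or exactly one false leg is realised in the piece -/
theorem real_node {K : Finset V} (hK : K ∈ B.D) {p : HE V → Bool}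
    (hp : ((N.bd K).filter fun h => p h = true).card = 1 ∨
      ((N.bd K).filter fun h => p h = false).card = 1) : N.Real K p := by
  rcases hp with hp | hp
  · exact B.real_node_one hK hp
  · have h1 : N.Real K (fun h => !p h) := by
      refine B.real_node_one hK ?_
      rw [← hp]
      congr 1
      ext h
      simp
    exact h1.compl.congr fun b _ => by simp

/-- **Gluing lemma.** `u` gives the values at the half-edges of `X`, `p` the outside pattern. -/
theorem glue {X : Finset V} (hX : X ⊆ B.A) {P : Finset (Finset V)} (hP : P ⊆ B.D)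
    {u p : HE V → Bool} (hu : ∀ a ∈ X, vok u a)
    (hXX : ∀ h : HE V, h.1 ∈ X → (N.σ h).1 ∈ X → u (N.σ h) = u h)
    (hXB : ∀ b ∈ N.bd (X ∪ P.biUnion id), (N.σ b).1 ∈ X → u (N.σ b) = p b)
    (hK : ∀ K ∈ P,
      ((N.bd K).filter fun h => (if h.1 ∈ X then u h else p h) = true).card = 1 ∨
      ((N.bd K).filter fun h => (if h.1 ∈ X then u h else p h) = false).card = 1) :
    N.Real (X ∪ P.biUnion id) p := by
  classical
  have hr : ∀ K, ∃ y : HE V → Bool, K ∈ P → (∀ v ∈ K, vok y v) ∧
      (∀ h : HE V, h.1 ∈ K → (N.σ h).1 ∈ K → y (N.σ h) = y h) ∧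
      ∀ h ∈ N.bd K, y (N.σ h) = if h.1 ∈ X then u h else p h := by
    intro K
    by_cases hKP : K ∈ P
    · obtain ⟨y, hy⟩ := B.real_node (hP hKP) (hK K hKP)
      exact ⟨y, fun _ => hy⟩
    · exact ⟨fun _ => false, fun h => absurd h hKP⟩
  choose f hf using hr
  have hdisjX : ∀ K ∈ P, ∀ v ∈ K, v ∉ X := fun K h v hv hvX =>
    (Finset.disjoint_left.1 (B.disjA K (hP h))) hv (hX hvX)
  have huni : ∀ K ∈ P, ∀ L ∈ P, ∀ v, v ∈ K → v ∈ L → K = L := by
    intro K hKP L hLP v h1 h2
    by_contra hne
    exact (Finset.disjoint_left.1 (B.disj K (hP hKP) L (hP hLP) hne)) h1 h2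
  let y : HE V → Bool := fun h => if h.1 ∈ X then u h else
    decide (∃ K ∈ P, h.1 ∈ K ∧ f K h = true)
  have hyX : ∀ h : HE V, h.1 ∈ X → y h = u h := fun h hh => if_pos hh
  have hyK : ∀ K ∈ P, ∀ h : HE V, h.1 ∈ K → y h = f K h := by
    intro K hKP h hh
    have h1 : y h = decide (∃ K ∈ P, h.1 ∈ K ∧ f K h = true) := if_neg (hdisjX K hKP _ hh)
    rw [h1]
    cases hfk : f K h with
    | true => exact decide_eq_true ⟨K, hKP, hh, hfk⟩
    | false =>
      refine decide_eq_false ?_
      rintro ⟨L, hL, h2, h3⟩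
      have := huni K hKP L hL h.1 hh h2
      subst this
      rw [hfk] at h3
      exact absurd h3 (by decide)
  have hbdK : ∀ K ∈ P, ∀ h : HE V, h.1 ∈ X → (N.σ h).1 ∈ K → h ∈ N.bd K := by
    intro K hKP h h1 h2
    exact Net.mem_bd.2 ⟨fun h3 => hdisjX K hKP _ h3 h1, h2⟩
  have hmem : ∀ v, v ∈ X ∪ P.biUnion id ↔ v ∈ X ∨ ∃ K ∈ P, v ∈ K := by
    intro v; simp [mem_union, mem_biUnion]
  refine ⟨y, ?_, ?_, ?_⟩
  · intro v hv
    rcases (hmem v).1 hv with hv | ⟨K, hKP, hv⟩
    · exact (vok_congr fun i => (hyX (v, i) hv)).2 (hu v hv)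
    · exact (vok_congr fun i => (hyK K hKP (v, i) hv)).2 ((hf K hKP).1 v hv)
  · intro h h1 h2
    rcases (hmem _).1 h1 with h1 | ⟨K, hKP, h1⟩
    · rcases (hmem _).1 h2 with h2 | ⟨L, hLP, h2⟩
      · rw [hyX _ h1, hyX _ h2]
        exact hXX h h1 h2
      · rw [hyX _ h1, hyK L hLP _ h2, (hf L hLP).2.2 h (hbdK L hLP h h1 h2), if_pos h1]
    · rcases (hmem _).1 h2 with h2 | ⟨L, hLP, h2⟩
      · have h3 : N.σ h ∈ N.bd K := hbdK K hKP (N.σ h) h2 (by rw [N.invol]; exact h1)
        have h4 := (hf K hKP).2.2 (N.σ h) h3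
        rw [N.invol, if_pos h2] at h4
        rw [hyK K hKP _ h1, hyX _ h2, h4]
      · have h3 : (N.σ h).1 ∈ K := by
          rcases B.closed K (hP hKP) h h1 with h3 | h3
          · exact h3
          · exact absurd h3 (Finset.disjoint_left.1 (B.disjA L (hP hLP)) h2)
        rw [hyK K hKP _ h1, hyK K hKP _ h3]
        exact (hf K hKP).2.1 h h1 h3
  · intro b hb
    obtain ⟨hb1, hb2⟩ := Net.mem_bd.1 hb
    have hbX : b.1 ∉ X := fun h => hb1 ((hmem _).2 (Or.inl h))
    rcases (hmem _).1 hb2 with h2 | ⟨K, hKP, h2⟩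
    · rw [hyX _ h2]
      exact hXB b hb h2
    · have hbK : b ∈ N.bd K := Net.mem_bd.2 ⟨fun h => hb1 ((hmem _).2 (Or.inr ⟨K, hKP, h⟩)), h2⟩
      rw [hyK K hKP _ h2, (hf K hKP).2.2 b hbK, if_neg hbX]

/-- **Global gluing.** A suitable set `F` of legs gives a solution. -/
theorem solve (F : Finset (HE V)) (hF : ∀ h ∈ F, h.1 ∈ B.A ∧ (N.σ h).1 ∉ B.A)
    (ha : ∀ a ∈ B.A, (F.filter fun h => h.1 = a).card = 1 ∨
      (F.filter fun h => h.1 = a).card = 4)
    (hK : ∀ K ∈ B.D, (N.bd K ∩ F).card = 1 ∨ (N.bd K ∩ F).card + 1 = B.k K) :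
    N.Solvable := by
  classical
  have huniv : B.A ∪ B.D.biUnion id = univ := by
    ext v
    simp only [mem_union, mem_biUnion, id_eq, mem_univ, iff_true]
    by_cases h : v ∈ B.A
    · exact Or.inl h
    · obtain ⟨K, h1, h2⟩ := B.cover v h
      exact Or.inr ⟨K, h1, h2⟩
  have hreal : N.Real (B.A ∪ B.D.biUnion id) (fun _ => false) := by
    refine B.glue (u := fun h => decide (h ∈ F)) (subset_refl _) (subset_refl _) ?_ ?_ ?_ ?_
    · intro a haA
      have h1 : deg (fun h : HE V => decide (h ∈ F)) a = (F.filter fun h => h.1 = a).card := by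
        unfold deg
        have h2 : (F.filter fun h => h.1 = a) =
            (univ.filter fun i : Fin 5 => decide ((a, i) ∈ F) = true).image
              (fun i => (a, i)) := by
          ext h
          simp only [mem_filter, mem_image, mem_univ, true_and, decide_eq_true_eq]
          constructor
          · rintro ⟨h3, rfl⟩
            exact ⟨h.2, h3, rfl⟩
          · rintro ⟨i, h3, rfl⟩
            exact ⟨h3, rfl⟩
        rw [h2, card_image_of_injective]
        intro i j hij
        exact (Prod.mk.inj hij).2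
      unfold vok
      rw [h1]
      exact ha a haA
    · intro h h1 h2
      have e1 : h ∉ F := fun e => (hF h e).2 h2
      have e2 : N.σ h ∉ F := by
        intro e
        have := (hF _ e).2
        rw [N.invol] at this
        exact this h1
      simp [e1, e2]
    · intro b hb
      rw [huniv] at hb
      exact absurd (mem_univ _) (Net.mem_bd.1 hb).1
    · intro K hKD
      have h1 : ((N.bd K).filter fun h : HE V =>
          (if h.1 ∈ B.A then decide (h ∈ F) else false) = true) = N.bd K ∩ F := by
        ext h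
        simp only [mem_filter, mem_inter]
        constructor
        · rintro ⟨h2, h3⟩
          rw [if_pos (B.bd_mem_A hKD h2)] at h3
          exact ⟨h2, by simpa using h3⟩
        · rintro ⟨h2, h3⟩
          rw [if_pos (B.bd_mem_A hKD h2)]
          exact ⟨h2, by simpa using h3⟩
      have h2 : ((N.bd K).filter fun h : HE V =>
          (if h.1 ∈ B.A then decide (h ∈ F) else false) = false) = N.bd K \ F := by
        ext h
        simp only [mem_filter, mem_sdiff]
        constructor
        · rintro ⟨h2, h3⟩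
          rw [if_pos (B.bd_mem_A hKD h2)] at h3
          exact ⟨h2, by simpa using h3⟩
        · rintro ⟨h2, h3⟩
          rw [if_pos (B.bd_mem_A hKD h2)]
          exact ⟨h2, by simpa using h3⟩
      rw [h1, h2]
      rcases hK K hKD with h3 | h3
      · exact Or.inl h3
      · right
        have h4 := card_sdiff_add_card_inter (N.bd K) F
        unfold k at h3
        omega
  rw [huniv] at hreal
  obtain ⟨y, h1, h2, _⟩ := hreal
  exact ⟨y, fun h => h2 h (mem_univ _) (mem_univ _), fun v => h1 v (mem_univ _)⟩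

end Barrier

end OneFour
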