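import Pool.Agent.Lib.MP_39c6f6_co.Glue
import Pool.Agent.Lib.MP_39c6f6_co.Degree

/-! # The degree lemmas for the legs of a barrier (job LEGS) -/

set_option autoImplicit false

namespace OneFour

open Finset

variable {V : Type} [Fintype V] [DecidableEq V] {N : Net V}

namespace Barrier

variable (B : Barrier N)

private theorem legs_card_he (N : Net V) (X K : Finset V) :
    (univ.filter fun h : HE V => h.1 ∈ X ∧ (N.σ h).1 ∈ K).card = ∑ a ∈ X, N.e a K := by
  rw [Finset.card_filter, Fintype.sum_prod_type]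
  simp only [Net.e, Finset.card_filter]
  rw [← Finset.sum_subset (Finset.subset_univ X)]
  · refine Finset.sum_congr rfl fun a ha => Finset.sum_congr rfl fun i _ => ?_
    simp [ha]
  · intro a _ ha
    refine Finset.sum_eq_zero fun i _ => ?_
    simp [ha]

/-- the legs from `X` into `P` -/
private abbrev LegT (N : Net V) (X : Finset V) (P : Finset (Finset V)) : Type :=
  {h : HE V // h.1 ∈ X ∧ ∃ K ∈ P, h ∈ N.bd K}

private def lsrc {X : Finset V} {P : Finset (Finset V)} (h : LegT N X P) : {a // a ∈ X} :=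
  ⟨h.1.1, h.2.1⟩

private noncomputable def ltgt {X : Finset V} {P : Finset (Finset V)} (h : LegT N X P) :
    {K // K ∈ P} :=
  ⟨h.2.2.choose, h.2.2.choose_spec.1⟩

private theorem ltgt_mem {X : Finset V} {P : Finset (Finset V)} (h : LegT N X P) :
    h.1 ∈ N.bd (ltgt h).1 := h.2.2.choose_spec.2

include B in
private theorem ltgt_eq_iff {X : Finset V} (_hX : X ⊆ B.A) {P : Finset (Finset V)}
    (hP : P ⊆ B.D) (h : LegT N X P) (d : {K // K ∈ P}) :
    ltgt h = d ↔ (N.σ h.1).1 ∈ d.1 := by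
  have hm := ltgt_mem h
  rw [Net.mem_bd] at hm
  constructor
  · rintro rfl
    exact hm.2
  · intro hd
    by_contra hne
    have hne' : (ltgt h).1 ≠ d.1 := fun hh => hne (Subtype.ext hh)
    have := B.disj _ (hP (ltgt h).2) _ (hP d.2) hne'
    exact (Finset.disjoint_left.1 this) hm.2 hd

/-- the set of half-edges belonging to a set of legs -/
private def lF {X : Finset V} {P : Finset (Finset V)} (F : Finset (LegT N X P)) :
    Finset (HE V) :=
  F.map ⟨fun h => h.1, fun _ _ h => Subtype.ext h⟩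

private theorem mem_lF {X : Finset V} {P : Finset (Finset V)} (F : Finset (LegT N X P))
    (h : HE V) : h ∈ lF F ↔ ∃ e ∈ F, e.1 = h := by
  unfold lF
  exact Finset.mem_map

private theorem card_lF_src {X : Finset V} {P : Finset (Finset V)} (F : Finset (LegT N X P))
    {a : V} (ha : a ∈ X) : ((lF F).filter fun h => h.1 = a).card = dg lsrc F ⟨a, ha⟩ := by
  unfold lF dg
  rw [Finset.filter_map, Finset.card_map]
  congr 1
  refine Finset.filter_congr fun e _ => ?_
  change e.1.1 = a ↔ _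
  constructor
  · intro h
    exact Subtype.ext h
  · intro h
    exact congrArg Subtype.val h

include B in
private theorem card_lF_tgt {X : Finset V} (hX : X ⊆ B.A) {P : Finset (Finset V)}
    (hP : P ⊆ B.D) (F : Finset (LegT N X P))
    {K : Finset V} (hK : K ∈ P) : (N.bd K ∩ lF F).card = dg ltgt F ⟨K, hK⟩ := by
  have h1 : N.bd K ∩ lF F = (lF F).filter fun h => (N.σ h).1 ∈ K := by
    ext h
    simp only [Finset.mem_inter, Finset.mem_filter, Net.mem_bd]
    constructor
    · rintro ⟨⟨_, h2⟩, h3⟩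
      exact ⟨h3, h2⟩
    · rintro ⟨h3, h2⟩
      refine ⟨⟨fun h4 => ?_, h2⟩, h3⟩
      obtain ⟨e, _, rfl⟩ := (mem_lF F h).1 h3
      exact (Finset.disjoint_left.1 (B.disjA K (hP hK))) h4 (hX e.2.1)
  rw [h1]
  unfold lF dg
  rw [Finset.filter_map, Finset.card_map]
  congr 1
  refine Finset.filter_congr fun e _ => ?_
  rw [ltgt_eq_iff B hX hP]
  rfl

include B in
private theorem card_legs {X : Finset V} (hX : X ⊆ B.A) {P : Finset (Finset V)}
    (hP : P ⊆ B.D) (X' : Finset {a // a ∈ X}) (d : {K // K ∈ P}) :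
    (univ.filter fun e : LegT N X P => lsrc e ∈ X' ∧ ltgt e = d).card =
      ∑ a ∈ X'.map (Function.Embedding.subtype _), N.e a d.1 := by
  rw [← legs_card_he N (X'.map (Function.Embedding.subtype _)) d.1]
  refine Finset.card_bij (fun e _ => e.1) ?_ ?_ ?_
  · intro e he
    simp only [Finset.mem_filter, Finset.mem_univ, true_and, Finset.mem_map,
      Function.Embedding.coe_subtype] at he ⊢
    refine ⟨⟨lsrc e, he.1, rfl⟩, ?_⟩
    exact (ltgt_eq_iff B hX hP e d).1 he.2
  · intro e _ e' _ h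
    exact Subtype.ext h
  · intro h hh
    simp only [Finset.mem_filter, Finset.mem_univ, true_and, Finset.mem_map,
      Function.Embedding.coe_subtype] at hh
    obtain ⟨⟨a, ha, hah⟩, hd⟩ := hh
    have hhX : h.1 ∈ X := hah ▸ a.2
    have hbd : h ∈ N.bd d.1 := by
      rw [Net.mem_bd]
      refine ⟨fun h4 => ?_, hd⟩
      exact (Finset.disjoint_left.1 (B.disjA d.1 (hP d.2))) h4 (hX hhX)
    refine ⟨⟨h, hhX, d.1, d.2, hbd⟩, ?_, rfl⟩
    simp only [Finset.mem_filter, Finset.mem_univ, true_and]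
    refine ⟨?_, ?_⟩
    · have : lsrc (⟨h, hhX, d.1, d.2, hbd⟩ : LegT N X P) = a := Subtype.ext hah.symm
      rw [this]; exact ha
    · exact (ltgt_eq_iff B hX hP _ d).2 hd

private theorem sum_sub {α M : Type} [AddCommMonoid M] (s : Finset α) (f : α → M) :
    ∑ a : {a // a ∈ s}, f a.1 = ∑ a ∈ s, f a := by
  exact Finset.sum_coe_sort s f

private theorem sum_map_sub {α : Type} {s : Finset α} (t : Finset {a // a ∈ s}) (f : α → ℕ) :
    ∑ a ∈ t.map (Function.Embedding.subtype _), f a = ∑ a ∈ t, f a.1 := by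
  rw [Finset.sum_map]; rfl

private theorem map_sub_subset {α : Type} {s : Finset α} (t : Finset {a // a ∈ s}) :
    t.map (Function.Embedding.subtype _) ⊆ s := by
  intro a ha
  simp only [Finset.mem_map, Function.Embedding.coe_subtype] at ha
  obtain ⟨b, _, rfl⟩ := ha
  exact b.2

/-- (GF=), condition on subsets of `X`. `F` is a set of half-edges at `X` leading into `P`. -/
theorem exists_legs_X {X : Finset V} (hX : X ⊆ B.A) {P : Finset (Finset V)} (hP : P ⊆ B.D)
    (f : V → ℕ) (g : Finset V → ℕ) (hfg : ∑ a ∈ X, f a = ∑ K ∈ P, g K)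
    (h : ∀ X' ⊆ X, ∑ a ∈ X', f a ≤ ∑ K ∈ P, min (g K) (∑ a ∈ X', N.e a K)) :
    ∃ F : Finset (HE V), (∀ h ∈ F, h.1 ∈ X ∧ ∃ K ∈ P, h ∈ N.bd K) ∧
      (∀ a ∈ X, (F.filter fun h => h.1 = a).card = f a) ∧
      ∀ K ∈ P, (N.bd K ∩ F).card = g K := by
  obtain ⟨F, hF1, hF2⟩ := exists_degree_eq (E := LegT N X P) lsrc ltgt
    (fun a => f a.1) (fun K => g K.1)
    (by rw [sum_sub X f, sum_sub P g]; exact hfg)
    (by
      intro X'
      have h1 := h _ (map_sub_subset X')
      rw [sum_map_sub] at h1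
      refine h1.trans_eq ?_
      rw [← sum_sub P]
      refine Finset.sum_congr rfl fun K _ => ?_
      rw [card_legs B hX hP])
  refine ⟨lF F, ?_, ?_, ?_⟩
  · intro h hh
    obtain ⟨e, _, rfl⟩ := (mem_lF F h).1 hh
    exact e.2
  · intro a ha
    rw [card_lF_src F ha, hF1]
  · intro K hK
    rw [card_lF_tgt B hX hP F hK, hF2]

/-- (GF=), condition on subfamilies of `P`. -/
theorem exists_legs_D {X : Finset V} (hX : X ⊆ B.A) {P : Finset (Finset V)} (hP : P ⊆ B.D)
    (f : V → ℕ) (g : Finset V → ℕ) (hfg : ∑ a ∈ X, f a = ∑ K ∈ P, g K)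
    (h : ∀ P' ⊆ P, ∑ K ∈ P', g K ≤ ∑ a ∈ X, min (f a) (∑ K ∈ P', N.e a K)) :
    ∃ F : Finset (HE V), (∀ h ∈ F, h.1 ∈ X ∧ ∃ K ∈ P, h ∈ N.bd K) ∧
      (∀ a ∈ X, (F.filter fun h => h.1 = a).card = f a) ∧
      ∀ K ∈ P, (N.bd K ∩ F).card = g K := by
  obtain ⟨F, hF1, hF2⟩ := exists_degree_eq (E := LegT N X P) ltgt lsrc
    (fun K => g K.1) (fun a => f a.1)
    (by rw [sum_sub X f, sum_sub P g]; exact hfg.symm)
    (by
      intro P'
      have h1 := h _ (map_sub_subset P')
      rw [sum_map_sub] at h1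
      refine h1.trans_eq ?_
      rw [← sum_sub X]
      refine Finset.sum_congr rfl fun a _ => ?_
      congr 1
      have hcard : (univ.filter fun e : LegT N X P => ltgt e ∈ P' ∧ lsrc e = a).card =
          ∑ K ∈ P', (univ.filter fun e : LegT N X P => lsrc e ∈ ({a} : Finset _) ∧
            ltgt e = K).card := by
        rw [← Finset.card_biUnion]
        · congr 1
          ext e
          simp only [Finset.mem_filter, Finset.mem_univ, true_and, Finset.mem_biUnion,
            Finset.mem_singleton]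
          constructor
          · rintro ⟨h1, h2⟩
            exact ⟨_, h1, h2, rfl⟩
          · rintro ⟨K, h1, h2, h3⟩
            exact ⟨h3 ▸ h1, h2⟩
        · intro K _ L _ hKL
          rw [Function.onFun, Finset.disjoint_left]
          intro e he he'
          simp only [Finset.mem_filter, Finset.mem_univ, true_and] at he he'
          exact hKL (he.2.symm.trans he'.2)
      rw [hcard, sum_map_sub]
      refine Finset.sum_congr rfl fun K _ => ?_
      rw [card_legs B hX hP]
      simp)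
  refine ⟨lF F, ?_, ?_, ?_⟩
  · intro h hh
    obtain ⟨e, _, rfl⟩ := (mem_lF F h).1 hh
    exact e.2
  · intro a ha
    rw [card_lF_src F ha, hF2]
  · intro K hK
    rw [card_lF_tgt B hX hP F hK, hF1]

/-- (MD) -/
theorem exists_legs_both (f : V → ℕ) (c : Finset V → ℕ) (hc : ∀ K, 1 ≤ c K)
    {R : Finset (Finset V)} (hR : R ⊆ B.D)
    (hU : ∀ X ⊆ B.A, ∑ a ∈ X, f a ≤ ∑ K ∈ B.D, min (c K) (∑ a ∈ X, N.e a K))
    (hL : ∀ P ⊆ R, P.card ≤ ∑ a ∈ B.nbr P, f a) :
    ∃ F : Finset (HE V), (∀ h ∈ F, h.1 ∈ B.A ∧ (N.σ h).1 ∉ B.A) ∧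
      (∀ a ∈ B.A, (F.filter fun h => h.1 = a).card = f a) ∧
      (∀ K ∈ B.D, (N.bd K ∩ F).card ≤ c K) ∧ ∀ K ∈ R, 1 ≤ (N.bd K ∩ F).card := by
  have hX : B.A ⊆ B.A := Finset.Subset.refl _
  have hP : B.D ⊆ B.D := Finset.Subset.refl _
  obtain ⟨F, hF1, hF2, hF3⟩ := exists_degree_both (E := LegT N B.A B.D) lsrc ltgt
    (fun a => f a.1) (fun K => c K.1) (fun K => hc K.1)
    (R.subtype fun K => K ∈ B.D)
    (by
      intro X'
      have h1 := hU _ (map_sub_subset X')
      rw [sum_map_sub] at h1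
      refine h1.trans_eq ?_
      rw [← sum_sub B.D]
      refine Finset.sum_congr rfl fun K _ => ?_
      rw [card_legs B hX hP])
    (by
      intro P hPR
      have hPR' : P.map (Function.Embedding.subtype _) ⊆ R := by
        intro K hK
        simp only [Finset.mem_map, Function.Embedding.coe_subtype] at hK
        obtain ⟨L, hL, rfl⟩ := hK
        exact Finset.mem_subtype.1 (hPR hL)
      have h1 := hL _ hPR'
      rw [Finset.card_map] at h1
      refine h1.trans ?_
      have h2 : B.nbr (P.map (Function.Embedding.subtype _)) ⊆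
          (univ.filter (fun a : {a // a ∈ B.A} => ∃ e : LegT N B.A B.D,
            lsrc e = a ∧ ltgt e ∈ P)).map (Function.Embedding.subtype _) := by
        intro a ha
        unfold nbr at ha
        rw [Finset.mem_filter] at ha
        obtain ⟨haA, K, hK, hKe⟩ := ha
        simp only [Finset.mem_map, Function.Embedding.coe_subtype] at hK
        obtain ⟨L, hLP, rfl⟩ := hK
        unfold Net.e at hKe
        obtain ⟨i, hi⟩ := Finset.card_pos.1 hKe
        rw [Finset.mem_filter] at hi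
        have hbd : (a, i) ∈ N.bd L.1 := by
          rw [Net.mem_bd]
          refine ⟨fun h4 => ?_, hi.2⟩
          exact (Finset.disjoint_left.1 (B.disjA L.1 L.2)) h4 haA
        simp only [Finset.mem_map, Function.Embedding.coe_subtype, Finset.mem_filter,
          Finset.mem_univ, true_and]
        refine ⟨⟨a, haA⟩, ⟨⟨(a, i), haA, L.1, L.2, hbd⟩, rfl, ?_⟩, rfl⟩
        have : ltgt (⟨(a, i), haA, L.1, L.2, hbd⟩ : LegT N B.A B.D) = L :=
          (ltgt_eq_iff B hX hP _ L).2 hi.2
        rw [this]; exact hLP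
      calc ∑ a ∈ B.nbr (P.map (Function.Embedding.subtype _)), f a
          ≤ ∑ a ∈ (univ.filter (fun a : {a // a ∈ B.A} => ∃ e : LegT N B.A B.D,
            lsrc e = a ∧ ltgt e ∈ P)).map (Function.Embedding.subtype _), f a :=
            Finset.sum_le_sum_of_subset h2
        _ = _ := by rw [sum_map_sub])
  refine ⟨lF F, ?_, ?_, ?_, ?_⟩
  · intro h hh
    obtain ⟨e, _, rfl⟩ := (mem_lF F h).1 hh
    refine ⟨e.2.1, fun h4 => ?_⟩
    have hm := ltgt_mem e
    rw [Net.mem_bd] at hm
    exact (Finset.disjoint_left.1 (B.disjA _ (ltgt e).2)) hm.2 h4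
  · intro a ha
    rw [card_lF_src F ha, hF1]
  · intro K hK
    rw [card_lF_tgt B hX hP F hK]
    exact hF2 _
  · intro K hK
    rw [card_lF_tgt B hX hP F (hR hK)]
    exact hF3 _ (Finset.mem_subtype.2 hK)

end Barrier

end OneFour
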