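import Pool.Agent.Lib.MP_39c6f6_co.Count
import Pool.Agent.Lib.MP_39c6f6_co.Legs

/-! # (6.1) and (6.2) (job NBR) -/

set_option autoImplicit false

namespace OneFour

open Finset

variable {V : Type} [Fintype V] [DecidableEq V] {N : Net V}

namespace Barrier

variable (B : Barrier N)

private theorem mem_bd {S : Finset V} {h : HE V} :
    h ∈ N.bd S ↔ h.1 ∉ S ∧ (N.σ h).1 ∈ S := by
  simp [Net.bd]

private theorem mem_nbr {P : Finset (Finset V)} {a : V} :
    a ∈ B.nbr P ↔ a ∈ B.A ∧ ∃ K ∈ P, 1 ≤ N.e a K := by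
  simp [Barrier.nbr]

private theorem nbr_sub (P : Finset (Finset V)) : B.nbr P ⊆ B.A := filter_subset _ _

/-- all legs of the pieces of `P` are at `nbr P` -/
private theorem leg_mem_nbr {P : Finset (Finset V)} (hP : P ⊆ B.D) {K : Finset V} (hK : K ∈ P)
    {h : HE V} (hh : h ∈ N.bd K) : h.1 ∈ B.nbr P := by
  refine (B.mem_nbr).2 ⟨B.bd_mem_A (hP hK) hh, K, hK, ?_⟩
  unfold Net.e
  rw [Nat.one_le_iff_ne_zero, card_ne_zero]
  exact ⟨h.2, mem_filter.2 ⟨mem_univ _, (mem_bd.1 hh).2⟩⟩

private theorem e_eq_zero {P : Finset (Finset V)} {K : Finset V} (hK : K ∈ P)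
    {a : V} (haA : a ∈ B.A) (ha : a ∉ B.nbr P) : N.e a K = 0 := by
  by_contra h
  exact ha ((B.mem_nbr).2 ⟨haA, K, hK, Nat.one_le_iff_ne_zero.2 h⟩)

/-- no half-edges from the outside of `nbr P` to `P` -/
private theorem sum_out_eq_zero (P : Finset (Finset V)) :
    ∑ K ∈ P, ∑ a ∈ B.A \ B.nbr P, N.e a K = 0 := by
  refine sum_eq_zero fun K hK => sum_eq_zero fun a ha => ?_
  rw [mem_sdiff] at ha
  exact B.e_eq_zero hK ha.1 ha.2

private theorem k_cases {P : Finset (Finset V)} (hP : P ⊆ B.D) (h3 : ∀ K ∈ P, 3 ≤ B.k K)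
    {K : Finset V} (hK : K ∈ P) : B.k K = 3 ∨ 5 ≤ B.k K := by
  have h1 := h3 K hK
  obtain ⟨m, hm⟩ := B.odd_k (hP hK)
  omega

private theorem sum_k_ge {P : Finset (Finset V)} (hP : P ⊆ B.D) (h3 : ∀ K ∈ P, 3 ≤ B.k K) :
    5 * P.card ≤ ∑ K ∈ P, B.k K + 2 * (P.filter fun K => B.k K = 3).card := by
  rw [card_filter, mul_sum, ← sum_add_distrib, mul_comm, ← smul_eq_mul, ← sum_const]
  refine sum_le_sum fun K hK => ?_
  rcases B.k_cases hP h3 hK with h | h
  · rw [if_pos h]; omega
  · rw [if_neg (by omega)]; omega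

/-- (6.1) -/
theorem nbr_card_gt (hN : MinCx N) {P : Finset (Finset V)} (hP : P ⊆ B.D) (hne : P.Nonempty)
    (h3 : ∀ K ∈ P, 3 ≤ B.k K) (hT : (P.filter fun K => B.k K = 3).card ≤ 1) :
    P.card + 1 ≤ (B.nbr P).card := by
  by_contra hcon
  have h1 := B.out_add_sum_k (B.nbr_sub P) hP (subset_refl _)
  have h2 := B.sum_k_ge hP h3
  have h4 := B.card_bd_add (B.nbr_sub P) hP
  rw [B.sum_out_eq_zero] at h4
  have h5 := B.four_le_bd hN (B.nbr_sub P) hP hne (by omega) (by omega)
  omega

/-- Single-leg patterns: if `|N(P)| = |P|+1` and all legs of `P` are at `X = N(P)` then every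
pattern true exactly at the boundary half-edge `b` is realised in `X ∪ ⋃ P`.
Needed again in job THETA. -/
theorem real_single (hN : MinCx N) {P : Finset (Finset V)} (hP : P ⊆ B.D) (hne : P.Nonempty)
    (h3 : ∀ K ∈ P, 3 ≤ B.k K) (hT : (P.filter fun K => B.k K = 3).card ≤ 1)
    (heq : (B.nbr P).card = P.card + 1) {b : HE V} (hb : b ∈ N.bd (B.nbr P ∪ P.biUnion id)) :
    N.Real (B.nbr P ∪ P.biUnion id) (fun h => decide (h = b)) := by
  classical
  have hbS := mem_bd.1 hb
  have hbX : b.1 ∉ B.nbr P := fun h => hbS.1 (mem_union_left _ h)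
  have hbP : ∀ K ∈ P, b.1 ∉ K := fun K hK h =>
    hbS.1 (mem_union_right _ (mem_biUnion.2 ⟨K, hK, h⟩))
  -- the inner end is in `X`
  have hσX : (N.σ b).1 ∈ B.nbr P := by
    rcases mem_union.1 hbS.2 with h | h
    · exact h
    · exfalso
      obtain ⟨K, hK, hbK⟩ := mem_biUnion.1 h
      exact hbX (B.leg_mem_nbr hP hK (mem_bd.2 ⟨hbP K hK, hbK⟩))
  set a := (N.σ b).1 with ha
  -- pieces are disjoint from `A`
  have hKA : ∀ K ∈ P, ∀ v ∈ K, v ∉ B.nbr P := fun K hK v hv h =>
    (disjoint_left.1 (B.disjA K (hP hK)) hv) (B.nbr_sub P h)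
  obtain ⟨F, hF1, hF2, hF3⟩ := B.exists_legs_D (B.nbr_sub P) hP
    (fun x => if x = a then 0 else 1) (fun _ => 1) (by
      rw [sum_const, smul_eq_mul, mul_one]
      have : ∑ x ∈ B.nbr P, (if x = a then 0 else 1) = ((B.nbr P).erase a).card := by
        rw [card_eq_sum_ones, ← filter_ne', sum_filter]
        refine sum_congr rfl fun x _ => ?_
        by_cases h : x = a <;> simp [h]
      rw [this, card_erase_of_mem hσX, heq]
      rfl) (by
      intro P' hP'
      rw [sum_const, smul_eq_mul, mul_one]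
      rcases P'.eq_empty_or_nonempty with rfl | hne'
      · simp
      have h1 := B.nbr_card_gt hN (hP'.trans hP) hne' (fun K hK => h3 K (hP' hK))
        ((card_le_card (filter_subset_filter _ hP')).trans hT)
      have h2 : P'.card ≤ ((B.nbr P').erase a).card := by
        have := pred_card_le_card_erase (s := B.nbr P') (a := a)
        omega
      refine h2.trans ?_
      rw [card_eq_sum_ones]
      have hsub : (B.nbr P').erase a ⊆ B.nbr P := by
        intro x hx
        obtain ⟨hxA, K, hK, hxK⟩ := (B.mem_nbr).1 (mem_of_mem_erase hx)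
        exact (B.mem_nbr).2 ⟨hxA, K, hP' hK, hxK⟩
      refine le_trans (sum_le_sum fun x hx => ?_)
        (sum_le_sum_of_subset_of_nonneg hsub fun _ _ _ => Nat.zero_le _)
      obtain ⟨hxa, hx'⟩ := mem_erase.1 hx
      obtain ⟨hxA, K, hK, hxK⟩ := (B.mem_nbr).1 hx'
      rw [if_neg hxa]
      refine le_min le_rfl (hxK.trans ?_)
      exact single_le_sum (f := fun K => N.e x K) (fun _ _ => Nat.zero_le _) hK)
  have hFσ : ∀ h ∈ F, ∃ K ∈ P, (N.σ h).1 ∈ K := fun h hh => by
    obtain ⟨_, K, hK, hhK⟩ := hF1 h hh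
    exact ⟨K, hK, (mem_bd.1 hhK).2⟩
  have hσbF : N.σ b ∉ F := by
    intro h
    obtain ⟨K, hK, h1⟩ := hFσ _ h
    rw [N.invol] at h1
    exact hbP K hK h1
  refine B.glue (B.nbr_sub P) hP (u := fun h => decide (h ∈ F ∨ h = N.σ b)) ?_ ?_ ?_ ?_
  · -- degrees
    intro x hx
    left
    unfold deg
    have h1 := hF2 x hx
    have h2 : (univ.filter fun i : Fin 5 => decide ((x, i) ∈ F ∨ (x, i) = N.σ b) = true).card =
        (F.filter fun h => h.1 = x).card + (if x = a then 1 else 0) := by
      have e1 : (univ.filter fun i : Fin 5 => decide ((x, i) ∈ F ∨ (x, i) = N.σ b) = true) =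
          (univ.filter fun i : Fin 5 => (x, i) ∈ F) ∪
            (univ.filter fun i : Fin 5 => (x, i) = N.σ b) := by
        ext i; simp
      rw [e1, card_union_of_disjoint]
      · congr 1
        · refine card_bij (fun i _ => (x, i)) ?_ ?_ ?_
          · intro i hi
            exact mem_filter.2 ⟨(mem_filter.1 hi).2, rfl⟩
          · intro i _ i' _ h
            exact (Prod.mk.inj h).2
          · rintro ⟨y, i⟩ hy
            obtain ⟨h3, h4⟩ := mem_filter.1 hy
            simp only at h4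
            subst h4
            exact ⟨i, mem_filter.2 ⟨mem_univ _, h3⟩, rfl⟩
        · by_cases hxa : x = a
          · rw [if_pos hxa, card_eq_one]
            refine ⟨(N.σ b).2, ?_⟩
            ext i
            simp only [mem_filter, mem_univ, true_and, mem_singleton]
            constructor
            · intro h; rw [← h]
            · intro h; rw [h, hxa, ha]
          · rw [if_neg hxa, card_eq_zero, filter_eq_empty_iff]
            intro i _ h
            exact hxa (by rw [ha, ← h])
      · rw [disjoint_filter]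
        intro i _ h3 h4
        rw [h4] at h3
        exact hσbF h3
    rw [h2, h1]
    by_cases hxa : x = a <;> simp [hxa]
  · -- no true half-edges inside `X`
    intro h hX hσ
    have h1 : h ∉ F := fun hh => by
      obtain ⟨K, hK, h2⟩ := hFσ _ hh
      exact hKA K hK _ h2 hσ
    have h2 : N.σ h ∉ F := fun hh => by
      obtain ⟨K, hK, h2⟩ := hFσ _ hh
      rw [N.invol] at h2
      exact hKA K hK _ h2 hX
    have h3 : h ≠ N.σ b := fun hh => by
      rw [hh, N.invol] at hσ
      exact hbX hσ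
    have h4 : N.σ h ≠ N.σ b := fun hh => by
      have : h = b := by rw [← N.invol h, hh, N.invol]
      rw [this] at hX
      exact hbX hX
    simp [h1, h2, h3, h4]
  · -- boundary at `X`
    intro b' hb' _
    have hb'S := mem_bd.1 hb'
    have h1 : N.σ b' ∉ F := fun hh => by
      obtain ⟨K, hK, h2⟩ := hFσ _ hh
      rw [N.invol] at h2
      exact hb'S.1 (mem_union_right _ (mem_biUnion.2 ⟨K, hK, h2⟩))
    have h2 : (N.σ b' = N.σ b) ↔ b' = b :=
      ⟨fun hh => by rw [← N.invol b', hh, N.invol], fun hh => by rw [hh]⟩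
    simp [h1, h2]
  · -- pieces
    intro K hK
    left
    rw [← hF3 K hK]
    congr 1
    ext h
    rw [mem_filter, mem_inter]
    refine and_congr_right fun hh => ?_
    rw [if_pos (B.leg_mem_nbr hP hK hh)]
    have h1 : h ≠ N.σ b := fun h2 => by
      have h3 := (mem_bd.1 hh).2
      rw [h2, N.invol] at h3
      exact hbP K hK h3
    simp [h1]

/-- (6.2) and the 5-cut case of (6.4) -/
theorem nbr_card_eq_imp (hN : MinCx N) {P : Finset (Finset V)} (hP : P ⊆ B.D)
    (hne : P.Nonempty) (h3 : ∀ K ∈ P, 3 ≤ B.k K) (hT : (P.filter fun K => B.k K = 3).card ≤ 1)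
    (heq : (B.nbr P).card = P.card + 1) :
    (P.filter fun K => B.k K = 3).card = 1 ∧ (∀ K ∈ P, B.k K = 3 ∨ B.k K = 5) ∧
      (N.bd (B.nbr P ∪ P.biUnion id)).card = 7 ∧
      ∀ h : HE V, h.1 ∈ B.nbr P → (N.σ h).1 ∉ B.nbr P := by
  classical
  have h1 := B.out_add_sum_k (B.nbr_sub P) hP (subset_refl _)
  have h2 := B.sum_k_ge hP h3
  have h4 := B.card_bd_add (B.nbr_sub P) hP
  rw [B.sum_out_eq_zero] at h4
  have h5 := B.four_le_bd hN (B.nbr_sub P) hP hne (by omega) (by omega)
  have h6 := B.card_bd_mod_two (B.nbr_sub P) hP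
  have h7 : (N.bd (B.nbr P ∪ P.biUnion id)).card ≠ 5 := by
    intro h8
    refine hN.V_contract ?_ h8 (fun b hb => B.real_single hN hP hne h3 hT heq hb)
    have h9 : 2 ≤ (B.nbr P).card := by
      have := card_pos.2 hne
      omega
    exact h9.trans (card_le_card subset_union_left)
  have h8 : (N.bd (B.nbr P ∪ P.biUnion id)).card = 7 := by omega
  have h9 : (P.filter fun K => B.k K = 3).card = 1 := by omega
  refine ⟨h9, ?_, h8, ?_⟩
  · -- all other pieces have exactly 5 legs
    intro K hK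
    rcases B.k_cases hP h3 hK with h | h
    · exact Or.inl h
    · right
      by_contra hne5
      have h10 : 5 * P.card + 1 ≤ ∑ K ∈ P, B.k K + 2 * (P.filter fun K => B.k K = 3).card := by
        rw [card_filter, mul_sum, ← sum_add_distrib]
        have h11 : ∑ L ∈ P, (5 + if L = K then 1 else 0) = 5 * P.card + 1 := by
          rw [sum_add_distrib, sum_const, smul_eq_mul, sum_ite_eq' P K, if_pos hK, mul_comm]
        rw [← h11]
        refine sum_le_sum fun L hL => ?_
        by_cases hLK : L = K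
        · subst hLK
          rw [if_pos rfl]
          omega
        · rw [if_neg hLK]
          rcases B.k_cases hP h3 hL with h' | h'
          · rw [if_pos h']; omega
          · rw [if_neg (by omega)]; omega
      omega
  · -- no half-edges inside `X`
    intro h hX hσ
    have h10 : (univ.filter fun h : HE V => h.1 ∈ B.nbr P ∧ (N.σ h).1 ∈ B.nbr P).card = 0 := by
      omega
    rw [card_eq_zero, filter_eq_empty_iff] at h10
    exact h10 (mem_univ h) ⟨hX, hσ⟩

end Barrier

end OneFour
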