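import Pool.Agent.Lib.MP_39c6f6_co.Star

/-! # The star lemma for the actual capacities (job STAR-C) -/

set_option autoImplicit false

namespace OneFour

open Finset

variable {α δ : Type} [DecidableEq α] [DecidableEq δ]

/-- number of edges from `X` to `d` -/
def jj (e : α → δ → ℕ) (d : δ) (X : Finset α) : ℕ := ∑ a ∈ X, e a d

/-- total load of `X`: 1 for an ordinary element, 4 for an element of `W` -/
def ell (W X : Finset α) : ℕ := X.card + 3 * (X ∩ W).card

/-- nodes adjacent to `X` -/
def nbD (e : α → δ → ℕ) (D : Finset δ) (X : Finset α) : Finset δ := D.filter fun d => 1 ≤ jj e d X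

/-- elements of `A` adjacent to a node of `P` -/
def nbA (e : α → δ → ℕ) (A : Finset α) (P : Finset δ) : Finset α :=
  A.filter fun a => ∃ d ∈ P, 1 ≤ e a d

/-- The star lemma for the actual capacities: 2 for nodes with three legs, 1 otherwise. -/
theorem star_lemma {A : Finset α} {D : Finset δ} {W : Finset α} {e : α → δ → ℕ}
    (H0 : ∀ a ∈ A, ∑ d ∈ D, e a d ≤ 5)
    (Hk : ∀ d ∈ D, jj e d A = 3 ∨ (jj e d A = 5 ∧ ∀ a ∈ A, e a d ≤ 1) ∨ 7 ≤ jj e d A)
    (H4 : ∀ X ⊆ A, X.Nonempty → ell W X + 1 ≤ (nbD e D X).card)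
    (H5 : ∀ b ∈ A, b ∉ W → ∃ X ⊆ A, b ∈ X ∧
      ∑ d ∈ D, min (if jj e d A = 3 then 2 else 1) (jj e d X) ≤ ell W X + 2)
    (H6 : ∀ P ⊆ D, P.Nonempty → (P.filter fun d => jj e d A = 3).card ≤ 1 →
      P.card + 2 ≤ (nbA e A P).card)
    (H7 : ∀ X ⊆ A, X.Nonempty → (∀ d ∈ nbD e D X, jj e d A ≠ 3) →
      (nbD e D X).card = ell W X + 1 → 7 ≤ ∑ d ∈ nbD e D X, jj e d (A \ X)) :
    A = ∅ := by
  have hmono : ∀ d (X Y : Finset α), X ⊆ Y → jj e d X ≤ jj e d Y := fun d X Y h =>
    Finset.sum_le_sum_of_subset h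
  have hunion : ∀ d (X Y : Finset α), jj e d (X ∪ Y) + jj e d (X ∩ Y) = jj e d X + jj e d Y :=
    fun d X Y => Finset.sum_union_inter
  have hk1 : ∀ d ∈ D, (min (if jj e d A = 3 then 2 else 1) (jj e d A) = 1 ↔ jj e d A ≠ 3) := by
    intro d hd
    rcases Hk d hd with h | ⟨h, _⟩ | h
    · rw [if_pos h, h]; simp
    · rw [if_neg (by omega), h]; simp
    · rw [if_neg (by omega)]
      constructor
      · intro _; omega
      · intro _; omega
  have hcA : ∀ d ∈ D, min (if jj e d A = 3 then 2 else 1) (jj e d A) =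
      if jj e d A = 3 then 2 else 1 := by
    intro d hd
    rcases Hk d hd with h | ⟨h, _⟩ | h
    · rw [if_pos h, h]; rfl
    · rw [if_neg (by omega), h]; rfl
    · rw [if_neg (by omega)]; omega
  apply F14Star.star A D e W (fun d X => min (if jj e d A = 3 then 2 else 1) (jj e d X))
  refine
    { H0 := H0
      c_mono := fun d _ X Y h _ => min_le_min le_rfl (hmono d X Y h)
      c_sub := ?_
      c_le := fun d _ X _ => min_le_right _ _
      c_pos := ?_
      r_pos := ?_
      H2 := ?_
      H3 := ?_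
      H4 := H4
      H5 := H5
      H6 := ?_
      H7 := ?_ }
  · intro d _ X Y _ _
    have h1 := hunion d X Y
    have h2 := hmono d X (X ∪ Y) Finset.subset_union_left
    have h3 := hmono d Y (X ∪ Y) Finset.subset_union_right
    have h4 := hmono d (X ∩ Y) X Finset.inter_subset_left
    have h5 := hmono d (X ∩ Y) Y Finset.inter_subset_right
    generalize (if jj e d A = 3 then 2 else 1) = t
    omega
  · intro d _ X _ h
    have h' : 1 ≤ jj e d X := h
    split_ifs <;> omega
  · intro d hd
    rw [hcA d hd]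
    split_ifs <;> omega
  · intro d hd h
    have h3 := (hk1 d hd).1 h
    rcases Hk d hd with h' | h' | h'
    · exact absurd h' h3
    · exact Or.inl h'
    · exact Or.inr h'
  · intro d hd h X hX h1 h2
    have h1' : 1 ≤ jj e d X := h1
    have h2' : 1 ≤ jj e d (A \ X) := h2
    have h3 : jj e d A = 3 := by
      by_contra hne
      rw [hcA d hd, if_neg hne] at h
      omega
    have h4 : jj e d (A \ X) + jj e d X = jj e d A := Finset.sum_sdiff hX
    rw [if_pos h3]
    omega
  · intro P hP hne hsum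
    refine H6 P hP hne (le_trans (le_of_eq ?_) hsum)
    rw [Finset.card_filter]
    refine Finset.sum_congr rfl fun d hd => ?_
    rw [hcA d (hP hd)]
    split_ifs <;> rfl
  · intro X hX hne h1 hcard
    refine H7 X hX hne (fun d hd => ?_) hcard
    exact (hk1 d (Finset.mem_filter.1 hd).1).1 (h1 d hd)

end OneFour
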