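import Pool.Agent.Lib.MP_39c6f6_co.Theta
import Pool.Agent.Lib.MP_39c6f6_co.StarC

/-! # End of the proof, section 8 (job FINAL) -/

set_option autoImplicit false

namespace OneFour

open Finset

theorem ell_eq_sum {α : Type} [DecidableEq α] (W X : Finset α) :
    ell W X = ∑ a ∈ X, (if a ∈ W then 4 else 1) := by
  unfold ell
  have : ∀ a ∈ X, (if a ∈ W then 4 else 1) = 1 + 3 * (if a ∈ W then 1 else 0) := by
    intro a _; split_ifs <;> rfl
  rw [Finset.sum_congr rfl this, Finset.sum_add_distrib, ← Finset.mul_sum, Finset.sum_boole,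
    Finset.filter_mem_eq_inter]
  simp

theorem ell_union {α : Type} [DecidableEq α] (W X Y : Finset α) (h : Disjoint X Y) :
    ell W (X ∪ Y) = ell W X + ell W Y := by
  simp only [ell_eq_sum, Finset.sum_union h]

theorem ell_mono {α : Type} [DecidableEq α] (W : Finset α) {X Y : Finset α} (h : X ⊆ Y) :
    ell W X ≤ ell W Y := by
  simp only [ell_eq_sum]
  exact Finset.sum_le_sum_of_subset h

theorem ell_inter_add_sdiff {α : Type} [DecidableEq α] (W X Y : Finset α) :
    ell W (X ∩ Y) + ell W (X \ Y) = ell W X := by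
  rw [← ell_union]
  · congr 1
    ext a
    simp only [Finset.mem_union, Finset.mem_inter, Finset.mem_sdiff]
    tauto
  · exact Finset.disjoint_left.2 fun a ha hb => (Finset.mem_sdiff.1 hb).2 (Finset.mem_inter.1 ha).2

section

variable {V : Type} [Fintype V] [DecidableEq V] {N : Net V}

theorem Barrier.mem_nbr {B : Barrier N} {P : Finset (Finset V)} {a : V} :
    a ∈ B.nbr P ↔ a ∈ B.A ∧ ∃ K ∈ P, 1 ≤ N.e a K := by
  simp [Barrier.nbr]

/-- the key step: no minimal violator of (L) -/
theorem Barrier.L_holds (B : Barrier N) (hN : MinCx N) (W : Finset V)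
    (hU : ∀ X ⊆ B.A, ell W X ≤
      ∑ K ∈ B.D, min (if B.k K = 3 then 2 else 1) (jj N.e K X))
    (hmax : ∀ b ∈ B.A, b ∉ W → ∃ X ⊆ B.A, b ∈ X ∧
      ∑ K ∈ B.D, min (if B.k K = 3 then 2 else 1) (jj N.e K X) ≤ ell W X + 2) :
    ∀ P ⊆ B.D.filter (fun K => 3 ≤ B.k K), P.card ≤ ell W (B.nbr P) := by
  classical
  set R := B.D.filter (fun K => 3 ≤ B.k K) with hR
  by_contra hcon
  push Not at hcon
  -- minimal violator
  obtain ⟨P₀, hP₀, hmin⟩ : ∃ P₀ ∈ (R.powerset.filter fun P => ell W (B.nbr P) < P.card),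
      ∀ P ∈ (R.powerset.filter fun P => ell W (B.nbr P) < P.card), P₀.card ≤ P.card := by
    apply Finset.exists_min_image
    obtain ⟨P, hP, hv⟩ := hcon
    exact ⟨P, by simp only [Finset.mem_filter, Finset.mem_powerset]; exact ⟨hP, hv⟩⟩
  simp only [Finset.mem_filter, Finset.mem_powerset] at hP₀ hmin
  obtain ⟨hP₀R, hviol⟩ := hP₀
  have hP₀D : P₀ ⊆ B.D := fun K hK => (Finset.mem_filter.1 (hP₀R hK)).1
  have hP₀3 : ∀ K ∈ P₀, 3 ≤ B.k K := fun K hK => (Finset.mem_filter.1 (hP₀R hK)).2
  set A₀ := B.nbr P₀ with hA₀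
  have hA₀A : A₀ ⊆ B.A := fun a ha => (Barrier.mem_nbr.1 ha).1
  have he0 : ∀ K ∈ P₀, ∀ a ∈ B.A, a ∉ A₀ → N.e a K = 0 := by
    intro K hK a ha ha0
    by_contra h
    exact ha0 (Barrier.mem_nbr.2 ⟨ha, K, hK, Nat.one_le_iff_ne_zero.2 h⟩)
  have hk : ∀ K ∈ P₀, jj N.e K A₀ = B.k K := by
    intro K hK
    rw [← B.sum_e_eq (hP₀D hK)]
    unfold jj
    exact Finset.sum_subset hA₀A fun a ha ha0 => he0 K hK a ha ha0
  have hodd : ∀ K ∈ P₀, B.k K = 3 ∨ B.k K = 5 ∨ 7 ≤ B.k K := by
    intro K hK
    obtain ⟨m, hm⟩ := B.odd_k (hP₀D hK)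
    have := hP₀3 K hK
    omega
  have hP₀ne : P₀.Nonempty := by
    rw [← Finset.card_pos]; omega
  have hstar : A₀ = ∅ := by
    apply star_lemma (A := A₀) (D := P₀) (W := W) (e := N.e)
    · -- H0
      intro a ha
      have := B.out_add_sum_e (X := {a}) (by simpa using hA₀A ha) hP₀D
      simp only [Finset.sum_singleton, Finset.card_singleton] at this
      omega
    · -- Hk
      intro K hK
      rw [hk K hK]
      rcases hodd K hK with h | h | h
      · exact Or.inl h
      · exact Or.inr (Or.inl ⟨h, fun a ha => B.e_le_one hN (hP₀D hK) h (hA₀A ha)⟩)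
      · exact Or.inr (Or.inr h)
    · -- H4
      intro X hX hXne
      set P₁ := P₀ \ nbD N.e P₀ X with hP₁
      have hsub : nbD N.e P₀ X ⊆ P₀ := Finset.filter_subset _ _
      have hcard : P₁.card + (nbD N.e P₀ X).card = P₀.card :=
        Finset.card_sdiff_add_card_eq_card hsub
      have hnbr : B.nbr P₁ ⊆ A₀ \ X := by
        intro a ha
        obtain ⟨haA, K, hK, hKe⟩ := Barrier.mem_nbr.1 ha
        rw [hP₁, Finset.mem_sdiff] at hK
        refine Finset.mem_sdiff.2 ⟨Barrier.mem_nbr.2 ⟨haA, K, hK.1, hKe⟩, fun haX => hK.2 ?_⟩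
        refine Finset.mem_filter.2 ⟨hK.1, le_trans hKe ?_⟩
        exact Finset.single_le_sum (f := fun a => N.e a K) (fun _ _ => Nat.zero_le _) haX
      have hne : (nbD N.e P₀ X).Nonempty := by
        obtain ⟨a, ha⟩ := hXne
        obtain ⟨_, K, hK, hKe⟩ := Barrier.mem_nbr.1 (hX ha)
        refine ⟨K, Finset.mem_filter.2 ⟨hK, le_trans hKe ?_⟩⟩
        exact Finset.single_le_sum (f := fun a => N.e a K) (fun _ _ => Nat.zero_le _) ha
      have hP₁L : P₁.card ≤ ell W (B.nbr P₁) := by
        by_contra h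
        push Not at h
        have := hmin P₁ ⟨(Finset.sdiff_subset).trans hP₀R, h⟩
        have := hne.card_pos
        omega
      have h1 : ell W (B.nbr P₁) ≤ ell W (A₀ \ X) := ell_mono W hnbr
      have h2 : ell W (A₀ ∩ X) + ell W (A₀ \ X) = ell W A₀ := ell_inter_add_sdiff W A₀ X
      rw [Finset.inter_eq_right.2 hX] at h2
      omega
    · -- H5
      intro b hb hbW
      obtain ⟨X, hXA, hbX, hX⟩ := hmax b (hA₀A hb) hbW
      refine ⟨X ∩ A₀, Finset.inter_subset_right, Finset.mem_inter.2 ⟨hbX, hb⟩, ?_⟩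
      have hrw : ∀ K ∈ P₀, (if jj N.e K A₀ = 3 then 2 else 1) = (if B.k K = 3 then 2 else 1) := by
        intro K hK; rw [hk K hK]
      have hsplit : ∀ K, jj N.e K (X ∩ A₀) + jj N.e K (X \ A₀) = jj N.e K X := by
        intro K
        unfold jj
        rw [← Finset.sum_union]
        · congr 1
          ext a
          simp only [Finset.mem_union, Finset.mem_inter, Finset.mem_sdiff]
          tauto
        · exact Finset.disjoint_left.2 fun a ha hb =>
            (Finset.mem_sdiff.1 hb).2 (Finset.mem_inter.1 ha).2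
      have hzero : ∀ K ∈ P₀, jj N.e K (X \ A₀) = 0 := by
        intro K hK
        refine Finset.sum_eq_zero fun a ha => ?_
        rw [Finset.mem_sdiff] at ha
        exact he0 K hK a (hXA ha.1) ha.2
      have hU' := hU (X \ A₀) ((Finset.sdiff_subset).trans hXA)
      have hs1 : ∑ K ∈ B.D, min (if B.k K = 3 then 2 else 1) (jj N.e K X) =
          ∑ K ∈ B.D \ P₀, min (if B.k K = 3 then 2 else 1) (jj N.e K X) +
          ∑ K ∈ P₀, min (if B.k K = 3 then 2 else 1) (jj N.e K X) :=
        (Finset.sum_sdiff hP₀D).symm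
      have hs2 : ∑ K ∈ B.D, min (if B.k K = 3 then 2 else 1) (jj N.e K (X \ A₀)) =
          ∑ K ∈ B.D \ P₀, min (if B.k K = 3 then 2 else 1) (jj N.e K (X \ A₀)) +
          ∑ K ∈ P₀, min (if B.k K = 3 then 2 else 1) (jj N.e K (X \ A₀)) :=
        (Finset.sum_sdiff hP₀D).symm
      have hs3 : ∑ K ∈ P₀, min (if B.k K = 3 then 2 else 1) (jj N.e K (X \ A₀)) = 0 := by
        refine Finset.sum_eq_zero fun K hK => ?_
        rw [hzero K hK]; simp
      have hs4 : ∑ K ∈ B.D \ P₀, min (if B.k K = 3 then 2 else 1) (jj N.e K (X \ A₀)) ≤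
          ∑ K ∈ B.D \ P₀, min (if B.k K = 3 then 2 else 1) (jj N.e K X) := by
        refine Finset.sum_le_sum fun K _ => ?_
        exact min_le_min le_rfl (by rw [← hsplit K]; omega)
      have hs5 : ∑ K ∈ P₀, min (if jj N.e K A₀ = 3 then 2 else 1) (jj N.e K (X ∩ A₀)) =
          ∑ K ∈ P₀, min (if B.k K = 3 then 2 else 1) (jj N.e K X) := by
        refine Finset.sum_congr rfl fun K hK => ?_
        rw [hrw K hK, ← hsplit K, hzero K hK, add_zero]
      have hs6 := ell_inter_add_sdiff W X A₀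
      omega
    · -- H6
      intro P hP hne hT
      have hPD : P ⊆ B.D := hP.trans hP₀D
      have h3 : ∀ K ∈ P, 3 ≤ B.k K := fun K hK => hP₀3 K (hP hK)
      have hT' : (P.filter fun K => B.k K = 3).card ≤ 1 := by
        refine le_trans (Finset.card_le_card ?_) hT
        intro K hK
        rw [Finset.mem_filter] at hK ⊢
        exact ⟨hK.1, by rw [hk K (hP hK.1)]; exact hK.2⟩
      refine le_trans (B.nbr_card_ge hN hPD hne h3 hT') (Finset.card_le_card ?_)
      intro a ha
      obtain ⟨haA, K, hK, hKe⟩ := Barrier.mem_nbr.1 ha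
      exact Finset.mem_filter.2 ⟨Barrier.mem_nbr.2 ⟨haA, K, hP hK, hKe⟩, K, hK, hKe⟩
    · -- H7
      intro X hX hXne hk3 hcard
      set Q := nbD N.e P₀ X with hQ
      have hQP : Q ⊆ P₀ := Finset.filter_subset _ _
      have hQD : Q ⊆ B.D := hQP.trans hP₀D
      by_contra hlt
      push Not at hlt
      have hout := B.out_add_sum_e (X := X) (hX.trans hA₀A) hQD
      have hsum : ∑ K ∈ Q, (∑ a ∈ X, N.e a K) + ∑ K ∈ Q, jj N.e K (A₀ \ X) =
          ∑ K ∈ Q, B.k K := by
        rw [← Finset.sum_add_distrib]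
        refine Finset.sum_congr rfl fun K hK => ?_
        rw [← hk K (hQP hK)]
        unfold jj
        rw [add_comm]
        exact Finset.sum_sdiff hX
      have hk5 : ∀ K ∈ Q, B.k K = 5 ∨ 7 ≤ B.k K := by
        intro K hK
        have h := hk3 K hK
        rw [hk K (hQP hK)] at h
        rcases hodd K (hQP hK) with h' | h' | h'
        · exact absurd h' h
        · exact Or.inl h'
        · exact Or.inr h'
      have hge : 5 * Q.card + 2 * (Q.filter fun K => B.k K ≠ 5).card ≤ ∑ K ∈ Q, B.k K := by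
        have : ∑ K ∈ Q, (5 + 2 * (if B.k K ≠ 5 then 1 else 0)) ≤ ∑ K ∈ Q, B.k K := by
          refine Finset.sum_le_sum fun K hK => ?_
          rcases hk5 K hK with h | h
          · simp [h]
          · split_ifs <;> omega
        rw [Finset.sum_add_distrib, ← Finset.mul_sum, Finset.sum_boole] at this
        simp only [Finset.sum_const, smul_eq_mul, Nat.cast_id] at this
        omega
      have hell : ell W X = X.card + 3 * (X ∩ W).card := rfl
      have hall5 : ∀ K ∈ Q, B.k K = 5 := by
        intro K hK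
        by_contra h
        have : 1 ≤ (Q.filter fun K => B.k K ≠ 5).card :=
          Finset.card_pos.2 ⟨K, Finset.mem_filter.2 ⟨hK, h⟩⟩
        omega
      have h2 := B.two_le_out hN (hX.trans hA₀A) hXne hQD hall5 (by omega)
      omega
  obtain ⟨K, hK⟩ := hP₀ne
  have h3 := hP₀3 K hK
  have := hk K hK
  rw [hstar] at this
  simp [jj] at this
  omega

end

/-- There is no minimal counterexample. -/
theorem no_minCx {V : Type} [Fintype V] (N : Net V) : ¬ MinCx N := by
  classical
  intro hN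
  obtain ⟨B⟩ := exists_barrier N hN.not_solvable
  set U : Finset V → Prop := fun W => ∀ X ⊆ B.A, ell W X ≤
    ∑ K ∈ B.D, min (if B.k K = 3 then 2 else 1) (jj N.e K X) with hUdef
  have hU0 : U ∅ := by
    intro X hX
    have h0 : ell ∅ X = X.card := by simp [ell]
    rw [h0]
    refine le_trans (B.hall X hX) ?_
    rw [Finset.card_eq_sum_ones]
    rw [← Finset.sum_filter_add_sum_filter_not B.D
      (fun K => ∃ h : HE V, h.1 ∈ X ∧ (N.σ h).1 ∈ K)]
    refine le_trans (Finset.sum_le_sum fun K hK => ?_) (Nat.le_add_right _ _)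
    obtain ⟨_, h, hX', hK'⟩ := Finset.mem_filter.1 hK
    have h1 : 1 ≤ jj N.e K X := by
      refine le_trans ?_ (Finset.single_le_sum (f := fun a => N.e a K)
        (fun _ _ => Nat.zero_le _) hX')
      exact Finset.card_pos.2 ⟨h.2, by simpa using hK'⟩
    refine le_min ?_ h1
    split_ifs <;> omega
  -- a maximal `W`
  obtain ⟨W, hW, hWmax⟩ : ∃ W ∈ (B.A.powerset.filter U), ∀ W' ∈ (B.A.powerset.filter U),
      W'.card ≤ W.card := by
    apply Finset.exists_max_image
    exact ⟨∅, by simp [hU0]⟩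
  simp only [Finset.mem_filter, Finset.mem_powerset] at hW hWmax
  obtain ⟨hWA, hUW⟩ := hW
  have hmax : ∀ b ∈ B.A, b ∉ W → ∃ X ⊆ B.A, b ∈ X ∧
      ∑ K ∈ B.D, min (if B.k K = 3 then 2 else 1) (jj N.e K X) ≤ ell W X + 2 := by
    intro b hb hbW
    have hnot : ¬ U (insert b W) := by
      intro h
      have := hWmax (insert b W) ⟨Finset.insert_subset hb hWA, h⟩
      rw [Finset.card_insert_of_notMem hbW] at this
      omega
    simp only [hUdef] at hnot
    push Not at hnot
    obtain ⟨X, hX, hlt⟩ := hnot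
    have hbX : b ∈ X := by
      by_contra hbX
      have : ell (insert b W) X = ell W X := by
        simp only [ell]
        rw [Finset.inter_insert_of_notMem hbX]
      rw [this] at hlt
      exact absurd (hUW X hX) (not_le.2 hlt)
    refine ⟨X, hX, hbX, ?_⟩
    have : ell (insert b W) X = ell W X + 3 := by
      simp only [ell]
      rw [Finset.inter_insert_of_mem hbX, Finset.card_insert_of_notMem (by simp [hbW])]
      ring
    omega
  have hL := B.L_holds hN W hUW hmax
  obtain ⟨F, hF, hFa, hFc, hFR⟩ := B.exists_legs_both (fun a => if a ∈ W then 4 else 1)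
    (fun K => if B.k K = 3 then 2 else 1) (fun K => by split_ifs <;> omega)
    (R := B.D.filter (fun K => 3 ≤ B.k K)) (Finset.filter_subset _ _)
    (fun X hX => by
      have := hUW X hX
      rw [ell_eq_sum] at this
      exact this)
    (fun P hP => by
      have := hL P hP
      rw [ell_eq_sum] at this
      exact this)
  apply hN.not_solvable
  refine B.solve F hF (fun a ha => ?_) (fun K hK => ?_)
  · have := hFa a ha
    rw [this]
    split_ifs <;> simp
  · have h1 := hFc K hK
    obtain ⟨m, hm⟩ := B.odd_k hK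
    by_cases h3 : 3 ≤ B.k K
    · have h2 := hFR K (Finset.mem_filter.2 ⟨hK, h3⟩)
      split_ifs at h1 with h4 <;> omega
    · have hk1 : B.k K = 1 := by omega
      rw [if_neg (by omega)] at h1
      omega

end OneFour
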