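import Pool.Agent.Lib.MP_39c6f6_co.Count
import Pool.Agent.Lib.MP_39c6f6_co.Legs

/-! # (6.3) (job OUT) -/

set_option autoImplicit false

namespace OneFour

open Finset

variable {V : Type} [Fintype V] [DecidableEq V] {N : Net V}

/-- The degree of the indicator function of a set of half-edges. -/
theorem out_deg_eq (G : Finset (HE V)) (a : V) :
    deg (fun h => decide (h ∈ G)) a = (G.filter fun h => h.1 = a).card := by
  have h1 : (G.filter fun h => h.1 = a) =
      (univ.filter fun i : Fin 5 => decide ((a, i) ∈ G) = true).image fun i => (a, i) := by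
    ext ⟨v, i⟩
    simp only [mem_filter, mem_image, mem_univ, true_and, decide_eq_true_eq, Prod.mk.injEq]
    constructor
    · rintro ⟨h, rfl⟩
      exact ⟨i, h, rfl, rfl⟩
    · rintro ⟨j, h, rfl, rfl⟩
      exact ⟨h, rfl⟩
  rw [h1, card_image_of_injective _ fun i j h => (Prod.mk.inj h).2]
  rfl

namespace Barrier

variable (B : Barrier N)

/-- Gluing from a set `F` of legs and a set `x` of half-edges at `X` leading outside. -/
theorem out_glue {X : Finset V} (hX : X ⊆ B.A) {Q : Finset (Finset V)} (hQ : Q ⊆ B.D)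
    {F x : Finset (HE V)} (hF : ∀ h ∈ F, h.1 ∈ X ∧ ∃ K ∈ Q, h ∈ N.bd K)
    {f : V → ℕ} {g : Finset V → ℕ} (hFa : ∀ a ∈ X, (F.filter fun h => h.1 = a).card = f a)
    (hFK : ∀ K ∈ Q, (N.bd K ∩ F).card = g K) {p : HE V → Bool}
    (hx : ∀ h ∈ x, (N.σ h).1 ∉ X ∪ Q.biUnion id)
    (hdeg : ∀ a ∈ X, f a + (x.filter fun h => h.1 = a).card = 1 ∨
      f a + (x.filter fun h => h.1 = a).card = 4)
    (hxp : ∀ b ∈ N.bd (X ∪ Q.biUnion id), (N.σ b).1 ∈ X → (p b = true ↔ N.σ b ∈ x))
    (hKc : ∀ K ∈ Q, g K + ((N.bd K).filter fun h => h.1 ∉ X ∧ p h = true).card = 1 ∨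
      g K + ((N.bd K).filter fun h => h.1 ∉ X ∧ p h = true).card + 1 = B.k K) :
    N.Real (X ∪ Q.biUnion id) p := by
  have hdisj : Disjoint F x := by
    rw [Finset.disjoint_left]
    intro h hhF hhx
    obtain ⟨_, K, hK, hb⟩ := hF h hhF
    exact hx h hhx (mem_union_right _ (mem_biUnion.2 ⟨K, hK, (Net.mem_bd.1 hb).2⟩))
  refine B.glue hX hQ (u := fun h => decide (h ∈ F ∪ x)) ?_ ?_ ?_ ?_
  · intro a ha
    have h1 := hdeg a ha
    rw [← hFa a ha, ← card_union_of_disjoint (disjoint_filter_filter hdisj), ← filter_union,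
      ← out_deg_eq] at h1
    exact h1
  · intro h h1 h2
    have key : ∀ h : HE V, (N.σ h).1 ∈ X → h ∉ F ∪ x := by
      intro h h2 h3
      rcases mem_union.1 h3 with h3 | h3
      · obtain ⟨_, K, hK, hb⟩ := hF h h3
        exact (Finset.disjoint_left.1 (B.disjA K (hQ hK))) (Net.mem_bd.1 hb).2 (hX h2)
      · exact hx h h3 (mem_union_left _ h2)
    have e1 : N.σ h ∉ F ∪ x := key _ (by rw [N.invol]; exact h1)
    have e2 : h ∉ F ∪ x := key _ h2
    simp only [e1, e2]
  · intro b hb hbX
    have h1 := hxp b hb hbX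
    have h2 : N.σ b ∉ F := by
      intro h3
      obtain ⟨_, K, hK, hb'⟩ := hF _ h3
      have h4 := (Net.mem_bd.1 hb').2
      rw [N.invol] at h4
      exact (Net.mem_bd.1 hb).1 (mem_union_right _ (mem_biUnion.2 ⟨K, hK, h4⟩))
    rw [Bool.eq_iff_iff, h1, decide_eq_true_eq, mem_union]
    exact ⟨fun h => h.resolve_left h2, Or.inr⟩
  · intro K hK
    have h1 : ((N.bd K).filter fun h => (if h.1 ∈ X then decide (h ∈ F ∪ x) else p h) = true) =
        (N.bd K ∩ F) ∪ ((N.bd K).filter fun h => h.1 ∉ X ∧ p h = true) := by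
      ext h
      simp only [mem_filter, mem_union, mem_inter]
      constructor
      · rintro ⟨h2, h3⟩
        by_cases h4 : h.1 ∈ X
        · rw [if_pos h4, decide_eq_true_eq] at h3
          rcases h3 with h3 | h3
          · exact Or.inl ⟨h2, h3⟩
          · exact absurd (mem_union_right X (mem_biUnion.2 ⟨K, hK, (Net.mem_bd.1 h2).2⟩)) (hx h h3)
        · rw [if_neg h4] at h3
          exact Or.inr ⟨h2, h4, h3⟩
      · rintro (⟨h2, h3⟩ | ⟨h2, h3, h4⟩)
        · refine ⟨h2, ?_⟩
          rw [if_pos (hF h h3).1, decide_eq_true_eq]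
          exact Or.inl h3
        · refine ⟨h2, ?_⟩
          rw [if_neg h3]
          exact h4
    have h2 : Disjoint (N.bd K ∩ F) ((N.bd K).filter fun h => h.1 ∉ X ∧ p h = true) := by
      rw [Finset.disjoint_left]
      intro h h3 h4
      exact (mem_filter.1 h4).2.1 (hF h (mem_inter.1 h3).2).1
    have h3 := card_union_of_disjoint h2
    rw [← h1, hFK K hK] at h3
    rcases hKc K hK with h4 | h4
    · left
      rw [h3, h4]
    · right
      have h5 := Finset.card_filter_add_card_filter_not (s := N.bd K)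
        (fun h => (if h.1 ∈ X then decide (h ∈ F ∪ x) else p h) = true)
      rw [h3] at h5
      have h6 : ((N.bd K).filter fun h =>
          ¬ (if h.1 ∈ X then decide (h ∈ F ∪ x) else p h) = true) =
          (N.bd K).filter fun h => (if h.1 ∈ X then decide (h ∈ F ∪ x) else p h) = false := by
        refine filter_congr fun h _ => ?_
        rw [Bool.not_eq_true]
      rw [h6] at h5
      have h7 : B.k K = (N.bd K).card := rfl
      omega

theorem out_mono {X' X : Finset V} (h : X' ⊆ X) (Q : Finset (Finset V)) :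
    B.out X' Q ≤ B.out X Q := by
  refine card_le_card fun h' hh => ?_
  rw [mem_filter] at hh ⊢
  exact ⟨hh.1, h hh.2.1, hh.2.2⟩

/-- members of `Q` with a neighbour in `X` -/
def outNb (Q : Finset (Finset V)) (N : Net V) (X : Finset V) : Finset (Finset V) :=
  Q.filter fun K => 1 ≤ ∑ a ∈ X, N.e a K

theorem out_sum_onb {Q : Finset (Finset V)} {X : Finset V} :
    ∑ K ∈ outNb Q N X, ∑ a ∈ X, N.e a K = ∑ K ∈ Q, ∑ a ∈ X, N.e a K := by
  refine sum_subset (filter_subset _ _) fun K hK hK' => ?_
  by_contra h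
  exact hK' (mem_filter.2 ⟨hK, Nat.one_le_iff_ne_zero.2 h⟩)

theorem out_sum_e_le {X : Finset V} (hX : X ⊆ B.A) {K : Finset V} (hK : K ∈ B.D) :
    ∑ a ∈ X, N.e a K ≤ B.k K := by
  rw [← B.sum_e_eq hK]
  exact sum_le_sum_of_subset hX

theorem out_sum_e_split {X : Finset V} (hX : X ⊆ B.A) {K : Finset V} (hK : K ∈ B.D) :
    ∑ a ∈ B.A \ X, N.e a K + ∑ a ∈ X, N.e a K = B.k K := by
  rw [← B.sum_e_eq hK]
  exact sum_sdiff hX

/-- Counting with five-legged pieces. -/
theorem out_key {X : Finset V} (hX : X ⊆ B.A) {Q : Finset (Finset V)} (hQ : Q ⊆ B.D)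
    (h5 : ∀ K ∈ Q, B.k K = 5) :
    5 * X.card ≤ B.out X Q + 5 * (outNb Q N X).card ∧
      B.out X (outNb Q N X) = B.out X Q ∧
      ∑ K ∈ outNb Q N X, ∑ a ∈ B.A \ X, N.e a K + 5 * X.card =
        B.out X Q + 5 * (outNb Q N X).card := by
  have hsub : outNb Q N X ⊆ B.D := (filter_subset _ _).trans hQ
  have h1 := B.out_add_sum_e hX hQ
  have h2 := B.out_add_sum_e hX hsub
  have h3 : ∑ K ∈ outNb Q N X, ∑ a ∈ X, N.e a K = ∑ K ∈ Q, ∑ a ∈ X, N.e a K := out_sum_onb
  have h4 : ∑ K ∈ outNb Q N X, ∑ a ∈ X, N.e a K ≤ ∑ K ∈ outNb Q N X, 5 :=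
    sum_le_sum fun K hK => by
      have := B.out_sum_e_le hX (hsub hK)
      rwa [h5 K (mem_filter.1 hK).1] at this
  rw [sum_const, smul_eq_mul] at h4
  have h6 : ∑ K ∈ outNb Q N X, ∑ a ∈ B.A \ X, N.e a K + ∑ K ∈ outNb Q N X, ∑ a ∈ X, N.e a K =
      5 * (outNb Q N X).card := by
    have h7 : ∀ K ∈ outNb Q N X, ∑ a ∈ B.A \ X, N.e a K + ∑ a ∈ X, N.e a K = 5 := by
      intro K hK
      rw [B.out_sum_e_split hX (hsub hK), h5 K (mem_filter.1 hK).1]
    rw [← sum_add_distrib, sum_congr rfl h7, sum_const, smul_eq_mul, Nat.mul_comm]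
  refine ⟨by omega, by omega, by omega⟩

/-- Boundary half-edges whose partner lies in a piece. -/
theorem out_bd_cases {X : Finset V} {Q : Finset (Finset V)} {b : HE V}
    (hb : b ∈ N.bd (X ∪ Q.biUnion id)) : (N.σ b).1 ∈ X ∨ ∃ K ∈ Q, b ∈ N.bd K := by
  obtain ⟨h1, h2⟩ := Net.mem_bd.1 hb
  rcases mem_union.1 h2 with h2 | h2
  · exact Or.inl h2
  · obtain ⟨K, hK, h3⟩ := mem_biUnion.1 h2
    refine Or.inr ⟨K, hK, Net.mem_bd.2 ⟨fun h4 => h1 ?_, h3⟩⟩
    exact mem_union_right _ (mem_biUnion.2 ⟨K, hK, h4⟩)

theorem out_unique {Q : Finset (Finset V)} (hQ : Q ⊆ B.D) {b : HE V} {K L : Finset V}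
    (hK : K ∈ Q) (hL : L ∈ Q) (h1 : b ∈ N.bd K) (h2 : b ∈ N.bd L) : K = L := by
  by_contra h
  exact (Finset.disjoint_left.1 (B.disj K (hQ hK) L (hQ hL) h)) (Net.mem_bd.1 h1).2
    (Net.mem_bd.1 h2).2

/-- Single patterns at the pieces. -/
theorem out_single {X : Finset V} (hX : X ⊆ B.A) {Q : Finset (Finset V)} (hQ : Q ⊆ B.D)
    (hcard : Q.card = X.card + 1) (hall : ∀ X' ⊆ X, X'.Nonempty → X'.card + 1 ≤ (outNb Q N X').card)
    {b : HE V} (hb : b ∈ N.bd (X ∪ Q.biUnion id)) {L : Finset V} (hL : L ∈ Q)
    (hbL : b ∈ N.bd L) : N.Real (X ∪ Q.biUnion id) (fun h => decide (h = b)) := by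
  have hbX : b.1 ∉ X := fun h => (Net.mem_bd.1 hb).1 (mem_union_left _ h)
  have hsX : (N.σ b).1 ∉ X := fun h =>
    (Finset.disjoint_left.1 (B.disjA L (hQ hL))) (Net.mem_bd.1 hbL).2 (hX h)
  obtain ⟨F, hF1, hF2, hF3⟩ := B.exists_legs_X hX hQ (fun _ => 1)
    (fun K => if K = L then 0 else 1) (by
      rw [sum_const, smul_eq_mul, mul_one, sum_ite, sum_const_zero, zero_add, sum_const,
        smul_eq_mul, mul_one]
      have h1 := Finset.card_filter_add_card_filter_not (s := Q) (fun K => K = L)
      have h2 : (Q.filter fun K => K = L).card = 1 := by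
        rw [Finset.filter_eq' Q L, if_pos hL, card_singleton]
      omega) (by
      intro X' hX'
      rw [sum_const, smul_eq_mul, mul_one]
      rcases X'.eq_empty_or_nonempty with rfl | hne
      · simp
      have h1 := hall X' hX' hne
      have h2 : ((outNb Q N X').erase L).card ≤
          ∑ K ∈ Q, min (if K = L then 0 else 1) (∑ a ∈ X', N.e a K) := by
        calc ((outNb Q N X').erase L).card = ∑ K ∈ (outNb Q N X').erase L, 1 := by simp
          _ ≤ ∑ K ∈ (outNb Q N X').erase L, min (if K = L then 0 else 1) (∑ a ∈ X', N.e a K) := by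
              refine sum_le_sum fun K hK => ?_
              rw [mem_erase, outNb, mem_filter] at hK
              rw [if_neg hK.1]
              exact le_min le_rfl hK.2.2
          _ ≤ _ := sum_le_sum_of_subset ((erase_subset _ _).trans (filter_subset _ _))
      have h3 := Finset.pred_card_le_card_erase (s := outNb Q N X') (a := L)
      omega)
  refine B.out_glue hX hQ hF1 hF2 hF3 (x := ∅) (by simp) (by simp) ?_ ?_
  · intro b' _ hb'X
    rw [decide_eq_true_eq]
    constructor
    · rintro rfl
      exact absurd hb'X hsX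
    · intro h
      exact absurd h (notMem_empty _)
  · intro K hK
    left
    by_cases hKL : K = L
    · subst hKL
      rw [if_pos rfl, zero_add, card_eq_one]
      refine ⟨b, ?_⟩
      ext h
      rw [mem_filter, mem_singleton, decide_eq_true_eq]
      constructor
      · exact fun h => h.2.2
      · rintro rfl
        exact ⟨hbL, hbX, rfl⟩
    · rw [if_neg hKL, Nat.add_eq_left, card_eq_zero]
      refine filter_eq_empty_iff.2 fun h hh hh' => ?_
      rw [decide_eq_true_eq] at hh'
      obtain ⟨-, rfl⟩ := hh'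
      exact hKL (B.out_unique hQ hK hL hh hbL)

/-- (6.3) -/
theorem two_le_out (hN : MinCx N) {X : Finset V} (hX : X ⊆ B.A) (hne : X.Nonempty)
    {Q : Finset (Finset V)} (hQ : Q ⊆ B.D) (h5 : ∀ K ∈ Q, B.k K = 5)
    (hcard : Q.card = X.card + 1) : 2 ≤ B.out X Q := by
  induction hn : X.card using Nat.strong_induction_on generalizing X Q with
  | _ n ih =>
  by_contra hlt
  push Not at hlt
  have hall : ∀ X' ⊆ X, X'.Nonempty → X'.card + 1 ≤ (outNb Q N X').card ∧
      (X' ≠ X → X'.card + 2 ≤ (outNb Q N X').card) := by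
    intro X' hX' hne'
    have hsub : outNb Q N X' ⊆ Q := filter_subset _ _
    obtain ⟨k1, k2, k3⟩ := B.out_key (hX'.trans hX) hQ h5
    have k4 := B.out_mono hX' Q
    have hpos : 0 < X'.card := card_pos.2 hne'
    have k5 : X'.card + 1 ≤ (outNb Q N X').card := by
      by_contra hc
      have heq : (outNb Q N X').card = X'.card := by omega
      have k6 := B.card_bd_add (hX'.trans hX) (hsub.trans hQ)
      have k7 := B.four_le_bd hN (hX'.trans hX) (hsub.trans hQ) (card_pos.1 (by omega))
        (by omega) (by omega)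
      omega
    refine ⟨k5, fun hXX' => ?_⟩
    by_contra hc
    have heq : (outNb Q N X').card = X'.card + 1 := by omega
    have k8 := ih X'.card (hn ▸ card_lt_card (ssubset_of_subset_of_ne hX' hXX'))
      (hX'.trans hX) hne' (hsub.trans hQ) (fun K hK => h5 K (hsub hK)) heq rfl
    omega
  have hQX : outNb Q N X = Q :=
    eq_of_subset_of_card_le (filter_subset _ _) (by
      have := (hall X subset_rfl hne).1
      omega)
  obtain ⟨-, -, k3⟩ := B.out_key hX hQ h5
  rw [hQX] at k3
  have kb := B.card_bd_add hX hQ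
  set S := X ∪ Q.biUnion id with hS
  have hXQ : Disjoint X (Q.biUnion id) := by
    rw [Finset.disjoint_left]
    intro a ha ha'
    obtain ⟨K, hK, h1⟩ := mem_biUnion.1 ha'
    exact (Finset.disjoint_left.1 (B.disjA K (hQ hK))) h1 (hX ha)
  have hAQ : ∀ a ∈ B.A, a ∉ Q.biUnion id := by
    intro a ha ha'
    obtain ⟨K, hK, h1⟩ := mem_biUnion.1 ha'
    exact (Finset.disjoint_left.1 (B.disjA K (hQ hK))) h1 ha
  have hS2 : 2 ≤ S.card := by
    rw [hS, card_union_of_disjoint hXQ]
    have h1 : 0 < X.card := card_pos.2 hne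
    have h2 : (Q.biUnion id).Nonempty := by
      obtain ⟨K, hK⟩ : Q.Nonempty := card_pos.1 (by omega)
      obtain ⟨v, hv⟩ : K.Nonempty := card_pos.1 (B.odd K (hQ hK)).pos
      exact ⟨v, mem_biUnion.2 ⟨K, hK, hv⟩⟩
    have h3 := card_pos.2 h2
    omega
  set O := univ.filter fun h : HE V => h.1 ∈ X ∧ (N.σ h).1 ∉ Q.biUnion id with hO
  have hOc : O.card = B.out X Q := rfl
  have hint : (univ.filter fun h : HE V => h.1 ∈ X ∧ (N.σ h).1 ∈ X).card = 0 := by
    rw [card_eq_zero, filter_eq_empty_iff]
    rintro h - ⟨h1, h2⟩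
    have h3 : h ∈ O := mem_filter.2 ⟨mem_univ _, h1, hAQ _ (hX h2)⟩
    have h4 : N.σ h ∈ O := mem_filter.2 ⟨mem_univ _, h2, by rw [N.invol]; exact hAQ _ (hX h1)⟩
    have h5 := one_lt_card.2 ⟨h, h3, N.σ h, h4, (N.ne h).symm⟩
    omega
  have hsingle : ∀ b ∈ N.bd S, (N.σ b).1 ∉ X → N.Real S (fun h => decide (h = b)) := by
    intro b hb hbX
    rcases out_bd_cases hb with h1 | ⟨L, hL, hbL⟩
    · exact absurd h1 hbX
    · exact B.out_single hX hQ hcard (fun X' hX' hne' => (hall X' hX' hne').1) hb hL hbL
  have hOb : ∀ b ∈ N.bd S, (N.σ b).1 ∈ X → N.σ b ∈ O := by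
    intro b hb hbX
    refine mem_filter.2 ⟨mem_univ _, hbX, ?_⟩
    rw [N.invol]
    exact fun h => (Net.mem_bd.1 hb).1 (mem_union_right _ h)
  rcases (show B.out X Q = 0 ∨ B.out X Q = 1 by omega) with h0 | h1
  · refine hN.V_contract hS2 (by omega) fun b hb => hsingle b hb fun hbX => ?_
    have := card_pos.2 ⟨_, hOb b hb hbX⟩
    omega
  · obtain ⟨x0, hx0⟩ := card_eq_one.1 (hOc.trans h1)
    have hx0O : x0 ∈ O := by rw [hx0]; exact mem_singleton_self _
    obtain ⟨-, hx1, hx2⟩ := mem_filter.1 hx0O
    have hx3 : (N.σ x0).1 ∉ X := by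
      intro h
      rw [card_eq_zero, filter_eq_empty_iff] at hint
      exact hint (mem_univ x0) ⟨hx1, h⟩
    have hx4 : (N.σ x0).1 ∉ S := by
      rw [hS, mem_union, not_or]
      exact ⟨hx3, hx2⟩
    have hp : N.σ x0 ∈ N.bd S := by
      rw [Net.mem_bd, N.invol]
      exact ⟨hx4, mem_union_left _ hx1⟩
    have hOp : ∀ b ∈ N.bd S, (N.σ b).1 ∈ X → N.σ b = x0 := by
      intro b hb hbX
      have := hOb b hb hbX
      rw [hx0] at this
      exact mem_singleton.1 this
    -- a second boundary half-edge
    obtain ⟨q, hq, L, hL, hqL⟩ : ∃ q ∈ N.bd S, ∃ L ∈ Q, q ∈ N.bd L := by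
      have h2 : ∑ K ∈ Q, ∑ a ∈ B.A \ X, N.e a K ≠ 0 := by omega
      obtain ⟨L, hL, h3⟩ := exists_ne_zero_of_sum_ne_zero h2
      obtain ⟨a, ha, h4⟩ := exists_ne_zero_of_sum_ne_zero h3
      obtain ⟨i, hi⟩ := card_pos.1 (Nat.pos_of_ne_zero h4)
      have h5 := (mem_filter.1 hi).2
      have ha' := mem_sdiff.1 ha
      refine ⟨(a, i), Net.mem_bd.2 ⟨?_, ?_⟩, L, hL, Net.mem_bd.2 ⟨?_, h5⟩⟩
      · rw [hS, mem_union, not_or]
        exact ⟨ha'.2, hAQ a ha'.1⟩
      · exact mem_union_right _ (mem_biUnion.2 ⟨L, hL, h5⟩)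
      · exact fun h => (Finset.disjoint_left.1 (B.disjA L (hQ hL))) h ha'.1
    have hqX : (N.σ q).1 ∉ X := fun h =>
      (Finset.disjoint_left.1 (B.disjA L (hQ hL))) (Net.mem_bd.1 hqL).2 (hX h)
    have hpq : N.σ x0 ≠ q := by
      rintro rfl
      rw [N.invol] at hqX
      exact hqX hx1
    -- `X` has at least two elements
    have hX2 : 2 ≤ X.card := by
      by_contra hc
      have hX1 : X.card = 1 := by
        have := card_pos.2 hne
        omega
      obtain ⟨a, rfl⟩ := card_eq_one.1 hX1
      have h2 := B.out_add_sum_e hX hQ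
      have h3 : ∑ K ∈ Q, ∑ a' ∈ {a}, N.e a' K ≤ ∑ K ∈ Q, 1 := by
        refine sum_le_sum fun K hK => ?_
        rw [sum_singleton]
        exact B.e_le_one hN (hQ hK) (h5 K hK) (hX (mem_singleton_self a))
      rw [sum_const, smul_eq_mul, mul_one] at h3
      omega
    have hdeg2 : ∀ K ∈ Q, 2 ≤ ∑ a ∈ X, N.e a K := by
      intro K hK
      by_contra hc
      have h2 : 1 ≤ ∑ a ∈ X, N.e a K := by
        rw [← hQX] at hK
        exact (mem_filter.1 hK).2
      obtain ⟨a, ha, h3⟩ := exists_ne_zero_of_sum_ne_zero (by omega : ∑ a ∈ X, N.e a K ≠ 0)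
      have h4 := add_sum_erase X (fun a => N.e a K) ha
      have h6 : (X.erase a).card = X.card - 1 := card_erase_of_mem ha
      have h7 : X.erase a ≠ X := fun h => by
        rw [h] at h6
        omega
      have h8 := (hall (X.erase a) (erase_subset _ _) (card_pos.1 (by omega))).2 h7
      have h9 : outNb Q N (X.erase a) ⊆ Q.erase K := by
        intro K' hK'
        rw [outNb, mem_filter] at hK'
        rw [mem_erase]
        refine ⟨?_, hK'.1⟩
        rintro rfl
        omega
      have h10 := card_le_card h9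
      rw [card_erase_of_mem hK] at h10
      omega
    have hpK : ∀ K ∈ Q, N.σ x0 ∉ N.bd K := by
      intro K hK h
      have h2 := (Net.mem_bd.1 h).2
      rw [N.invol] at h2
      exact (Finset.disjoint_left.1 (B.disjA K (hQ hK))) h2 (hX hx1)
    have hbX' : ∀ b ∈ N.bd S, b ≠ N.σ x0 → (N.σ b).1 ∉ X := by
      intro b hb hbp hbX
      apply hbp
      rw [← hOp b hb hbX, N.invol]
    refine hN.VE_contract hS2 (by omega) hp hq hpq (fun b hb hbp _ => hsingle b hb (hbX' b hb hbp))
      fun b hb hbp hbq => ?_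
    obtain ⟨L', hL', hbL'⟩ : ∃ K ∈ Q, b ∈ N.bd K :=
      (out_bd_cases hb).resolve_left (hbX' b hb hbp)
    have hnX : ∀ b ∈ N.bd S, b.1 ∉ X := fun b hb h =>
      (Net.mem_bd.1 hb).1 (mem_union_left _ h)
    have hxp : ∀ b' ∈ N.bd (X ∪ Q.biUnion id), (N.σ b').1 ∈ X →
        (decide (b' = b ∨ b' = N.σ x0 ∨ b' = q) = true ↔ N.σ b' ∈ ({x0} : Finset (HE V))) := by
      intro b' hb' hb'X
      have h2 := hOp b' hb' hb'X
      have h3 : b' = N.σ x0 := by rw [← h2, N.invol]
      rw [decide_eq_true_eq, mem_singleton]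
      exact ⟨fun _ => h2, fun _ => Or.inr (Or.inl h3)⟩
    have hx : ∀ h ∈ ({x0} : Finset (HE V)), (N.σ h).1 ∉ X ∪ Q.biUnion id := by
      intro h hh
      rw [mem_singleton.1 hh]
      exact hx4
    have hxf : ∀ a, (({x0} : Finset (HE V)).filter fun h => h.1 = a).card =
        if a = x0.1 then 1 else 0 := by
      intro a
      rw [filter_singleton]
      split_ifs with h2 h3 h3
      · exact card_singleton _
      · exact absurd h2.symm h3
      · exact absurd h3.symm h2
      · exact card_empty
    have hset : ∀ K ∈ Q, ((N.bd K).filter fun h => h.1 ∉ X ∧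
        decide (h = b ∨ h = N.σ x0 ∨ h = q) = true) =
        (if K = L' then {b} else ∅) ∪ (if K = L then {q} else ∅) := by
      intro K hK
      ext h
      rw [mem_filter, mem_union, decide_eq_true_eq]
      constructor
      · rintro ⟨h2, -, rfl | rfl | rfl⟩
        · left
          rw [if_pos (B.out_unique hQ hK hL' h2 hbL')]
          exact mem_singleton_self _
        · exact absurd h2 (hpK K hK)
        · right
          rw [if_pos (B.out_unique hQ hK hL h2 hqL)]
          exact mem_singleton_self _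
      · rintro (h2 | h2)
        · split_ifs at h2 with h3
          · rw [mem_singleton] at h2
            subst h2 h3
            exact ⟨hbL', hnX _ hb, Or.inl rfl⟩
          · exact absurd h2 (notMem_empty _)
        · split_ifs at h2 with h3
          · rw [mem_singleton] at h2
            subst h2 h3
            exact ⟨hqL, hnX _ hq, Or.inr (Or.inr rfl)⟩
          · exact absurd h2 (notMem_empty _)
    by_cases hLL : L' = L
    · -- both half-edges at the same piece
      obtain ⟨F, hF1, hF2, hF3⟩ := B.exists_legs_X hX hQ (fun a => if a = x0.1 then 3 else 1)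
        (fun K => if K = L then 2 else 1) (by
          have e1 : ∑ a ∈ X, (if a = x0.1 then 3 else 1) = ∑ a ∈ X, 1 +
              ∑ a ∈ X, (if a = x0.1 then 2 else 0) := by
            rw [← sum_add_distrib]
            exact sum_congr rfl fun a _ => by split_ifs <;> rfl
          have e2 : ∑ K ∈ Q, (if K = L then 2 else 1) = ∑ K ∈ Q, 1 +
              ∑ K ∈ Q, (if K = L then 1 else 0) := by
            rw [← sum_add_distrib]
            exact sum_congr rfl fun a _ => by split_ifs <;> rfl
          rw [e1, e2, sum_ite_eq', sum_ite_eq', if_pos hx1, if_pos hL, sum_const, sum_const,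
            smul_eq_mul, smul_eq_mul]
          omega) (by
          intro X' hX'
          have e1 : ∑ a ∈ X', (if a = x0.1 then 3 else 1) ≤ X'.card + 2 := by
            have e1 : ∑ a ∈ X', (if a = x0.1 then 3 else 1) = ∑ a ∈ X', 1 +
                ∑ a ∈ X', (if a = x0.1 then 2 else 0) := by
              rw [← sum_add_distrib]
              exact sum_congr rfl fun a _ => by split_ifs <;> rfl
            rw [e1, sum_ite_eq', sum_const, smul_eq_mul]
            split_ifs <;> omega
          rcases X'.eq_empty_or_nonempty with rfl | hne'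
          · simp
          by_cases hXX : X' = X
          · subst hXX
            have e2 : ∑ K ∈ Q, (if K = L then 2 else 1) ≤
                ∑ K ∈ Q, min (if K = L then 2 else 1) (∑ a ∈ X', N.e a K) := by
              refine sum_le_sum fun K hK => ?_
              have := hdeg2 K hK
              split_ifs <;> omega
            have e3 : ∑ K ∈ Q, (if K = L then 2 else 1) = ∑ K ∈ Q, 1 +
                ∑ K ∈ Q, (if K = L then 1 else 0) := by
              rw [← sum_add_distrib]
              exact sum_congr rfl fun a _ => by split_ifs <;> rfl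
            rw [sum_ite_eq', if_pos hL, sum_const, smul_eq_mul] at e3
            omega
          · have e2 : ∑ K ∈ outNb Q N X', 1 ≤
                ∑ K ∈ Q, min (if K = L then 2 else 1) (∑ a ∈ X', N.e a K) := by
              calc ∑ K ∈ outNb Q N X', 1 ≤
                  ∑ K ∈ outNb Q N X', min (if K = L then 2 else 1) (∑ a ∈ X', N.e a K) := by
                    refine sum_le_sum fun K hK => ?_
                    have := (mem_filter.1 hK).2
                    split_ifs <;> omega
                _ ≤ _ := sum_le_sum_of_subset (filter_subset _ _)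
            rw [sum_const, smul_eq_mul, mul_one] at e2
            have e3 := (hall X' hX' hne').2 hXX
            omega)
      refine B.out_glue hX hQ hF1 hF2 hF3 (x := {x0}) hx ?_ hxp ?_
      · intro a _
        rw [hxf]
        by_cases h2 : a = x0.1
        · right; rw [if_pos h2, if_pos h2]
        · left; rw [if_neg h2, if_neg h2]
      · intro K hK
        rw [hset K hK]
        by_cases h2 : K = L
        · right
          rw [if_pos h2, if_pos h2, if_pos (h2.trans hLL.symm),
            card_union_of_disjoint (by simpa using hbq), card_singleton, card_singleton,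
            h5 K hK]
        · left
          rw [if_neg h2, if_neg h2, if_neg (fun h3 => h2 (h3.trans hLL))]
          simp
    · -- half-edges at different pieces
      obtain ⟨F, hF1, hF2, hF3⟩ := B.exists_legs_X hX hQ (fun a => if a = x0.1 then 0 else 1)
        (fun K => if K = L ∨ K = L' then 0 else 1) (by
          have e1 : ∑ a ∈ X, (if a = x0.1 then 0 else 1) +
              ∑ a ∈ X, (if a = x0.1 then 1 else 0) = ∑ a ∈ X, 1 := by
            rw [← sum_add_distrib]
            exact sum_congr rfl fun a _ => by split_ifs <;> rfl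
          have e2 : ∑ K ∈ Q, (if K = L ∨ K = L' then 0 else 1) +
              (∑ K ∈ Q, (if K = L then 1 else 0) + ∑ K ∈ Q, (if K = L' then 1 else 0)) =
              ∑ K ∈ Q, 1 := by
            rw [← sum_add_distrib, ← sum_add_distrib]
            refine sum_congr rfl fun K _ => ?_
            by_cases h2 : K = L
            · have h3 : ¬ K = L' := fun h3 => hLL (h3.symm.trans h2)
              simp [h2, Ne.symm hLL]
            · by_cases h3 : K = L' <;> simp [h2, h3, hLL]
          rw [sum_ite_eq', if_pos hx1, sum_const, smul_eq_mul] at e1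
          rw [sum_ite_eq', sum_ite_eq', if_pos hL, if_pos hL', sum_const, smul_eq_mul] at e2
          omega) (by
          intro X' hX'
          have hlow : ((outNb Q N X').erase L).erase L' ⊆ Q :=
            (erase_subset _ _).trans ((erase_subset _ _).trans (filter_subset _ _))
          have e2 : (((outNb Q N X').erase L).erase L').card ≤
              ∑ K ∈ Q, min (if K = L ∨ K = L' then 0 else 1) (∑ a ∈ X', N.e a K) := by
            calc (((outNb Q N X').erase L).erase L').card =
                  ∑ K ∈ ((outNb Q N X').erase L).erase L', 1 := by simp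
              _ ≤ ∑ K ∈ ((outNb Q N X').erase L).erase L',
                  min (if K = L ∨ K = L' then 0 else 1) (∑ a ∈ X', N.e a K) := by
                    refine sum_le_sum fun K hK => ?_
                    rw [mem_erase, mem_erase, outNb, mem_filter] at hK
                    rw [if_neg (by tauto)]
                    exact le_min le_rfl hK.2.2.2
              _ ≤ _ := sum_le_sum_of_subset hlow
          have e3 := Finset.pred_card_le_card_erase (s := outNb Q N X') (a := L)
          have e4 := Finset.pred_card_le_card_erase (s := (outNb Q N X').erase L) (a := L')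
          rcases X'.eq_empty_or_nonempty with rfl | hne'
          · simp
          by_cases hXX : X' = X
          · subst hXX
            have e1 : ∑ a ∈ X', (if a = x0.1 then 0 else 1) +
                ∑ a ∈ X', (if a = x0.1 then 1 else 0) = ∑ a ∈ X', 1 := by
              rw [← sum_add_distrib]
              exact sum_congr rfl fun a _ => by split_ifs <;> rfl
            rw [sum_ite_eq', if_pos hx1, sum_const, smul_eq_mul] at e1
            rw [hQX] at e2 e3 e4
            omega
          · have e1 : ∑ a ∈ X', (if a = x0.1 then 0 else 1) ≤ ∑ a ∈ X', 1 :=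
              sum_le_sum fun a _ => by split_ifs <;> omega
            rw [sum_const, smul_eq_mul, mul_one] at e1
            have e5 := (hall X' hX' hne').2 hXX
            omega)
      refine B.out_glue hX hQ hF1 hF2 hF3 (x := {x0}) hx ?_ hxp ?_
      · intro a _
        left
        rw [hxf]
        by_cases h2 : a = x0.1
        · rw [if_pos h2, if_pos h2]
        · rw [if_neg h2, if_neg h2]
      · intro K hK
        left
        rw [hset K hK]
        by_cases h2 : K = L
        · have h3 : ¬ K = L' := fun h3 => hLL (h3.symm.trans h2)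
          rw [if_pos (Or.inl h2), if_neg h3, if_pos h2]
          simp
        · by_cases h3 : K = L'
          · rw [if_pos (Or.inr h3), if_pos h3, if_neg h2]
            simp
          · rw [if_neg (by tauto), if_neg h3, if_neg h2]
            simp

end Barrier

end OneFour
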