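import Pool.Agent.Lib.MP_39c6f6_co.StarCase2

set_option linter.unusedSectionVars false

namespace F14Star

open Finset

variable {α δ : Type*} [DecidableEq α] [DecidableEq δ]
variable {A : Finset α} {D : Finset δ} {e : α → δ → ℕ} {W : Finset α} {c : δ → Finset α → ℕ}

theorem StarHyp.case2 (h : StarHyp A D e W c) (hA : A.Nonempty)
    (h2 : ∀ X, X ⊆ A → X.Nonempty → ell W X + 2 ≤ ∑ d ∈ D, c d X) : False := by
  classical
  set T : Finset (Finset α) :=
    A.powerset.filter (fun X => X.Nonempty ∧ ∑ d ∈ D, c d X = ell W X + 2) with hT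
  have memT : ∀ X, X ∈ T ↔ X ⊆ A ∧ X.Nonempty ∧ ∑ d ∈ D, c d X = ell W X + 2 := by
    intro X; rw [hT, Finset.mem_filter, Finset.mem_powerset]
  have unionT : ∀ X ∈ T, ∀ Y ∈ T, (X ∩ Y).Nonempty → X ∪ Y ∈ T := by
    intro X hX Y hY hXY
    rw [memT] at hX hY ⊢
    have hsub : X ∪ Y ⊆ A := Finset.union_subset hX.1 hY.1
    refine ⟨hsub, hX.2.1.mono Finset.subset_union_left, ?_⟩
    have h3 := h.sum_sub hX.1 hY.1
    have h4 := ell_union_inter W X Y
    have h5 := h2 (X ∩ Y) (Finset.inter_subset_left.trans hX.1) hXY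
    have h6 := h2 (X ∪ Y) hsub (hX.2.1.mono Finset.subset_union_left)
    omega
  set S1 : Finset (Finset α) := T.filter (fun X => ∀ Y ∈ T, X ⊆ Y → Y = X) with hS1
  set S2 : Finset (Finset α) :=
    (A.filter (fun a => ∀ X ∈ T, a ∉ X)).image (fun a => ({a} : Finset α)) with hS2
  have memS1 : ∀ X, X ∈ S1 ↔ X ∈ T ∧ ∀ Y ∈ T, X ⊆ Y → Y = X := by
    intro X; rw [hS1, Finset.mem_filter]
  have memS2 : ∀ X, X ∈ S2 ↔ ∃ a, a ∈ A ∧ (∀ Y ∈ T, a ∉ Y) ∧ X = {a} := by
    intro X
    rw [hS2, Finset.mem_image]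
    constructor
    · rintro ⟨a, ha, rfl⟩
      rw [Finset.mem_filter] at ha
      exact ⟨a, ha.1, ha.2, rfl⟩
    · rintro ⟨a, ha, ha2, rfl⟩
      exact ⟨a, Finset.mem_filter.mpr ⟨ha, ha2⟩, rfl⟩
  have hdisj : ((S1 ∪ S2 : Finset (Finset α)) : Set (Finset α)).PairwiseDisjoint id := by
    intro X hX Y hY hXY
    rw [Finset.mem_coe, Finset.mem_union] at hX hY
    show Disjoint X Y
    rcases hX with hX | hX <;> rcases hY with hY | hY
    · rw [memS1] at hX hY
      by_contra hnd
      have hne : (X ∩ Y).Nonempty := by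
        rw [Finset.nonempty_iff_ne_empty]
        intro h0; exact hnd (Finset.disjoint_iff_inter_eq_empty.mpr h0)
      have hU := unionT X hX.1 Y hY.1 hne
      have e1 := hX.2 _ hU Finset.subset_union_left
      have e2 := hY.2 _ hU Finset.subset_union_right
      exact hXY (e1.symm.trans e2)
    · rw [memS1] at hX
      rw [memS2] at hY
      obtain ⟨a, _, ha, rfl⟩ := hY
      exact Finset.disjoint_singleton_right.mpr (ha X hX.1)
    · rw [memS1] at hY
      rw [memS2] at hX
      obtain ⟨a, _, ha, rfl⟩ := hX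
      exact Finset.disjoint_singleton_left.mpr (ha Y hY.1)
    · rw [memS2] at hX hY
      obtain ⟨a, _, ha, rfl⟩ := hX
      obtain ⟨b, _, hb, rfl⟩ := hY
      rw [Finset.disjoint_singleton]
      rintro rfl
      exact hXY rfl
  have hcover : (S1 ∪ S2).biUnion id = A := by
    ext a
    simp only [Finset.mem_biUnion, id]
    constructor
    · rintro ⟨X, hX, haX⟩
      rw [Finset.mem_union] at hX
      rcases hX with hX | hX
      · rw [memS1] at hX
        exact ((memT X).mp hX.1).1 haX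
      · rw [memS2] at hX
        obtain ⟨b, hb, _, rfl⟩ := hX
        rw [Finset.mem_singleton] at haX
        rw [haX]; exact hb
    · intro haA
      by_cases hex : ∃ X ∈ T, a ∈ X
      · obtain ⟨X, hXT, haX⟩ := hex
        obtain ⟨M, hXM, hM⟩ := T.exists_le_maximal hXT
        refine ⟨M, Finset.mem_union_left _ ((memS1 M).mpr ⟨hM.prop, ?_⟩), hXM haX⟩
        intro Y hY hMY
        exact (hM.eq_of_le hY hMY).symm
      · push Not at hex
        exact ⟨{a}, Finset.mem_union_right _ ((memS2 _).mpr ⟨a, haA, hex, rfl⟩),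
          Finset.mem_singleton_self a⟩
  have hpart : ∀ Y ∈ S1 ∪ S2, ∑ d ∈ D, pay A e c Y d ≤ 9 * ell W Y := by
    intro Y hY
    rw [Finset.mem_union] at hY
    rcases hY with hY | hY
    · rw [memS1, memT] at hY
      obtain ⟨⟨hYA, hYne, hYt⟩, _⟩ := hY
      by_cases hbig : 2 ≤ Y.card ∨ 1 ≤ (Y ∩ W).card
      · exact h.part_big hYA hYne hYt hbig
      · push Not at hbig
        have hcard : Y.card = 1 := by
          have := Finset.card_pos.mpr hYne
          omega
        obtain ⟨b, rfl⟩ := Finset.card_eq_one.mp hcard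
        refine h.part_single (hYA (Finset.mem_singleton_self b)) ?_ hYt
        intro hbW
        have := hbig.2
        rw [Finset.singleton_inter_of_mem hbW] at this
        simp at this
    · rw [memS2] at hY
      obtain ⟨a, ha, haT, rfl⟩ := hY
      apply h.part_W ha
      by_contra haW
      obtain ⟨X, hXA, haX, hX⟩ := h.H5 a ha haW
      have h3 := h2 X hXA ⟨a, haX⟩
      exact haT X ((memT X).mpr ⟨hXA, ⟨a, haX⟩, by omega⟩) haX
  have hfinal : 9 * D.card ≤ 9 * ell W A := by
    calc 9 * D.card = ∑ _d ∈ D, 9 := by simp [mul_comm]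
      _ ≤ ∑ d ∈ D, ∑ Y ∈ S1 ∪ S2, pay A e c Y d :=
          Finset.sum_le_sum (fun d hd => h.node _ hdisj hcover hd)
      _ = ∑ Y ∈ S1 ∪ S2, ∑ d ∈ D, pay A e c Y d := Finset.sum_comm
      _ ≤ ∑ Y ∈ S1 ∪ S2, 9 * ell W Y := Finset.sum_le_sum hpart
      _ = 9 * ell W A := by
          rw [← Finset.mul_sum, ← ell_biUnion W _ hdisj, hcover]
  have h4 := h.H4 A (Finset.Subset.refl _) hA
  have h5 := Finset.card_le_card (NX_subset e D A)
  omega

end F14Star
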