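import Pool.Agent.Lib.MP_39c6f6_co.StarContract
import Pool.Agent.Lib.MP_39c6f6_co.StarCase2b

set_option linter.unusedSectionVars false

/-!
# MP_39c6f6_co: the star lemma (section 7 of the master proof)
-/

namespace F14Star

open Finset

variable {α δ : Type*} [DecidableEq α] [DecidableEq δ]
variable {A : Finset α} {D : Finset δ} {e : α → δ → ℕ} {W : Finset α} {c : δ → Finset α → ℕ}

namespace Tight

variable {K : Finset α} {d0 : δ}

/-- All hypotheses persist under contraction of a tight set. -/
theorem contract (t : Tight A D e W c K) (hd0 : d0 ∈ NX e D K) :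
    StarHyp (A \ K) (cD e D K d0) (ce e (NX e D K) d0) W (cc c W K (NX e D K) d0) := by
  have hsubA : A \ K ⊆ A := Finset.sdiff_subset
  have hd0c : d0 ∈ cD e D K d0 := mem_cD.mpr (Or.inl rfl)
  have hmeetA := t.meets
  have hrank : 1 ≤ cc c W K (NX e D K) d0 d0 (A \ K) := by
    have := t.cc_rank_lb (d0 := d0); omega
  refine ⟨?_, ?_, ?_, ?_, ?_, ?_, ?_, ?_, ?_, ?_, ?_, ?_⟩
  · -- H0
    intro a ha
    rw [sum_cD hd0]
    have h1 : ce e (NX e D K) d0 a d0 = ∑ x ∈ NX e D K, e a x := by simp [ce]
    have h2 : ∑ d ∈ D \ NX e D K, ce e (NX e D K) d0 a d = ∑ d ∈ D \ NX e D K, e a d := by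
      apply Finset.sum_congr rfl
      intro d hd
      simp [ce, ne_of_sdiff hd0 hd]
    rw [h1, h2, add_comm, Finset.sum_sdiff (NX_subset e D K)]
    exact t.hyp.H0 a (hsubA ha)
  · intro d hd X Y hXY hY; exact t.cc_mono hd hXY hY
  · intro d hd X Y hX hY; exact t.cc_sub hd hX hY
  · intro d hd X hX; exact t.cc_le hd hX
  · intro d hd X hX h1; exact t.cc_pos hd hX h1
  · -- r_pos
    intro d hd
    by_cases hdd : d = d0
    · subst hdd; exact hrank
    · rw [t.cc_rank_old hd hdd]
      exact t.hyp.r_pos d (old_of_ne hd hdd).1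
  · -- H2
    intro d hd hr
    by_cases hdd : d = d0
    · subst hdd
      right
      have h1 := t.cc_rank_lb (d0 := d)
      have h2 : rho A D e c K = 0 := by omega
      rw [J_ce_self]
      exact t.hyp.H7 K t.sub t.ne (t.rho_zero_iff.mp h2) t.card_N
    · rw [t.cc_rank_old hd hdd] at hr
      rw [(t.J_old hd hdd ∅).2]
      rcases t.hyp.H2 d (old_of_ne hd hdd).1 hr with h1 | h1
      · left
        refine ⟨h1.1, fun a ha => ?_⟩
        simp only [ce, if_neg hdd]
        exact h1.2 a (hsubA ha)
      · right; exact h1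
  · -- H3
    intro d hd hr X hX h1 h2
    by_cases hdd : d = d0
    · subst hdd
      exact t.cc_H3 hr hX ((meets_iff X).mp h1) ((meets_iff _).mp h2)
    · rw [t.cc_rank_old hd hdd] at hr
      have hJ := t.J_old hd hdd X
      obtain ⟨hdD, hdN⟩ := old_of_ne hd hdd
      rw [hJ.1] at h2
      rw [J_ce_ne _ hdd] at h1
      rw [cc_ne hdd, cc_ne hdd]
      have h3 := t.hyp.H3 d hdD hr X (hX.trans hsubA) h1 h2
      have h4 : c d (A \ X) ≤ c d ((A \ K) \ X) := by
        have h5 : A \ X ⊆ ((A \ K) \ X) ∪ K := by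
          intro x hx
          simp only [Finset.mem_union, Finset.mem_sdiff] at hx ⊢
          by_cases hxK : x ∈ K
          · exact Or.inr hxK
          · exact Or.inl ⟨⟨hx.1, hxK⟩, hx.2⟩
        have h6 : (A \ K) \ X ⊆ A := Finset.sdiff_subset.trans hsubA
        exact (t.hyp.c_mono d hdD _ _ h5 (Finset.union_subset h6 t.sub)).trans
          (t.c_union_le hdD hdN h6)
      omega
  · -- H4
    intro X hX hne
    by_cases hm : ∃ x ∈ NX e D K, 1 ≤ J e X x
    · rw [NX_meets hd0 hm, Finset.card_insert_of_notMem (by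
        rw [Finset.mem_sdiff]; exact fun h => h.2 hd0)]
      have hdis : Disjoint X K := Finset.disjoint_of_subset_left hX Finset.sdiff_disjoint
      have h1 := t.hyp.H4 (X ∪ K) (Finset.union_subset (hX.trans hsubA) t.sub)
        (hne.mono Finset.subset_union_left)
      rw [ell_union W hdis] at h1
      have h2 : NX e D K ⊆ NX e D (X ∪ K) := by rw [NX_union]; exact Finset.subset_union_right
      have h3 := Finset.card_sdiff_add_card_eq_card h2
      have h4 := t.card_N
      omega
    · rw [NX_not_meets hd0 hm]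
      exact t.hyp.H4 X (hX.trans hsubA) hne
  · -- H5
    intro b hb hbW
    obtain ⟨hbA, hbK⟩ := Finset.mem_sdiff.mp hb
    obtain ⟨X, hX, hbX, hle⟩ := t.hyp.H5 b hbA hbW
    -- generic bound
    have gen : ∀ Y : Finset α, Y ⊆ A \ K → ∀ Z : Finset α, Z ⊆ A → Y ⊆ Z →
        cc c W K (NX e D K) d0 d0 Y + ∑ d ∈ D \ NX e D K, c d Y ≤
          cc c W K (NX e D K) d0 d0 Y + ∑ d ∈ D \ NX e D K, c d Z := by
      intro Y _ Z hZ hYZ
      have : ∑ d ∈ D \ NX e D K, c d Y ≤ ∑ d ∈ D \ NX e D K, c d Z :=
        Finset.sum_le_sum (fun d hd => t.hyp.c_mono d (Finset.mem_sdiff.mp hd).1 Y Z hYZ hZ)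
      omega
    have hsum' : ∀ Y : Finset α, ∑ d ∈ cD e D K d0, cc c W K (NX e D K) d0 d Y =
        cc c W K (NX e D K) d0 d0 Y + ∑ d ∈ D \ NX e D K, c d Y := by
      intro Y
      rw [sum_cD hd0]
      congr 1
      apply Finset.sum_congr rfl
      intro d hd
      exact cc_ne (ne_of_sdiff hd0 hd) Y
    have hsplit : ∀ Z : Finset α, ∑ d ∈ D \ NX e D K, c d Z + ∑ d ∈ NX e D K, c d Z =
        ∑ d ∈ D, c d Z := fun Z => Finset.sum_sdiff (NX_subset e D K)
    by_cases hXK : (X ∩ K).Nonempty
    · have hXKA : X ∪ K ⊆ A := Finset.union_subset hX t.sub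
      have h1 := t.hyp.sum_sub hX t.sub
      have h2 := t.hyp.ell_lt_sum (Finset.inter_subset_left.trans hX : X ∩ K ⊆ A) hXK
      have h3 := ell_union_inter W X K
      have h4 := t.tight
      have h5 : (X ∪ K) \ K ∪ K = X ∪ K := Finset.sdiff_union_of_subset Finset.subset_union_right
      have h5' : X \ K ∪ K = X ∪ K := Finset.sdiff_union_self_eq_union
      have h6 := ell_sdiff W (Finset.subset_union_right : K ⊆ X ∪ K)
      have h6' : (X ∪ K) \ K = X \ K := Finset.union_sdiff_right X K
      rw [h6'] at h6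
      have hYsub : X \ K ⊆ A \ K := Finset.sdiff_subset_sdiff hX (Finset.Subset.refl _)
      refine ⟨X \ K, hYsub, Finset.mem_sdiff.mpr ⟨hbX, hbK⟩, ?_⟩
      rw [hsum']
      have h7 := gen (X \ K) hYsub (X ∪ K) hXKA
        (Finset.sdiff_subset.trans Finset.subset_union_left)
      have h8 := hsplit (X ∪ K)
      have h9 : cc c W K (NX e D K) d0 d0 (X \ K) ≤ ∑ d ∈ NX e D K, c d (X ∪ K) - ell W K := by
        rw [cc_self, h5']; exact min_le_right _ _
      have h10 := t.shift_lb hX
      omega
    · have hdis : X ∩ K = ∅ := Finset.not_nonempty_iff_eq_empty.mp hXK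
      have hXsub : X ⊆ A \ K := by
        intro x hx
        refine Finset.mem_sdiff.mpr ⟨hX hx, fun hxK => ?_⟩
        have : x ∈ X ∩ K := Finset.mem_inter.mpr ⟨hx, hxK⟩
        rw [hdis] at this
        exact absurd this (Finset.notMem_empty x)
      refine ⟨X, hXsub, hbX, ?_⟩
      rw [hsum']
      have h8 := hsplit X
      have h9 : cc c W K (NX e D K) d0 d0 X ≤ ∑ d ∈ NX e D K, c d X := by
        rw [cc_self]; exact min_le_left _ _
      omega
  · -- H6
    intro P hP hPne hPr
    by_cases hdP : d0 ∈ P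
    · -- replace `d0` by `N(K)`
      have hold : ∀ d ∈ P.erase d0, d ∈ D ∧ d ∉ NX e D K := by
        intro d hd
        obtain ⟨hne, hdP'⟩ := Finset.mem_erase.mp hd
        exact old_of_ne (hP hdP') hne
      have hdisj : Disjoint (P.erase d0) (NX e D K) := by
        rw [Finset.disjoint_left]
        intro d hd; exact (hold d hd).2
      have hsumP : ∑ d ∈ P.erase d0, (cc c W K (NX e D K) d0 d (A \ K) - 1) +
          (cc c W K (NX e D K) d0 d0 (A \ K) - 1) =
          ∑ d ∈ P, (cc c W K (NX e D K) d0 d (A \ K) - 1) := Finset.sum_erase_add _ _ hdP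
      have hsumP' : ∑ d ∈ P.erase d0, (cc c W K (NX e D K) d0 d (A \ K) - 1) =
          ∑ d ∈ P.erase d0, (c d A - 1) := by
        apply Finset.sum_congr rfl
        intro d hd
        obtain ⟨hne, hdP'⟩ := Finset.mem_erase.mp hd
        rw [t.cc_rank_old (hP hdP') hne]
      have hlb := t.cc_rank_lb (d0 := d0)
      have hrho : rho A D e c K = ∑ d ∈ NX e D K, (c d A - 1) := rfl
      have h6 := t.hyp.H6 (P.erase d0 ∪ NX e D K)
        (Finset.union_subset (fun d hd => (hold d hd).1) (NX_subset _ _ _))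
        ⟨d0, Finset.mem_union_right _ hd0⟩
        (by rw [Finset.sum_union hdisj]; omega)
      rw [Finset.card_union_of_disjoint hdisj, Finset.card_erase_of_mem hdP, t.card_N] at h6
      have h7 : NP e A (P.erase d0 ∪ NX e D K) ⊆
          NP (ce e (NX e D K) d0) (A \ K) P ∪ K := by
        intro x hx
        obtain ⟨hxA, d, hd, hxd⟩ := mem_NP.mp hx
        rw [Finset.mem_union]
        by_cases hxK : x ∈ K
        · exact Or.inr hxK
        · left
          rw [mem_NP]
          refine ⟨Finset.mem_sdiff.mpr ⟨hxA, hxK⟩, ?_⟩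
          rcases Finset.mem_union.mp hd with hd1 | hd1
          · obtain ⟨hne, hdP'⟩ := Finset.mem_erase.mp hd1
            exact ⟨d, hdP', by simp only [ce, if_neg hne]; exact hxd⟩
          · refine ⟨d0, hdP, ?_⟩
            simp only [ce, if_true]
            exact hxd.trans (Finset.single_le_sum (f := fun y => e x y)
              (fun _ _ => Nat.zero_le _) hd1)
      have h8 := (Finset.card_le_card h7).trans (Finset.card_union_le _ _)
      have h9 := card_le_ell W K
      have h10 : 1 ≤ P.card := Finset.card_pos.mpr hPne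
      omega
    · have hold : ∀ d ∈ P, d ∈ D ∧ d ∉ NX e D K := by
        intro d hd
        exact old_of_ne (hP hd) (fun h => hdP (h ▸ hd))
      have hsumP' : ∑ d ∈ P, (cc c W K (NX e D K) d0 d (A \ K) - 1) =
          ∑ d ∈ P, (c d A - 1) := by
        apply Finset.sum_congr rfl
        intro d hd
        rw [t.cc_rank_old (hP hd) (fun h => hdP (h ▸ hd))]
      have h6 := t.hyp.H6 P (fun d hd => (hold d hd).1) hPne (by omega)
      have h7 : NP e A P ⊆ NP (ce e (NX e D K) d0) (A \ K) P := by
        intro x hx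
        obtain ⟨hxA, d, hd, hxd⟩ := mem_NP.mp hx
        rw [mem_NP]
        refine ⟨Finset.mem_sdiff.mpr ⟨hxA, fun hxK => ?_⟩, d, hd, ?_⟩
        · have h8 := J_K_zero (K := K) (e := e) (hold d hd).1 (hold d hd).2
          have h9 : e x d ≤ J e K d :=
            Finset.single_le_sum (f := fun y => e y d) (fun _ _ => Nat.zero_le _) hxK
          omega
        · have hne : d ≠ d0 := fun h => hdP (h ▸ hd)
          simp only [ce, if_neg hne]; exact hxd
      exact h6.trans (Finset.card_le_card h7)
  · -- H7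
    intro X hX hne hr hcard
    by_cases hm : ∃ x ∈ NX e D K, 1 ≤ J e X x
    · rw [NX_meets hd0 hm] at hr hcard ⊢
      have hnot : d0 ∉ NX e D (X ∪ K) \ NX e D K := by
        rw [Finset.mem_sdiff]; exact fun h => h.2 hd0
      rw [Finset.card_insert_of_notMem hnot] at hcard
      rw [Finset.sum_insert hnot]
      have hdis : Disjoint X K := Finset.disjoint_of_subset_left hX Finset.sdiff_disjoint
      have hrd0 := hr d0 (Finset.mem_insert_self _ _)
      have hlb := t.cc_rank_lb (d0 := d0)
      have hrho : rho A D e c K = 0 := by omega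
      have hall := t.rho_zero_iff.mp hrho
      have hsub : NX e D K ⊆ NX e D (X ∪ K) := by rw [NX_union]; exact Finset.subset_union_right
      have h3 := Finset.card_sdiff_add_card_eq_card hsub
      have h4 := t.card_N
      have hXK : X ∪ K ⊆ A := Finset.union_subset (hX.trans hsubA) t.sub
      have h7 := t.hyp.H7 (X ∪ K) hXK (hne.mono Finset.subset_union_left) (by
        intro d hd
        by_cases hdN : d ∈ NX e D K
        · exact hall d hdN
        · have hdd : d ≠ d0 := fun h => hdN (h ▸ hd0)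
          have h5 := hr d (Finset.mem_insert_of_mem (Finset.mem_sdiff.mpr ⟨hd, hdN⟩))
          rw [t.cc_rank_old (mem_cD.mpr (Or.inr ⟨(mem_NX.mp hd).1, hdN⟩)) hdd] at h5
          exact h5) (by rw [ell_union W hdis]; omega)
      have hsd : A \ (X ∪ K) = (A \ K) \ X := by
        ext x; simp only [Finset.mem_sdiff, Finset.mem_union]; tauto
      rw [hsd, ← Finset.sum_sdiff hsub] at h7
      have h8 : ∑ d ∈ NX e D (X ∪ K) \ NX e D K, J (ce e (NX e D K) d0) ((A \ K) \ X) d =
          ∑ d ∈ NX e D (X ∪ K) \ NX e D K, J e ((A \ K) \ X) d := by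
        apply Finset.sum_congr rfl
        intro d hd
        have hdd : d ≠ d0 := fun h => hnot (h ▸ hd)
        exact J_ce_ne _ hdd _
      rw [h8, J_ce_self]
      omega
    · rw [NX_not_meets hd0 hm] at hr hcard ⊢
      have hold : ∀ d ∈ NX e D X, d ∈ D ∧ d ∉ NX e D K ∧ d ≠ d0 := by
        intro d hd
        obtain ⟨hdD, hJ⟩ := mem_NX.mp hd
        have hdN : d ∉ NX e D K := fun h => hm ⟨d, h, hJ⟩
        exact ⟨hdD, hdN, fun h => hdN (h ▸ hd0)⟩
      have h7 := t.hyp.H7 X (hX.trans hsubA) hne (by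
        intro d hd
        obtain ⟨h1, h2, h3⟩ := hold d hd
        have h5 := hr d hd
        rw [t.cc_rank_old (mem_cD.mpr (Or.inr ⟨h1, h2⟩)) h3] at h5
        exact h5) hcard
      have h8 : ∑ d ∈ NX e D X, J (ce e (NX e D K) d0) ((A \ K) \ X) d =
          ∑ d ∈ NX e D X, J e (A \ X) d := by
        apply Finset.sum_congr rfl
        intro d hd
        obtain ⟨h1, h2, h3⟩ := hold d hd
        exact (t.J_old (mem_cD.mpr (Or.inr ⟨h1, h2⟩)) h3 X).1
      rw [h8]; exact h7

end Tight

/-- The star lemma. -/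
theorem star_aux : ∀ (n : ℕ) (A : Finset α) (D : Finset δ) (e : α → δ → ℕ) (W : Finset α)
    (c : δ → Finset α → ℕ), A.card = n → StarHyp A D e W c → A = ∅ := by
  intro n
  induction n using Nat.strong_induction_on with
  | _ n ih =>
    intro A D e W c hn h
    by_contra hne
    have hA : A.Nonempty := Finset.nonempty_iff_ne_empty.mpr hne
    by_cases hex : ∃ K, K ⊆ A ∧ K.Nonempty ∧ ∑ d ∈ D, c d K = ell W K + 1
    · obtain ⟨K, hK, hKne, ht⟩ := hex
      have t : Tight A D e W c K := ⟨h, hK, hKne, ht⟩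
      have hN : (NX e D K).Nonempty := by
        rw [← Finset.card_pos, t.card_N]; omega
      obtain ⟨d0, hd0⟩ := hN
      have h1 := t.contract hd0
      have h2 : (A \ K).card < n := by
        rw [← hn]
        exact Finset.card_lt_card (Finset.sdiff_ssubset hK hKne)
      have h3 := ih _ h2 _ _ _ _ _ rfl h1
      have h4 := t.sdiff_ne
      rw [h3] at h4
      exact Finset.not_nonempty_empty h4
    · push Not at hex
      refine h.case2 hA ?_
      intro X hX hXne
      have h1 := h.ell_lt_sum hX hXne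
      have h2 := hex X hX hXne
      omega

/-- **Star lemma** (section 7 of the master proof). -/
theorem star (A : Finset α) (D : Finset δ) (e : α → δ → ℕ) (W : Finset α)
    (c : δ → Finset α → ℕ) (h : StarHyp A D e W c) : A = ∅ :=
  star_aux _ A D e W c rfl h

end F14Star
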