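import Pool.Agent.Lib.MP_39c6f6_co.StarDefs

set_option linter.unusedSectionVars false

namespace F14Star

open Finset

variable {α δ : Type*} [DecidableEq α] [DecidableEq δ]

theorem J_empty (e : α → δ → ℕ) (d : δ) : J e ∅ d = 0 := by simp [J]

theorem J_singleton (e : α → δ → ℕ) (a : α) (d : δ) : J e {a} d = e a d := by simp [J]

theorem J_mono (e : α → δ → ℕ) {X Y : Finset α} (h : X ⊆ Y) (d : δ) : J e X d ≤ J e Y d :=
  Finset.sum_le_sum_of_subset h

theorem J_sdiff (e : α → δ → ℕ) {X A : Finset α} (h : X ⊆ A) (d : δ) :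
    J e (A \ X) d + J e X d = J e A d := Finset.sum_sdiff h

theorem J_union (e : α → δ → ℕ) {X Y : Finset α} (h : Disjoint X Y) (d : δ) :
    J e (X ∪ Y) d = J e X d + J e Y d := Finset.sum_union h

theorem J_union_le (e : α → δ → ℕ) (X Y : Finset α) (d : δ) :
    J e (X ∪ Y) d ≤ J e X d + J e Y d := by
  have := Finset.sum_union_inter (s₁ := X) (s₂ := Y) (f := fun a => e a d)
  unfold J; omega

theorem mem_NX {e : α → δ → ℕ} {D : Finset δ} {X : Finset α} {d : δ} :
    d ∈ NX e D X ↔ d ∈ D ∧ 1 ≤ J e X d := by simp [NX]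

theorem NX_subset (e : α → δ → ℕ) (D : Finset δ) (X : Finset α) : NX e D X ⊆ D :=
  Finset.filter_subset _ _

theorem NX_union (e : α → δ → ℕ) (D : Finset δ) (X Y : Finset α) :
    NX e D (X ∪ Y) = NX e D X ∪ NX e D Y := by
  ext d
  simp only [mem_NX, Finset.mem_union]
  have h1 := J_union_le e X Y d
  have h2 := J_mono e (Finset.subset_union_left : X ⊆ X ∪ Y) d
  have h3 := J_mono e (Finset.subset_union_right : Y ⊆ X ∪ Y) d
  constructor
  · rintro ⟨hd, h⟩
    by_cases hx : 1 ≤ J e X d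
    · exact Or.inl ⟨hd, hx⟩
    · exact Or.inr ⟨hd, by omega⟩
  · rintro (⟨hd, h⟩ | ⟨hd, h⟩)
    · exact ⟨hd, by omega⟩
    · exact ⟨hd, by omega⟩

theorem mem_NP {e : α → δ → ℕ} {A : Finset α} {P : Finset δ} {a : α} :
    a ∈ NP e A P ↔ a ∈ A ∧ ∃ d ∈ P, 1 ≤ e a d := by simp [NP]

theorem ell_union_inter (W X Y : Finset α) :
    ell W (X ∪ Y) + ell W (X ∩ Y) = ell W X + ell W Y := by
  unfold ell
  have h1 := Finset.card_union_add_card_inter X Y
  have h2 := Finset.card_union_add_card_inter (X ∩ W) (Y ∩ W)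
  have h3 : (X ∪ Y) ∩ W = X ∩ W ∪ Y ∩ W := Finset.union_inter_distrib_right _ _ _
  have h4 : (X ∩ Y) ∩ W = (X ∩ W) ∩ (Y ∩ W) := by
    ext x; simp only [Finset.mem_inter]; tauto
  rw [h3, h4]; omega

theorem ell_empty (W : Finset α) : ell W ∅ = 0 := by simp [ell]

theorem ell_union (W : Finset α) {X Y : Finset α} (h : Disjoint X Y) :
    ell W (X ∪ Y) = ell W X + ell W Y := by
  have := ell_union_inter W X Y
  rw [Finset.disjoint_iff_inter_eq_empty.mp h, ell_empty] at this
  omega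

theorem ell_sdiff (W : Finset α) {X A : Finset α} (h : X ⊆ A) :
    ell W (A \ X) + ell W X = ell W A := by
  rw [← ell_union W Finset.sdiff_disjoint, Finset.sdiff_union_of_subset h]

theorem ell_mono (W : Finset α) {X A : Finset α} (h : X ⊆ A) : ell W X ≤ ell W A := by
  have := ell_sdiff W h; omega

theorem card_le_ell (W X : Finset α) : X.card ≤ ell W X := by unfold ell; omega

theorem ell_biUnion (W : Finset α) (S : Finset (Finset α))
    (hS : (S : Set (Finset α)).PairwiseDisjoint id) :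
    ell W (S.biUnion id) = ∑ X ∈ S, ell W X := by
  unfold ell
  rw [Finset.sum_add_distrib, ← Finset.mul_sum, Finset.card_biUnion hS, Finset.biUnion_inter,
    Finset.card_biUnion]
  · rfl
  · intro X hX Y hY hXY
    exact (hS hX hY hXY).mono (Finset.inter_subset_left) (Finset.inter_subset_left)

variable {A : Finset α} {D : Finset δ} {e : α → δ → ℕ} {W : Finset α} {c : δ → Finset α → ℕ}

namespace StarHyp

theorem c_empty (h : StarHyp A D e W c) {d : δ} (hd : d ∈ D) : c d ∅ = 0 := by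
  have := h.c_le d hd ∅ (Finset.empty_subset _)
  rw [J_empty] at this; omega

theorem c_zero (h : StarHyp A D e W c) {d : δ} (hd : d ∈ D) {X : Finset α} (hX : X ⊆ A)
    (h0 : J e X d = 0) : c d X = 0 := by
  have := h.c_le d hd X hX; omega

theorem c_subadd (h : StarHyp A D e W c) {d : δ} (hd : d ∈ D) {X Y : Finset α} (hX : X ⊆ A)
    (hY : Y ⊆ A) : c d (X ∪ Y) ≤ c d X + c d Y := by
  have := h.c_sub d hd X Y hX hY; omega

theorem c_biUnion (h : StarHyp A D e W c) {d : δ} (hd : d ∈ D) (S : Finset (Finset α))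
    (hS : ∀ X ∈ S, X ⊆ A) : c d (S.biUnion id) ≤ ∑ X ∈ S, c d X := by
  induction S using Finset.induction_on with
  | empty => simp [h.c_empty hd]
  | insert X S hXS ih =>
    rw [Finset.biUnion_insert, Finset.sum_insert hXS]
    have h1 := ih (fun Y hY => hS Y (Finset.mem_insert_of_mem hY))
    have h2 : c d (X ∪ S.biUnion id) ≤ c d X + c d (S.biUnion id) := by
      refine h.c_subadd hd (hS X (Finset.mem_insert_self _ _)) ?_
      intro x hx
      rw [Finset.mem_biUnion] at hx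
      obtain ⟨Y, hY, hxY⟩ := hx
      exact hS Y (Finset.mem_insert_of_mem hY) hxY
    simp only [id] at *
    omega

theorem sum_c_eq (h : StarHyp A D e W c) {X : Finset α} (hX : X ⊆ A) :
    ∑ d ∈ D, c d X = ∑ d ∈ NX e D X, c d X := by
  symm
  apply Finset.sum_subset (NX_subset _ _ _)
  intro d hd hdn
  apply h.c_zero hd hX
  by_contra hc
  exact hdn (mem_NX.mpr ⟨hd, by omega⟩)

theorem card_NX_le_sum (h : StarHyp A D e W c) {X : Finset α} (hX : X ⊆ A) :
    (NX e D X).card ≤ ∑ d ∈ D, c d X := by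
  rw [h.sum_c_eq hX, Finset.card_eq_sum_ones]
  apply Finset.sum_le_sum
  intro d hd
  exact h.c_pos d (mem_NX.mp hd).1 X hX (mem_NX.mp hd).2

theorem ell_lt_sum (h : StarHyp A D e W c) {X : Finset α} (hX : X ⊆ A) (hne : X.Nonempty) :
    ell W X + 1 ≤ ∑ d ∈ D, c d X := (h.H4 X hX hne).trans (h.card_NX_le_sum hX)

/-- submodularity of the total rank -/
theorem sum_sub (h : StarHyp A D e W c) {X Y : Finset α} (hX : X ⊆ A) (hY : Y ⊆ A) :
    ∑ d ∈ D, c d (X ∪ Y) + ∑ d ∈ D, c d (X ∩ Y) ≤ ∑ d ∈ D, c d X + ∑ d ∈ D, c d Y := by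
  rw [← Finset.sum_add_distrib, ← Finset.sum_add_distrib]
  exact Finset.sum_le_sum (fun d hd => h.c_sub d hd X Y hX hY)

end StarHyp

/-- `J` only sees legs: double counting. -/
theorem sum_J_le (h0 : ∀ a ∈ A, ∑ d ∈ D, e a d ≤ 5) {X : Finset α} (hX : X ⊆ A) :
    ∑ d ∈ D, J e X d ≤ 5 * X.card := by
  unfold J
  rw [Finset.sum_comm]
  calc ∑ a ∈ X, ∑ d ∈ D, e a d ≤ ∑ _a ∈ X, 5 := Finset.sum_le_sum (fun a ha => h0 a (hX ha))
    _ = 5 * X.card := by simp [mul_comm]

end F14Star
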