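import Pool.Agent.Lib.MP_39c6f6_co.StarBasic

set_option linter.unusedSectionVars false

namespace F14Star

open Finset

variable {α δ : Type*} [DecidableEq α] [DecidableEq δ]
variable {A : Finset α} {D : Finset δ} {e : α → δ → ℕ} {W : Finset α} {c : δ → Finset α → ℕ}

/-- multiplicities after contraction of `N` to `d0` -/
def ce (e : α → δ → ℕ) (N : Finset δ) (d0 : δ) : α → δ → ℕ :=
  fun a d => if d = d0 then ∑ x ∈ N, e a x else e a d

/-- rank functions after contraction of `(K,N)` to `d0` -/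
def cc (c : δ → Finset α → ℕ) (W K : Finset α) (N : Finset δ) (d0 : δ) : δ → Finset α → ℕ :=
  fun d Y => if d = d0 then min (∑ x ∈ N, c x Y) (∑ x ∈ N, c x (Y ∪ K) - ell W K) else c d Y

theorem J_ce_self (N : Finset δ) (d0 : δ) (Y : Finset α) :
    J (ce e N d0) Y d0 = ∑ x ∈ N, J e Y x := by
  unfold J ce
  simp only [if_true]
  rw [Finset.sum_comm]

theorem J_ce_ne (N : Finset δ) {d0 d : δ} (hd : d ≠ d0) (Y : Finset α) :
    J (ce e N d0) Y d = J e Y d := by
  unfold J ce
  simp only [if_neg hd]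

/-- a tight set: `K ⊆ A` nonempty with `Σ c = ℓ + 1` -/
structure Tight (A : Finset α) (D : Finset δ) (e : α → δ → ℕ) (W : Finset α)
    (c : δ → Finset α → ℕ) (K : Finset α) : Prop where
  hyp : StarHyp A D e W c
  sub : K ⊆ A
  ne : K.Nonempty
  tight : ∑ d ∈ D, c d K = ell W K + 1

namespace Tight

variable {K : Finset α}

theorem card_N (t : Tight A D e W c K) : (NX e D K).card = ell W K + 1 := by
  have h1 := t.hyp.H4 K t.sub t.ne
  have h2 := t.hyp.card_NX_le_sum t.sub
  have h3 := t.tight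
  omega

theorem c_K (t : Tight A D e W c K) {d : δ} (hd : d ∈ NX e D K) : c d K = 1 := by
  have h1 := t.card_N
  have h2 := t.tight
  rw [t.hyp.sum_c_eq t.sub, ← h1] at h2
  by_contra hne
  have h3 : 1 ≤ c d K := t.hyp.c_pos d (mem_NX.mp hd).1 K t.sub (mem_NX.mp hd).2
  have h4 : ∑ x ∈ NX e D K, 1 < ∑ x ∈ NX e D K, c x K := by
    apply Finset.sum_lt_sum
    · intro x hx
      exact t.hyp.c_pos x (mem_NX.mp hx).1 K t.sub (mem_NX.mp hx).2
    · exact ⟨d, hd, by omega⟩
  rw [← Finset.card_eq_sum_ones] at h4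
  omega

theorem sum_K (t : Tight A D e W c K) : ∑ x ∈ NX e D K, c x K = ell W K + 1 := by
  rw [← t.hyp.sum_c_eq t.sub, t.tight]

theorem J_K_zero {d : δ} (hd : d ∈ D) (hdN : d ∉ NX e D K) : J e K d = 0 := by
  by_contra h0
  exact hdN (mem_NX.mpr ⟨hd, by omega⟩)

theorem c_K_zero (t : Tight A D e W c K) {d : δ} (hd : d ∈ D) (hdN : d ∉ NX e D K) :
    c d K = 0 := t.hyp.c_zero hd t.sub (J_K_zero hd hdN)

theorem c_union_le (t : Tight A D e W c K) {d : δ} (hd : d ∈ D) (hdN : d ∉ NX e D K)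
    {Y : Finset α} (hY : Y ⊆ A) : c d (Y ∪ K) ≤ c d Y := by
  have h1 := t.hyp.c_subadd hd hY t.sub
  have h2 := t.c_K_zero hd hdN
  omega

theorem J_sdiff_eq (t : Tight A D e W c K) {d : δ} (hd : d ∈ D) (hdN : d ∉ NX e D K) :
    J e (A \ K) d = J e A d := by
  have h1 := J_sdiff e t.sub d
  have h2 := J_K_zero (K := K) hd hdN
  omega

theorem c_sdiff_eq (t : Tight A D e W c K) {d : δ} (hd : d ∈ D) (hdN : d ∉ NX e D K) :
    c d (A \ K) = c d A := by
  have h1 := t.c_union_le hd hdN (Finset.sdiff_subset : A \ K ⊆ A)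
  rw [Finset.sdiff_union_of_subset t.sub] at h1
  have h2 := t.hyp.c_mono d hd (A \ K) A Finset.sdiff_subset (Finset.Subset.refl _)
  omega

theorem ne_A (t : Tight A D e W c K) : K ≠ A := by
  rintro rfl
  have h7 := t.hyp.H7 K (Finset.Subset.refl _) t.ne (fun d hd => t.c_K hd) t.card_N
  simp [J_empty] at h7

theorem sdiff_ne (t : Tight A D e W c K) : (A \ K).Nonempty := by
  rw [Finset.sdiff_nonempty]
  intro h
  exact t.ne_A (Finset.Subset.antisymm t.sub h)

/-- not all nodes of `N(K)` except one can be closed in `K` -/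
theorem not_closed (t : Tight A D e W c K) {T : δ} (hT : T ∈ NX e D K)
    (hcl : ∀ d ∈ NX e D K, d ≠ T → J e (A \ K) d = 0) : False := by
  have h1 : ∀ d ∈ (NX e D K).erase T, 5 ≤ J e K d := by
    intro d hd
    obtain ⟨hne, hdN⟩ := Finset.mem_erase.mp hd
    have hdD := (mem_NX.mp hdN).1
    have h2 := hcl d hdN hne
    have h3 := J_sdiff e t.sub d
    have h4 := t.hyp.c_subadd hdD (Finset.sdiff_subset : A \ K ⊆ A) t.sub
    rw [Finset.sdiff_union_of_subset t.sub, t.c_K hdN,
      t.hyp.c_zero hdD (Finset.sdiff_subset : A \ K ⊆ A) h2] at h4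
    have h5 := t.hyp.r_pos d hdD
    rcases t.hyp.H2 d hdD (by omega) with h6 | h6
    · omega
    · omega
  have h2 := Finset.sum_le_sum h1
  rw [Finset.sum_const, Finset.card_erase_of_mem hT, t.card_N] at h2
  have h3 : ∑ d ∈ (NX e D K).erase T, J e K d + J e K T = ∑ d ∈ NX e D K, J e K d :=
    Finset.sum_erase_add _ _ hT
  have h4 : ∑ d ∈ NX e D K, J e K d ≤ 5 * K.card :=
    (Finset.sum_le_sum_of_subset (NX_subset _ _ _)).trans (sum_J_le t.hyp.H0 t.sub)
  have h5 := card_le_ell W K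
  have h6 := (mem_NX.mp hT).2
  simp only [smul_eq_mul] at h2
  omega

theorem rank_two (t : Tight A D e W c K) {T : δ} (hT : T ∈ NX e D K) (h2 : 2 ≤ c T A) :
    1 ≤ J e (A \ K) T ∧ 2 ≤ c T (A \ K) := by
  have hTD := (mem_NX.mp hT).1
  have h3 : 1 ≤ J e (A \ K) T := by
    by_contra h0
    have h4 := t.hyp.c_subadd hTD (Finset.sdiff_subset : A \ K ⊆ A) t.sub
    rw [Finset.sdiff_union_of_subset t.sub, t.c_K hT,
      t.hyp.c_zero hTD (Finset.sdiff_subset : A \ K ⊆ A) (by omega)] at h4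
    omega
  refine ⟨h3, ?_⟩
  have h4 := t.hyp.H3 T hTD h2 K t.sub (mem_NX.mp hT).2 h3
  rw [t.c_K hT] at h4
  omega

theorem meets (t : Tight A D e W c K) : ∃ d ∈ NX e D K, 1 ≤ J e (A \ K) d := by
  by_contra hcon
  push Not at hcon
  have h1 : ∀ d ∈ NX e D K, c d A = 1 := by
    intro d hd
    have h2 := t.hyp.r_pos d (mem_NX.mp hd).1
    by_contra hne
    have h3 := t.rank_two hd (by omega)
    have h4 := hcon d hd
    omega
  have h7 := t.hyp.H7 K t.sub t.ne h1 t.card_N
  have h8 : ∑ d ∈ NX e D K, J e (A \ K) d = 0 :=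
    Finset.sum_eq_zero (fun d hd => by have := hcon d hd; omega)
  omega

/-- the excess rank of `N(K)` -/
def rho (A : Finset α) (D : Finset δ) (e : α → δ → ℕ) (c : δ → Finset α → ℕ) (K : Finset α) : ℕ :=
  ∑ d ∈ NX e D K, (c d A - 1)

theorem sum_A (t : Tight A D e W c K) :
    ∑ d ∈ NX e D K, c d A = rho A D e c K + (ell W K + 1) := by
  rw [← t.card_N, rho, Finset.card_eq_sum_ones, ← Finset.sum_add_distrib]
  apply Finset.sum_congr rfl
  intro d hd
  have := t.hyp.r_pos d (mem_NX.mp hd).1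
  omega

theorem rho_zero_iff (t : Tight A D e W c K) :
    rho A D e c K = 0 ↔ ∀ d ∈ NX e D K, c d A = 1 := by
  unfold rho
  rw [Finset.sum_eq_zero_iff]
  constructor
  · intro h d hd
    have h1 := h d hd
    have h2 := t.hyp.r_pos d (mem_NX.mp hd).1
    omega
  · intro h d hd
    have := h d hd
    omega

/-- lower bound for the sum of the ranks over `A \ K` -/
theorem sum_sdiff_lb (t : Tight A D e W c K) :
    1 + min (rho A D e c K) 2 ≤ ∑ d ∈ NX e D K, c d (A \ K) := by
  have hsubA : A \ K ⊆ A := Finset.sdiff_subset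
  by_cases h0 : rho A D e c K = 0
  · obtain ⟨d, hd, h1⟩ := t.meets
    have h2 := t.hyp.c_pos d (mem_NX.mp hd).1 _ hsubA h1
    have h3 : c d (A \ K) ≤ ∑ d ∈ NX e D K, c d (A \ K) :=
      Finset.single_le_sum (f := fun d => c d (A \ K)) (fun _ _ => Nat.zero_le _) hd
    omega
  · -- a node of rank at least two
    have hex : ∃ T ∈ NX e D K, 2 ≤ c T A := by
      by_contra hcon
      push Not at hcon
      apply h0
      rw [t.rho_zero_iff]
      intro d hd
      have h1 := hcon d hd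
      have h2 := t.hyp.r_pos d (mem_NX.mp hd).1
      omega
    obtain ⟨T, hT, hT2⟩ := hex
    obtain ⟨hT3, hT4⟩ := t.rank_two hT hT2
    have hsplit : ∑ d ∈ (NX e D K).erase T, c d (A \ K) + c T (A \ K) =
        ∑ d ∈ NX e D K, c d (A \ K) := Finset.sum_erase_add _ _ hT
    by_cases h1 : rho A D e c K = 1
    · omega
    · -- need a third unit: another node of `N(K)` meets `A \ K`
      have hex2 : ∃ d ∈ (NX e D K).erase T, 1 ≤ J e (A \ K) d := by
        by_contra hcon
        push Not at hcon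
        apply t.not_closed hT
        intro d hd hne
        have := hcon d (Finset.mem_erase.mpr ⟨hne, hd⟩)
        omega
      obtain ⟨d, hd, hd1⟩ := hex2
      have h2 := t.hyp.c_pos d (mem_NX.mp (Finset.mem_of_mem_erase hd)).1 _ hsubA hd1
      have h3 : c d (A \ K) ≤ ∑ d ∈ (NX e D K).erase T, c d (A \ K) :=
        Finset.single_le_sum (f := fun d => c d (A \ K)) (fun _ _ => Nat.zero_le _) hd
      omega

end Tight

end F14Star
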