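import Pool.Agent.Lib.MP_39c6f6_co.StarBasic

set_option linter.unusedSectionVars false

namespace F14Star

open Finset

variable {α δ : Type*} [DecidableEq α] [DecidableEq δ]
variable {A : Finset α} {D : Finset δ} {e : α → δ → ℕ} {W : Finset α} {c : δ → Finset α → ℕ}

/-- what the part `Y` pays to the node `d` -/
def pay (A : Finset α) (e : α → δ → ℕ) (c : δ → Finset α → ℕ) (Y : Finset α) (d : δ) : ℕ :=
  if J e Y d = 0 then 0
  else if c d A = 1 then
    if J e A d = 5 then (if J e Y d = 5 then 9 else J e Y d + 2)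
    else min 9 (3 * ((J e Y d + 2) / 3))
  else if J e Y d = J e A d then 9 else 3 * c d Y

/-- a rank-2 node, or more generally a node with `c d A = 2`, has at least three neighbours -/
theorem StarHyp.three_le_J (h : StarHyp A D e W c) {d : δ} (hd : d ∈ D) (hr : c d A = 2) :
    3 ≤ (NP e A {d}).card := by
  have := h.H6 {d} (Finset.singleton_subset_iff.mpr hd) (Finset.singleton_nonempty d)
    (by simp [hr])
  simpa using this

theorem card_NP_le_J {d : δ} : (NP e A {d}).card ≤ J e A d := by
  unfold J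
  rw [Finset.card_eq_sum_ones]
  calc ∑ _x ∈ NP e A {d}, 1 ≤ ∑ x ∈ NP e A {d}, e x d := by
        apply Finset.sum_le_sum
        intro x hx
        obtain ⟨_, d', hd', hx'⟩ := mem_NP.mp hx
        rw [Finset.mem_singleton] at hd'
        subst hd'; exact hx'
    _ ≤ ∑ x ∈ A, e x d := Finset.sum_le_sum_of_subset (Finset.filter_subset _ _)

theorem StarHyp.three_le (h : StarHyp A D e W c) {d : δ} (hd : d ∈ D) (hr : c d A ≠ 1) :
    3 ≤ J e A d := by
  have h1 := h.r_pos d hd
  have h2 := h.c_le d hd A (Finset.Subset.refl _)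
  rcases Nat.lt_or_ge (c d A) 3 with h3 | h3
  · have h4 : c d A = 2 := by omega
    exact (h.three_le_J hd h4).trans card_NP_le_J
  · omega

/-- the node inequality -/
theorem StarHyp.node (h : StarHyp A D e W c) (S : Finset (Finset α))
    (hS : (S : Set (Finset α)).PairwiseDisjoint id) (hA : S.biUnion id = A) {d : δ} (hd : d ∈ D) :
    9 ≤ ∑ Y ∈ S, pay A e c Y d := by
  have hsub : ∀ Y ∈ S, Y ⊆ A := fun Y hY => by
    rw [← hA]; exact Finset.subset_biUnion_of_mem id hY
  have hJ : J e A d = ∑ Y ∈ S, J e Y d := by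
    rw [← hA]; unfold J; exact Finset.sum_biUnion hS
  have hc1 := h.r_pos d hd
  have hc2 := h.c_le d hd A (Finset.Subset.refl _)
  by_cases hr : c d A = 1
  · by_cases h5 : J e A d = 5
    · by_cases hY : ∃ Y ∈ S, J e Y d = 5
      · obtain ⟨Y, hYS, hY5⟩ := hY
        calc 9 ≤ pay A e c Y d := by simp [pay, hr, h5, hY5]
          _ ≤ _ := Finset.single_le_sum (f := fun Y => pay A e c Y d) (fun _ _ => Nat.zero_le _) hYS
      · push Not at hY
        have hpay : ∀ Y ∈ S, J e Y d + 2 * (if J e Y d = 0 then 0 else 1) ≤ pay A e c Y d := by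
          intro Y hYS
          have := hY Y hYS
          unfold pay
          split_ifs <;> omega
        have hsum := Finset.sum_le_sum hpay
        rw [Finset.sum_add_distrib, ← hJ, h5, ← Finset.mul_sum] at hsum
        have h2 : 2 ≤ ∑ Y ∈ S, (if J e Y d = 0 then 0 else 1) := by
          have hle : ∀ Y ∈ S, J e Y d ≤ 4 * (if J e Y d = 0 then 0 else 1) := by
            intro Y hYS
            have h1 := hY Y hYS
            have h2 := J_mono e (hsub Y hYS) d
            split_ifs <;> omega
          have := Finset.sum_le_sum hle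
          rw [← hJ, h5, ← Finset.mul_sum] at this
          omega
        omega
    · have h7 : 7 ≤ J e A d := by
        rcases h.H2 d hd hr with h1 | h1
        · exact absurd h1.1 h5
        · exact h1
      by_cases hY : ∃ Y ∈ S, 9 ≤ pay A e c Y d
      · obtain ⟨Y, hYS, hY5⟩ := hY
        exact hY5.trans (Finset.single_le_sum (f := fun Y => pay A e c Y d)
          (fun _ _ => Nat.zero_le _) hYS)
      · push Not at hY
        have hpay : ∀ Y ∈ S, pay A e c Y d = 3 * ((J e Y d + 2) / 3) := by
          intro Y hYS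
          have h1 := hY Y hYS
          unfold pay at h1 ⊢
          simp only [hr, h5, if_true, if_false] at h1 ⊢
          split_ifs at h1 ⊢ with h0
          · rw [h0]
          · omega
        rw [Finset.sum_congr rfl hpay, ← Finset.mul_sum]
        have hle : ∀ Y ∈ S, J e Y d ≤ 3 * ((J e Y d + 2) / 3) := by intro Y _; omega
        have := Finset.sum_le_sum hle
        rw [← hJ, ← Finset.mul_sum] at this
        omega
  · by_cases hY : ∃ Y ∈ S, J e Y d = J e A d
    · obtain ⟨Y, hYS, hY5⟩ := hY
      calc 9 ≤ pay A e c Y d := by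
            unfold pay
            rw [if_neg (by omega), if_neg hr, if_pos hY5]
        _ ≤ _ := Finset.single_le_sum (f := fun Y => pay A e c Y d) (fun _ _ => Nat.zero_le _) hYS
    · push Not at hY
      have hpay : ∀ Y ∈ S, 3 * c d Y ≤ pay A e c Y d := by
        intro Y hYS
        have h1 := hY Y hYS
        unfold pay
        simp only [hr, h1, if_false]
        split_ifs with h0
        · rw [h.c_zero hd (hsub Y hYS) h0]
        · exact le_rfl
      have hex : ∃ Y ∈ S, 1 ≤ J e Y d := by
        by_contra hcon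
        push Not at hcon
        have : ∑ Y ∈ S, J e Y d = 0 := Finset.sum_eq_zero (fun Y hY => by have := hcon Y hY; omega)
        omega
      obtain ⟨Y1, hY1, hJ1⟩ := hex
      have hJ2 := J_sdiff e (hsub Y1 hY1) d
      have hJ3 := hY Y1 hY1
      have h3 := h.H3 d hd (by omega) Y1 (hsub Y1 hY1) hJ1 (by omega)
      have hU : A \ Y1 = (S.erase Y1).biUnion id := by
        ext x
        simp only [Finset.mem_sdiff, Finset.mem_biUnion, Finset.mem_erase, id]
        constructor
        · rintro ⟨hx, hx1⟩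
          rw [← hA, Finset.mem_biUnion] at hx
          obtain ⟨Y, hYS, hxY⟩ := hx
          refine ⟨Y, ⟨?_, hYS⟩, hxY⟩
          rintro rfl
          exact hx1 hxY
        · rintro ⟨Y, ⟨hne, hYS⟩, hxY⟩
          refine ⟨hsub Y hYS hxY, fun hx1 => ?_⟩
          exact Finset.disjoint_left.mp (hS hYS hY1 hne) hxY hx1
      have h4 := h.c_biUnion hd (S.erase Y1) (fun X hX => hsub X (Finset.mem_of_mem_erase hX))
      rw [← hU] at h4
      have h5 : ∑ Y ∈ S, c d Y = c d Y1 + ∑ Y ∈ S.erase Y1, c d Y :=
        (Finset.add_sum_erase S (fun Y => c d Y) hY1).symm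
      have h6 := Finset.sum_le_sum hpay
      rw [← Finset.mul_sum] at h6
      omega

/-- per-leg bound for single vertices -/
theorem StarHyp.pay_single (h : StarHyp A D e W c) {a : α} (ha : a ∈ A) {d : δ} (hd : d ∈ D) :
    pay A e c {a} d ≤ 3 * e a d := by
  have hJ := J_singleton e a d
  have hle := J_mono e (Finset.singleton_subset_iff.mpr ha) d
  unfold pay
  rw [hJ] at *
  split_ifs with h0 h1 h5 h55 hc
  · omega
  · rcases h.H2 d hd h1 with h2 | h2
    · have := h2.2 a ha; omega
    · omega
  · rcases h.H2 d hd h1 with h2 | h2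
    · have := h2.2 a ha; omega
    · omega
  · omega
  · have := h.three_le hd h1; omega
  · have := h.c_le d hd {a} (Finset.singleton_subset_iff.mpr ha)
    rw [J_singleton] at this; omega

theorem StarHyp.part_W (h : StarHyp A D e W c) {a : α} (ha : a ∈ A) (haW : a ∈ W) :
    ∑ d ∈ D, pay A e c {a} d ≤ 9 * ell W {a} := by
  have h1 : ∑ d ∈ D, pay A e c {a} d ≤ ∑ d ∈ D, 3 * e a d :=
    Finset.sum_le_sum (fun d hd => h.pay_single ha hd)
  rw [← Finset.mul_sum] at h1
  have h2 := h.H0 a ha
  have h3 : ell W {a} = 4 := by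
    unfold ell
    rw [Finset.singleton_inter_of_mem haW]; simp
  omega

/-- for a set with `Σ c = ℓ + 2` the excess of the ranks is at most `1` -/
theorem StarHyp.excess (h : StarHyp A D e W c) {Y : Finset α} (hY : Y ⊆ A) (hne : Y.Nonempty)
    (ht : ∑ d ∈ D, c d Y = ell W Y + 2) : ∑ d ∈ NX e D Y, (c d Y - 1) ≤ 1 := by
  have h1 := h.H4 Y hY hne
  have h2 : ∑ d ∈ NX e D Y, c d Y = ∑ d ∈ NX e D Y, (c d Y - 1) + (NX e D Y).card := by
    rw [Finset.card_eq_sum_ones, ← Finset.sum_add_distrib]
    apply Finset.sum_congr rfl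
    intro d hd
    have := h.c_pos d (mem_NX.mp hd).1 Y hY (mem_NX.mp hd).2
    omega
  rw [← h.sum_c_eq hY] at h2
  omega

theorem StarHyp.c_closed (h : StarHyp A D e W c) {Y : Finset α} (hY : Y ⊆ A) {d : δ} (hd : d ∈ D)
    (hcl : J e Y d = J e A d) : c d Y = c d A := by
  have h1 := J_sdiff e hY d
  have h2 := h.c_zero hd (Finset.sdiff_subset : A \ Y ⊆ A) (by omega)
  have h3 := h.c_subadd hd hY (Finset.sdiff_subset : A \ Y ⊆ A)
  rw [Finset.union_sdiff_of_subset hY] at h3
  have h4 := h.c_mono d hd Y A hY (Finset.Subset.refl _)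
  omega

theorem NP_subset_of_closed {Y : Finset α} (hY : Y ⊆ A) {P : Finset δ}
    (hP : ∀ d ∈ P, J e Y d = J e A d) : NP e A P ⊆ Y := by
  intro x hx
  obtain ⟨hxA, d, hd, hxd⟩ := mem_NP.mp hx
  by_contra hxY
  have h1 := J_sdiff e hY d
  have h2 : e x d ≤ J e (A \ Y) d :=
    Finset.single_le_sum (f := fun a => e a d) (fun _ _ => Nat.zero_le _)
      (Finset.mem_sdiff.mpr ⟨hxA, hxY⟩)
  have h3 := hP d hd
  omega

/-- single tight vertex outside `W` -/
theorem StarHyp.part_single (h : StarHyp A D e W c) {b : α} (hb : b ∈ A) (hbW : b ∉ W)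
    (ht : ∑ d ∈ D, c d {b} = ell W {b} + 2) : ∑ d ∈ D, pay A e c {b} d ≤ 9 * ell W {b} := by
  have hbA : ({b} : Finset α) ⊆ A := Finset.singleton_subset_iff.mpr hb
  have hell : ell W {b} = 1 := by
    unfold ell
    rw [Finset.singleton_inter_of_notMem hbW]; simp
  have hex := h.excess hbA (Finset.singleton_nonempty b) ht
  have hpay : ∀ d ∈ D, pay A e c {b} d ≤ 3 * c d {b} := by
    intro d hd
    have hJ := J_singleton e b d
    have hle := J_mono e hbA d
    have hcp := h.c_pos d hd {b} hbA
    by_cases h0 : J e {b} d = 0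
    · simp [pay, h0]
    have hc1 := hcp (by omega)
    have hdN : d ∈ NX e D {b} := mem_NX.mpr ⟨hd, by omega⟩
    unfold pay
    rw [if_neg h0]
    split_ifs with h1 h5 h55 hc
    · rcases h.H2 d hd h1 with h2 | h2
      · have := h2.2 b hb; omega
      · omega
    · rcases h.H2 d hd h1 with h2 | h2
      · have := h2.2 b hb; omega
      · omega
    · -- big node: at most three legs
      have hsumc : ∑ d' ∈ D.erase d, c d' {b} + c d {b} = 3 := by
        rw [Finset.sum_erase_add _ _ hd, ht, hell]
      have hsumJ : ∑ d' ∈ D.erase d, J e {b} d' + J e {b} d ≤ 5 := by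
        rw [Finset.sum_erase_add _ _ hd]
        have := sum_J_le h.H0 hbA
        simpa using this
      have hcJ : ∑ d' ∈ D.erase d, c d' {b} ≤ ∑ d' ∈ D.erase d, J e {b} d' :=
        Finset.sum_le_sum (fun d' hd' => h.c_le d' (Finset.mem_of_mem_erase hd') {b} hbA)
      have hcA := h.c_mono d hd {b} A hbA (Finset.Subset.refl _)
      omega
    · exfalso
      have hcl := h.c_closed hbA hd hc
      have hr := h.r_pos d hd
      have hsub : NP e A {d} ⊆ {b} := NP_subset_of_closed hbA (by
        intro d' hd'; rw [Finset.mem_singleton] at hd'; subst hd'; exact hc)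
      have hcard := Finset.card_le_card hsub
      rw [Finset.card_singleton] at hcard
      rcases Nat.lt_or_ge (c d A) 3 with h3 | h3
      · have := h.three_le_J hd (by omega)
        omega
      · have : c d {b} - 1 ≤ ∑ d ∈ NX e D {b}, (c d {b} - 1) :=
          Finset.single_le_sum (f := fun d => c d {b} - 1) (fun _ _ => Nat.zero_le _) hdN
        omega
    · exact le_rfl
  have := Finset.sum_le_sum hpay
  rw [← Finset.mul_sum, ht] at this
  omega

/-- large tight parts -/
theorem StarHyp.part_big (h : StarHyp A D e W c) {Y : Finset α} (hY : Y ⊆ A) (hne : Y.Nonempty)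
    (ht : ∑ d ∈ D, c d Y = ell W Y + 2) (hbig : 2 ≤ Y.card ∨ 1 ≤ (Y ∩ W).card) :
    ∑ d ∈ D, pay A e c Y d ≤ 9 * ell W Y := by
  classical
  have hex := h.excess hY hne ht
  -- exceptional nodes
  set P : Finset δ := (NX e D Y).filter (fun d => J e Y d = J e A d ∧ c d A ≤ 2) with hP
  have hPD : P ⊆ D := (Finset.filter_subset _ _).trans (NX_subset _ _ _)
  have hPcl : ∀ d ∈ P, J e Y d = J e A d := fun d hd => (Finset.mem_filter.mp hd).2.1
  have hpay : ∀ d ∈ NX e D Y, pay A e c Y d ≤ 2 * c d Y + J e Y d + 2 * (if d ∈ P then 1 else 0) := by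
    intro d hdN
    obtain ⟨hd, hJ1⟩ := mem_NX.mp hdN
    have hle := J_mono e hY d
    have hc1 := h.c_pos d hd Y hY hJ1
    have hc2 := h.c_le d hd Y hY
    have hmemP : d ∈ P ↔ (J e Y d = J e A d ∧ c d A ≤ 2) := by
      rw [hP, Finset.mem_filter]; simp [hdN]
    unfold pay
    rw [if_neg (by omega)]
    split_ifs with h1 h5 h55 hdP hc hc' hc''
    all_goals first | omega | skip
    · exact absurd (hmemP.mpr ⟨by omega, by omega⟩) ‹d ∉ P›
    · have := h.three_le hd h1
      have hcl := h.c_closed hY hd ‹_›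
      have hr := h.r_pos d hd
      omega
    · have hcl := h.c_closed hY hd ‹_›
      have hr := h.r_pos d hd
      have h3 : ¬ c d A ≤ 2 := fun h2 => ‹d ∉ P› (hmemP.mpr ⟨by omega, h2⟩)
      omega
  have hsum1 : ∑ d ∈ D, pay A e c Y d = ∑ d ∈ NX e D Y, pay A e c Y d := by
    symm
    apply Finset.sum_subset (NX_subset _ _ _)
    intro d hd hdn
    have : J e Y d = 0 := by
      by_contra hcon
      exact hdn (mem_NX.mpr ⟨hd, by omega⟩)
    simp [pay, this]
  have hsum2 := Finset.sum_le_sum hpay
  rw [Finset.sum_add_distrib, Finset.sum_add_distrib, ← Finset.mul_sum, ← Finset.mul_sum,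
    ← h.sum_c_eq hY, ht] at hsum2
  have hsum3 : ∑ d ∈ NX e D Y, J e Y d ≤ 5 * Y.card :=
    (Finset.sum_le_sum_of_subset (NX_subset _ _ _)).trans (sum_J_le h.H0 hY)
  have hsum4 : ∑ d ∈ NX e D Y, (if d ∈ P then 1 else 0) = P.card := by
    rw [← Finset.sum_filter, Finset.card_eq_sum_ones]
    congr 1
    ext d
    rw [Finset.mem_filter]
    exact ⟨fun hh => hh.2, fun hh => ⟨(Finset.mem_filter.mp hh).1, hh⟩⟩
  have hell : ell W Y = Y.card + 3 * (Y ∩ W).card := rfl
  rw [hsum4] at hsum2
  by_cases hPe : P.Nonempty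
  · have h1 : ∑ d ∈ P, (c d A - 1) ≤ 1 := by
      calc ∑ d ∈ P, (c d A - 1) = ∑ d ∈ P, (c d Y - 1) := by
            apply Finset.sum_congr rfl
            intro d hd
            rw [h.c_closed hY (hPD hd) (hPcl d hd)]
        _ ≤ ∑ d ∈ NX e D Y, (c d Y - 1) :=
            Finset.sum_le_sum_of_subset (Finset.filter_subset _ _)
        _ ≤ 1 := hex
    have h2 := h.H6 P hPD hPe h1
    have h3 := Finset.card_le_card (NP_subset_of_closed hY hPcl)
    omega
  · rw [Finset.not_nonempty_iff_eq_empty] at hPe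
    have hPc : P.card = 0 := by rw [hPe]; rfl
    omega

end F14Star
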