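import Pool.Agent.Lib.MP_39c6f6_co.StarCase1

set_option linter.unusedSectionVars false

namespace F14Star

open Finset

variable {α δ : Type*} [DecidableEq α] [DecidableEq δ]
variable {A : Finset α} {D : Finset δ} {e : α → δ → ℕ} {W : Finset α} {c : δ → Finset α → ℕ}

namespace Tight

variable {K : Finset α} {d0 : δ}

/-- nodes after contraction -/
def cD (e : α → δ → ℕ) (D : Finset δ) (K : Finset α) (d0 : δ) : Finset δ :=
  insert d0 (D \ NX e D K)

theorem d0_notMem (hd0 : d0 ∈ NX e D K) : d0 ∉ D \ NX e D K := by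
  rw [Finset.mem_sdiff]; exact fun h => h.2 hd0

theorem mem_cD {d : δ} : d ∈ cD e D K d0 ↔ d = d0 ∨ (d ∈ D ∧ d ∉ NX e D K) := by
  simp [cD, Finset.mem_insert, Finset.mem_sdiff]

/-- if `d ∈ cD` and `d ≠ d0` then `d` is an old node away from `K` -/
theorem old_of_ne {d : δ} (hd : d ∈ cD e D K d0) (hne : d ≠ d0) : d ∈ D ∧ d ∉ NX e D K := by
  rcases mem_cD.mp hd with h | h
  · exact absurd h hne
  · exact h

theorem sum_cD (hd0 : d0 ∈ NX e D K) (g : δ → ℕ) :
    ∑ d ∈ cD e D K d0, g d = g d0 + ∑ d ∈ D \ NX e D K, g d := by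
  unfold cD
  rw [Finset.sum_insert (d0_notMem hd0)]

theorem ne_of_sdiff (hd0 : d0 ∈ NX e D K) {d : δ} (hd : d ∈ D \ NX e D K) : d ≠ d0 := by
  rintro rfl; exact d0_notMem hd0 hd

theorem cc_self (Y : Finset α) :
    cc c W K (NX e D K) d0 d0 Y =
      min (∑ x ∈ NX e D K, c x Y) (∑ x ∈ NX e D K, c x (Y ∪ K) - ell W K) := by
  simp [cc]

theorem cc_ne {d : δ} (hd : d ≠ d0) (Y : Finset α) : cc c W K (NX e D K) d0 d Y = c d Y := by
  simp [cc, hd]

/-- lower bound for the shifted sum -/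
theorem shift_lb (t : Tight A D e W c K) {Y : Finset α} (hY : Y ⊆ A) :
    ell W K + 1 ≤ ∑ x ∈ NX e D K, c x (Y ∪ K) := by
  rw [← t.sum_K]
  exact Finset.sum_le_sum (fun x hx => t.hyp.c_mono x (mem_NX.mp hx).1 K (Y ∪ K)
    Finset.subset_union_right (Finset.union_subset hY t.sub))

/-- `Y` meets `N(K)` iff it has a leg to `d0` after the contraction -/
theorem meets_iff (Y : Finset α) :
    1 ≤ J (ce e (NX e D K) d0) Y d0 ↔ ∃ x ∈ NX e D K, 1 ≤ J e Y x := by
  rw [J_ce_self]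
  constructor
  · intro h
    by_contra hcon
    push Not at hcon
    have : ∑ x ∈ NX e D K, J e Y x = 0 :=
      Finset.sum_eq_zero (fun x hx => by have := hcon x hx; omega)
    omega
  · rintro ⟨x, hx, h⟩
    exact h.trans (Finset.single_le_sum (f := fun x => J e Y x) (fun _ _ => Nat.zero_le _) hx)

theorem NX_meets (hd0 : d0 ∈ NX e D K) {Y : Finset α} (hm : ∃ x ∈ NX e D K, 1 ≤ J e Y x) :
    NX (ce e (NX e D K) d0) (cD e D K d0) Y = insert d0 (NX e D (Y ∪ K) \ NX e D K) := by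
  ext d
  rw [mem_NX, Finset.mem_insert, Finset.mem_sdiff, NX_union, Finset.mem_union]
  constructor
  · rintro ⟨hd, hJ⟩
    by_cases hdd : d = d0
    · exact Or.inl hdd
    · obtain ⟨h1, h2⟩ := old_of_ne hd hdd
      rw [J_ce_ne _ hdd] at hJ
      exact Or.inr ⟨Or.inl (mem_NX.mpr ⟨h1, hJ⟩), h2⟩
  · rintro (rfl | ⟨h1 | h1, h2⟩)
    · exact ⟨mem_cD.mpr (Or.inl rfl), (meets_iff Y).mpr hm⟩
    · obtain ⟨h3, h4⟩ := mem_NX.mp h1
      have hne : d ≠ d0 := fun h => h2 (h ▸ hd0)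
      exact ⟨mem_cD.mpr (Or.inr ⟨h3, h2⟩), by rw [J_ce_ne _ hne]; exact h4⟩
    · exact absurd h1 h2

theorem NX_not_meets (hd0 : d0 ∈ NX e D K) {Y : Finset α}
    (hm : ¬ ∃ x ∈ NX e D K, 1 ≤ J e Y x) :
    NX (ce e (NX e D K) d0) (cD e D K d0) Y = NX e D Y := by
  ext d
  rw [mem_NX, mem_NX]
  constructor
  · rintro ⟨hd, hJ⟩
    by_cases hdd : d = d0
    · subst hdd
      exact absurd ((meets_iff Y).mp hJ) hm
    · obtain ⟨h1, h2⟩ := old_of_ne hd hdd
      rw [J_ce_ne _ hdd] at hJ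
      exact ⟨h1, hJ⟩
  · rintro ⟨hd, hJ⟩
    have h2 : d ∉ NX e D K := fun h => hm ⟨d, h, hJ⟩
    have hne : d ≠ d0 := fun h => h2 (h ▸ hd0)
    exact ⟨mem_cD.mpr (Or.inr ⟨hd, h2⟩), by rw [J_ce_ne _ hne]; exact hJ⟩

/-- submodularity of the sum over `N(K)` -/
theorem sumN_sub (t : Tight A D e W c K) {X Y : Finset α} (hX : X ⊆ A) (hY : Y ⊆ A) :
    ∑ x ∈ NX e D K, c x (X ∪ Y) + ∑ x ∈ NX e D K, c x (X ∩ Y) ≤
      ∑ x ∈ NX e D K, c x X + ∑ x ∈ NX e D K, c x Y := by
  rw [← Finset.sum_add_distrib, ← Finset.sum_add_distrib]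
  exact Finset.sum_le_sum (fun x hx => t.hyp.c_sub x (mem_NX.mp hx).1 X Y hX hY)

theorem sumN_mono (t : Tight A D e W c K) {X Y : Finset α} (hXY : X ⊆ Y) (hY : Y ⊆ A) :
    ∑ x ∈ NX e D K, c x X ≤ ∑ x ∈ NX e D K, c x Y :=
  Finset.sum_le_sum (fun x hx => t.hyp.c_mono x (mem_NX.mp hx).1 X Y hXY hY)

theorem cc_mono (t : Tight A D e W c K) {d : δ} (hd : d ∈ cD e D K d0) {X Y : Finset α}
    (hXY : X ⊆ Y) (hY : Y ⊆ A \ K) :
    cc c W K (NX e D K) d0 d X ≤ cc c W K (NX e D K) d0 d Y := by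
  have hYA : Y ⊆ A := hY.trans Finset.sdiff_subset
  by_cases hdd : d = d0
  · subst hdd
    rw [cc_self, cc_self]
    have h1 := t.sumN_mono hXY hYA
    have h2 := t.sumN_mono (Finset.union_subset_union_left (t := K) hXY)
      (Finset.union_subset hYA t.sub)
    omega
  · rw [cc_ne hdd, cc_ne hdd]
    exact t.hyp.c_mono d (old_of_ne hd hdd).1 X Y hXY hYA

theorem cc_sub (t : Tight A D e W c K) {d : δ} (hd : d ∈ cD e D K d0) {X Y : Finset α}
    (hX : X ⊆ A \ K) (hY : Y ⊆ A \ K) :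
    cc c W K (NX e D K) d0 d (X ∪ Y) + cc c W K (NX e D K) d0 d (X ∩ Y) ≤
      cc c W K (NX e D K) d0 d X + cc c W K (NX e D K) d0 d Y := by
  have hXA : X ⊆ A := hX.trans Finset.sdiff_subset
  have hYA : Y ⊆ A := hY.trans Finset.sdiff_subset
  have hXK : Disjoint X K := Finset.disjoint_of_subset_left hX Finset.sdiff_disjoint
  have hYK : Disjoint Y K := Finset.disjoint_of_subset_left hY Finset.sdiff_disjoint
  by_cases hdd : d = d0
  · subst hdd
    rw [cc_self, cc_self, cc_self, cc_self]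
    have h00 := t.sumN_sub hXA hYA
    have h01 := t.sumN_sub hXA (Finset.union_subset hYA t.sub)
    have h10 := t.sumN_sub (Finset.union_subset hXA t.sub) hYA
    have h11 := t.sumN_sub (Finset.union_subset hXA t.sub) (Finset.union_subset hYA t.sub)
    have e01 : X ∪ (Y ∪ K) = X ∪ Y ∪ K := (Finset.union_assoc _ _ _).symm
    have e01' : X ∩ (Y ∪ K) = X ∩ Y := by
      ext x
      simp only [Finset.mem_inter, Finset.mem_union]
      constructor
      · rintro ⟨h1, h2 | h2⟩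
        · exact ⟨h1, h2⟩
        · exact absurd h2 (Finset.disjoint_left.mp hXK h1)
      · rintro ⟨h1, h2⟩; exact ⟨h1, Or.inl h2⟩
    have e10 : X ∪ K ∪ Y = X ∪ Y ∪ K := by
      rw [Finset.union_assoc, Finset.union_comm K Y, ← Finset.union_assoc]
    have e10' : (X ∪ K) ∩ Y = X ∩ Y := by
      ext x
      simp only [Finset.mem_inter, Finset.mem_union]
      constructor
      · rintro ⟨h1 | h1, h2⟩
        · exact ⟨h1, h2⟩
        · exact absurd h1 (Finset.disjoint_left.mp hYK h2)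
      · rintro ⟨h1, h2⟩; exact ⟨Or.inl h1, h2⟩
    have e11 : X ∪ K ∪ (Y ∪ K) = X ∪ Y ∪ K := by
      ext x; simp only [Finset.mem_union]; tauto
    have e11' : (X ∪ K) ∩ (Y ∪ K) = X ∩ Y ∪ K := by
      ext x; simp only [Finset.mem_union, Finset.mem_inter]; tauto
    rw [e01, e01'] at h01
    rw [e10, e10'] at h10
    rw [e11, e11'] at h11
    have l1 := t.shift_lb (Finset.union_subset hXA hYA)
    have l2 := t.shift_lb (Finset.inter_subset_left.trans hXA : X ∩ Y ⊆ A)
    have l3 := t.shift_lb hXA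
    have l4 := t.shift_lb hYA
    omega
  · rw [cc_ne hdd, cc_ne hdd, cc_ne hdd, cc_ne hdd]
    exact t.hyp.c_sub d (old_of_ne hd hdd).1 X Y hXA hYA

theorem cc_le (t : Tight A D e W c K) {d : δ} (hd : d ∈ cD e D K d0) {X : Finset α}
    (hX : X ⊆ A \ K) :
    cc c W K (NX e D K) d0 d X ≤ J (ce e (NX e D K) d0) X d := by
  have hXA : X ⊆ A := hX.trans Finset.sdiff_subset
  by_cases hdd : d = d0
  · subst hdd
    rw [cc_self, J_ce_self]
    have : ∑ x ∈ NX e D K, c x X ≤ ∑ x ∈ NX e D K, J e X x :=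
      Finset.sum_le_sum (fun x hx => t.hyp.c_le x (mem_NX.mp hx).1 X hXA)
    omega
  · rw [cc_ne hdd, J_ce_ne _ hdd]
    exact t.hyp.c_le d (old_of_ne hd hdd).1 X hXA

theorem cc_pos (t : Tight A D e W c K) {d : δ} (hd : d ∈ cD e D K d0) {X : Finset α}
    (hX : X ⊆ A \ K) (h1 : 1 ≤ J (ce e (NX e D K) d0) X d) :
    1 ≤ cc c W K (NX e D K) d0 d X := by
  have hXA : X ⊆ A := hX.trans Finset.sdiff_subset
  by_cases hdd : d = d0
  · subst hdd
    rw [cc_self]
    obtain ⟨x, hx, hJ⟩ := (meets_iff X).mp h1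
    have h2 := t.hyp.c_pos x (mem_NX.mp hx).1 X hXA hJ
    have h3 : c x X ≤ ∑ x ∈ NX e D K, c x X :=
      Finset.single_le_sum (f := fun x => c x X) (fun _ _ => Nat.zero_le _) hx
    have h4 := t.shift_lb hXA
    omega
  · rw [cc_ne hdd]
    rw [J_ce_ne _ hdd] at h1
    exact t.hyp.c_pos d (old_of_ne hd hdd).1 X hXA h1

/-- rank of the new node: lower bound -/
theorem cc_rank_lb (t : Tight A D e W c K) :
    1 + min (rho A D e c K) 2 ≤ cc c W K (NX e D K) d0 d0 (A \ K) := by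
  rw [cc_self, Finset.sdiff_union_of_subset t.sub, t.sum_A]
  have := t.sum_sdiff_lb
  omega

theorem cc_rank_old (t : Tight A D e W c K) {d : δ} (hd : d ∈ cD e D K d0) (hdd : d ≠ d0) :
    cc c W K (NX e D K) d0 d (A \ K) = c d A := by
  rw [cc_ne hdd]
  obtain ⟨h1, h2⟩ := old_of_ne hd hdd
  exact t.c_sdiff_eq h1 h2

theorem J_old (t : Tight A D e W c K) {d : δ} (hd : d ∈ cD e D K d0) (hdd : d ≠ d0)
    (X : Finset α) : J (ce e (NX e D K) d0) ((A \ K) \ X) d = J e (A \ X) d ∧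
      J (ce e (NX e D K) d0) (A \ K) d = J e A d := by
  obtain ⟨h1, h2⟩ := old_of_ne hd hdd
  rw [J_ce_ne _ hdd, J_ce_ne _ hdd]
  refine ⟨?_, t.J_sdiff_eq h1 h2⟩
  have h3 : A \ X ⊆ ((A \ K) \ X) ∪ K := by
    intro x hx
    simp only [Finset.mem_union, Finset.mem_sdiff] at hx ⊢
    by_cases hxK : x ∈ K
    · exact Or.inr hxK
    · exact Or.inl ⟨⟨hx.1, hxK⟩, hx.2⟩
  have h4 : (A \ K) \ X ⊆ A \ X := by
    intro x hx
    simp only [Finset.mem_sdiff] at hx ⊢
    exact ⟨hx.1.1, hx.2⟩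
  have h5 := J_mono e h3 d
  have h6 := J_mono e h4 d
  have h7 := J_union_le e ((A \ K) \ X) K d
  have h8 := J_K_zero (K := K) h1 h2
  omega

/-- (H3) for the new node -/
theorem cc_H3 (t : Tight A D e W c K) (h2 : 2 ≤ cc c W K (NX e D K) d0 d0 (A \ K))
    {X : Finset α} (hX : X ⊆ A \ K) (hX1 : ∃ x ∈ NX e D K, 1 ≤ J e X x)
    (hX2 : ∃ x ∈ NX e D K, 1 ≤ J e ((A \ K) \ X) x) :
    3 ≤ cc c W K (NX e D K) d0 d0 X + cc c W K (NX e D K) d0 d0 ((A \ K) \ X) := by
  -- auxiliary statement, symmetric in the two sides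
  have key : ∀ Y Y' : Finset α, Y ⊆ A \ K → Y' ⊆ A \ K → Disjoint Y Y' → Y ∪ Y' = A \ K →
      (∃ x ∈ NX e D K, 1 ≤ J e Y x) → (∃ x ∈ NX e D K, 1 ≤ J e Y' x) →
      cc c W K (NX e D K) d0 d0 Y = 1 → cc c W K (NX e D K) d0 d0 Y' = 1 →
      ∃ T ∈ NX e D K, 1 ≤ J e Y T ∧ c T Y = 1 ∧ 2 ≤ c T (Y ∪ K) ∧
        ∀ x ∈ NX e D K, x ≠ T → J e Y x = 0 := by
    intro Y Y' hY hY' hdis hun hm hm' h1 h1'
    have hYA : Y ⊆ A := hY.trans Finset.sdiff_subset
    have hYA' : Y' ⊆ A := hY'.trans Finset.sdiff_subset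
    have hYK : Y ∪ K ⊆ A := Finset.union_subset hYA t.sub
    have hYK' : Y' ∪ K ⊆ A := Finset.union_subset hYA' t.sub
    have hcompl : A \ (Y ∪ K) = Y' := by
      ext x
      have hx := Finset.ext_iff.mp hun x
      have hd1 : x ∈ Y → x ∉ Y' := fun h1 h2 => Finset.disjoint_left.mp hdis h1 h2
      simp only [Finset.mem_union, Finset.mem_sdiff] at hx ⊢
      tauto
    -- the shifted sum is at least ℓ + 2
    have hshift : ell W K + 2 ≤ ∑ x ∈ NX e D K, c x (Y ∪ K) := by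
      by_contra hcon
      have hlb := t.shift_lb hYA
      have hall : ∀ x ∈ NX e D K, c x (Y ∪ K) = 1 := by
        have h3 : ∀ x ∈ NX e D K, 1 ≤ c x (Y ∪ K) := by
          intro x hx
          have := t.hyp.c_mono x (mem_NX.mp hx).1 K (Y ∪ K) Finset.subset_union_right hYK
          rw [t.c_K hx] at this
          exact this
        intro x hx
        by_contra hne
        have h4 : ∑ x ∈ NX e D K, 1 < ∑ x ∈ NX e D K, c x (Y ∪ K) := by
          apply Finset.sum_lt_sum h3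
          exact ⟨x, hx, by have := h3 x hx; omega⟩
        rw [← Finset.card_eq_sum_ones, t.card_N] at h4
        omega
      -- a node of rank at least 2
      have hex : ∃ T ∈ NX e D K, 2 ≤ c T A := by
        by_contra hcon2
        push Not at hcon2
        have h3 : rho A D e c K = 0 := by
          rw [t.rho_zero_iff]
          intro x hx
          have h4 := hcon2 x hx
          have h5 := t.hyp.r_pos x (mem_NX.mp hx).1
          omega
        rw [cc_self, Finset.sdiff_union_of_subset t.sub, t.sum_A, h3] at h2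
        omega
      obtain ⟨T, hT, hT2⟩ := hex
      have hTD := (mem_NX.mp hT).1
      have hcT := hall T hT
      by_cases hJ : 1 ≤ J e Y' T
      · have hJ2 : 1 ≤ J e (Y ∪ K) T :=
          (mem_NX.mp hT).2.trans (J_mono e Finset.subset_union_right T)
        have h3 := t.hyp.H3 T hTD hT2 (Y ∪ K) hYK hJ2 (by rw [hcompl]; exact hJ)
        rw [hcompl, hcT] at h3
        have h4 : c T Y' ≤ ∑ x ∈ NX e D K, c x Y' :=
          Finset.single_le_sum (f := fun x => c x Y') (fun _ _ => Nat.zero_le _) hT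
        -- shifted sum for Y'
        have h5 : ell W K + 2 ≤ ∑ x ∈ NX e D K, c x (Y' ∪ K) := by
          have h6 : ∀ x ∈ NX e D K, 1 ≤ c x (Y' ∪ K) := by
            intro x hx
            have := t.hyp.c_mono x (mem_NX.mp hx).1 K (Y' ∪ K) Finset.subset_union_right hYK'
            rw [t.c_K hx] at this
            exact this
          have h7 : ∑ x ∈ NX e D K, 1 < ∑ x ∈ NX e D K, c x (Y' ∪ K) := by
            apply Finset.sum_lt_sum h6
            refine ⟨T, hT, ?_⟩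
            have := t.hyp.c_mono T hTD Y' (Y' ∪ K) Finset.subset_union_left hYK'
            omega
          rw [← Finset.card_eq_sum_ones, t.card_N] at h7
          omega
        rw [cc_self] at h1'
        omega
      · have h3 := t.hyp.c_subadd hTD hYK hYA'
        have h4 : Y ∪ K ∪ Y' = A := by
          rw [← hcompl, Finset.union_sdiff_of_subset hYK]
        rw [h4, hcT, t.hyp.c_zero hTD hYA' (by omega)] at h3
        omega
    have hf1 : ∑ x ∈ NX e D K, c x Y = 1 := by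
      rw [cc_self] at h1
      omega
    obtain ⟨T, hT, hTJ⟩ := hm
    have hTD := (mem_NX.mp hT).1
    have hcT1 := t.hyp.c_pos T hTD Y hYA hTJ
    have hsplit : ∑ x ∈ (NX e D K).erase T, c x Y + c T Y = ∑ x ∈ NX e D K, c x Y :=
      Finset.sum_erase_add _ _ hT
    have hzero : ∀ x ∈ NX e D K, x ≠ T → J e Y x = 0 := by
      intro x hx hne
      by_contra hJx
      have h3 := t.hyp.c_pos x (mem_NX.mp hx).1 Y hYA (by omega)
      have h4 : c x Y ≤ ∑ x ∈ (NX e D K).erase T, c x Y :=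
        Finset.single_le_sum (f := fun x => c x Y) (fun _ _ => Nat.zero_le _)
          (Finset.mem_erase.mpr ⟨hne, hx⟩)
      omega
    refine ⟨T, hT, hTJ, by omega, ?_, hzero⟩
    have hsplit2 : ∑ x ∈ (NX e D K).erase T, c x (Y ∪ K) + c T (Y ∪ K) =
        ∑ x ∈ NX e D K, c x (Y ∪ K) := Finset.sum_erase_add _ _ hT
    have h5 : ∑ x ∈ (NX e D K).erase T, c x (Y ∪ K) ≤ ∑ x ∈ (NX e D K).erase T, 1 := by
      apply Finset.sum_le_sum
      intro x hx
      obtain ⟨hne, hxN⟩ := Finset.mem_erase.mp hx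
      have hxD := (mem_NX.mp hxN).1
      have h6 := t.hyp.c_subadd hxD hYA t.sub
      rw [t.c_K hxN, t.hyp.c_zero hxD hYA (hzero x hxN hne)] at h6
      omega
    rw [← Finset.card_eq_sum_ones, Finset.card_erase_of_mem hT, t.card_N] at h5
    omega
  by_contra hcon
  set X' := (A \ K) \ X with hX'
  have hX'sub : X' ⊆ A \ K := Finset.sdiff_subset
  have hdis : Disjoint X X' := Finset.disjoint_sdiff
  have hun : X ∪ X' = A \ K := Finset.union_sdiff_of_subset hX
  have hp1 : 1 ≤ cc c W K (NX e D K) d0 d0 X :=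
    t.cc_pos (mem_cD.mpr (Or.inl rfl)) hX ((meets_iff X).mpr hX1)
  have hp2 : 1 ≤ cc c W K (NX e D K) d0 d0 X' :=
    t.cc_pos (mem_cD.mpr (Or.inl rfl)) hX'sub ((meets_iff X').mpr hX2)
  obtain ⟨T, hT, hTJ, hTc, hTK, hTz⟩ := key X X' hX hX'sub hdis hun hX1 hX2 (by omega) (by omega)
  obtain ⟨T', hT', hTJ', hTc', hTK', hTz'⟩ := key X' X hX'sub hX hdis.symm
    (by rw [Finset.union_comm]; exact hun) hX2 hX1 (by omega) (by omega)
  have hXA : X ⊆ A := hX.trans Finset.sdiff_subset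
  have hXA' : X' ⊆ A := hX'sub.trans Finset.sdiff_subset
  have hTD := (mem_NX.mp hT).1
  by_cases hTT : T = T'
  · subst hTT
    apply t.not_closed hT
    intro x hx hne
    have h3 := J_union_le e X X' x
    rw [hun, hTz x hx hne, hTz' x hx hne] at h3
    omega
  · have h3 : J e X' T = 0 := hTz' T hT hTT
    have hTA : 2 ≤ c T A := by
      have := t.hyp.c_mono T hTD (X ∪ K) A (Finset.union_subset hXA t.sub) (Finset.Subset.refl _)
      omega
    have hsd : A \ X = X' ∪ K := by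
      ext x
      have hx := Finset.ext_iff.mp hun x
      have hd1 : x ∈ X → x ∉ X' := fun h1 h2 => Finset.disjoint_left.mp hdis h1 h2
      have hd2 : x ∈ K → x ∈ A := fun h => t.sub h
      simp only [Finset.mem_union, Finset.mem_sdiff] at hx ⊢
      tauto
    have h4 := t.hyp.H3 T hTD hTA X hXA hTJ (by
      rw [hsd]
      exact (mem_NX.mp hT).2.trans (J_mono e Finset.subset_union_right T))
    have h5 := t.hyp.c_subadd hTD hXA' t.sub
    rw [← hsd, t.c_K hT, t.hyp.c_zero hTD hXA' h3] at h5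
    omega

end Tight

end F14Star
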