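import Mathlib

/-!
# MP_39c6f6_co: data of the star lemma (section 7 of the master proof)
-/

namespace F14Star

open Finset

variable {α δ : Type*} [DecidableEq α] [DecidableEq δ]

/-- number of legs from `X` to the node `d` -/
def J (e : α → δ → ℕ) (X : Finset α) (d : δ) : ℕ := ∑ a ∈ X, e a d

/-- nodes of `D` with a leg to `X` -/
def NX (e : α → δ → ℕ) (D : Finset δ) (X : Finset α) : Finset δ :=
  D.filter (fun d => 1 ≤ J e X d)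

/-- elements of `A` with a leg to some node of `P` -/
def NP (e : α → δ → ℕ) (A : Finset α) (P : Finset δ) : Finset α :=
  A.filter (fun a => ∃ d ∈ P, 1 ≤ e a d)

/-- the load of `X`: `1` for each element, `4` for the elements of `W` -/
def ell (W X : Finset α) : ℕ := X.card + 3 * (X ∩ W).card

/-- Hypotheses (H0)-(H7) of the star lemma. `A` = vertices, `D` = nodes, `e` = multiplicities,
`W` = centres, `c d X` = capacity (rank) function of the node `d`. -/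
structure StarHyp (A : Finset α) (D : Finset δ) (e : α → δ → ℕ) (W : Finset α)
    (c : δ → Finset α → ℕ) : Prop where
  H0 : ∀ a ∈ A, ∑ d ∈ D, e a d ≤ 5
  c_mono : ∀ d ∈ D, ∀ X Y, X ⊆ Y → Y ⊆ A → c d X ≤ c d Y
  c_sub : ∀ d ∈ D, ∀ X Y, X ⊆ A → Y ⊆ A → c d (X ∪ Y) + c d (X ∩ Y) ≤ c d X + c d Y
  c_le : ∀ d ∈ D, ∀ X, X ⊆ A → c d X ≤ J e X d
  c_pos : ∀ d ∈ D, ∀ X, X ⊆ A → 1 ≤ J e X d → 1 ≤ c d X
  r_pos : ∀ d ∈ D, 1 ≤ c d A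
  H2 : ∀ d ∈ D, c d A = 1 → (J e A d = 5 ∧ ∀ a ∈ A, e a d ≤ 1) ∨ 7 ≤ J e A d
  H3 : ∀ d ∈ D, 2 ≤ c d A → ∀ X, X ⊆ A → 1 ≤ J e X d → 1 ≤ J e (A \ X) d →
    3 ≤ c d X + c d (A \ X)
  H4 : ∀ X, X ⊆ A → X.Nonempty → ell W X + 1 ≤ (NX e D X).card
  H5 : ∀ b ∈ A, b ∉ W → ∃ X, X ⊆ A ∧ b ∈ X ∧ ∑ d ∈ D, c d X ≤ ell W X + 2
  H6 : ∀ P, P ⊆ D → P.Nonempty → ∑ d ∈ P, (c d A - 1) ≤ 1 → P.card + 2 ≤ (NP e A P).card
  H7 : ∀ X, X ⊆ A → X.Nonempty → (∀ d ∈ NX e D X, c d A = 1) →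
    (NX e D X).card = ell W X + 1 → 7 ≤ ∑ d ∈ NX e D X, J e (A \ X) d

end F14Star
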