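import Pool.Agent.Lib.MP_39c6f6_co.ThetaA
import Pool.Agent.Lib.MP_39c6f6_co.Out

/-! # (6.4), case B (job THETA-B) -/

set_option autoImplicit false

namespace OneFour

open Finset

variable {V : Type} [Fintype V] [DecidableEq V] {N : Net V}

namespace Barrier

variable (B : Barrier N)

theorem tb_mem_nbr {B : Barrier N} {P : Finset (Finset V)} {a : V} :
    a ∈ B.nbr P ↔ a ∈ B.A ∧ ∃ K ∈ P, 1 ≤ N.e a K := by
  simp [Barrier.nbr]

/-- the neighbours of `Y` in the family `P` -/
def tbNP (_B : Barrier N) (P : Finset (Finset V)) (Y : Finset V) : Finset (Finset V) :=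
  P.filter fun K => ∃ a ∈ Y, 1 ≤ N.e a K

theorem tb_mem_NP {B : Barrier N} {P : Finset (Finset V)} {Y : Finset V} {K : Finset V} :
    K ∈ B.tbNP P Y ↔ K ∈ P ∧ ∃ a ∈ Y, 1 ≤ N.e a K := by
  simp [Barrier.tbNP]

theorem tb_NP_mono {B : Barrier N} {P : Finset (Finset V)} {Y Y' : Finset V} (h : Y ⊆ Y') :
    B.tbNP P Y ⊆ B.tbNP P Y' := by
  intro K hK
  rw [tb_mem_NP] at hK ⊢
  obtain ⟨h1, a, ha, h2⟩ := hK
  exact ⟨h1, a, h ha, h2⟩

omit [Fintype V] in
theorem tb_one_le_e {h : HE V} {K : Finset V} (hh : (N.σ h).1 ∈ K) : 1 ≤ N.e h.1 K := by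
  unfold Net.e
  exact Finset.card_pos.2 ⟨h.2, by simpa using hh⟩

theorem _root_.OneFour.ThetaCtx.tb_exists_T {B : Barrier N} {P : Finset (Finset V)} (hP : ThetaCtx B P) :
    ∃ T ∈ P, B.k T = 3 ∧ ∀ K ∈ P, K ≠ T → B.k K = 5 := by
  obtain ⟨T, hT⟩ := Finset.card_eq_one.1 hP.T1
  have h1 : T ∈ P.filter fun K => B.k K = 3 := by rw [hT]; exact mem_singleton_self T
  rw [mem_filter] at h1
  refine ⟨T, h1.1, h1.2, fun K hK hne => ?_⟩
  rcases hP.k35 K hK with h | h
  · exact absurd (mem_singleton.1 (hT ▸ mem_filter.2 ⟨hK, h⟩)) hne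
  · exact h

theorem _root_.OneFour.ThetaCtx.tb_out_eq {B : Barrier N} {P : Finset (Finset V)} (hP : ThetaCtx B P) :
    B.out (B.nbr P) P = 7 := by
  obtain ⟨T, hT, hT3, hV⟩ := hP.tb_exists_T
  have h1 := B.out_add_sum_k (X := B.nbr P) (filter_subset _ _) hP.sub (Finset.Subset.refl _)
  have h2 : ∑ K ∈ P, B.k K + 2 = 5 * P.card := by
    rw [← Finset.add_sum_erase P _ hT, hT3]
    have : ∑ K ∈ P.erase T, B.k K = ∑ K ∈ P.erase T, 5 :=
      Finset.sum_congr rfl fun K hK => hV K (mem_of_mem_erase hK) (ne_of_mem_erase hK)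
    rw [this, Finset.sum_const, card_erase_of_mem hT]
    have := Finset.card_pos.2 ⟨T, hT⟩
    simp only [smul_eq_mul]
    omega
  have h3 := hP.card
  omega

/-- the inequality for `Y ⊆ N(P)` -/
theorem _root_.OneFour.ThetaCtx.tb_NP_card {B : Barrier N} {P : Finset (Finset V)} (hP : ThetaCtx B P)
    {T : Finset V} (hT : T ∈ P) {Y : Finset V} (hY : Y ⊆ B.nbr P) (hne : Y.Nonempty)
    (hTY : T ∉ B.tbNP P Y) : Y.card + 1 ≤ (B.tbNP P Y).card := by
  have hsub : B.tbNP P Y ⊆ P := filter_subset _ _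
  have h1 : (P \ B.tbNP P Y) ⊆ P := sdiff_subset
  have h2 : (P \ B.tbNP P Y).Nonempty := ⟨T, mem_sdiff.2 ⟨hT, hTY⟩⟩
  have h3 : P \ B.tbNP P Y ≠ P := by
    intro h
    obtain ⟨a, ha⟩ := hne
    obtain ⟨_, K, hK, h4⟩ := tb_mem_nbr.1 (hY ha)
    have h5 : K ∈ P \ B.tbNP P Y := h.symm ▸ hK
    exact (mem_sdiff.1 h5).2 (tb_mem_NP.2 ⟨hK, a, ha, h4⟩)
  have h4 := hP.min _ h1 h2 h3
  have h5 : B.nbr (P \ B.tbNP P Y) ⊆ B.nbr P \ Y := by
    intro a ha
    obtain ⟨hA, K, hK, h6⟩ := tb_mem_nbr.1 ha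
    rw [mem_sdiff] at hK
    refine mem_sdiff.2 ⟨tb_mem_nbr.2 ⟨hA, K, hK.1, h6⟩, fun h7 => ?_⟩
    exact hK.2 (tb_mem_NP.2 ⟨hK.1, a, h7, h6⟩)
  have h6 := card_le_card h5
  have h7 := card_sdiff_of_subset hY
  have h8 := card_sdiff_of_subset hsub
  have h9 := card_le_card hY
  have h10 := card_le_card hsub
  have h11 := hP.card
  omega

/-- Case B: every `a ∈ N(P)` has at most one outer leg. -/
theorem theta_B (hN : MinCx N) {P : Finset (Finset V)} (hP : ThetaCtx B P)
    (ho : ∀ a ∈ B.nbr P, B.out {a} P ≤ 1) : False := by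
  classical
  obtain ⟨T, hT, hT3, hV⟩ := hP.tb_exists_T
  set X := B.nbr P with hX
  have hXA : X ⊆ B.A := filter_subset _ _
  have hout : B.out X P = 7 := hP.tb_out_eq
  have hXcard : 7 ≤ X.card := by
    have h1 := B.out_eq_sum X P
    have h2 : ∑ a ∈ X, B.out {a} P ≤ ∑ a ∈ X, 1 := Finset.sum_le_sum ho
    simp only [sum_const, smul_eq_mul, mul_one] at h2
    omega
  have hPX : X.card = P.card + 1 := hP.card
  -- number of edges from `a` into `P`
  have heP : ∀ a ∈ X, B.out {a} P + ∑ K ∈ P, N.e a K = 5 := by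
    intro a ha
    have h1 := B.out_add_sum_e (X := {a}) (singleton_subset_iff.2 (hXA ha)) hP.sub
    simpa using h1
  -- the set `𝒴`
  have hNT : (B.nbr {T}).card ≤ 3 := by
    have h1 := B.sum_e_eq (hP.sub hT)
    rw [hT3] at h1
    rw [← h1]
    calc (B.nbr {T}).card = ∑ a ∈ B.nbr {T}, 1 := by simp
      _ ≤ ∑ a ∈ B.nbr {T}, N.e a T := by
        refine Finset.sum_le_sum fun a ha => ?_
        obtain ⟨_, K, hK, h⟩ := tb_mem_nbr.1 ha
        rw [mem_singleton] at hK
        exact hK ▸ h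
      _ ≤ ∑ a ∈ B.A, N.e a T :=
        Finset.sum_le_sum_of_subset (filter_subset _ _)
  let YY := X.powerset.filter fun Y => Y.Nonempty ∧ T ∉ B.tbNP P Y ∧
    (B.tbNP P Y).card = Y.card + 1
  have hYY : YY.Nonempty := by
    refine ⟨X \ B.nbr {T}, mem_filter.2 ⟨mem_powerset.2 sdiff_subset, ?_, ?_, ?_⟩⟩
    · rw [← Finset.card_pos]
      have := le_card_sdiff (B.nbr {T}) X
      omega
    · intro h
      obtain ⟨_, a, ha, h1⟩ := tb_mem_NP.1 h
      rw [mem_sdiff] at ha
      exact ha.2 (tb_mem_nbr.2 ⟨hXA ha.1, T, mem_singleton_self _, h1⟩)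
    · have hTn : T ∉ B.tbNP P (X \ B.nbr {T}) := by
        intro h
        obtain ⟨_, a, ha, h1⟩ := tb_mem_NP.1 h
        rw [mem_sdiff] at ha
        exact ha.2 (tb_mem_nbr.2 ⟨hXA ha.1, T, mem_singleton_self _, h1⟩)
      have hne : (X \ B.nbr {T}).Nonempty := by
        rw [← Finset.card_pos]
        have := le_card_sdiff (B.nbr {T}) X
        omega
      have h1 : (X \ B.nbr {T}).card + 1 ≤ (B.tbNP P (X \ B.nbr {T})).card :=
        hP.tb_NP_card hT sdiff_subset hne hTn
      have h2 := le_card_sdiff (B.nbr {T}) X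
      have h3 : B.tbNP P (X \ B.nbr {T}) ⊆ P.erase T := by
        intro K hK
        rw [mem_erase]
        exact ⟨fun h => hTn (h ▸ hK), (tb_mem_NP.1 hK).1⟩
      have h4 := card_le_card h3
      rw [card_erase_of_mem hT] at h4
      omega
  obtain ⟨Y0, hY0, hmin⟩ := exists_min_image YY Finset.card hYY
  obtain ⟨hY0X, hY0ne, hTY0, hY0c⟩ : Y0 ⊆ X ∧ Y0.Nonempty ∧ T ∉ B.tbNP P Y0 ∧
      (B.tbNP P Y0).card = Y0.card + 1 := by
    have := mem_filter.1 hY0
    exact ⟨mem_powerset.1 this.1, this.2⟩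
  set R0 := B.tbNP P Y0 with hR0
  have hR0P : R0 ⊆ P := filter_subset _ _
  -- two outer legs
  have h2out := B.two_le_out hN (hY0X.trans hXA) hY0ne (hR0P.trans hP.sub) (fun K hK =>
    hV K (hR0P hK) (fun h => hTY0 (h ▸ hK))) hY0c
  obtain ⟨x1, hx1, x2, hx2, hx12⟩ := Finset.one_lt_card.1 (show 1 < _ from h2out)
  have key : ∀ x : HE V, x.1 ∈ Y0 ∧ (N.σ x).1 ∉ R0.biUnion id → (N.σ x).1 ∉ P.biUnion id := by
    rintro x ⟨h1, h2⟩ h3
    obtain ⟨K, hK, h4⟩ := mem_biUnion.1 h3
    refine h2 (mem_biUnion.2 ⟨K, ?_, h4⟩)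
    exact tb_mem_NP.2 ⟨hK, x.1, h1, tb_one_le_e h4⟩
  have hx1' := (mem_filter.1 hx1).2
  have hx2' := (mem_filter.1 hx2).2
  have hx1P := key x1 hx1'
  have hx2P := key x2 hx2'
  -- uniqueness of outer legs
  have huniq : ∀ x y : HE V, x.1 ∈ X → x.1 = y.1 → (N.σ x).1 ∉ P.biUnion id →
      (N.σ y).1 ∉ P.biUnion id → x = y := by
    intro x y hx hxy h1 h2
    have h3 := ho x.1 hx
    unfold Barrier.out at h3
    exact Finset.card_le_one.1 h3 x (by simpa using h1) y (by simpa [hxy] using h2)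
  have ha12 : x1.1 ≠ x2.1 := fun h => hx12 (huniq x1 x2 (hY0X hx1'.1) h hx1P hx2P)
  -- outer legs end outside `S`
  set S := X ∪ P.biUnion id with hS
  have hXS : ∀ a ∈ X, a ∈ S := fun a ha => mem_union_left _ ha
  have hbdS : ∀ x : HE V, x.1 ∈ X → (N.σ x).1 ∉ P.biUnion id → N.σ x ∈ N.bd S := by
    intro x hx h1
    rw [Net.mem_bd, N.invol]
    refine ⟨fun h => ?_, hXS _ hx⟩
    rcases mem_union.1 h with h | h
    · exact hP.noAA x hx h
    · exact h1 h
  have hbdX : ∀ b ∈ N.bd S, (N.σ b).1 ∈ X := by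
    intro b hb
    rw [Net.mem_bd] at hb
    rcases mem_union.1 hb.2 with h | h
    · exact h
    · exfalso
      obtain ⟨K, hK, h1⟩ := mem_biUnion.1 h
      have h2 := B.closed K (hP.sub hK) (N.σ b) h1
      rw [N.invol] at h2
      rcases h2 with h2 | h2
      · exact hb.1 (mem_union_right _ (mem_biUnion.2 ⟨K, hK, h2⟩))
      · exact hb.1 (hXS _ (tb_mem_nbr.2 ⟨h2, K, hK, tb_one_le_e h1⟩))
  have hbdP : ∀ b ∈ N.bd S, b.1 ∉ P.biUnion id := fun b hb h =>
    (Net.mem_bd.1 hb).1 (mem_union_right _ h)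
  have hS2 : 2 ≤ S.card := by
    have : X.card ≤ S.card := card_le_card (subset_union_left : X ⊆ X ∪ P.biUnion id)
    omega
  have hPne : P.Nonempty := ⟨T, hT⟩
  have h3k : ∀ K ∈ P, 3 ≤ B.k K := by
    intro K hK
    rcases hP.k35 K hK with h | h <;> omega
  refine hN.VE_contract (S := S) hS2 hP.bd7 (p := N.σ x1) (q := N.σ x2)
    (hbdS x1 (hY0X hx1'.1) hx1P) (hbdS x2 (hY0X hx2'.1) hx2P) ?_ ?_ ?_
  · intro h
    apply hx12
    rw [← N.invol x1, h, N.invol]
  · intro b hb _ _
    exact B.real_single hN hP.sub hPne h3k hP.T1.le hP.card hb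
  intro b hb hbp hbq
  -- the vertex of `b`
  have hb3X : (N.σ b).1 ∈ X := hbdX b hb
  have hbo : (N.σ (N.σ b)).1 ∉ P.biUnion id := by rw [N.invol]; exact hbdP b hb
  have ha31 : (N.σ b).1 ≠ x1.1 := by
    intro h
    have := huniq (N.σ b) x1 hb3X h hbo hx1P
    exact hbp (by rw [← this, N.invol])
  have ha32 : (N.σ b).1 ≠ x2.1 := by
    intro h
    have := huniq (N.σ b) x2 hb3X h hbo hx2P
    exact hbq (by rw [← this, N.invol])
  have hx1X : x1.1 ∈ X := hY0X hx1'.1
  have hx2X : x2.1 ∈ X := hY0X hx2'.1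
  generalize ha1 : x1.1 = a1 at *
  generalize ha2 : x2.1 = a2 at *
  generalize ha3 : (N.σ b).1 = a3 at *
  let f : V → ℕ := fun a => if a = a1 then 3 else if a = a2 ∨ a = a3 then 0 else 1
  let g : Finset V → ℕ := fun K => if K = T then 2 else 1
  have hg : ∀ P' : Finset (Finset V), ∑ K ∈ P', g K = P'.card + if T ∈ P' then 1 else 0 := by
    intro P'
    have : ∀ K ∈ P', g K = 1 + if K = T then 1 else 0 := by
      intro K _
      simp only [g]
      split <;> rfl
    rw [Finset.sum_congr rfl this, Finset.sum_add_distrib, Finset.sum_ite_eq']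
    simp
  have hf : ∑ a ∈ X, f a = X.card := by
    have h1 : ∀ a ∈ X, f a + ((if a = a2 then 1 else 0) + (if a = a3 then 1 else 0)) =
        1 + (if a = a1 then 2 else 0) := by
      intro a _
      simp only [f]
      by_cases h1 : a = a1
      · subst h1
        simp [ha12, ha31.symm]
      · by_cases h2 : a = a2
        · subst h2
          simp [ha12.symm, ha32.symm]
        · by_cases h3 : a = a3
          · subst h3
            simp [ha31, ha32]
          · simp [h1, h2, h3]
    have h2 := Finset.sum_congr rfl h1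
    rw [Finset.sum_add_distrib, Finset.sum_add_distrib, Finset.sum_add_distrib,
      Finset.sum_ite_eq', Finset.sum_ite_eq', Finset.sum_ite_eq'] at h2
    simp only [hx2X, hb3X, hx1X, if_true, sum_const, smul_eq_mul, mul_one] at h2
    omega
  have he1 : ∀ a ∈ X, 4 ≤ ∑ K ∈ P, N.e a K := by
    intro a ha
    have h1 := heP a ha
    have h2 := ho a ha
    omega
  have hcond : ∀ P' ⊆ P, ∑ K ∈ P', g K ≤ ∑ a ∈ X, min (f a) (∑ K ∈ P', N.e a K) := by
    intro P' hP'
    rcases P'.eq_empty_or_nonempty with rfl | hne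
    · simp
    by_cases hPP : P' = P
    · subst hPP
      rw [hg, if_pos hT, ← hPX, ← hf]
      refine Finset.sum_le_sum fun a ha => ?_
      refine le_min le_rfl ?_
      have h1 := he1 a ha
      have h2 : f a ≤ 3 := by
        simp only [f]
        split
        · exact le_rfl
        · split <;> omega
      omega
    have hN' := hP.min P' hP' hne hPP
    have hnX : B.nbr P' ⊆ X := by
      intro a ha
      obtain ⟨h1, K, hK, h2⟩ := tb_mem_nbr.1 ha
      exact tb_mem_nbr.2 ⟨h1, K, hP' hK, h2⟩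
    have hge1 : ∀ a ∈ B.nbr P', 1 ≤ ∑ K ∈ P', N.e a K := by
      intro a ha
      obtain ⟨h1, K, hK, h2⟩ := tb_mem_nbr.1 ha
      exact h2.trans (Finset.single_le_sum (f := fun K => N.e a K) (fun _ _ => Nat.zero_le _) hK)
    -- main estimate
    have hmain : (B.nbr P').card + (if 2 ≤ ∑ K ∈ P', N.e a1 K then 1 else 0) ≤
        ∑ a ∈ X, min (f a) (∑ K ∈ P', N.e a K) + (if a2 ∈ B.nbr P' then 1 else 0) + 1 := by
      have hpt : ∀ a ∈ B.nbr P', 1 + (if a = a1 then
          (if 2 ≤ ∑ K ∈ P', N.e a1 K then 1 else 0) else 0) ≤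
          min (f a) (∑ K ∈ P', N.e a K) + ((if a = a2 then 1 else 0) +
            (if a = a3 then 1 else 0)) := by
        intro a ha
        have h0 := hge1 a ha
        simp only [f]
        by_cases h1 : a = a1
        · subst h1
          simp only [if_true]
          split
          · rename_i h2
            have : 2 ≤ min 3 (∑ K ∈ P', N.e a K) := le_min (by norm_num) h2
            omega
          · have : 1 ≤ min 3 (∑ K ∈ P', N.e a K) := le_min (by norm_num) h0
            omega
        · by_cases h2 : a = a2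
          · subst h2
            simp [h1]
          · by_cases h3 : a = a3
            · subst h3
              simp [h1, h2]
            · simp only [h1, h2, h3, if_false, or_self]
              have : 1 ≤ min 1 (∑ K ∈ P', N.e a K) := le_min le_rfl h0
              omega
      have h1 := Finset.sum_le_sum hpt
      rw [Finset.sum_add_distrib, Finset.sum_add_distrib, Finset.sum_add_distrib,
        Finset.sum_ite_eq', Finset.sum_ite_eq', Finset.sum_ite_eq'] at h1
      simp only [sum_const, smul_eq_mul, mul_one] at h1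
      have h2 : ∑ a ∈ B.nbr P', min (f a) (∑ K ∈ P', N.e a K) ≤
          ∑ a ∈ X, min (f a) (∑ K ∈ P', N.e a K) := Finset.sum_le_sum_of_subset hnX
      have h3 : (if 2 ≤ ∑ K ∈ P', N.e a1 K then 1 else 0) ≤
          (if a1 ∈ B.nbr P' then (if 2 ≤ ∑ K ∈ P', N.e a1 K then 1 else 0) else 0) := by
        by_cases h4 : 2 ≤ ∑ K ∈ P', N.e a1 K
        · have : a1 ∈ B.nbr P' := by
            by_contra h5
            have : ∑ K ∈ P', N.e a1 K = 0 := by
              refine Finset.sum_eq_zero fun K hK => ?_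
              by_contra h6
              exact h5 (tb_mem_nbr.2 ⟨hXA hx1X, K, hK, Nat.one_le_iff_ne_zero.2 h6⟩)
            omega
          simp [this]
        · simp [h4]
      have h4 : (if a3 ∈ B.nbr P' then 1 else 0) ≤ 1 := by split <;> omega
      omega
    rw [hg]
    by_cases hTP' : T ∈ P'
    · rw [if_pos hTP']
      by_contra hcon
      have hcon' : ∑ a ∈ X, min (f a) (∑ K ∈ P', N.e a K) ≤ P'.card := by omega
      have ha2N : a2 ∈ B.nbr P' := by
        by_contra h
        rw [if_neg h] at hmain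
        omega
      have he1' : ¬ 2 ≤ ∑ K ∈ P', N.e a1 K := by
        intro h
        rw [if_pos h] at hmain
        have : (if a2 ∈ B.nbr P' then 1 else 0) ≤ 1 := by split <;> omega
        omega
      have hNeq : (B.nbr P').card = P'.card + 2 := by
        have : (if a2 ∈ B.nbr P' then 1 else 0) ≤ 1 := by split <;> omega
        omega
      -- the sets `R` and `Y`
      set R := P \ P' with hR
      set Y := X \ B.nbr P' with hY
      have hRc : R.card = P.card - P'.card := card_sdiff_of_subset hP'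
      have hYc : Y.card = X.card - (B.nbr P').card := card_sdiff_of_subset hnX
      have hle1 := card_le_card hP'
      have hle2 := card_le_card hnX
      have hNPY : B.tbNP P Y ⊆ R := by
        intro K hK
        obtain ⟨hKP, a, ha, h1⟩ := tb_mem_NP.1 hK
        refine mem_sdiff.2 ⟨hKP, fun h => ?_⟩
        rw [hY, mem_sdiff] at ha
        exact ha.2 (tb_mem_nbr.2 ⟨hXA ha.1, K, h, h1⟩)
      have hRR0 : 3 ≤ (R ∩ R0).card := by
        have h1 := he1 a1 hx1X
        have h2 : ∑ K ∈ P, N.e a1 K = ∑ K ∈ R, N.e a1 K + ∑ K ∈ P', N.e a1 K :=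
          (Finset.sum_sdiff hP').symm
        have h3 : 3 ≤ ∑ K ∈ R, N.e a1 K := by omega
        have h4 : ∑ K ∈ R, N.e a1 K ≤ ∑ K ∈ R, if K ∈ R0 then 1 else 0 := by
          refine Finset.sum_le_sum fun K hK => ?_
          rw [hR, mem_sdiff] at hK
          have hKT : K ≠ T := fun h => hK.2 (h ▸ hTP')
          have h5 := B.e_le_one hN (hP.sub hK.1) (hV K hK.1 hKT) (hXA hx1X)
          by_cases h6 : K ∈ R0
          · rw [if_pos h6]; exact h5
          · rw [if_neg h6]
            by_contra h7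
            exact h6 (tb_mem_NP.2 ⟨hK.1, a1, hx1'.1, by omega⟩)
        rw [← Finset.sum_filter, Finset.filter_mem_eq_inter] at h4
        simp only [sum_const, smul_eq_mul, mul_one] at h4
        omega
      have hYX : Y ⊆ X := sdiff_subset
      have hU : Y ∪ Y0 ⊆ X := union_subset hYX hY0X
      have hNPU : B.tbNP P (Y ∪ Y0) ⊆ R ∪ R0 := by
        intro K hK
        obtain ⟨hKP, a, ha, h1⟩ := tb_mem_NP.1 hK
        rcases mem_union.1 ha with h | h
        · exact mem_union_left _ (hNPY (tb_mem_NP.2 ⟨hKP, a, h, h1⟩))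
        · exact mem_union_right _ (tb_mem_NP.2 ⟨hKP, a, h, h1⟩)
      have hTR : T ∉ R ∪ R0 := by
        intro h
        rcases mem_union.1 h with h | h
        · exact (mem_sdiff.1 h).2 hTP'
        · exact hTY0 h
      have h1 := hP.tb_NP_card hT hU (hY0ne.mono subset_union_right) (fun h => hTR (hNPU h))
      have h2 := card_le_card hNPU
      have h3 := card_union_add_card_inter R R0
      have h4 := card_union_add_card_inter Y Y0
      have h5 : (R ∩ R0).card ≤ (Y ∩ Y0).card + 1 := by omega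
      have hIne : (Y ∩ Y0).Nonempty := by
        rw [← Finset.card_pos]; omega
      have hNPI : B.tbNP P (Y ∩ Y0) ⊆ R ∩ R0 := by
        intro K hK
        exact mem_inter.2 ⟨hNPY (tb_NP_mono inter_subset_left hK), tb_NP_mono inter_subset_right hK⟩
      have hTI : T ∉ B.tbNP P (Y ∩ Y0) := fun h => hTR (mem_union_left _ (mem_inter.1 (hNPI h)).1)
      have h6 := hP.tb_NP_card hT (inter_subset_left.trans hYX) hIne hTI
      have h7 := card_le_card hNPI
      have hI : Y ∩ Y0 ∈ YY := mem_filter.2 ⟨mem_powerset.2 (inter_subset_left.trans hYX), hIne,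
        hTI, by omega⟩
      have h8 := hmin _ hI
      have h9 : Y ∩ Y0 = Y0 := eq_of_subset_of_card_le inter_subset_right h8
      have h10 : a2 ∈ Y ∩ Y0 := h9.symm ▸ hx2'.1
      have h11 := (mem_inter.1 h10).1
      rw [hY, mem_sdiff] at h11
      exact h11.2 ha2N
    · rw [if_neg hTP']
      have : (if a2 ∈ B.nbr P' then 1 else 0) ≤ 1 := by split <;> omega
      omega
  obtain ⟨F, hF1, hF2, hF3⟩ := B.exists_legs_D hXA hP.sub f g
    (by rw [hf, hg, if_pos hT]; exact hPX) hcond
  -- the labelling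
  let E : Finset (HE V) := {x1, x2, N.σ b}
  have hEout : ∀ h ∈ E, (N.σ h).1 ∉ P.biUnion id := by
    intro h hh
    simp only [E, mem_insert, mem_singleton] at hh
    rcases hh with rfl | rfl | rfl
    · exact hx1P
    · exact hx2P
    · exact hbo
  have hFin : ∀ h ∈ F, (N.σ h).1 ∈ P.biUnion id := by
    intro h hh
    obtain ⟨_, K, hK, h1⟩ := hF1 h hh
    exact mem_biUnion.2 ⟨K, hK, (Net.mem_bd.1 h1).2⟩
  have hdisj : Disjoint F E := by
    rw [Finset.disjoint_left]
    intro h h1 h2
    exact hEout h h2 (hFin h h1)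
  have hdeg : ∀ a, deg (fun h => decide (h ∈ F ∪ E)) a =
      (F.filter fun h => h.1 = a).card + (E.filter fun h => h.1 = a).card := by
    intro a
    rw [← card_union_of_disjoint (disjoint_filter_filter hdisj), ← filter_union]
    unfold deg
    refine Finset.card_bij (fun i _ => (a, i)) ?_ ?_ ?_
    · intro i hi
      rw [mem_filter] at hi ⊢
      exact ⟨by simpa using hi.2, rfl⟩
    · intro i _ j _ hij
      exact (Prod.ext_iff.1 hij).2
    · rintro ⟨a', i⟩ hh
      rw [mem_filter] at hh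
      obtain ⟨h1, h2⟩ := hh
      simp only at h2
      subst h2
      exact ⟨i, by simpa using h1, rfl⟩
  have hEdeg : ∀ a, (E.filter fun h => h.1 = a).card =
      (if a = a1 then 1 else 0) + (if a = a2 then 1 else 0) + (if a = a3 then 1 else 0) := by
    intro a
    have hx1b : x1 ≠ N.σ b := by
      intro h
      exact ha31 (by rw [← ha3, ← h, ha1])
    have hx2b : x2 ≠ N.σ b := by
      intro h
      exact ha32 (by rw [← ha3, ← h, ha2])
    simp only [E]
    rw [Finset.card_filter, Finset.sum_insert (by simp [hx12, hx1b]),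
      Finset.sum_insert (by simp [hx2b]), Finset.sum_singleton, ha1, ha2, ha3]
    simp only [eq_comm (b := a), add_assoc]
  have hleg : ∀ K ∈ P, ∀ h ∈ N.bd K, h.1 ∈ X := by
    intro K hK h hh
    exact tb_mem_nbr.2 ⟨B.bd_mem_A (hP.sub hK) hh, K, hK, tb_one_le_e (Net.mem_bd.1 hh).2⟩
  refine B.glue hXA hP.sub (u := fun h => decide (h ∈ F ∪ E)) ?_ ?_ ?_ ?_
  · intro a ha
    unfold vok
    rw [hdeg, hF2 a ha, hEdeg]
    simp only [f]
    by_cases h1 : a = a1
    · subst h1
      simp [ha12, ha31.symm]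
    · by_cases h2 : a = a2
      · subst h2
        simp [h1, ha32.symm]
      · by_cases h3 : a = a3
        · subst h3
          simp [h1, h2]
        · simp [h1, h2, h3]
  · intro h h1 h2
    exact absurd h2 (hP.noAA h h1)
  · intro b' hb' hb'X
    have h1 : N.σ b' ∉ F := by
      intro h
      have := hFin _ h
      rw [N.invol] at this
      exact hbdP b' hb' this
    have e : ∀ x : HE V, N.σ b' = x ↔ b' = N.σ x := by
      intro x
      constructor
      · rintro rfl; rw [N.invol]
      · rintro rfl; rw [N.invol]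
    simp only [E, mem_union, mem_insert, mem_singleton, h1, false_or, e, N.invol]
    congr 1
    apply propext
    tauto
  · intro K hK
    have h1 : ∀ h ∈ N.bd K, ((if h.1 ∈ X then decide (h ∈ F ∪ E) else
        decide (h = b ∨ h = N.σ x1 ∨ h = N.σ x2)) = decide (h ∈ F)) := by
      intro h hh
      rw [if_pos (hleg K hK h hh)]
      congr 1
      apply propext
      rw [mem_union, or_iff_left]
      intro h2
      exact hEout h h2 (mem_biUnion.2 ⟨K, hK, (Net.mem_bd.1 hh).2⟩)
    have h2 : ((N.bd K).filter fun h => (if h.1 ∈ X then decide (h ∈ F ∪ E) else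
        decide (h = b ∨ h = N.σ x1 ∨ h = N.σ x2)) = true) = N.bd K ∩ F := by
      ext h
      rw [mem_filter, mem_inter]
      refine and_congr_right fun hh => ?_
      rw [h1 h hh]; simp
    have h3 : ((N.bd K).filter fun h => (if h.1 ∈ X then decide (h ∈ F ∪ E) else
        decide (h = b ∨ h = N.σ x1 ∨ h = N.σ x2)) = false) = N.bd K \ F := by
      ext h
      rw [mem_filter, mem_sdiff]
      refine and_congr_right fun hh => ?_
      rw [h1 h hh]; simp
    rw [h2, h3]
    have h4 := hF3 K hK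
    by_cases hKT : K = T
    · right
      have h5 := card_sdiff_add_card_inter (N.bd K) F
      have h6 : (N.bd K).card = 3 := by rw [hKT]; exact hT3
      simp only [g, hKT, if_true] at h4
      rw [hKT] at h5 h6 ⊢
      omega
    · left
      simpa [g, hKT] using h4

end Barrier

end OneFour
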