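import Pool.Agent.Lib.MP_39c6f6_co.ThetaA
import Pool.Agent.Lib.MP_39c6f6_co.ThetaB

/-! # (6.2) + (6.4) (job THETA) -/

set_option autoImplicit false

namespace OneFour

open Finset

variable {V : Type} [Fintype V] [DecidableEq V] {N : Net V}

namespace Barrier

variable (B : Barrier N)

/-- (6.2)+(6.4) -/
theorem nbr_card_ge (hN : MinCx N) {P : Finset (Finset V)} (hP : P ⊆ B.D) (hne : P.Nonempty)
    (h3 : ∀ K ∈ P, 3 ≤ B.k K) (hT : (P.filter fun K => B.k K = 3).card ≤ 1) :
    P.card + 2 ≤ (B.nbr P).card := by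
  induction hn : P.card using Nat.strong_induction_on generalizing P with
  | _ n ih =>
    subst hn
    by_contra hcon
    push Not at hcon
    have h1 := B.nbr_card_gt hN hP hne h3 hT
    have heq : (B.nbr P).card = P.card + 1 := by omega
    obtain ⟨hT1, hk35, hbd, hAA⟩ := B.nbr_card_eq_imp hN hP hne h3 hT heq
    have hmin : ∀ Q ⊆ P, Q.Nonempty → Q ≠ P → Q.card + 2 ≤ (B.nbr Q).card := by
      intro Q hQ hQne hQP
      refine ih Q.card ?_ (hQ.trans hP) hQne (fun K hK => h3 K (hQ hK)) ?_ rfl
      · exact Finset.card_lt_card (Finset.ssubset_iff_subset_ne.2 ⟨hQ, hQP⟩)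
      · exact le_trans (Finset.card_le_card (Finset.filter_subset_filter _ hQ)) hT
    have hctx : ThetaCtx B P := ⟨hP, hk35, hT1, heq, hmin, hbd, hAA⟩
    have hA : ∀ a ∈ B.nbr P, B.out {a} P ≠ 2 ∧ B.out {a} P ≠ 3 := by
      intro a ha
      constructor <;> intro h
      · exact B.theta_A hN hctx ha (Or.inl h)
      · exact B.theta_A hN hctx ha (Or.inr h)
    have hNA : B.nbr P ⊆ B.A := fun a ha => (Finset.mem_filter.1 ha).1
    have hcount : ∀ a ∈ B.nbr P, B.out {a} P + ∑ K ∈ P, N.e a K = 5 := by
      intro a ha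
      have := B.out_add_sum_e (X := {a}) (by simpa using hNA ha) hP
      simpa using this
    apply B.theta_B hN hctx
    intro a₀ ha₀
    by_contra hbig
    have hc := hcount a₀ ha₀
    have ha2 := hA a₀ ha₀
    obtain ⟨K₁, hK₁, hK₁e⟩ := (Finset.mem_filter.1 ha₀).2
    have hsplit : ∑ K ∈ P, N.e a₀ K = N.e a₀ K₁ + ∑ K ∈ P.erase K₁, N.e a₀ K :=
      (Finset.add_sum_erase P (fun K => N.e a₀ K) hK₁).symm
    have he1 : N.e a₀ K₁ = 1 := by omega
    have hrest : ∑ K ∈ P.erase K₁, N.e a₀ K = 0 := by omega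
    -- `P` has only one member
    have hPe : P.erase K₁ = ∅ := by
      by_contra hne'
      have hne'' : (P.erase K₁).Nonempty := Finset.nonempty_iff_ne_empty.2 hne'
      have h2 := hmin (P.erase K₁) (Finset.erase_subset _ _) hne''
        (fun h => by
          have := Finset.notMem_erase K₁ P
          rw [h] at this
          exact this hK₁)
      have hsub : B.nbr (P.erase K₁) ⊆ (B.nbr P).erase a₀ := by
        intro a ha
        obtain ⟨haA, K, hK, hKe⟩ := Finset.mem_filter.1 ha
        refine Finset.mem_erase.2 ⟨?_, Finset.mem_filter.2 ⟨haA, K, Finset.mem_of_mem_erase hK, hKe⟩⟩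
        rintro rfl
        have := Finset.sum_eq_zero_iff.1 hrest K hK
        omega
      have h3' := Finset.card_le_card hsub
      rw [Finset.card_erase_of_mem ha₀] at h3'
      have h4 := Finset.card_erase_of_mem hK₁
      have h5 : 1 ≤ P.card := hne.card_pos
      omega
    have hPs : P = {K₁} := by
      ext K
      simp only [Finset.mem_singleton]
      constructor
      · intro hK
        by_contra hKne
        have : K ∈ P.erase K₁ := Finset.mem_erase.2 ⟨hKne, hK⟩
        rw [hPe] at this
        simp at this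
      · rintro rfl; exact hK₁
    have hk3 : B.k K₁ = 3 := by
      by_contra h
      rw [hPs] at hT1
      rw [Finset.filter_singleton, if_neg h] at hT1
      simp at hT1
    have hcard2 : (B.nbr P).card = 2 := by rw [heq, hPs]; simp
    -- the other neighbour
    have hsum : ∑ a ∈ B.nbr P, N.e a K₁ = 3 := by
      rw [← hk3, ← B.sum_e_eq (hP hK₁)]
      refine Finset.sum_subset hNA fun a haA ha => ?_
      by_contra hne0
      exact ha (Finset.mem_filter.2 ⟨haA, K₁, hK₁, Nat.one_le_iff_ne_zero.2 hne0⟩)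
    rw [← Finset.add_sum_erase _ _ ha₀, he1] at hsum
    have hcard1 : ((B.nbr P).erase a₀).card = 1 := by
      rw [Finset.card_erase_of_mem ha₀, hcard2]
    obtain ⟨a₁, ha₁⟩ := Finset.card_eq_one.1 hcard1
    rw [ha₁, Finset.sum_singleton] at hsum
    have ha₁m : a₁ ∈ B.nbr P := by
      have : a₁ ∈ (B.nbr P).erase a₀ := by rw [ha₁]; simp
      exact Finset.mem_of_mem_erase this
    have hc1 := hcount a₁ ha₁m
    have h2' := hA a₁ ha₁m
    rw [hPs] at hc1 h2'
    simp only [Finset.sum_singleton] at hc1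
    omega

end Barrier

end OneFour
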