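import Pool.Agent.Lib.MP_39c6f6_co.Nbr

/-! # (6.4), common context and case A (job THETA-A) -/

set_option autoImplicit false

namespace OneFour

open Finset

variable {V : Type} [Fintype V] [DecidableEq V] {N : Net V}

/-- A minimal family with one three-leg piece and `|N(P)| = |P|+1`. -/
structure ThetaCtx (B : Barrier N) (P : Finset (Finset V)) : Prop where
  sub : P ⊆ B.D
  k35 : ∀ K ∈ P, B.k K = 3 ∨ B.k K = 5
  T1 : (P.filter fun K => B.k K = 3).card = 1
  card : (B.nbr P).card = P.card + 1
  min : ∀ Q ⊆ P, Q.Nonempty → Q ≠ P → Q.card + 2 ≤ (B.nbr Q).card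
  bd7 : (N.bd (B.nbr P ∪ P.biUnion id)).card = 7
  noAA : ∀ h : HE V, h.1 ∈ B.nbr P → (N.σ h).1 ∉ B.nbr P

namespace Barrier

variable (B : Barrier N)

theorem nbr_sub_A (P : Finset (Finset V)) : B.nbr P ⊆ B.A := Finset.filter_subset _ _

theorem bd_mem_nbr {P : Finset (Finset V)} (hP : P ⊆ B.D) {K : Finset V} (hK : K ∈ P) {h : HE V}
    (hh : h ∈ N.bd K) : h.1 ∈ B.nbr P := by
  rw [nbr, mem_filter]
  refine ⟨B.bd_mem_A (hP hK) hh, K, hK, ?_⟩
  rw [Net.e, Nat.one_le_iff_ne_zero, Ne, Finset.card_eq_zero, ← Ne, ← Finset.nonempty_iff_ne_empty]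
  refine ⟨h.2, ?_⟩
  simp only [mem_filter, mem_univ, true_and]
  exact (Net.mem_bd.1 hh).2

/-- The inner ends of the boundary half-edges of `N(P) ∪ ⋃ P` are at `N(P)`. -/
theorem bd_union_partner {P : Finset (Finset V)} (hP : P ⊆ B.D) {b : HE V}
    (hb : b ∈ N.bd (B.nbr P ∪ P.biUnion id)) : (N.σ b).1 ∈ B.nbr P := by
  rw [Net.mem_bd] at hb
  obtain ⟨h1, h2⟩ := hb
  rw [mem_union] at h2
  rcases h2 with h2 | h2
  · exact h2
  · exfalso
    simp only [mem_biUnion, id] at h2
    obtain ⟨K, hK, hK2⟩ := h2
    apply h1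
    rw [mem_union]
    left
    apply B.bd_mem_nbr hP hK (h := b)
    rw [Net.mem_bd]
    exact ⟨fun h3 => h1 (mem_union_right _ (mem_biUnion.2 ⟨K, hK, h3⟩)), hK2⟩

/-- Gluing for the pattern true exactly on `Z`. -/
theorem theta_glue {P : Finset (Finset V)} (hP : ThetaCtx B P) {Z : Finset (HE V)}
    (hZ : Z ⊆ N.bd (B.nbr P ∪ P.biUnion id)) {F : Finset (HE V)}
    (hF : ∀ h ∈ F, h.1 ∈ B.nbr P ∧ ∃ K ∈ P, h ∈ N.bd K)
    (hFa : ∀ a ∈ B.nbr P,
      (F.filter fun h => h.1 = a).card + (Z.filter fun h => (N.σ h).1 = a).card = 1 ∨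
      (F.filter fun h => h.1 = a).card + (Z.filter fun h => (N.σ h).1 = a).card = 4)
    (hFK : ∀ K ∈ P, (N.bd K ∩ F).card = 1 ∨ (N.bd K ∩ F).card + 1 = B.k K) :
    N.Real (B.nbr P ∪ P.biUnion id) (fun h => decide (h ∈ Z)) := by
  have hX := B.nbr_sub_A P
  have hZout : ∀ z ∈ Z, ∀ K ∈ P, z.1 ∉ K := by
    intro z hz K hK hzK
    exact (Net.mem_bd.1 (hZ hz)).1 (mem_union_right _ (mem_biUnion.2 ⟨K, hK, hzK⟩))
  apply B.glue hX hP.sub (u := fun h => decide (h ∈ F ∨ N.σ h ∈ Z))
  · intro a ha
    have key : deg (fun h => decide (h ∈ F ∨ N.σ h ∈ Z)) a =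
        (F.filter fun h => h.1 = a).card + (Z.filter fun h => (N.σ h).1 = a).card := by
      have e1 : deg (fun h => decide (h ∈ F ∨ N.σ h ∈ Z)) a =
          (univ.filter fun h : HE V => h.1 = a ∧ (h ∈ F ∨ N.σ h ∈ Z)).card := by
        rw [deg]
        refine Finset.card_bij (fun i _ => (a, i)) ?_ ?_ ?_
        · intro i hi
          simp only [mem_filter, mem_univ, true_and, decide_eq_true_eq] at hi ⊢
          exact hi
        · intro i _ j _ hij
          exact (Prod.mk.inj hij).2
        · rintro ⟨v, i⟩ hv
          simp only [mem_filter, mem_univ, true_and] at hv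
          obtain ⟨rfl, hv⟩ := hv
          refine ⟨i, ?_, rfl⟩
          simp only [mem_filter, mem_univ, true_and, decide_eq_true_eq]
          exact hv
      have e2 : (univ.filter fun h : HE V => h.1 = a ∧ (h ∈ F ∨ N.σ h ∈ Z)) =
          (F.filter fun h => h.1 = a) ∪ ((Z.filter fun h => (N.σ h).1 = a).image N.σ) := by
        ext h
        simp only [mem_filter, mem_univ, true_and, mem_union, mem_image]
        constructor
        · rintro ⟨h1, h2 | h2⟩
          · left
            exact ⟨h2, h1⟩
          · right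
            refine ⟨N.σ h, ⟨h2, ?_⟩, N.invol h⟩
            rw [N.invol]
            exact h1
        · rintro (⟨h1, h2⟩ | ⟨z, ⟨hz, hz'⟩, rfl⟩)
          · exact ⟨h2, Or.inl h1⟩
          · refine ⟨hz', Or.inr ?_⟩
            rw [N.invol]
            exact hz
      have hinj : Function.Injective N.σ := by
        intro x y hxy
        rw [← N.invol x, ← N.invol y, hxy]
      rw [e1, e2, card_union_of_disjoint, card_image_of_injective _ hinj]
      rw [Finset.disjoint_left]
      intro h h1 h2
      rw [mem_filter] at h1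
      rw [mem_image] at h2
      obtain ⟨z, hz, rfl⟩ := h2
      rw [mem_filter] at hz
      obtain ⟨K, hK, hKb⟩ := (hF _ h1.1).2
      have := (Net.mem_bd.1 hKb).2
      rw [N.invol] at this
      exact hZout z hz.1 K hK this
    rcases hFa a ha with h | h
    · left
      rw [key]
      exact h
    · right
      rw [key]
      exact h
  · intro h h1 h2
    exact absurd h2 (hP.noAA h h1)
  · intro b hb hb'
    have h1 : N.σ b ∉ F := by
      intro h2
      obtain ⟨K, hK, hKb⟩ := (hF _ h2).2
      have := (Net.mem_bd.1 hKb).2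
      rw [N.invol] at this
      exact (Net.mem_bd.1 hb).1 (mem_union_right _ (mem_biUnion.2 ⟨K, hK, this⟩))
    simp only [h1, false_or, N.invol]
  · intro K hK
    have hset : ∀ h ∈ N.bd K,
        ((if h.1 ∈ B.nbr P then decide (h ∈ F ∨ N.σ h ∈ Z) else decide (h ∈ Z)) = true ↔
          h ∈ F) := by
      intro h hh
      rw [if_pos (B.bd_mem_nbr hP.sub hK hh), decide_eq_true_eq]
      constructor
      · rintro (h1 | h1)
        · exact h1
        · exact absurd (Net.mem_bd.1 hh).2 (hZout _ h1 K hK)
      · exact Or.inl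
    have hT : ((N.bd K).filter fun h =>
        (if h.1 ∈ B.nbr P then decide (h ∈ F ∨ N.σ h ∈ Z) else decide (h ∈ Z)) = true) =
        N.bd K ∩ F := by
      ext h
      rw [mem_filter, mem_inter]
      constructor
      · rintro ⟨h1, h2⟩
        exact ⟨h1, (hset h h1).1 h2⟩
      · rintro ⟨h1, h2⟩
        exact ⟨h1, (hset h h1).2 h2⟩
    rcases hFK K hK with h | h
    · left
      rw [hT]
      exact h
    · right
      have h2 := Finset.card_filter_add_card_filter_not (s := N.bd K) (fun h =>
        (if h.1 ∈ B.nbr P then decide (h ∈ F ∨ N.σ h ∈ Z) else decide (h ∈ Z)) = true)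
      rw [hT] at h2
      have h3 : B.k K = (N.bd K).card := rfl
      simp only [Bool.not_eq_true] at h2
      omega

/-- Legs with prescribed degrees, the piece with three legs owned twice. -/
theorem theta_legs {P : Finset (Finset V)} (hP : ThetaCtx B P) (f : V → ℕ)
    (hf : ∀ a ∈ B.nbr P, f a ≤ ∑ K ∈ P, N.e a K)
    (hf0 : ((B.nbr P).filter fun a => f a = 0).card ≤ 1)
    (hsum : ∑ a ∈ B.nbr P, f a = (B.nbr P).card) :
    ∃ F : Finset (HE V), (∀ h ∈ F, h.1 ∈ B.nbr P ∧ ∃ K ∈ P, h ∈ N.bd K) ∧
      (∀ a ∈ B.nbr P, (F.filter fun h => h.1 = a).card = f a) ∧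
      ∀ K ∈ P, (N.bd K ∩ F).card = 1 ∨ (N.bd K ∩ F).card + 1 = B.k K := by
  have hg : ∀ P' : Finset (Finset V), ∑ K ∈ P', (if B.k K = 3 then 2 else 1) =
      P'.card + (P'.filter fun K => B.k K = 3).card := by
    intro P'
    rw [Finset.card_filter, Finset.card_eq_sum_ones, ← Finset.sum_add_distrib]
    apply Finset.sum_congr rfl
    intro K _
    split_ifs <;> rfl
  obtain ⟨F, h1, h2, h3⟩ := B.exists_legs_D (B.nbr_sub_A P) hP.sub f
    (fun K => if B.k K = 3 then 2 else 1) (by rw [hsum, hg, hP.T1, hP.card]) (by
      intro P' hP'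
      rw [hg]
      have hT : (P'.filter fun K => B.k K = 3).card ≤ 1 := by
        rw [← hP.T1]
        exact Finset.card_le_card (Finset.filter_subset_filter _ hP')
      rcases Finset.eq_empty_or_nonempty P' with rfl | hne
      · simp
      · by_cases hPP : P' = P
        · subst hPP
          rw [hP.T1, ← hP.card, ← hsum]
          apply Finset.sum_le_sum
          intro a ha
          exact le_min le_rfl (hf a ha)
        · have h4 := hP.min P' hP' hne hPP
          have h5 : B.nbr P' ⊆ B.nbr P := by
            intro a ha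
            rw [nbr, mem_filter] at ha ⊢
            obtain ⟨ha1, K, hK, ha2⟩ := ha
            exact ⟨ha1, K, hP' hK, ha2⟩
          have h6 : ((B.nbr P').filter fun a => f a = 0).card ≤ 1 :=
            (Finset.card_le_card (Finset.filter_subset_filter _ h5)).trans hf0
          have h7 := Finset.card_filter_add_card_filter_not (s := B.nbr P') (fun a => f a = 0)
          have h8 : ((B.nbr P').filter fun a => ¬ f a = 0).card ≤
              ∑ a ∈ B.nbr P, Min.min (f a) (∑ K ∈ P', N.e a K) := by
            rw [Finset.card_eq_sum_ones]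
            calc ∑ a ∈ (B.nbr P').filter (fun a => ¬ f a = 0), 1
                ≤ ∑ a ∈ (B.nbr P').filter (fun a => ¬ f a = 0),
                  Min.min (f a) (∑ K ∈ P', N.e a K) := by
                  apply Finset.sum_le_sum
                  intro a ha
                  rw [mem_filter] at ha
                  obtain ⟨ha1, ha2⟩ := ha
                  rw [nbr, mem_filter] at ha1
                  obtain ⟨_, K, hK, hKe⟩ := ha1
                  apply le_min
                  · exact Nat.one_le_iff_ne_zero.2 ha2
                  · exact hKe.trans (Finset.single_le_sum (f := fun K => N.e a K)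
                      (fun _ _ => Nat.zero_le _) hK)
              _ ≤ _ := Finset.sum_le_sum_of_subset ((Finset.filter_subset _ _).trans h5)
          omega)
  refine ⟨F, h1, h2, ?_⟩
  intro K hK
  have h4 := h3 K hK
  by_cases h5 : B.k K = 3
  · right
    rw [h4, if_pos h5, h5]
  · left
    rw [h4, if_neg h5]

/-- Case A: some `a₀` has two or three outer legs. -/
theorem theta_A (hN : MinCx N) {P : Finset (Finset V)} (hP : ThetaCtx B P) {a₀ : V}
    (ha : a₀ ∈ B.nbr P) (ho : B.out {a₀} P = 2 ∨ B.out {a₀} P = 3) : False := by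
  classical
  -- basic facts
  have hne : P.Nonempty := by
    by_contra h
    rw [Finset.not_nonempty_iff_eq_empty] at h
    have := hP.T1
    rw [h] at this
    simp at this
  have hS2 : 2 ≤ (B.nbr P ∪ P.biUnion id).card := by
    have h1 : (B.nbr P).card ≤ (B.nbr P ∪ P.biUnion id).card :=
      Finset.card_le_card Finset.subset_union_left
    have h2 := hP.card
    have h3 := Finset.card_pos.2 hne
    omega
  have h3K : ∀ K ∈ P, 3 ≤ B.k K := by
    intro K hK
    rcases hP.k35 K hK with h | h <;> omega
  -- counting at `a₀`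
  have ha1 : ({a₀} : Finset V) ⊆ B.A := by
    intro a h
    rw [mem_singleton] at h
    subst h
    exact B.nbr_sub_A P ha
  have hcount := B.out_add_sum_e ha1 hP.sub
  simp only [Finset.sum_singleton, Finset.card_singleton, mul_one] at hcount
  have hinj : Function.Injective N.σ := by
    intro x y hxy
    rw [← N.invol x, ← N.invol y, hxy]
  -- two outer half-edges
  have h1lt : 1 < (univ.filter fun h : HE V => h.1 ∈ ({a₀} : Finset V) ∧
      (N.σ h).1 ∉ P.biUnion id).card := by
    have : B.out {a₀} P = (univ.filter fun h : HE V => h.1 ∈ ({a₀} : Finset V) ∧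
      (N.σ h).1 ∉ P.biUnion id).card := rfl
    omega
  obtain ⟨x, hx, y, hy, hxy⟩ := Finset.one_lt_card.1 h1lt
  simp only [mem_filter, mem_univ, true_and, mem_singleton] at hx hy
  have hbd : ∀ z : HE V, z.1 = a₀ → (N.σ z).1 ∉ P.biUnion id →
      N.σ z ∈ N.bd (B.nbr P ∪ P.biUnion id) := by
    intro z hz hz'
    rw [Net.mem_bd, mem_union, N.invol]
    refine ⟨?_, mem_union_left _ (hz ▸ ha)⟩
    rintro (h | h)
    · exact hP.noAA z (hz ▸ ha) h
    · exact hz' h
  have hp := hbd x hx.1 hx.2
  have hq := hbd y hy.1 hy.2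
  have hpq : N.σ x ≠ N.σ y := fun h => hxy (hinj h)
  refine hN.VE_contract hS2 hP.bd7 hp hq hpq ?_ ?_
  · intro b hb _ _
    exact B.real_single hN hP.sub hne h3K hP.T1.le hP.card hb
  · intro b hb hbp hbq
    have hb' := B.bd_union_partner hP.sub hb
    -- the labels at `X`
    set a₁ := (N.σ b).1 with ha₁
    let f : V → ℕ := fun a => if a₁ = a₀ then 1 else if a = a₀ then 2 else if a = a₁ then 0 else 1
    have hZ : ({b, N.σ x, N.σ y} : Finset (HE V)) ⊆ N.bd (B.nbr P ∪ P.biUnion id) := by
      intro z hz
      simp only [mem_insert, mem_singleton] at hz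
      rcases hz with rfl | rfl | rfl
      · exact hb
      · exact hp
      · exact hq
    have hpos : ∀ a ∈ B.nbr P, 1 ≤ ∑ K ∈ P, N.e a K := by
      intro a h
      rw [nbr, mem_filter] at h
      obtain ⟨_, K, hK, hKe⟩ := h
      exact hKe.trans (Finset.single_le_sum (f := fun K => N.e a K)
                      (fun _ _ => Nat.zero_le _) hK)
    obtain ⟨F, hF1, hF2, hF3⟩ := B.theta_legs hP f (by
      intro a h
      have h1 := hpos a h
      simp only [f]
      split_ifs with c1 c2 c3
      · exact h1
      · subst c2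
        omega
      · omega
      · exact h1) (by
      rw [Finset.card_le_one]
      intro a h a' h'
      simp only [mem_filter, f] at h h'
      have e1 : a = a₁ := by
        have := h.2
        split_ifs at this with c1 c2 c3
        exact c3
      have e2 : a' = a₁ := by
        have := h'.2
        split_ifs at this with c1 c2 c3
        exact c3
      rw [e1, e2]) (by
      by_cases c : a₁ = a₀
      · simp [f, c]
      · have e1 : ∑ a ∈ B.nbr P, f a + ∑ a ∈ B.nbr P, (if a = a₁ then 1 else 0) =
            ∑ a ∈ B.nbr P, (1 + if a = a₀ then 1 else 0) := by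
          rw [← Finset.sum_add_distrib]
          apply Finset.sum_congr rfl
          intro a _
          simp only [f, if_neg c]
          by_cases c1 : a = a₀
          · have c2 : a ≠ a₁ := fun h => c (h.symm.trans c1)
            simp [c1, (Ne.symm c : a₀ ≠ a₁)]
          · by_cases c2 : a = a₁
            · simp [c2, c]
            · simp [c1, c2]
        rw [Finset.sum_add_distrib, Finset.sum_ite_eq', Finset.sum_ite_eq', if_pos hb',
          if_pos ha, ← Finset.card_eq_sum_ones] at e1
        omega)
    have hR := B.theta_glue hP hZ hF1 (by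
      intro a h
      rw [hF2 a h]
      -- the number of boundary half-edges at `a`
      have hZc : ((({b, N.σ x, N.σ y} : Finset (HE V)).filter fun h => (N.σ h).1 = a)).card =
          (if a₁ = a then 1 else 0) + (if a₀ = a then 2 else 0) := by
        rw [Finset.card_filter, Finset.sum_insert, Finset.sum_insert, Finset.sum_singleton,
          N.invol, N.invol, hx.1, hy.1]
        · split_ifs <;> rfl
        · rw [mem_singleton]
          exact hpq
        · simp only [mem_insert, mem_singleton, not_or]
          exact ⟨hbp, hbq⟩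
      rw [hZc]
      simp only [f]
      by_cases c : a₁ = a₀
      · by_cases c1 : a₀ = a
        · right
          simp [c, c1]
        · left
          simp [c, c1]
      · by_cases c1 : a₀ = a
        · right
          subst c1
          simp [c]
        · by_cases c2 : a₁ = a
          · left
            subst c2
            simp [c, c1]
          · left
            simp [c, c1, c2, (Ne.symm c1 : a ≠ a₀), (Ne.symm c2 : a ≠ a₁)]) hF3
    refine hR.congr ?_
    intro z _
    simp only [mem_insert, mem_singleton]

end Barrier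

end OneFour
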