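import Pool.Agent.Lib.MP_39c6f6_co.Basic

/-! # Tutte's theorem for nets -/

set_option autoImplicit false

namespace OneFour

open Finset

variable {V : Type} [Fintype V] [DecidableEq V]

/-- The simple graph under a net. -/
def Net.sg (N : Net V) : SimpleGraph V where
  Adj u v := u ≠ v ∧ ∃ i, (N.σ (u, i)).1 = v
  symm := ⟨by
    rintro u v ⟨h, i, hi⟩
    refine ⟨h.symm, (N.σ (u, i)).2, ?_⟩
    have : (v, (N.σ (u, i)).2) = N.σ (u, i) := by rw [← hi]
    rw [this, N.invol]⟩
  loopless := ⟨fun u h => h.1 rfl⟩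

private theorem tutte_match (N : Net V) (S : Finset V)
    (hM : ∃ M : (N.sg.induce (S : Set V)).Subgraph, M.IsPerfectMatching) :
    ∃ M : Finset (HE V), (∀ h ∈ M, h.1 ∈ S ∧ N.σ h ∈ M) ∧
      ∀ u ∈ S, (M.filter fun h => h.1 = u).card = 1 := by
  classical
  obtain ⟨M, hM, hsp⟩ := hM
  have hex : ∀ e : M.edgeSet, ∃ h : HE V, s(h.1, (N.σ h).1) = Sym2.map (fun x => x.1) e.1 := by
    rintro ⟨e, he⟩
    induction e using Sym2.ind with
    | _ x y =>
      have hadj : M.Adj x y := he
      have h1 := M.adj_sub hadj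
      have h2 : N.sg.Adj x.1 y.1 := h1
      obtain ⟨-, i, hi⟩ := h2
      refine ⟨(x.1, i), ?_⟩
      simp [hi]
  choose f hf using hex
  refine ⟨univ.filter fun h => ∃ e : M.edgeSet, h = f e ∨ h = N.σ (f e), ?_, ?_⟩
  · intro h hh
    simp only [mem_filter, mem_univ, true_and] at hh ⊢
    obtain ⟨e, he⟩ := hh
    have hmem : ∀ v : V, v ∈ s((f e).1, (N.σ (f e)).1) → v ∈ S := by
      intro v hv
      rw [hf e, Sym2.mem_map] at hv
      obtain ⟨x, -, rfl⟩ := hv
      exact x.2
    refine ⟨?_, e, ?_⟩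
    · rcases he with rfl | rfl
      · exact hmem _ (Sym2.mem_mk_left _ _)
      · exact hmem _ (Sym2.mem_mk_right _ _)
    · rcases he with rfl | rfl
      · exact Or.inr rfl
      · left
        exact N.invol _
  · intro u hu
    obtain ⟨w, hw, huniq⟩ := hM (hsp ⟨u, hu⟩)
    have hwne : w.1 ≠ u := by
      intro h
      have h1 := M.adj_sub hw
      have h2 : N.sg.Adj u w.1 := h1
      exact h2.1 h.symm
    set e : M.edgeSet := ⟨s(⟨u, hu⟩, w), hw⟩ with he
    have hfe : s((f e).1, (N.σ (f e)).1) = s(u, w.1) := by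
      rw [hf e, he]
      simp
    have hkey : ∀ e' : M.edgeSet, u ∈ s((f e').1, (N.σ (f e')).1) → e' = e := by
      rintro ⟨e', he'⟩ hmem
      rw [hf] at hmem
      induction e' using Sym2.ind with
      | _ x y =>
        have hadj : M.Adj x y := he'
        simp only [Sym2.map_mk, Sym2.mem_iff] at hmem
        rw [he]
        apply Subtype.ext
        show s(x, y) = s(⟨u, hu⟩, w)
        rcases hmem with h | h
        · have hx : x = ⟨u, hu⟩ := Subtype.ext h.symm
          subst hx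
          rw [huniq y hadj]
        · have hy : y = ⟨u, hu⟩ := Subtype.ext h.symm
          subst hy
          rw [huniq x hadj.symm, Sym2.eq_swap]
    rw [Sym2.eq_iff] at hfe
    rcases hfe with ⟨h1, h2⟩ | ⟨h1, h2⟩
    · rw [card_eq_one]
      refine ⟨f e, ?_⟩
      ext h
      simp only [mem_filter, mem_univ, true_and, mem_singleton]
      constructor
      · rintro ⟨⟨e', he'⟩, hh⟩
        rcases he' with rfl | rfl
        · rw [hkey e' (by rw [← hh]; exact Sym2.mem_mk_left _ _)]
        · have := hkey e' (by rw [← hh]; exact Sym2.mem_mk_right _ _)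
          subst this
          exact absurd (h2.symm.trans hh) hwne
      · rintro rfl
        exact ⟨⟨e, Or.inl rfl⟩, h1⟩
    · rw [card_eq_one]
      refine ⟨N.σ (f e), ?_⟩
      ext h
      simp only [mem_filter, mem_univ, true_and, mem_singleton]
      constructor
      · rintro ⟨⟨e', he'⟩, hh⟩
        rcases he' with rfl | rfl
        · have := hkey e' (by rw [← hh]; exact Sym2.mem_mk_left _ _)
          subst this
          exact absurd (h1.symm.trans hh) hwne
        · rw [hkey e' (by rw [← hh]; exact Sym2.mem_mk_right _ _)]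
      · rintro rfl
        exact ⟨⟨e, Or.inr rfl⟩, h2⟩

/-- Tutte's theorem in the form used: if the subgraph induced on `S` has no perfect matching
(in the half-edge form) then there are `T ⊆ S` and more than `|T|` disjoint odd subsets of
`S \ T`, each closed under adjacency inside `S \ T`. -/
theorem Net.tutte (N : Net V) (S : Finset V)
    (hno : ¬ ∃ M : Finset (HE V), (∀ h ∈ M, h.1 ∈ S ∧ N.σ h ∈ M) ∧
      ∀ u ∈ S, (M.filter fun h => h.1 = u).card = 1) :
    ∃ T ⊆ S, ∃ C : Finset (Finset V), T.card < C.card ∧ (∀ K ∈ C, K ⊆ S \ T) ∧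
      (∀ K ∈ C, Odd K.card) ∧ (∀ K ∈ C, ∀ L ∈ C, K ≠ L → Disjoint K L) ∧
      ∀ K ∈ C, ∀ h : HE V, h.1 ∈ K → (N.σ h).1 ∈ S \ T → (N.σ h).1 ∈ K := by
  classical
  have h1 : ¬ ∃ M : (N.sg.induce (S : Set V)).Subgraph, M.IsPerfectMatching :=
    fun h => hno (tutte_match N S h)
  rw [SimpleGraph.tutte] at h1
  push Not at h1
  obtain ⟨u, hu⟩ := h1
  unfold SimpleGraph.IsTutteViolator at hu
  set G := N.sg.induce (S : Set V) with hG
  set H := ((⊤ : G.Subgraph).deleteVerts u) with hH
  have hHv : ∀ y : (S : Set V), y ∈ H.verts ↔ y ∉ u := by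
    intro y
    rw [hH, SimpleGraph.Subgraph.deleteVerts_verts]
    simp
  have hHa : ∀ x y : (S : Set V), x ∉ u → y ∉ u → G.Adj x y → H.Adj x y := by
    intro x y hx hy hxy
    rw [hH, SimpleGraph.Subgraph.deleteVerts_adj]
    exact ⟨trivial, hx, trivial, hy, hxy⟩
  have hinj : Function.Injective (fun x : H.verts => (x.1.1 : V)) := by
    intro x y h
    exact Subtype.ext (Subtype.ext h)
  set T : Finset V := u.toFinset.image (fun x => x.1) with hT
  set Kf : H.coe.ConnectedComponent → Finset V :=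
    fun c => c.supp.toFinset.image (fun x => x.1.1) with hKf
  have hKmem : ∀ c v, v ∈ Kf c ↔ ∃ x ∈ c.supp, x.1.1 = v := by
    intro c v
    simp [hKf]
  have hKinj : Function.Injective Kf := by
    intro c d hcd
    apply SimpleGraph.ConnectedComponent.supp_injective
    ext x
    constructor
    · intro hx
      have : x.1.1 ∈ Kf d := by
        rw [← hcd, hKmem]
        exact ⟨x, hx, rfl⟩
      rw [hKmem] at this
      obtain ⟨y, hy, hyx⟩ := this
      rw [← hinj hyx]
      exact hy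
    · intro hx
      have : x.1.1 ∈ Kf c := by
        rw [hcd, hKmem]
        exact ⟨x, hx, rfl⟩
      rw [hKmem] at this
      obtain ⟨y, hy, hyx⟩ := this
      rw [← hinj hyx]
      exact hy
  have hsT : ∀ x : H.verts, x.1.1 ∈ S \ T := by
    intro x
    rw [mem_sdiff]
    refine ⟨x.1.2, ?_⟩
    intro hx
    rw [hT, mem_image] at hx
    obtain ⟨y, hy, hyx⟩ := hx
    rw [Set.mem_toFinset] at hy
    have h2 : x.1 ∉ u := (hHv _).mp x.2
    apply h2
    rwa [← Subtype.ext hyx]
  refine ⟨T, ?_, (H.coe.oddComponents.toFinset).image Kf, ?_, ?_, ?_, ?_, ?_⟩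
  · intro v hv
    rw [hT, mem_image] at hv
    obtain ⟨y, -, rfl⟩ := hv
    exact y.2
  · rw [card_image_of_injective _ hKinj, ← Set.ncard_eq_toFinset_card']
    refine lt_of_le_of_lt ?_ hu
    rw [hT, Set.ncard_eq_toFinset_card']
    exact card_image_le
  · intro K hK v hv
    rw [mem_image] at hK
    obtain ⟨c, -, rfl⟩ := hK
    rw [hKmem] at hv
    obtain ⟨x, -, rfl⟩ := hv
    exact hsT x
  · intro K hK
    rw [mem_image] at hK
    obtain ⟨c, hc, rfl⟩ := hK
    rw [Set.mem_toFinset] at hc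
    have h3 : Odd c.supp.ncard := hc
    rw [Set.ncard_eq_toFinset_card'] at h3
    rw [hKf]
    simp only
    rwa [card_image_of_injective _ hinj]
  · intro K hK L hL hne
    rw [mem_image] at hK hL
    obtain ⟨c, -, rfl⟩ := hK
    obtain ⟨d, -, rfl⟩ := hL
    rw [Finset.disjoint_left]
    intro v hv hv'
    rw [hKmem] at hv hv'
    obtain ⟨x, hx, rfl⟩ := hv
    obtain ⟨y, hy, hyx⟩ := hv'
    rw [hinj hyx] at hy
    apply hne
    rw [SimpleGraph.ConnectedComponent.mem_supp_iff] at hx hy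
    rw [← hx, ← hy]
  · intro K hK h hh hσ
    rw [mem_image] at hK
    obtain ⟨c, -, rfl⟩ := hK
    rw [hKmem] at hh ⊢
    obtain ⟨x, hx, hxh⟩ := hh
    have hσS : (N.σ h).1 ∈ S := (mem_sdiff.mp hσ).1
    have hσu : (⟨(N.σ h).1, hσS⟩ : (S : Set V)) ∉ u := by
      intro hc
      apply (mem_sdiff.mp hσ).2
      rw [hT, mem_image]
      exact ⟨_, Set.mem_toFinset.mpr hc, rfl⟩
    have hyv : (⟨(N.σ h).1, hσS⟩ : (S : Set V)) ∈ H.verts := (hHv _).mpr hσu
    refine ⟨⟨⟨(N.σ h).1, hσS⟩, hyv⟩, ?_, rfl⟩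
    by_cases heq : (N.σ h).1 = h.1
    · have : (⟨⟨(N.σ h).1, hσS⟩, hyv⟩ : H.verts) = x := by
        apply hinj
        show (N.σ h).1 = x.1.1
        rw [heq, hxh]
      rw [this]
      exact hx
    · have hadj : H.coe.Adj x ⟨⟨(N.σ h).1, hσS⟩, hyv⟩ := by
        rw [SimpleGraph.Subgraph.coe_adj]
        apply hHa _ _ ((hHv _).mp x.2) hσu
        show N.sg.Adj x.1.1 (N.σ h).1
        rw [hxh]
        exact ⟨fun h' => heq h'.symm, h.2, rfl⟩
      rw [SimpleGraph.ConnectedComponent.mem_supp_iff] at hx ⊢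
      rw [← hx]
      exact (SimpleGraph.ConnectedComponent.sound hadj.reachable).symm

end OneFour
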